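import Pool.Agent.R763.PL.Stm

set_option autoImplicit false

open MeasureTheory UnitAddTorus Filter Topology
open scoped ENNReal Real

namespace Pool.Agent.R763.PL

theorem asmF (d : ℕ) (hLOW : S_LOW d) (hUPP : S_UPP d) (hEXR : S_EXR d)
    (hEXT : S_EXT d) : cOpt d = ENNReal.ofReal (2 * c1 d) := by
  have hc1 : 0 ≤ c1 d := by unfold c1; positivity
  apply le_antisymm
  · have key : ∀ ε : ℝ, 0 < ε →
        cOpt d ≤ ENNReal.ofReal (2 * (c1 d + ε) + 4 * ε * (c1 d + ε + 1)) := by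
      intro ε hε
      obtain ⟨H, hH1, hH2, hH3, hQ0, hD0⟩ := hEXR ε hε
      set Q0 := ∫ x, ∑ i, pd i H x ^ 2 with hQ0def
      set D0 := ∫ x, (1 - lapR H x) * ∑ i, pd i H x ^ 2 with hD0def
      have he2 : 0 < min (Q0 / 2) (ε * Q0) := lt_min (by linarith) (by positivity)
      obtain ⟨c, hc, hc1', hcQ, hcD⟩ := hEXT H hH1 hH2 hH3 _ he2
      obtain ⟨hprob, hF, hS⟩ := hUPP c hc hc1'
      set Q := ∫ x, ∑ i, evd c i x ^ 2 ∂vol d with hQdef
      set D := ∫ x, (1 - evl c x) * ∑ i, evd c i x ^ 2 ∂vol d with hDdef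
      have h1 : min (Q0 / 2) (ε * Q0) ≤ Q0 / 2 := min_le_left _ _
      have h2 : min (Q0 / 2) (ε * Q0) ≤ ε * Q0 := min_le_right _ _
      have hQ1 : Q0 / 2 < Q := by
        have := (abs_lt.1 hcQ).1
        linarith
      have hQpos : 0 < Q := by linarith
      have hQ2 : Q0 ≤ Q + ε * Q0 := by
        have := (abs_lt.1 hcQ).1
        linarith
      have hD1 : D ≤ (c1 d + ε) * Q0 + ε * Q0 := by
        have := (abs_lt.1 hcD).2
        linarith
      have hFpos : 0 < (1 / 2) * Q := by positivity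
      let ρ : {ρ : Measure (T d) // IsProbabilityMeasure ρ ∧ 0 < F ρ ∧ F ρ < ⊤} :=
        ⟨(vol d).withDensity (fun x => ENNReal.ofReal (1 - evl c x)), hprob, by
          rw [hF]; exact ENNReal.ofReal_pos.2 hFpos, by rw [hF]; exact ENNReal.ofReal_lt_top⟩
      refine (iInf_le _ ρ).trans ?_
      show slope ρ.1 ^ 2 / F ρ.1 ≤ _
      have hF' : F ρ.1 = ENNReal.ofReal ((1 / 2) * Q) := hF
      have hS' : slope ρ.1 ^ 2 ≤ ENNReal.ofReal D := hS
      rw [hF']
      refine ENNReal.div_le_of_le_mul (hS'.trans ?_)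
      rw [← ENNReal.ofReal_mul (by positivity)]
      apply ENNReal.ofReal_le_ofReal
      have h3 : ε * Q0 ≤ 2 * ε * Q := by nlinarith
      have h4 : (c1 d + ε) * Q0 ≤ (c1 d + ε) * (Q + 2 * ε * Q) :=
        mul_le_mul_of_nonneg_left (by linarith) (by positivity)
      nlinarith
    have hlim : Tendsto (fun ε : ℝ => ENNReal.ofReal (2 * (c1 d + ε) + 4 * ε * (c1 d + ε + 1)))
        (𝓝[>] 0) (𝓝 (ENNReal.ofReal (2 * c1 d))) := by
      apply ENNReal.tendsto_ofReal
      have : ContinuousAt (fun ε : ℝ => 2 * (c1 d + ε) + 4 * ε * (c1 d + ε + 1)) 0 := by fun_prop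
      have h2 := this.tendsto
      simp only [add_zero, mul_zero, zero_mul] at h2
      exact h2.mono_left nhdsWithin_le_nhds
    refine ge_of_tendsto hlim ?_
    filter_upwards [self_mem_nhdsWithin] with ε hε
    exact key ε hε
  · refine le_iInf ?_
    rintro ⟨ρ, hρ, hF0, hF1⟩
    show _ ≤ slope ρ ^ 2 / F ρ
    rw [ENNReal.le_div_iff_mul_le (Or.inl hF0.ne') (Or.inl hF1.ne)]
    exact hLOW ρ hρ hF1

end Pool.Agent.R763.PL
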