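import Pool.Agent.R763.PL.Stm

set_option autoImplicit false

open MeasureTheory UnitAddTorus Filter Topology
open scoped ENNReal Real

namespace Pool.Agent.R763.PL

/-- assembly of the inequality for densities -/
theorem asmP (d : ℕ) (hMIN : S_MIN d) (hEXI : S_EXI d) (hKKT : S_KKT d) (hBOC : S_BOC d)
    (hTES : S_TES d) : S_PL d := by
  have key : ∀ δ : ℝ, 0 < δ → ∀ (ρ : T d → ℝ) (v : Fin d → T d → ℝ), Adm ρ → Grad ρ v →
      0 ≤ Jd δ ρ v := by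
    intro δ hδ ρ v hρ hv
    obtain ⟨ρ₀, v₀, hρ₀, hv₀, hmin⟩ := hMIN δ hδ
    obtain ⟨-, ⟨h, hh⟩, hφ⟩ := hEXI ρ₀ hρ₀.mem
    obtain ⟨φ, hφ⟩ := hφ v₀ hv₀
    obtain ⟨l, hl, hJ⟩ := hKKT δ ρ₀ v₀ h φ hδ hρ₀ hv₀ hh hφ hmin
    have hB := hBOC ρ₀ v₀ h φ hρ₀.mem hρ₀.mass hv₀ hh hφ
    have hT := hTES ρ₀ v₀ h φ l hρ₀ hv₀ hh hφ hB hl
    have h1 := hmin ρ v hρ hv
    nlinarith
  intro ρ v hρ hv
  by_contra hcon
  push Not at hcon
  set D := ∫ x, ρ x * ∑ i, v i x ^ 2 ∂vol d with hD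
  set Q := ∫ x, ∑ i, v i x ^ 2 ∂vol d with hQ
  set R := ∫ x, ρ x ^ 3 ∂vol d with hR
  have hk : ∀ δ : ℝ, 0 < δ → 0 ≤ D - c1 d * Q + δ * R := by
    intro δ hδ
    have := key δ hδ ρ v hρ hv
    unfold Jd at this
    exact this
  have hpos : 0 < c1 d * Q - D := by linarith
  rcases le_or_gt R 0 with hR0 | hR0
  · have := hk 1 one_pos
    nlinarith
  · have := hk ((c1 d * Q - D) / (2 * R)) (by positivity)
    have h2 : (c1 d * Q - D) / (2 * R) * R = (c1 d * Q - D) / 2 := by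
      field_simp
    rw [h2] at this
    linarith

end Pool.Agent.R763.PL
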