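import Pool.Agent.R763.PL.Stm

/-!
Project PL (MP_91511c_an), piece BOC (helper711): the Bochner inequality for densities in `L³`, from
the one for trigonometric polynomials, by smoothing.
-/

set_option autoImplicit false

open MeasureTheory UnitAddTorus Filter Topology
open scoped ENNReal Real ContDiff ComplexConjugate

namespace Pool.Agent.R763.PL.BOC

variable {d : ℕ}

instance instProb : IsProbabilityMeasure (vol d) := by unfold vol; infer_instance

theorem conj_mF (k : Fin d → ℤ) (x : T d) : conj (mFourier k x) = mFourier (-k) x :=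
  mFourier_neg.symm

/-- integrals against trigonometric polynomials -/
theorem star (f : T d → ℝ) (hf : Integrable f (vol d)) (s : Finset (Fin d → ℤ))
    (b : (Fin d → ℤ) → ℂ) :
    ∫ y, f y * (∑ k ∈ s, b k * mFourier k y).re ∂vol d = (∑ k ∈ s, conj (b k) * fc f k).re := by
  have hi : ∀ k : Fin d → ℤ, Integrable (fun y : T d => mFourier (-k) y * (f y : ℂ)) (vol d) := by
    intro k
    refine Integrable.bdd_mul (c := 1) hf.ofReal (mFourier (-k)).continuous.aestronglyMeasurable
      (Eventually.of_forall fun y => ?_)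
    exact ((mFourier (-k)).norm_coe_le_norm y).trans mFourier_norm.le
  have h1 : (∑ k ∈ s, conj (b k) * fc f k) =
      ∫ y, ∑ k ∈ s, conj (b k) * (mFourier (-k) y * (f y : ℂ)) ∂vol d := by
    rw [integral_finsetSum _ fun k _ => (hi k).const_mul _]
    exact Finset.sum_congr rfl fun k _ => (integral_const_mul _ _).symm
  have h2 : Integrable (fun y => ∑ k ∈ s, conj (b k) * (mFourier (-k) y * (f y : ℂ))) (vol d) :=
    integrable_finsetSum _ fun k _ => (hi k).const_mul _
  rw [h1]
  have h3 := integral_re h2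
  simp only [RCLike.re_to_complex] at h3
  rw [← h3]
  refine integral_congr_ae (Eventually.of_forall fun y => ?_)
  have h4 : ∑ k ∈ s, conj (b k) * (mFourier (-k) y * (f y : ℂ)) =
      conj (∑ k ∈ s, b k * mFourier k y) * (f y : ℂ) := by
    rw [map_sum, Finset.sum_mul]
    refine Finset.sum_congr rfl fun k _ => ?_
    rw [map_mul, conj_mF, mul_assoc]
  simp only [h4]
  rw [Complex.re_mul_ofReal, Complex.conj_re, mul_comm]

theorem cont_poly (s : Finset (Fin d → ℤ)) (b : (Fin d → ℤ) → ℂ) :
    Continuous fun y : T d => (∑ k ∈ s, b k * mFourier k y).re :=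
  Complex.continuous_re.comp (continuous_finsetSum _ fun k _ =>
    continuous_const.mul (mFourier k).continuous)

theorem cont_bdd {w : T d → ℝ} (hw : Continuous w) : ∃ C : ℝ, 0 ≤ C ∧ ∀ x, ‖w x‖ ≤ C := by
  obtain ⟨C, hC⟩ := isCompact_univ.exists_bound_of_continuousOn (f := w) hw.continuousOn
  exact ⟨C, (norm_nonneg _).trans (hC 0 trivial), fun x => hC x trivial⟩

theorem cont_memLp {w : T d → ℝ} (hw : Continuous w) (p : ℝ≥0∞) : MemLp w p (vol d) := by
  obtain ⟨C, -, hC⟩ := cont_bdd hw
  exact MemLp.of_bound hw.aestronglyMeasurable C (Eventually.of_forall hC)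

theorem mul_memLp {w g : T d → ℝ} (hw : Continuous w) {p : ℝ≥0∞} (hg : MemLp g p (vol d)) :
    MemLp (fun x => w x * g x) p (vol d) := by
  obtain ⟨C, -, hC⟩ := cont_bdd hw
  refine hg.of_le_mul (c := C) (hw.aestronglyMeasurable.mul hg.1) (Eventually.of_forall fun x => ?_)
  rw [norm_mul]
  exact mul_le_mul_of_nonneg_right (hC x) (norm_nonneg _)

theorem intw {w g : T d → ℝ} (hw : Continuous w) (hg : Integrable g (vol d)) :
    Integrable (fun x => w x * g x) (vol d) := by
  obtain ⟨C, -, hC⟩ := cont_bdd hw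
  exact hg.bdd_mul (c := C) hw.aestronglyMeasurable (Eventually.of_forall hC)

theorem int2 {f g : T d → ℝ} (hf : MemLp f 2 (vol d)) (hg : MemLp g 2 (vol d)) :
    Integrable (fun x => f x * g x) (vol d) := hf.integrable_mul hg

theorem lim2 {f g : ℕ → T d → ℝ} {f0 g0 w : T d → ℝ} (hw : Continuous w)
    (hf : ∀ n, MemLp (f n) 2 (vol d)) (hg : ∀ n, MemLp (g n) 2 (vol d))
    (hf0 : MemLp f0 2 (vol d)) (hg0 : MemLp g0 2 (vol d))
    (h1 : Tendsto (fun n => eLpNorm (fun x => f n x - f0 x) 2 (vol d)) atTop (𝓝 0))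
    (h2 : Tendsto (fun n => eLpNorm (fun x => g n x - g0 x) 2 (vol d)) atTop (𝓝 0)) :
    Tendsto (fun n => ∫ x, w x * (f n x * g n x) ∂vol d) atTop
      (𝓝 (∫ x, w x * (f0 x * g0 x) ∂vol d)) := by
  have hG : ∀ n, MemLp (fun x => w x * g n x) 2 (vol d) := fun n => mul_memLp hw (hg n)
  have hG0 : MemLp (fun x => w x * g0 x) 2 (vol d) := mul_memLp hw hg0
  have h3 : Tendsto (fun n => eLpNorm ((fun x => w x * g n x) - fun x => w x * g0 x) 2 (vol d))
      atTop (𝓝 0) := by
    obtain ⟨C, hC0, hC⟩ := cont_bdd hw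
    have h4 : Tendsto (fun n => ENNReal.ofReal C *
        eLpNorm (fun x => g n x - g0 x) 2 (vol d)) atTop (𝓝 0) := by
      have h5 := ENNReal.Tendsto.const_mul h2 (Or.inr ENNReal.ofReal_ne_top) (a := ENNReal.ofReal C)
      rwa [mul_zero] at h5
    refine tendsto_of_tendsto_of_tendsto_of_le_of_le tendsto_const_nhds h4 (fun n => zero_le)
      fun n => ?_
    refine eLpNorm_le_mul_eLpNorm_of_ae_le_mul (Eventually.of_forall fun x => ?_) 2
    rw [Pi.sub_apply, ← mul_sub, norm_mul]
    exact mul_le_mul_of_nonneg_right (hC x) (norm_nonneg _)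
  have h4 := (Lp.tendsto_Lp_iff_tendsto_eLpNorm'' f hf f0 hf0).2 h1
  have h5 := (Lp.tendsto_Lp_iff_tendsto_eLpNorm'' (fun n x => w x * g n x) hG
    (fun x => w x * g0 x) hG0).2 h3
  have h6 := Filter.Tendsto.inner (𝕜 := ℝ) h4 h5
  have h7 : ∀ (F G : T d → ℝ) (hF : MemLp F 2 (vol d)) (hG : MemLp (fun x => w x * G x) 2 (vol d)),
      inner ℝ (hF.toLp F) (hG.toLp fun x => w x * G x) = ∫ x, w x * (F x * G x) ∂vol d := by
    intro F G hF hG
    rw [L2.inner_def]
    refine integral_congr_ae ?_
    filter_upwards [hF.coeFn_toLp, hG.coeFn_toLp] with x h8 h9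
    rw [h8, h9]
    simp only [RCLike.inner_apply, conj_trivial]
    ring
  simp only [h7] at h6
  exact h6

/-- expansion of the integral -/
theorem expand {w0 w2 R : T d → ℝ} {w1 V : Fin d → T d → ℝ} (κ : ℝ) (h0 : Continuous w0)
    (h1 : ∀ i, Continuous (w1 i)) (h2 : Continuous w2) (hR : MemLp R 2 (vol d))
    (hV : ∀ i, MemLp (V i) 2 (vol d)) :
    ∫ x, (w0 x * ∑ i, V i x ^ 2 + 2 * R x * ∑ i, w1 i x * V i x + κ * w2 x * R x ^ 2) ∂vol d =
      ∑ i, ∫ x, w0 x * (V i x * V i x) ∂vol d + 2 * ∑ i, ∫ x, w1 i x * (R x * V i x) ∂vol d +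
        κ * ∫ x, w2 x * (R x * R x) ∂vol d := by
  have e : ∀ x, w0 x * ∑ i, V i x ^ 2 + 2 * R x * ∑ i, w1 i x * V i x + κ * w2 x * R x ^ 2 =
      ∑ i, w0 x * (V i x * V i x) + 2 * ∑ i, w1 i x * (R x * V i x) +
        κ * (w2 x * (R x * R x)) := by
    intro x
    rw [Finset.mul_sum, Finset.mul_sum, Finset.mul_sum]
    congr 1
    · congr 1
      · exact Finset.sum_congr rfl fun i _ => by ring
      · exact Finset.sum_congr rfl fun i _ => by ring
    · ring
  simp only [e]
  have i1 : ∀ i, Integrable (fun x => w0 x * (V i x * V i x)) (vol d) := fun i =>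
    intw h0 (int2 (hV i) (hV i))
  have i2 : ∀ i, Integrable (fun x => w1 i x * (R x * V i x)) (vol d) := fun i =>
    intw (h1 i) (int2 hR (hV i))
  have i3 : Integrable (fun x => w2 x * (R x * R x)) (vol d) := intw h2 (int2 hR hR)
  have j1 : Integrable (fun x => ∑ i, w0 x * (V i x * V i x)) (vol d) :=
    integrable_finsetSum _ fun i _ => i1 i
  have j2 : Integrable (fun x => ∑ i, w1 i x * (R x * V i x)) (vol d) :=
    integrable_finsetSum _ fun i _ => i2 i
  have j12 : Integrable (fun x => ∑ i, w0 x * (V i x * V i x) +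
      2 * ∑ i, w1 i x * (R x * V i x)) (vol d) := j1.add (j2.const_mul 2)
  rw [integral_add j12 (i3.const_mul κ), integral_add j1 (j2.const_mul 2),
    integral_const_mul, integral_const_mul, integral_finsetSum _ fun i _ => i1 i,
    integral_finsetSum _ fun i _ => i2 i]

/-- the symbol of the Laplacian -/
noncomputable def lam (k : Fin d → ℤ) : ℝ := -(4 * π ^ 2 * ∑ i, (k i : ℝ) ^ 2)

theorem lam_gh {k : Fin d → ℤ} (hk : k ≠ 0) : lam k * gh k = -1 := by
  have h1 : 0 < ∑ i, (k i : ℝ) ^ 2 := by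
    obtain ⟨i, hi⟩ : ∃ i, k i ≠ 0 := by
      by_contra hcon
      push Not at hcon
      exact hk (funext hcon)
    refine Finset.sum_pos' (fun i _ => sq_nonneg _) ⟨i, Finset.mem_univ i, ?_⟩
    have : (k i : ℝ) ≠ 0 := by exact_mod_cast hi
    positivity
  unfold lam gh
  have h2 : 4 * π ^ 2 * ∑ i, (k i : ℝ) ^ 2 ≠ 0 := by positivity
  field_simp

theorem lam_zero : lam (0 : Fin d → ℤ) = 0 := by simp [lam]

theorem gh_neg (k : Fin d → ℤ) : gh (-k) = gh k := by simp [gh]

theorem fc_conj (f : T d → ℝ) (k : Fin d → ℤ) : fc f (-k) = conj (fc f k) := by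
  unfold fc
  rw [← integral_conj]
  refine integral_congr_ae (Eventually.of_forall fun x => ?_)
  simp only [map_mul, conj_mF, Complex.conj_ofReal]

theorem fc_zero (f : T d → ℝ) (h : ∫ x, f x ∂vol d = 1) : fc f 0 = 1 := by
  unfold fc
  rw [neg_zero]
  simp only [mFourier_zero, ContinuousMap.one_apply, one_mul]
  rw [integral_complex_ofReal, h]
  rfl

theorem int_mF {k : Fin d → ℤ} (hk : k ≠ 0) : ∫ x, mFourier k x ∂vol d = 0 := by
  obtain ⟨i, hi⟩ := Function.ne_iff.mp hk
  have h1 : ∫ x, mFourier k x ∂vol d =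
      ∏ i, ∫ x, fourier (k i) x ∂(AddCircle.haarAddCircle : Measure UnitAddCircle) := by
    rw [vol, mFourier, ContinuousMap.coe_mk]
    exact MeasureTheory.integral_fintype_prod_eq_prod (𝕜 := ℂ)
      (fun i (x : UnitAddCircle) => fourier (k i) x)
  rw [h1]
  apply Finset.prod_eq_zero (Finset.mem_univ i)
  have h2 := (orthonormal_iff_ite.mp (orthonormal_fourier (T := (1 : ℝ)))) 0 (k i)
  rw [if_neg (fun h => hi (by rw [← h]; rfl)), ContinuousMap.inner_toLp] at h2
  simpa using h2

theorem fc_one_sub {ρ : T d → ℝ} (hρ : Integrable ρ (vol d)) {k : Fin d → ℤ} (hk : k ≠ 0) :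
    fc (fun y => 1 - ρ y) k = -fc ρ k := by
  unfold fc
  have h1 : ∀ y : T d, mFourier (-k) y * ((1 - ρ y : ℝ) : ℂ) =
      mFourier (-k) y - mFourier (-k) y * (ρ y : ℂ) := by
    intro y
    push_cast
    ring
  simp only [h1]
  have hi : Integrable (fun y : T d => mFourier (-k) y * (ρ y : ℂ)) (vol d) := by
    refine Integrable.bdd_mul (c := 1) hρ.ofReal (mFourier (-k)).continuous.aestronglyMeasurable
      (Eventually.of_forall fun y => ?_)
    exact ((mFourier (-k)).norm_coe_le_norm y).trans mFourier_norm.le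
  have hj : Integrable (fun y : T d => mFourier (-k) y) (vol d) := by
    refine Integrable.of_bound (mFourier (-k)).continuous.aestronglyMeasurable 1
      (Eventually.of_forall fun y => ?_)
    exact ((mFourier (-k)).norm_coe_le_norm y).trans mFourier_norm.le
  rw [integral_sub hj hi, int_mF (neg_ne_zero.2 hk), zero_sub]

theorem lamC (k : Fin d → ℤ) :
    (-(4 * π ^ 2 * ∑ i, (k i : ℝ) ^ 2 : ℝ) : ℂ) = (lam k : ℂ) := by
  unfold lam
  push_cast
  rfl

theorem lam_sy (i : Fin d) (k : Fin d → ℤ) :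
    (lam k : ℂ) * sy i k = -(2 * π * Complex.I * (k i : ℂ)) := by
  by_cases hk : k = 0
  · subst hk
    simp [lam_zero]
  · have h1 : (lam k : ℂ) * (gh k : ℂ) = -1 := by
      rw [← Complex.ofReal_mul, lam_gh hk]
      simp
    unfold sy
    linear_combination (2 * π * Complex.I * (k i : ℂ)) * h1

theorem four_sub (n : ℤ) (a b : UnitAddCircle) :
    fourier n (a - b) = conj (fourier n b) * fourier n a := by
  rw [fourier_apply, fourier_apply, fourier_apply, sub_eq_add_neg, smul_add, smul_neg,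
    AddCircle.toCircle_add, AddCircle.toCircle_neg, Circle.coe_mul, Circle.coe_inv_eq_conj,
    mul_comm]

theorem sm_cont (A : AI d) (c : (Fin d → ℤ) → ℂ) : Continuous (A.sm c) := by
  unfold AI.sm
  exact cont_poly A.s fun k => (A.a k : ℂ) * c k

theorem boc (d : ℕ) (_hd : 1 ≤ d) (hBOT : S_BOT d) (hFEJ : S_FEJ d) (hSMO : S_SMO d) :
    S_BOC d := by
  intro ρ v h φ hρ hm hv hh hφ A x
  obtain ⟨-, -, hSM⟩ := hSMO
  obtain ⟨B, hB⟩ := hFEJ
  have h23 : (2 : ℝ≥0∞) ≤ 3 := by norm_num
  have hρ2 : MemLp ρ 2 (vol d) := hρ.mono_exponent h23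
  have hρi : Integrable ρ (vol d) := hρ2.integrable (by norm_num)
  have hv2 : ∀ i, MemLp (v i) 2 (vol d) := fun i => (hv.mem i).mono_exponent h23
  have hone : MemLp (fun _ : T d => (1 : ℝ)) 2 (vol d) := memLp_const 1
  have hR : MemLp (fun y => 1 - ρ y) 2 (vol d) := hone.sub hρ2
  have hhi : Integrable h (vol d) := hh.mem.integrable (by norm_num)
  have hφi : Integrable φ (vol d) := hφ.mem.integrable (by
    rw [ENNReal.le_div_iff_mul_le (Or.inl (by norm_num)) (Or.inl (by norm_num))]
    norm_num)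
  have hq : ∀ i, Integrable (fun y => (1 - ρ y) * v i y) (vol d) := fun i => int2 hR (hv2 i)
  -- the test polynomial
  let b : (Fin d → ℤ) → ℂ := fun k => (A.a k : ℂ) * mFourier (-k) x
  let z : (Fin d → ℤ) →₀ ℂ := Finsupp.onFinset A.s b (by
    intro k hk
    by_contra hcon
    apply hk
    simp only [b, A.supp k hcon, Complex.ofReal_zero, zero_mul])
  have hb : ∀ k, conj (b k) = (A.a k : ℂ) * mFourier k x := by
    intro k
    simp only [b, map_mul, Complex.conj_ofReal, conj_mF, neg_neg]
  have hz : RT z := by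
    intro k
    change b (-k) = conj (b k)
    rw [hb]
    simp only [b, A.symm, neg_neg]
  have ez : ∀ y, ev z y = (∑ k ∈ A.s, b k * mFourier k y).re := fun y => by
    unfold ev
    rw [Finsupp.onFinset_sum _ fun k => by simp]
  have ezl : ∀ y, evl z y = (∑ k ∈ A.s, ((lam k : ℂ) * b k) * mFourier k y).re := fun y => by
    unfold evl
    rw [Finsupp.onFinset_sum _ fun k => by simp]
    simp only [lamC]
  have ezd : ∀ i y, evd z i y =
      (∑ k ∈ A.s, (2 * π * Complex.I * (k i : ℂ) * b k) * mFourier k y).re := fun i y => by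
    unfold evd
    rw [Finsupp.onFinset_sum _ fun k => by simp]
  have cz : Continuous (ev z) := by
    rw [funext ez]
    exact cont_poly A.s b
  have czl : Continuous (evl z) := by
    rw [funext ezl]
    exact cont_poly A.s fun k => (lam k : ℂ) * b k
  have czd : ∀ i, Continuous (evd z i) := fun i => by
    rw [funext (ezd i)]
    exact cont_poly A.s fun k => 2 * π * Complex.I * (k i : ℂ) * b k
  have hzpos : ∀ y, 0 ≤ ev z y := by
    intro y
    rw [ez]
    have h1 := A.pos (y - x)
    have h2 : ∀ k : Fin d → ℤ, mFourier k (y - x) = mFourier (-k) x * mFourier k y := by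
      intro k
      rw [← conj_mF]
      simp only [mFourier, ContinuousMap.coe_mk, map_prod, ← Finset.prod_mul_distrib]
      refine Finset.prod_congr rfl fun i _ => ?_
      rw [Pi.sub_apply, four_sub]
    simp only [h2] at h1
    simpa only [b, mul_assoc] using h1
  -- the two sides
  have hv2s : ∀ i, Integrable (fun y => v i y ^ 2) (vol d) := fun i => (hv2 i).integrable_sq
  have hvs : Integrable (fun y => ∑ i, v i y ^ 2) (vol d) := integrable_finsetSum _ fun i _ => hv2s i
  have hLi : Integrable (Lf v h φ) (vol d) := by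
    unfold Lf
    exact (hvs.add (hhi.const_mul _)).sub (hφi.const_mul 2)
  have hR2 : Integrable (fun y => (1 - ρ y) ^ 2) (vol d) := hR.integrable_sq
  have hR1 : Integrable (fun y => 1 - ρ y) (vol d) := hR.integrable (by norm_num)
  have hfB : Integrable (fB ρ) (vol d) := by
    unfold fB
    exact (hR2.const_mul _).sub (hR1.const_mul _)
  have t1 : A.sm (fun k => (-(4 * π ^ 2 * ∑ i, (k i : ℝ) ^ 2 : ℝ) : ℂ) * fc (Lf v h φ) k) x =
      ∫ y, Lf v h φ y * evl z y ∂vol d := by
    simp only [ezl]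
    rw [star _ hLi]
    unfold AI.sm
    congr 1
    refine Finset.sum_congr rfl fun k _ => ?_
    beta_reduce
    rw [lamC, map_mul, hb, Complex.conj_ofReal]
    ring
  have t2 : A.sm (fc (fB ρ)) x = ∫ y, fB ρ y * ev z y ∂vol d := by
    simp only [ez]
    rw [star _ hfB]
    unfold AI.sm
    congr 1
    refine Finset.sum_congr rfl fun k _ => ?_
    rw [hb]
    ring
  have s1 : ∫ y, h y * evl z y ∂vol d = ∫ y, (1 - ρ y) * ev z y ∂vol d := by
    simp only [ezl, ez]
    rw [star _ hhi, star _ hR1]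
    congr 1
    refine Finset.sum_congr rfl fun k _ => ?_
    rw [map_mul, Complex.conj_ofReal, hh.four]
    by_cases hk : k = 0
    · subst hk
      have h1 : fc (fun y => 1 - ρ y) 0 = 0 := by
        unfold fc
        rw [neg_zero]
        simp only [mFourier_zero, ContinuousMap.one_apply, one_mul]
        rw [integral_complex_ofReal, integral_sub (integrable_const 1) hρi, hm]
        simp
      rw [h1, lam_zero]
      simp
    · rw [fc_one_sub hρi hk]
      have h1 : (lam k : ℂ) * (gh k : ℂ) = -1 := by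
        rw [← Complex.ofReal_mul, lam_gh hk]
        simp
      linear_combination conj (b k) * fc ρ k * h1
  have s2 : ∫ y, φ y * evl z y ∂vol d = -∑ i, ∫ y, ((1 - ρ y) * v i y) * evd z i y ∂vol d := by
    simp only [ezl, ezd]
    rw [star _ hφi]
    have h1 : ∀ i, ∫ y, ((1 - ρ y) * v i y) *
        (∑ k ∈ A.s, (2 * π * Complex.I * (k i : ℂ) * b k) * mFourier k y).re ∂vol d =
        (∑ k ∈ A.s, conj (2 * π * Complex.I * (k i : ℂ) * b k) *
          fc (fun y => (1 - ρ y) * v i y) k).re := fun i => star _ (hq i) _ _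
    simp only [h1]
    rw [← Complex.re_sum, ← Complex.neg_re, Finset.sum_comm, ← Finset.sum_neg_distrib]
    congr 1
    refine Finset.sum_congr rfl fun k _ => ?_
    rw [hφ.four, map_mul, Complex.conj_ofReal, mul_neg, Finset.mul_sum]
    congr 1
    refine Finset.sum_congr rfl fun i _ => ?_
    have h2 : conj (2 * π * Complex.I * (k i : ℂ) * b k) =
        -(2 * π * Complex.I * (k i : ℂ)) * conj (b k) := by
      simp only [map_mul, Complex.conj_I, Complex.conj_ofReal, map_ofNat, map_intCast]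
      ring
    rw [h2, ← lam_sy]
    ring
  -- the sum of the two sides
  have key : (∫ y, Lf v h φ y * evl z y ∂vol d) + ∫ y, fB ρ y * ev z y ∂vol d =
      ∑ i, ∫ y, evl z y * (v i y * v i y) ∂vol d +
        2 * ∑ i, ∫ y, evd z i y * ((1 - ρ y) * v i y) ∂vol d +
        6 * kd d * ∫ y, ev z y * ((1 - ρ y) * (1 - ρ y)) ∂vol d := by
    have e1 : ∫ y, Lf v h φ y * evl z y ∂vol d =
        ∑ i, ∫ y, evl z y * (v i y * v i y) ∂vol d + 4 * kd d * (∫ y, h y * evl z y ∂vol d) -
          2 * ∫ y, φ y * evl z y ∂vol d := by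
      have e2 : ∀ y, Lf v h φ y * evl z y = ∑ i, evl z y * (v i y * v i y) +
          4 * kd d * (h y * evl z y) - 2 * (φ y * evl z y) := by
        intro y
        have e3 : ∑ i, evl z y * (v i y * v i y) = (∑ i, v i y ^ 2) * evl z y := by
          rw [Finset.sum_mul]
          exact Finset.sum_congr rfl fun i _ => by ring
        rw [e3]
        unfold Lf
        ring
      simp only [e2]
      have i1 : ∀ i, Integrable (fun y => evl z y * (v i y * v i y)) (vol d) := fun i =>
        intw czl (int2 (hv2 i) (hv2 i))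
      have i2 : Integrable (fun y => h y * evl z y) (vol d) := by
        simpa only [mul_comm] using intw czl hhi
      have i3 : Integrable (fun y => φ y * evl z y) (vol d) := by
        simpa only [mul_comm] using intw czl hφi
      have i4 : Integrable (fun y => ∑ i, evl z y * (v i y * v i y)) (vol d) :=
        integrable_finsetSum _ fun i _ => i1 i
      have i5 : Integrable (fun y => ∑ i, evl z y * (v i y * v i y) +
          4 * kd d * (h y * evl z y)) (vol d) := i4.add (i2.const_mul _)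
      rw [integral_sub i5 (i3.const_mul 2), integral_add i4 (i2.const_mul _), integral_const_mul,
        integral_const_mul, integral_finsetSum _ fun i _ => i1 i]
    have e4 : ∫ y, fB ρ y * ev z y ∂vol d =
        6 * kd d * (∫ y, ev z y * ((1 - ρ y) * (1 - ρ y)) ∂vol d) -
          4 * kd d * ∫ y, (1 - ρ y) * ev z y ∂vol d := by
      have e5 : ∀ y, fB ρ y * ev z y = 6 * kd d * (ev z y * ((1 - ρ y) * (1 - ρ y))) -
          4 * kd d * ((1 - ρ y) * ev z y) := by
        intro y
        unfold fB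
        ring
      simp only [e5]
      have i1 : Integrable (fun y => ev z y * ((1 - ρ y) * (1 - ρ y))) (vol d) :=
        intw cz (int2 hR hR)
      have i2 : Integrable (fun y => (1 - ρ y) * ev z y) (vol d) := by
        simpa only [mul_comm] using intw cz hR1
      rw [integral_sub (i1.const_mul _) (i2.const_mul _), integral_const_mul, integral_const_mul]
    have e6 : ∀ i, ∫ y, evd z i y * ((1 - ρ y) * v i y) ∂vol d =
        ∫ y, ((1 - ρ y) * v i y) * evd z i y ∂vol d := fun i => by
      simp only [mul_comm]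
    simp only [e6]
    rw [e1, e4, s1, s2]
    ring
  rw [t1, t2, key]
  -- the smoothed functions
  let c : ℕ → (Fin d → ℤ) →₀ ℂ := fun n =>
    Finsupp.onFinset (B n).s (fun k => ((B n).a k : ℂ) * (gh k : ℂ) * fc ρ k) (by
      intro k hk
      by_contra hcon
      apply hk
      simp only [(B n).supp k hcon, Complex.ofReal_zero, zero_mul])
  have hc : ∀ n, RT (c n) := by
    intro n k
    change ((B n).a (-k) : ℂ) * (gh (-k) : ℂ) * fc ρ (-k) =
      conj (((B n).a k : ℂ) * (gh k : ℂ) * fc ρ k)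
    rw [(B n).symm, gh_neg, fc_conj, map_mul, map_mul, Complex.conj_ofReal, Complex.conj_ofReal]
  have ecd : ∀ n i y, evd (c n) i y = (B n).sm (fc (v i)) y := by
    intro n i y
    unfold evd AI.sm
    rw [Finsupp.onFinset_sum _ fun k => by simp]
    congr 1
    refine Finset.sum_congr rfl fun k _ => ?_
    rw [hv.four, sy]
    ring
  have ecl : ∀ n y, evl (c n) y = 1 - (B n).sm (fc ρ) y := by
    intro n y
    unfold evl AI.sm
    rw [Finsupp.onFinset_sum _ fun k => by simp]
    have h0 : (0 : Fin d → ℤ) ∈ (B n).s := by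
      by_contra hcon
      have h1 := (B n).supp 0 hcon
      rw [(B n).zero] at h1
      exact one_ne_zero h1
    have h1 : ∀ k ∈ (B n).s, (-(4 * π ^ 2 * ∑ i, (k i : ℝ) ^ 2 : ℝ) : ℂ) *
        (((B n).a k : ℂ) * (gh k : ℂ) * fc ρ k) * mFourier k y =
        (if k = 0 then 1 else 0) - ((B n).a k : ℂ) * fc ρ k * mFourier k y := by
      intro k _
      rw [lamC]
      by_cases hk : k = 0
      · subst hk
        rw [if_pos rfl, lam_zero, (B n).zero, fc_zero ρ hm, mFourier_zero]
        simp
      · rw [if_neg hk]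
        have h2 : (lam k : ℂ) * (gh k : ℂ) = -1 := by
          rw [← Complex.ofReal_mul, lam_gh hk]
          simp
        linear_combination ((B n).a k : ℂ) * fc ρ k * mFourier k y * h2
    rw [Finset.sum_congr rfl h1, Finset.sum_sub_distrib, Finset.sum_ite_eq', if_pos h0,
      Complex.sub_re, Complex.one_re]
  have hVn : ∀ n i, MemLp ((B n).sm (fc (v i))) 2 (vol d) := fun n i =>
    cont_memLp (sm_cont _ _) 2
  have hRn : ∀ n, MemLp (fun y => 1 - (B n).sm (fc ρ) y) 2 (vol d) := fun n =>
    cont_memLp (continuous_const.sub (sm_cont _ _)) 2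
  have hVlim : ∀ i, Tendsto (fun n => eLpNorm (fun y => (B n).sm (fc (v i)) y - v i y) 2 (vol d))
      atTop (𝓝 0) := fun i => hSM B hB.lim 2 (Or.inr (Or.inr (Or.inl rfl))) (v i) (hv2 i)
  have hRlim : Tendsto (fun n => eLpNorm (fun y => (1 - (B n).sm (fc ρ) y) - (1 - ρ y)) 2 (vol d))
      atTop (𝓝 0) := by
    have h1 := hSM B hB.lim 2 (Or.inr (Or.inr (Or.inl rfl))) ρ hρ2
    refine h1.congr fun n => ?_
    refine eLpNorm_congr_norm_ae (Eventually.of_forall fun y => ?_)
    rw [Real.norm_eq_abs, Real.norm_eq_abs, ← abs_neg]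
    congr 1
    ring
  have hlim : Tendsto (fun n => ∑ i, ∫ y, evl z y *
        ((B n).sm (fc (v i)) y * (B n).sm (fc (v i)) y) ∂vol d +
        2 * ∑ i, ∫ y, evd z i y * ((1 - (B n).sm (fc ρ) y) * (B n).sm (fc (v i)) y) ∂vol d +
        6 * kd d * ∫ y, ev z y * ((1 - (B n).sm (fc ρ) y) * (1 - (B n).sm (fc ρ) y)) ∂vol d) atTop
      (𝓝 (∑ i, ∫ y, evl z y * (v i y * v i y) ∂vol d +
        2 * ∑ i, ∫ y, evd z i y * ((1 - ρ y) * v i y) ∂vol d +
        6 * kd d * ∫ y, ev z y * ((1 - ρ y) * (1 - ρ y)) ∂vol d)) := by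
    refine ((tendsto_finsetSum _ fun i _ => ?_).add
      ((tendsto_finsetSum _ fun i _ => ?_).const_mul 2)).add (Tendsto.const_mul (6 * kd d) ?_)
    · exact lim2 czl (fun n => hVn n i) (fun n => hVn n i) (hv2 i) (hv2 i) (hVlim i) (hVlim i)
    · exact lim2 (czd i) hRn (fun n => hVn n i) hR (hv2 i) hRlim (hVlim i)
    · exact lim2 cz hRn hRn hR hR hRlim hRlim
  refine ge_of_tendsto' hlim fun n => ?_
  have h1 := hBOT (c n) z (hc n) hz hzpos
  simp only [ecd, ecl] at h1
  rw [expand (R := fun y => 1 - (B n).sm (fc ρ) y) (V := fun i => (B n).sm (fc (v i)))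
    (6 * kd d) czl czd cz (hRn n) (hVn n)] at h1
  exact h1

end Pool.Agent.R763.PL.BOC
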