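import Pool.Agent.R763.PL.Stm

/-!
# BOT: Bochner's inequality for trigonometric polynomials on the torus
-/

set_option autoImplicit false

open MeasureTheory UnitAddTorus Filter Topology
open scoped ENNReal Real ComplexConjugate

namespace Pool.Agent.R763.PL.Bot

variable {d : ℕ}

instance instProbVol : IsProbabilityMeasure (vol d) := by unfold vol; infer_instance

lemma int_fourier (n : ℤ) : ∫ x : UnitAddCircle, fourier n x ∂AddCircle.haarAddCircle
    = if n = 0 then (1 : ℂ) else 0 := by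
  split_ifs with h
  · subst h; simp
  · exact integral_eq_zero_of_add_right_eq_neg (μ := AddCircle.haarAddCircle)
      (fourier_add_half_inv_index h one_pos)

lemma int_mF (n : Fin d → ℤ) : ∫ x, mFourier n x ∂vol d = if n = 0 then (1 : ℂ) else 0 := by
  have h : ∀ x : T d, mFourier n x = ∏ i, fourier (n i) (x i) := fun x => rfl
  simp_rw [h]
  unfold vol
  rw [integral_fintype_prod_eq_prod (𝕜 := ℂ)
    (f := fun (i : Fin d) (y : UnitAddCircle) => (fourier (n i) y : ℂ))]
  simp_rw [int_fourier]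
  split_ifs with h0
  · subst h0; simp
  · obtain ⟨i, hi⟩ := Function.ne_iff.mp h0
    apply Finset.prod_eq_zero (Finset.mem_univ i)
    exact if_neg hi

/-- trigonometric polynomial with coefficients `α k * c k` -/
noncomputable def sv (α : (Fin d → ℤ) → ℂ) (c : (Fin d → ℤ) →₀ ℂ) (x : T d) : ℂ :=
  ∑ k ∈ c.support, α k * c k * mFourier k x

lemma sv_cont (α : (Fin d → ℤ) → ℂ) (c : (Fin d → ℤ) →₀ ℂ) : Continuous (sv α c) := by
  unfold sv
  fun_prop

lemma sv_real (α : (Fin d → ℤ) → ℂ) (c : (Fin d → ℤ) →₀ ℂ) (hc : RT c)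
    (hα : ∀ k, α (-k) = conj (α k)) (x : T d) : (((sv α c x).re : ℝ) : ℂ) = sv α c x := by
  rw [← Complex.conj_eq_iff_re]
  unfold sv
  rw [map_sum]
  have hsup : ∀ k, k ∈ c.support ↔ -k ∈ c.support := by
    intro k
    rw [Finsupp.mem_support_iff, Finsupp.mem_support_iff, hc k]
    simp
  refine Finset.sum_bij' (fun k _ => -k) (fun k _ => -k) (fun k hk => (hsup k).1 hk)
    (fun k hk => (hsup k).1 hk) (fun k _ => neg_neg k) (fun k _ => neg_neg k) ?_
  intro k _
  rw [map_mul, map_mul, ← mFourier_neg, ← hc k, ← hα k]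

/-- the trilinear form on Fourier side -/
lemma int_tri (α β γ : (Fin d → ℤ) → ℂ) (z c : (Fin d → ℤ) →₀ ℂ) :
    ∫ x, sv α z x * sv β c x * sv γ c x ∂vol d =
      ∑ m ∈ z.support, ∑ k ∈ c.support, ∑ l ∈ c.support,
        α m * β k * γ l * (z m * c k * c l) * (if m + k + l = 0 then 1 else 0) := by
  have h : ∀ x : T d, sv α z x * sv β c x * sv γ c x =
      ∑ m ∈ z.support, ∑ k ∈ c.support, ∑ l ∈ c.support,
        α m * β k * γ l * (z m * c k * c l) * mFourier (m + k + l) x := by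
    intro x
    unfold sv
    rw [Finset.sum_mul_sum, Finset.sum_mul]
    refine Finset.sum_congr rfl fun m _ => ?_
    rw [Finset.sum_mul]
    refine Finset.sum_congr rfl fun k _ => ?_
    rw [Finset.mul_sum]
    refine Finset.sum_congr rfl fun l _ => ?_
    rw [mFourier_add, mFourier_add]
    ring
  simp_rw [h]
  have hint : ∀ n : Fin d → ℤ, Integrable (fun x => mFourier n x) (vol d) := by
    intro n
    have : Continuous (fun x : T d => (mFourier n x : ℂ)) := (mFourier n).continuous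
    exact this.integrable_of_hasCompactSupport (HasCompactSupport.of_compactSpace _)
  rw [integral_finsetSum _ fun m _ => integrable_finsetSum _ fun k _ =>
    integrable_finsetSum _ fun l _ => (hint _).const_mul _]
  refine Finset.sum_congr rfl fun m _ => ?_
  rw [integral_finsetSum _ fun k _ => integrable_finsetSum _ fun l _ => (hint _).const_mul _]
  refine Finset.sum_congr rfl fun k _ => ?_
  rw [integral_finsetSum _ fun l _ => (hint _).const_mul _]
  refine Finset.sum_congr rfl fun l _ => ?_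
  rw [integral_const_mul, int_mF]

/-- symbols -/
noncomputable def one (_ : Fin d → ℤ) : ℂ := 1
noncomputable def D1 (i : Fin d) (k : Fin d → ℤ) : ℂ := 2 * π * Complex.I * (k i : ℂ)
noncomputable def D2 (i j : Fin d) (k : Fin d → ℤ) : ℂ :=
  (2 * π * Complex.I * (k i : ℂ)) * (2 * π * Complex.I * (k j : ℂ))
noncomputable def La (k : Fin d → ℤ) : ℂ := (-(4 * π ^ 2 * ∑ i, (k i : ℝ) ^ 2 : ℝ) : ℂ)

lemma one_neg (k : Fin d → ℤ) : one (-k) = conj (one k) := by simp [one]
lemma D1_neg (i : Fin d) (k : Fin d → ℤ) : D1 i (-k) = conj (D1 i k) := by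
  have h2 : conj (2 : ℂ) = 2 := map_ofNat _ 2
  simp [D1, h2]
lemma D2_neg (i j : Fin d) (k : Fin d → ℤ) : D2 i j (-k) = conj (D2 i j k) := by
  have h2 : conj (2 : ℂ) = 2 := map_ofNat _ 2
  simp [D2, h2]
lemma La_neg (k : Fin d → ℤ) : La (-k) = conj (La k) := by
  unfold La
  rw [map_neg, Complex.conj_ofReal]
  simp
lemma La_eq (k : Fin d → ℤ) : La k = ∑ i, D2 i i k := by
  unfold La D2
  push_cast
  rw [Finset.mul_sum, ← Finset.sum_neg_distrib]
  refine Finset.sum_congr rfl fun i _ => ?_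
  have := Complex.I_sq
  linear_combination (-(4 * π ^ 2 * (k i : ℂ) ^ 2)) * this

lemma ev_eq (c : (Fin d → ℤ) →₀ ℂ) (x : T d) : ev c x = (sv one c x).re := by
  simp [ev, sv, one, Finsupp.sum]
lemma evd_eq (c : (Fin d → ℤ) →₀ ℂ) (i : Fin d) (x : T d) : evd c i x = (sv (D1 i) c x).re := by
  simp only [evd, sv, D1, Finsupp.sum]
lemma evl_eq (c : (Fin d → ℤ) →₀ ℂ) (x : T d) : evl c x = (sv La c x).re := by
  simp only [evl, sv, La, Finsupp.sum]

/-- second derivatives -/
noncomputable def ev2 (c : (Fin d → ℤ) →₀ ℂ) (i j : Fin d) (x : T d) : ℝ := (sv (D2 i j) c x).re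

lemma evl_sum (c : (Fin d → ℤ) →₀ ℂ) (x : T d) : evl c x = ∑ i, ev2 c i i x := by
  rw [evl_eq]
  unfold ev2
  rw [← Complex.re_sum]
  congr 1
  unfold sv
  rw [Finset.sum_comm]
  refine Finset.sum_congr rfl fun k _ => ?_
  rw [La_eq, Finset.sum_mul, Finset.sum_mul]

/-- algebraic identity on the Fourier side -/
lemma alg (m k l : Fin d → ℤ) (h : m + k + l = 0) :
    (∑ i, La m * D1 i k * D1 i l) + ((∑ i, D1 i m * La k * D1 i l) + ∑ i, D1 i m * D1 i k * La l)
      = 2 * (∑ i, ∑ j, one m * D2 i j k * D2 i j l) - 2 * (one m * La k * La l) := by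
  have hm : m = -(k + l) := by
    rw [add_assoc] at h
    exact eq_neg_of_add_eq_zero_left h
  have e1 : ∀ a b : Fin d → ℤ, ∑ i, D1 i a * D1 i b = -(4 * π ^ 2 * ∑ i, (a i : ℂ) * (b i : ℂ)) := by
    intro a b
    rw [Finset.mul_sum, ← Finset.sum_neg_distrib]
    refine Finset.sum_congr rfl fun i _ => ?_
    unfold D1
    have := Complex.I_sq
    linear_combination (4 * π ^ 2 * (a i : ℂ) * (b i : ℂ)) * this
  have e2 : ∀ a : Fin d → ℤ, La a = -(4 * π ^ 2 * ∑ i, (a i : ℂ) * (a i : ℂ)) := by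
    intro a
    unfold La
    push_cast
    simp [sq]
  have e3 : ∑ i, ∑ j, one m * D2 i j k * D2 i j l =
      (∑ i, D1 i k * D1 i l) * (∑ i, D1 i k * D1 i l) := by
    rw [Finset.sum_mul_sum]
    refine Finset.sum_congr rfl fun i _ => Finset.sum_congr rfl fun j _ => ?_
    unfold D2 D1 one
    ring
  have f1 : ∑ i, La m * D1 i k * D1 i l = La m * ∑ i, D1 i k * D1 i l := by
    rw [Finset.mul_sum]
    exact Finset.sum_congr rfl fun i _ => by ring
  have f2 : ∑ i, D1 i m * La k * D1 i l = La k * ∑ i, D1 i m * D1 i l := by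
    rw [Finset.mul_sum]
    exact Finset.sum_congr rfl fun i _ => by ring
  have f3 : ∑ i, D1 i m * D1 i k * La l = La l * ∑ i, D1 i m * D1 i k := by
    rw [Finset.mul_sum]
    exact Finset.sum_congr rfl fun i _ => by ring
  rw [f1, f2, f3, e3]
  simp only [e1, e2]
  have g1 : ∑ i, (m i : ℂ) * (m i : ℂ) = (∑ i, (k i : ℂ) * (k i : ℂ)) +
      2 * (∑ i, (k i : ℂ) * (l i : ℂ)) + ∑ i, (l i : ℂ) * (l i : ℂ) := by
    rw [Finset.mul_sum, ← Finset.sum_add_distrib, ← Finset.sum_add_distrib]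
    refine Finset.sum_congr rfl fun i _ => ?_
    rw [hm]
    simp only [Pi.neg_apply, Pi.add_apply]
    push_cast
    ring
  have g2 : ∑ i, (m i : ℂ) * (l i : ℂ) = -(∑ i, (k i : ℂ) * (l i : ℂ)) -
      ∑ i, (l i : ℂ) * (l i : ℂ) := by
    rw [← Finset.sum_neg_distrib, ← Finset.sum_sub_distrib]
    refine Finset.sum_congr rfl fun i _ => ?_
    rw [hm]
    simp only [Pi.neg_apply, Pi.add_apply]
    push_cast
    ring
  have g3 : ∑ i, (m i : ℂ) * (k i : ℂ) = -(∑ i, (k i : ℂ) * (k i : ℂ)) -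
      ∑ i, (k i : ℂ) * (l i : ℂ) := by
    rw [← Finset.sum_neg_distrib, ← Finset.sum_sub_distrib]
    refine Finset.sum_congr rfl fun i _ => ?_
    rw [hm]
    simp only [Pi.neg_apply, Pi.add_apply]
    push_cast
    ring
  rw [g1, g2, g3]
  unfold one
  ring

lemma int_id (c z : (Fin d → ℤ) →₀ ℂ) :
    (∑ i, ∫ x, sv La z x * sv (D1 i) c x * sv (D1 i) c x ∂vol d) +
      ((∑ i, ∫ x, sv (D1 i) z x * sv La c x * sv (D1 i) c x ∂vol d) +
        ∑ i, ∫ x, sv (D1 i) z x * sv (D1 i) c x * sv La c x ∂vol d) =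
    2 * (∑ i, ∑ j, ∫ x, sv one z x * sv (D2 i j) c x * sv (D2 i j) c x ∂vol d) -
      2 * ∫ x, sv one z x * sv La c x * sv La c x ∂vol d := by
  simp_rw [int_tri]
  have comm1 : ∀ f : Fin d → (Fin d → ℤ) → (Fin d → ℤ) → (Fin d → ℤ) → ℂ,
      ∑ i, ∑ m ∈ z.support, ∑ k ∈ c.support, ∑ l ∈ c.support, f i m k l =
      ∑ m ∈ z.support, ∑ k ∈ c.support, ∑ l ∈ c.support, ∑ i, f i m k l := by
    intro f
    rw [Finset.sum_comm]
    refine Finset.sum_congr rfl fun m _ => ?_
    rw [Finset.sum_comm]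
    refine Finset.sum_congr rfl fun k _ => ?_
    rw [Finset.sum_comm]
  simp_rw [comm1]
  simp_rw [Finset.mul_sum]
  simp_rw [← Finset.sum_add_distrib, ← Finset.sum_sub_distrib]
  refine Finset.sum_congr rfl fun m _ => Finset.sum_congr rfl fun k _ =>
    Finset.sum_congr rfl fun l _ => ?_
  by_cases h : m + k + l = 0
  · have := alg m k l h
    simp only [h, if_true, mul_one]
    have e1 : ∑ x, (La m * D1 x k * D1 x l * (z m * c k * c l) +
        (D1 x m * La k * D1 x l * (z m * c k * c l) +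
          D1 x m * D1 x k * La l * (z m * c k * c l))) =
        (∑ i, La m * D1 i k * D1 i l + (∑ i, D1 i m * La k * D1 i l +
          ∑ i, D1 i m * D1 i k * La l)) * (z m * c k * c l) := by
      rw [add_mul, add_mul, Finset.sum_mul, Finset.sum_mul, Finset.sum_mul,
        ← Finset.sum_add_distrib, ← Finset.sum_add_distrib]
    rw [e1, this, sub_mul]
    congr 1
    · rw [Finset.mul_sum, Finset.sum_mul]
      refine Finset.sum_congr rfl fun i _ => ?_
      rw [Finset.mul_sum, Finset.sum_mul]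
      refine Finset.sum_congr rfl fun j _ => ?_
      ring
    · ring
  · simp [h]

lemma intble (α β γ : (Fin d → ℤ) → ℂ) (z c : (Fin d → ℤ) →₀ ℂ) :
    Integrable (fun x => sv α z x * sv β c x * sv γ c x) (vol d) := by
  have : Continuous (fun x => sv α z x * sv β c x * sv γ c x) :=
    ((sv_cont α z).mul (sv_cont β c)).mul (sv_cont γ c)
  exact this.integrable_of_hasCompactSupport (HasCompactSupport.of_compactSpace _)

lemma int_I (c z : (Fin d → ℤ) →₀ ℂ) (hc : RT c) (hz : RT z) :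
    ((∫ x, (evl z x * ∑ i, evd c i x ^ 2 + 2 * evl c x * ∑ i, evd z i x * evd c i x
      + 6 * kd d * ev z x * evl c x ^ 2) ∂vol d : ℝ) : ℂ) =
    ((∑ i, ∫ x, sv La z x * sv (D1 i) c x * sv (D1 i) c x ∂vol d) +
      ((∑ i, ∫ x, sv (D1 i) z x * sv La c x * sv (D1 i) c x ∂vol d) +
        ∑ i, ∫ x, sv (D1 i) z x * sv (D1 i) c x * sv La c x ∂vol d)) +
      6 * kd d * ∫ x, sv one z x * sv La c x * sv La c x ∂vol d := by
  have i1 : Integrable (fun x => ∑ i, sv La z x * sv (D1 i) c x * sv (D1 i) c x) (vol d) :=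
    integrable_finsetSum _ fun i _ => intble _ _ _ _ _
  have i2 : Integrable (fun x => ∑ i, sv (D1 i) z x * sv La c x * sv (D1 i) c x) (vol d) :=
    integrable_finsetSum _ fun i _ => intble _ _ _ _ _
  have i3 : Integrable (fun x => ∑ i, sv (D1 i) z x * sv (D1 i) c x * sv La c x) (vol d) :=
    integrable_finsetSum _ fun i _ => intble _ _ _ _ _
  have i23 : Integrable (fun x => (∑ i, sv (D1 i) z x * sv La c x * sv (D1 i) c x) +
      ∑ i, sv (D1 i) z x * sv (D1 i) c x * sv La c x) (vol d) := i2.add i3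
  have i123 : Integrable (fun x => (∑ i, sv La z x * sv (D1 i) c x * sv (D1 i) c x) +
      ((∑ i, sv (D1 i) z x * sv La c x * sv (D1 i) c x) +
      ∑ i, sv (D1 i) z x * sv (D1 i) c x * sv La c x)) (vol d) := i1.add i23
  have i4 : Integrable (fun x => 6 * (kd d : ℂ) * (sv one z x * sv La c x * sv La c x)) (vol d) :=
    (intble _ _ _ _ _).const_mul _
  rw [← integral_complex_ofReal]
  rw [← integral_finsetSum _ fun i _ => intble _ _ _ _ _,
    ← integral_finsetSum _ fun i _ => intble _ _ _ _ _,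
    ← integral_finsetSum _ fun i _ => intble _ _ _ _ _, ← integral_const_mul,
    ← integral_add i2 i3, ← integral_add i1 i23, ← integral_add i123 i4]
  refine integral_congr_ae (Eventually.of_forall fun x => ?_)
  have h1 : ((ev z x : ℝ) : ℂ) = sv one z x := by rw [ev_eq, sv_real _ _ hz one_neg]
  have h2 : ∀ i, ((evd z i x : ℝ) : ℂ) = sv (D1 i) z x := fun i => by
    rw [evd_eq, sv_real _ _ hz (D1_neg i)]
  have h3 : ∀ i, ((evd c i x : ℝ) : ℂ) = sv (D1 i) c x := fun i => by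
    rw [evd_eq, sv_real _ _ hc (D1_neg i)]
  have h4 : ((evl z x : ℝ) : ℂ) = sv La z x := by rw [evl_eq, sv_real _ _ hz La_neg]
  have h5 : ((evl c x : ℝ) : ℂ) = sv La c x := by rw [evl_eq, sv_real _ _ hc La_neg]
  simp only [Pi.add_apply]
  push_cast
  simp only [h1, h2, h3, h4, h5]
  congr 1
  · congr 1
    · rw [Finset.mul_sum]
      refine Finset.sum_congr rfl fun i _ => ?_
      ring
    · rw [Finset.mul_sum, ← Finset.sum_add_distrib]
      refine Finset.sum_congr rfl fun i _ => ?_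
      ring
  · ring

lemma int_J (c z : (Fin d → ℤ) →₀ ℂ) (hc : RT c) (hz : RT z) :
    ((∫ x, ev z x * (2 * ∑ i, ∑ j, ev2 c i j x ^ 2 - (2 - 6 * kd d) * evl c x ^ 2) ∂vol d : ℝ) : ℂ)
    = 2 * (∑ i, ∑ j, ∫ x, sv one z x * sv (D2 i j) c x * sv (D2 i j) c x ∂vol d) -
      (2 - 6 * kd d) * ∫ x, sv one z x * sv La c x * sv La c x ∂vol d := by
  rw [← integral_complex_ofReal]
  have hs : ∀ i, ∑ j, ∫ x, sv one z x * sv (D2 i j) c x * sv (D2 i j) c x ∂vol d =
      ∫ x, ∑ j, sv one z x * sv (D2 i j) c x * sv (D2 i j) c x ∂vol d := fun i =>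
    (integral_finsetSum _ fun j _ => intble _ _ _ _ _).symm
  simp_rw [hs]
  rw [← integral_finsetSum _ fun i _ => integrable_finsetSum _ fun j _ => intble _ _ _ _ _,
    ← integral_const_mul, ← integral_const_mul,
    ← integral_sub ((integrable_finsetSum _ fun i _ => integrable_finsetSum _ fun j _ =>
      intble _ _ _ _ _).const_mul _) ((intble _ _ _ _ _).const_mul _)]
  refine integral_congr_ae (Eventually.of_forall fun x => ?_)
  have h1 : ((ev z x : ℝ) : ℂ) = sv one z x := by rw [ev_eq, sv_real _ _ hz one_neg]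
  have h3 : ∀ i j, ((ev2 c i j x : ℝ) : ℂ) = sv (D2 i j) c x := fun i j => by
    rw [ev2, sv_real _ _ hc (D2_neg i j)]
  have h5 : ((evl c x : ℝ) : ℂ) = sv La c x := by rw [evl_eq, sv_real _ _ hc La_neg]
  simp only
  push_cast
  simp only [h1, h3, h5]
  rw [mul_sub]
  congr 1
  · rw [Finset.mul_sum, Finset.mul_sum, Finset.mul_sum]
    refine Finset.sum_congr rfl fun i _ => ?_
    rw [Finset.mul_sum, Finset.mul_sum, Finset.mul_sum]
    refine Finset.sum_congr rfl fun j _ => ?_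
    ring
  · ring

theorem bot (d : ℕ) (hd : 1 ≤ d) : S_BOT d := by
  intro c z hc hz hpos
  have key : (∫ x, (evl z x * ∑ i, evd c i x ^ 2 + 2 * evl c x * ∑ i, evd z i x * evd c i x
      + 6 * kd d * ev z x * evl c x ^ 2) ∂vol d) =
      ∫ x, ev z x * (2 * ∑ i, ∑ j, ev2 c i j x ^ 2 - (2 - 6 * kd d) * evl c x ^ 2) ∂vol d := by
    have : ((∫ x, (evl z x * ∑ i, evd c i x ^ 2 + 2 * evl c x * ∑ i, evd z i x * evd c i x
      + 6 * kd d * ev z x * evl c x ^ 2) ∂vol d : ℝ) : ℂ) =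
      ((∫ x, ev z x * (2 * ∑ i, ∑ j, ev2 c i j x ^ 2 - (2 - 6 * kd d) * evl c x ^ 2) ∂vol d : ℝ)
        : ℂ) := by
      rw [int_I c z hc hz, int_J c z hc hz, int_id]
      ring
    exact_mod_cast this
  rw [key]
  refine integral_nonneg fun x => mul_nonneg (hpos x) ?_
  have hd0 : (0 : ℝ) < d := by exact_mod_cast hd
  have hk : 2 - 6 * kd d = 2 / d := by
    unfold kd
    field_simp
    ring
  rw [hk, evl_sum]
  have cs : (∑ i, ev2 c i i x) ^ 2 ≤ d * ∑ i, ev2 c i i x ^ 2 := by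
    have := sq_sum_le_card_mul_sum_sq (s := (Finset.univ : Finset (Fin d)))
      (f := fun i => ev2 c i i x)
    simpa using this
  have diag : ∑ i, ev2 c i i x ^ 2 ≤ ∑ i, ∑ j, ev2 c i j x ^ 2 :=
    Finset.sum_le_sum fun i _ => Finset.single_le_sum (f := fun j => ev2 c i j x ^ 2)
      (fun j _ => sq_nonneg _) (Finset.mem_univ i)
  have : 2 / (d : ℝ) * (∑ i, ev2 c i i x) ^ 2 ≤ 2 * ∑ i, ∑ j, ev2 c i j x ^ 2 := by
    calc 2 / (d : ℝ) * (∑ i, ev2 c i i x) ^ 2 ≤ 2 / (d : ℝ) * (d * ∑ i, ev2 c i i x ^ 2) :=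
          mul_le_mul_of_nonneg_left cs (by positivity)
      _ = 2 * ∑ i, ev2 c i i x ^ 2 := by field_simp
      _ ≤ _ := by linarith
  linarith

end Pool.Agent.R763.PL.Bot
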