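import Pool.Agent.R763.PL.Stm

/-!
# PL-CPT: compactness of `ρ ↦ v`
-/

set_option autoImplicit false

open MeasureTheory UnitAddTorus Filter Topology
open scoped ENNReal Real ContDiff

namespace Pool.Agent.R763.PL.Cpt

open Pool.Agent.R763.PL

instance prob (d : ℕ) : IsProbabilityMeasure (vol d) := by unfold vol; infer_instance

theorem int_fourier (n : ℤ) : ∫ t : UnitAddCircle, fourier n t ∂AddCircle.haarAddCircle =
    if n = 0 then 1 else 0 := by
  split_ifs with h
  · simp [h]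
  · exact integral_eq_zero_of_add_right_eq_neg (μ := AddCircle.haarAddCircle)
      (fourier_add_half_inv_index h (Fact.out : (0 : ℝ) < 1))

theorem int_mF {d : ℕ} (n : Fin d → ℤ) : ∫ x, mFourier n x ∂vol d = if n = 0 then 1 else 0 := by
  have h1 : ∫ x, mFourier n x ∂vol d =
      ∏ i, ∫ t : UnitAddCircle, fourier (n i) t ∂AddCircle.haarAddCircle := by
    unfold vol
    exact integral_fintype_prod_eq_prod (fun i (t : UnitAddCircle) => (fourier (n i) t : ℂ))
  rw [h1]
  simp only [int_fourier]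
  split_ifs with h
  · subst h
    simp
  · obtain ⟨i, hi⟩ : ∃ i, n i ≠ 0 := by
      by_contra hcon
      push Not at hcon
      exact h (funext hcon)
    exact Finset.prod_eq_zero (Finset.mem_univ i) (by rw [if_neg hi])

theorem fc_neg {d : ℕ} (f : T d → ℝ) (k : Fin d → ℤ) :
    fc f (-k) = starRingEnd ℂ (fc f k) := by
  unfold fc
  rw [← integral_conj]
  refine integral_congr_ae (ae_of_all _ fun x => ?_)
  simp only [map_mul, Complex.conj_ofReal]
  rw [mFourier_neg]

theorem int_mul {d : ℕ} {f : T d → ℝ} (hf : Integrable f (vol d)) (k : Fin d → ℤ) :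
    Integrable (fun x => mFourier k x * (f x : ℂ)) (vol d) := by
  refine hf.ofReal.bdd_mul (c := 1) (mFourier k).continuous.aestronglyMeasurable
    (ae_of_all _ fun x => ?_)
  have := (mFourier k).norm_coe_le_norm x
  rwa [mFourier_norm] at this

theorem fc_sub {d : ℕ} {f g : T d → ℝ} (hf : Integrable f (vol d)) (hg : Integrable g (vol d))
    (k : Fin d → ℤ) : fc (fun x => f x - g x) k = fc f k - fc g k := by
  unfold fc
  rw [← integral_sub (int_mul hf (-k)) (int_mul hg (-k))]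
  refine integral_congr_ae (ae_of_all _ fun x => ?_)
  push_cast
  ring

theorem sm_real {d : ℕ} (A : AI d) (c : (Fin d → ℤ) → ℂ) (hc : ∀ k, c (-k) = starRingEnd ℂ (c k))
    (x : T d) : ((A.sm c x : ℝ) : ℂ) = ∑ k ∈ A.s, (A.a k : ℂ) * c k * mFourier k x := by
  unfold AI.sm
  rw [← Complex.conj_eq_iff_re, map_sum]
  have h1 : ∀ k, starRingEnd ℂ ((A.a k : ℂ) * c k * mFourier k x) =
      (A.a (-k) : ℂ) * c (-k) * mFourier (-k) x := by
    intro k
    rw [map_mul, map_mul, Complex.conj_ofReal, A.symm, hc, mFourier_neg]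
  simp only [h1]
  have h2 : ∑ k ∈ A.s, (A.a (-k) : ℂ) * c (-k) * mFourier (-k) x =
      ∑' k, (A.a (-k) : ℂ) * c (-k) * mFourier (-k) x := by
    rw [tsum_eq_sum]
    intro k hk
    rw [A.symm, A.supp k hk]
    simp
  have h3 : ∑ k ∈ A.s, (A.a k : ℂ) * c k * mFourier k x =
      ∑' k, (A.a k : ℂ) * c k * mFourier k x := by
    rw [tsum_eq_sum]
    intro k hk
    rw [A.supp k hk]
    simp
  rw [h2, h3]
  exact (Equiv.neg (Fin d → ℤ)).tsum_eq (fun k => (A.a k : ℂ) * c k * mFourier k x)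

theorem fc_sm {d : ℕ} (A : AI d) (c : (Fin d → ℤ) → ℂ) (hc : ∀ k, c (-k) = starRingEnd ℂ (c k))
    (k : Fin d → ℤ) : fc (A.sm c) k = A.a k * c k := by
  unfold fc
  simp only [sm_real A c hc]
  have h1 : ∀ x, mFourier (-k) x * ∑ l ∈ A.s, (A.a l : ℂ) * c l * mFourier l x =
      ∑ l ∈ A.s, (A.a l : ℂ) * c l * mFourier (-k + l) x := by
    intro x
    rw [Finset.mul_sum]
    refine Finset.sum_congr rfl fun l _ => ?_
    rw [mFourier_add]
    ring
  simp only [h1]
  rw [integral_finsetSum]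
  · have h2 : ∀ l ∈ A.s, ∫ x, (A.a l : ℂ) * c l * mFourier (-k + l) x ∂vol d =
        if l = k then (A.a l : ℂ) * c l else 0 := by
      intro l _
      rw [integral_const_mul, int_mF]
      by_cases h : l = k
      · subst h; simp
      · rw [if_neg h, if_neg, mul_zero]
        intro h'
        apply h
        rw [neg_add_eq_zero] at h'
        exact h'.symm
    rw [Finset.sum_congr rfl h2, Finset.sum_ite_eq']
    split_ifs with hk
    · rfl
    · rw [A.supp k hk]; simp
  · intro l _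
    refine Integrable.const_mul (Integrable.of_bound (C := 1)
      (mFourier (-k + l)).continuous.aestronglyMeasurable (ae_of_all _ fun x => ?_)) _
    have := (mFourier (-k + l)).norm_coe_le_norm x
    rwa [mFourier_norm] at this

theorem sm_cont {d : ℕ} (A : AI d) (c : (Fin d → ℤ) → ℂ) : Continuous (A.sm c) := by
  unfold AI.sm
  exact Complex.continuous_re.comp (continuous_finsetSum _ fun k _ => by fun_prop)

theorem sm_bound {d : ℕ} (A : AI d) (c : (Fin d → ℤ) → ℂ) (x : T d) :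
    ‖A.sm c x‖ ≤ ∑ k ∈ A.s, ‖c k‖ := by
  unfold AI.sm
  refine (Complex.abs_re_le_norm _).trans ((norm_sum_le _ _).trans ?_)
  refine Finset.sum_le_sum fun k _ => ?_
  rw [norm_mul, norm_mul]
  have h1 : ‖mFourier k x‖ ≤ 1 := by
    have := (mFourier k).norm_coe_le_norm x
    rwa [mFourier_norm] at this
  have h2 : ‖(A.a k : ℂ)‖ ≤ 1 := by
    rw [Complex.norm_real, Real.norm_eq_abs, abs_of_nonneg (A.nonneg k)]
    exact A.le_one k
  calc ‖(A.a k : ℂ)‖ * ‖c k‖ * ‖mFourier k x‖ ≤ 1 * ‖c k‖ * 1 := by gcongr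
    _ = ‖c k‖ := by ring

theorem sm_int {d : ℕ} (A : AI d) (c : (Fin d → ℤ) → ℂ) (p : ℝ≥0∞) : MemLp (A.sm c) p (vol d) :=
  MemLp.of_bound (sm_cont A c).aestronglyMeasurable _ (ae_of_all _ (sm_bound A c))

theorem cpt (d : ℕ) (hK : S_KER d) (hY : S_YOU d) (hU : S_UNI d) (hS : S_SMO d) (hF : S_FEJ d) :
    S_CPT d := by
  intro ρ v ρ₀ v₀ C hρ hC hρ₀ hv hv₀ hlim i
  obtain ⟨K, hKi⟩ := hK
  obtain ⟨hKint, hKfc⟩ := hKi i
  obtain ⟨A, hA⟩ := hF
  have hKL : MemLp (K i) 1 (vol d) := memLp_one_iff_integrable.2 hKint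
  have hA1 := hS.2.2 A hA.lim 1 (Or.inl rfl) (K i) hKL
  have h3 : (1 : ℝ≥0∞) ≤ 3 := by norm_num
  set M : ℝ≥0∞ := ENNReal.ofReal C + eLpNorm ρ₀ 3 (vol d) with hM
  have hMtop : M ≠ ⊤ := ENNReal.add_ne_top.2 ⟨ENNReal.ofReal_ne_top, hρ₀.2.ne⟩
  have hA2 : Tendsto (fun m => eLpNorm (fun x => (A m).sm (fc (K i)) x - K i x) 1 (vol d) * M)
      atTop (𝓝 0) := by
    have := ENNReal.Tendsto.mul_const hA1 (b := M) (Or.inr hMtop)
    rwa [zero_mul] at this
  rw [ENNReal.tendsto_nhds_zero]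
  intro ε hε
  have hε2 : 0 < ε / 2 := ENNReal.half_pos hε.ne'
  obtain ⟨m, hm⟩ := ((ENNReal.tendsto_nhds_zero.1 hA2) (ε / 2) hε2).exists
  -- the smoothed part
  have hu : ∀ n k, fc (fun x => v n i x - v₀ i x) k = sy i k * fc (fun x => ρ n x - ρ₀ x) k := by
    intro n k
    rw [fc_sub ((hv n).mem i |>.integrable h3) ((hv₀).mem i |>.integrable h3),
      fc_sub ((hρ n).integrable h3) (hρ₀.integrable h3), (hv n).four, hv₀.four]
    ring
  have hcoef : ∀ k, Tendsto (fun n => fc (fun x => v n i x - v₀ i x) k) atTop (𝓝 0) := by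
    intro k
    have h1 : Tendsto (fun n => sy i k * (fc (ρ n) k - fc ρ₀ k)) atTop (𝓝 0) := by
      have := ((hlim k).sub_const (fc ρ₀ k)).const_mul (sy i k)
      simpa using this
    refine h1.congr fun n => ?_
    rw [hu, fc_sub ((hρ n).integrable h3) (hρ₀.integrable h3)]
  have hs : Tendsto (fun n => ENNReal.ofReal
      (∑ k ∈ (A m).s, ‖fc (fun x => v n i x - v₀ i x) k‖)) atTop (𝓝 0) := by
    have h1 : Tendsto (fun n => ∑ k ∈ (A m).s, ‖fc (fun x => v n i x - v₀ i x) k‖) atTop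
        (𝓝 (∑ k ∈ (A m).s, (0 : ℝ))) :=
      tendsto_finsetSum _ fun k _ => by simpa using (hcoef k).norm
    rw [Finset.sum_const_zero] at h1
    have := (ENNReal.continuous_ofReal.tendsto 0).comp h1
    rwa [ENNReal.ofReal_zero] at this
  filter_upwards [(ENNReal.tendsto_nhds_zero.1 hs) (ε / 2) hε2] with n hn
  -- fixed n
  have hf : MemLp (fun x => ρ n x - ρ₀ x) 3 (vol d) := (hρ n).sub hρ₀
  have hD : Integrable (fun x => K i x - (A m).sm (fc (K i)) x) (vol d) :=
    hKint.sub ((sm_int (A m) (fc (K i)) 1).integrable le_rfl)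
  obtain ⟨g, hg, hgn, hgf⟩ := hY _ hD 3 (Or.inl rfl) _ hf
  have hsc : ∀ k, fc (fun x => v n i x - v₀ i x) (-k) =
      starRingEnd ℂ (fc (fun x => v n i x - v₀ i x) k) := fc_neg _
  set s : T d → ℝ := (A m).sm (fc (fun x => v n i x - v₀ i x)) with hsdef
  have hsL : MemLp s 3 (vol d) := sm_int _ _ _
  have huL : MemLp (fun x => v n i x - v₀ i x) 3 (vol d) := ((hv n).mem i).sub (hv₀.mem i)
  have hzero : (fun x => (v n i x - v₀ i x) - g x - s x) =ᵐ[vol d] 0 := by
    apply hU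
    · exact ((huL.sub hg).sub hsL).integrable h3
    · intro k
      have hug : Integrable (fun x => v n i x - v₀ i x - g x) (vol d) :=
        (huL.sub hg).integrable h3
      rw [fc_sub hug (hsL.integrable h3), fc_sub (huL.integrable h3) (hg.integrable h3), hsdef, fc_sm _ _ hsc, hgf,
        fc_sub hKint ((sm_int (A m) (fc (K i)) 1).integrable le_rfl), fc_sm _ _ (fc_neg _), hKfc,
        hu]
      ring
  have heq : (fun x => v n i x - v₀ i x) =ᵐ[vol d] fun x => g x + s x := by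
    filter_upwards [hzero] with x hx
    simp only [Pi.zero_apply] at hx
    linarith
  rw [eLpNorm_congr_ae heq]
  have hg2 : eLpNorm g 3 (vol d) ≤ ε / 2 := by
    refine hgn.trans (le_trans ?_ hm)
    have e1 : eLpNorm (fun x => K i x - (A m).sm (fc (K i)) x) 1 (vol d) =
        eLpNorm (fun x => (A m).sm (fc (K i)) x - K i x) 1 (vol d) := by
      rw [← eLpNorm_neg]
      congr 1
      funext x
      simp
    rw [e1]
    gcongr
    calc eLpNorm (fun x => ρ n x - ρ₀ x) 3 (vol d)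
        ≤ eLpNorm (ρ n) 3 (vol d) + eLpNorm ρ₀ 3 (vol d) :=
          eLpNorm_sub_le (hρ n).1 hρ₀.1 h3
      _ ≤ M := by rw [hM]; gcongr; exact hC n
  have hs2 : eLpNorm s 3 (vol d) ≤ ε / 2 := by
    refine (eLpNorm_le_of_ae_bound (ae_of_all _ (sm_bound (A m) _))).trans ?_
    rw [measure_univ, ENNReal.one_rpow, one_mul]
    exact hn
  calc eLpNorm (fun x => g x + s x) 3 (vol d)
      ≤ eLpNorm g 3 (vol d) + eLpNorm s 3 (vol d) := eLpNorm_add_le hg.1 hsL.1 h3
    _ ≤ ε / 2 + ε / 2 := add_le_add hg2 hs2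
    _ = ε := ENNReal.add_halves ε

end Pool.Agent.R763.PL.Cpt
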