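import Mathlib

/-!
# Coulomb MMD on the torus: definitions

The torus is `T d = UnitAddTorus (Fin d)`.
-/

set_option autoImplicit false

open MeasureTheory UnitAddTorus Filter Topology
open scoped ENNReal Real

namespace Pool.Agent.R763.PL

/-- the flat torus of dimension `d` -/
abbrev T (d : ℕ) := UnitAddTorus (Fin d)

/-- Lebesgue measure of the torus (total mass one) -/
noncomputable def vol (d : ℕ) : Measure (T d) :=
  Measure.pi fun _ => (AddCircle.haarAddCircle : Measure UnitAddCircle)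

/-- squared flat distance -/
noncomputable def dist2 {d : ℕ} (x y : T d) : ℝ := ∑ i, ‖x i - y i‖ ^ 2

/-- `γ` is a coupling of `ρ` and `η` -/
def Coupling {d : ℕ} (ρ η : Measure (T d)) (γ : Measure (T d × T d)) : Prop :=
  γ.map Prod.fst = ρ ∧ γ.map Prod.snd = η

/-- quadratic Wasserstein distance (of probability measures) -/
noncomputable def W2 {d : ℕ} (ρ η : Measure (T d)) : ℝ :=
  Real.sqrt (⨅ γ : {γ : Measure (T d × T d) // Coupling ρ η γ}, ∫ p, dist2 p.1 p.2 ∂γ.1)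

/-- Fourier coefficients of the periodic Coulomb kernel: `1 / (4 π² |k|²)` (and `0` at `k = 0`) -/
noncomputable def gh {d : ℕ} (k : Fin d → ℤ) : ℝ := (4 * π ^ 2 * ∑ i, (k i : ℝ) ^ 2)⁻¹

/-- Fourier coefficients of a measure -/
noncomputable def mc {d : ℕ} (ρ : Measure (T d)) (k : Fin d → ℤ) : ℂ := ∫ x, mFourier (-k) x ∂ρ

/-- the energy `F(ρ) = ½ ‖ρ - 1‖²` in the homogeneous Sobolev space of order `-1` -/
noncomputable def F {d : ℕ} (ρ : Measure (T d)) : ℝ≥0∞ :=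
  (1 / 2) * ∑' k : Fin d → ℤ, ENNReal.ofReal (gh k * ‖mc ρ k‖ ^ 2)

/-- the descending slope of `F` -/
noncomputable def slope {d : ℕ} (ρ : Measure (T d)) : ℝ≥0∞ :=
  ⨅ r : {r : ℝ // 0 < r},
    ⨆ η : {η : Measure (T d) // IsProbabilityMeasure η ∧ 0 < W2 ρ η ∧ W2 ρ η < r.1},
      (F ρ - F η.1) / ENNReal.ofReal (W2 ρ η.1)

/-- the optimal constant -/
noncomputable def cOpt (d : ℕ) : ℝ≥0∞ :=
  ⨅ ρ : {ρ : Measure (T d) // IsProbabilityMeasure ρ ∧ 0 < F ρ ∧ F ρ < ⊤}, slope ρ.1 ^ 2 / F ρ.1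

/-! ### Functions -/

/-- Fourier coefficients of a real function -/
noncomputable def fc {d : ℕ} (f : T d → ℝ) (k : Fin d → ℤ) : ℂ :=
  ∫ x, mFourier (-k) x * (f x : ℂ) ∂vol d

/-- symbol of `∂ᵢ g` -/
noncomputable def sy {d : ℕ} (i : Fin d) (k : Fin d → ℤ) : ℂ :=
  2 * π * Complex.I * (k i : ℂ) * (gh k : ℂ)

noncomputable def kd (d : ℕ) : ℝ := ((d : ℝ) - 1) / (3 * d)
noncomputable def c1 (d : ℕ) : ℝ := ((d : ℝ) + 2) / (3 * d)

/-- a nonnegative trigonometric polynomial of mean one with coefficients in `[0,1]` -/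
structure AI (d : ℕ) where
  s : Finset (Fin d → ℤ)
  a : (Fin d → ℤ) → ℝ
  supp : ∀ k, k ∉ s → a k = 0
  nonneg : ∀ k, 0 ≤ a k
  le_one : ∀ k, a k ≤ 1
  symm : ∀ k, a (-k) = a k
  zero : a 0 = 1
  pos : ∀ x : T d, 0 ≤ (∑ k ∈ s, (a k : ℂ) * mFourier k x).re

/-- the kernel as a function -/
noncomputable def AI.ker {d : ℕ} (A : AI d) (x : T d) : ℝ :=
  (∑ k ∈ A.s, (A.a k : ℂ) * mFourier k x).re

/-- the trigonometric polynomial with coefficients `a_k c_k` (real for conjugate symmetric `c`) -/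
noncomputable def AI.sm {d : ℕ} (A : AI d) (c : (Fin d → ℤ) → ℂ) (x : T d) : ℝ :=
  (∑ k ∈ A.s, (A.a k : ℂ) * c k * mFourier k x).re

/-- an approximate identity -/
structure AppId {d : ℕ} (A : ℕ → AI d) : Prop where
  lim : ∀ k, Tendsto (fun n => (A n).a k) atTop (𝓝 1)
  mom : Tendsto (fun n => ∫ z, dist2 z 0 * (A n).ker z ∂vol d) atTop (𝓝 0)

/-- `v = ∇h` with `-Δh = ρ - mean` -/
structure Grad {d : ℕ} (ρ : T d → ℝ) (v : Fin d → T d → ℝ) : Prop where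
  mem : ∀ i, MemLp (v i) 3 (vol d)
  four : ∀ i k, fc (v i) k = sy i k * fc ρ k

/-- `-Δh = ρ - mean` -/
structure Pot {d : ℕ} (ρ h : T d → ℝ) : Prop where
  mem : MemLp h 2 (vol d)
  four : ∀ k, fc h k = gh k * fc ρ k

/-- `Δφ = div ((1 - ρ) v)` -/
structure Aux {d : ℕ} (ρ : T d → ℝ) (v : Fin d → T d → ℝ) (φ : T d → ℝ) : Prop where
  mem : MemLp φ (3 / 2) (vol d)
  four : ∀ k, fc φ k = - ∑ i, sy i k * fc (fun x => (1 - ρ x) * v i x) k

/-- the first variation `|v|² + 4 k h - 2 φ` -/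
noncomputable def Lf {d : ℕ} (v : Fin d → T d → ℝ) (h φ : T d → ℝ) (x : T d) : ℝ :=
  ∑ i, v i x ^ 2 + 4 * kd d * h x - 2 * φ x

/-- probability densities in `L³` -/
structure Adm {d : ℕ} (ρ : T d → ℝ) : Prop where
  nonneg : ∀ᵐ x ∂vol d, 0 ≤ ρ x
  mem : MemLp ρ 3 (vol d)
  mass : ∫ x, ρ x ∂vol d = 1

/-- `J_δ(ρ) = ∫ ρ |v|² - c₁ ∫ |v|² + δ ∫ ρ³` -/
noncomputable def Jd {d : ℕ} (δ : ℝ) (ρ : T d → ℝ) (v : Fin d → T d → ℝ) : ℝ :=
  (∫ x, ρ x * ∑ i, v i x ^ 2 ∂vol d) - c1 d * (∫ x, ∑ i, v i x ^ 2 ∂vol d) +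
    δ * ∫ x, ρ x ^ 3 ∂vol d

/-- `6 k (1 - ρ)² - 4 k (1 - ρ)` -/
noncomputable def fB {d : ℕ} (ρ : T d → ℝ) (x : T d) : ℝ :=
  6 * kd d * (1 - ρ x) ^ 2 - 4 * kd d * (1 - ρ x)

/-! ### Smoothed flow -/

/-- the smoothed velocity field `∇(g * A * η)` -/
noncomputable def wA {d : ℕ} (A : AI d) (η : Measure (T d)) (i : Fin d) (x : T d) : ℝ :=
  A.sm (fun k => sy i k * mc η k) x

/-- smoothed energy -/
noncomputable def EA {d : ℕ} (A : AI d) (η : Measure (T d)) : ℝ :=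
  (1 / 2) * ∑ k ∈ A.s, A.a k * gh k * ‖mc η k‖ ^ 2

/-- smoothed dissipation -/
noncomputable def DA {d : ℕ} (A : AI d) (η : Measure (T d)) : ℝ :=
  ∫ x, ∑ i, wA A η i x ^ 2 ∂η

/-- one Euler step -/
noncomputable def TA {d : ℕ} (A : AI d) (η : Measure (T d)) (τ : ℝ) (x : T d) : T d :=
  fun i => x i - ((τ * wA A η i x : ℝ) : UnitAddCircle)

/-- density bounded by `M` -/
def Dom {d : ℕ} (M : ℝ) (η : Measure (T d)) : Prop := η ≤ ENNReal.ofReal M • vol d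

/-! ### Real trigonometric polynomials -/

/-- real trigonometric polynomials -/
def RT {d : ℕ} (c : (Fin d → ℤ) →₀ ℂ) : Prop := ∀ k, c (-k) = starRingEnd ℂ (c k)

/-- value of a trigonometric polynomial -/
noncomputable def ev {d : ℕ} (c : (Fin d → ℤ) →₀ ℂ) (x : T d) : ℝ :=
  (c.sum fun k a => a * mFourier k x).re

/-- value of the derivative `∂ᵢ` -/
noncomputable def evd {d : ℕ} (c : (Fin d → ℤ) →₀ ℂ) (i : Fin d) (x : T d) : ℝ :=
  (c.sum fun k a => (2 * π * Complex.I * (k i : ℂ)) * a * mFourier k x).re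

/-- value of the Laplacian -/
noncomputable def evl {d : ℕ} (c : (Fin d → ℤ) →₀ ℂ) (x : T d) : ℝ :=
  (c.sum fun k a => (-(4 * π ^ 2 * ∑ i, (k i : ℝ) ^ 2 : ℝ) : ℂ) * a * mFourier k x).re

end Pool.Agent.R763.PL
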