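import Mathlib

/-!
# DENS, part 2: expansion of the determinant
-/

set_option autoImplicit false

open Finset

namespace Pool.Agent.R763.PL.Dens

lemma prod_one_add {ι : Type*} [DecidableEq ι] (s : Finset ι) (n : ι → ℝ) (b t : ℝ) (hb : 0 ≤ b)
    (hn : ∀ i, |n i| ≤ b) (ht : 0 ≤ t) (ht1 : t ≤ 1) :
    |∏ i ∈ s, (1 + t * n i)| ≤ (1 + b) ^ s.card ∧
    |∏ i ∈ s, (1 + t * n i) - 1| ≤ t * ((1 + b) ^ s.card - 1) ∧
    |∏ i ∈ s, (1 + t * n i) - 1 - t * ∑ i ∈ s, n i| ≤ t ^ 2 * ((1 + b) ^ s.card - 1) := by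
  induction s using Finset.induction_on with
  | empty => simp
  | insert a s ha ih =>
    obtain ⟨h1, h2, h3⟩ := ih
    rw [prod_insert ha, sum_insert ha, card_insert_of_notMem ha]
    set P := ∏ i ∈ s, (1 + t * n i) with hP
    set S := ∑ i ∈ s, n i with hS
    have hna := hn a
    have htn : |t * n a| ≤ t * b := by
      rw [abs_mul, abs_of_nonneg ht]
      exact mul_le_mul_of_nonneg_left hna ht
    have hpow : 0 ≤ (1 + b) ^ s.card := by positivity
    refine ⟨?_, ?_, ?_⟩
    · rw [abs_mul, pow_succ, mul_comm]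
      have : |1 + t * n a| ≤ 1 + b := by
        calc |1 + t * n a| ≤ |1| + |t * n a| := abs_add_le _ _
          _ ≤ 1 + t * b := by rw [abs_one]; linarith
          _ ≤ 1 + b := by nlinarith
      exact mul_le_mul h1 this (abs_nonneg _) hpow
    · have e : (1 + t * n a) * P - 1 = (P - 1) + t * n a * P := by ring
      rw [e]
      calc |(P - 1) + t * n a * P| ≤ |P - 1| + |t * n a * P| := abs_add_le _ _
        _ ≤ t * ((1 + b) ^ s.card - 1) + (t * b) * (1 + b) ^ s.card := by
            have : |t * n a * P| ≤ (t * b) * (1 + b) ^ s.card := by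
              rw [abs_mul]
              exact mul_le_mul htn h1 (abs_nonneg _) (by positivity)
            linarith
        _ = t * ((1 + b) ^ (s.card + 1) - 1) := by ring
    · have e : (1 + t * n a) * P - 1 - t * (n a + S) = (P - 1 - t * S) + t * n a * (P - 1) := by
        ring
      rw [e]
      have h5 : |t * n a * (P - 1)| ≤ (t * b) * (t * ((1 + b) ^ s.card - 1)) := by
        rw [abs_mul]
        exact mul_le_mul htn h2 (abs_nonneg _) (by positivity)
      calc |(P - 1 - t * S) + t * n a * (P - 1)| ≤ |P - 1 - t * S| + |t * n a * (P - 1)| :=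
            abs_add_le _ _
        _ ≤ t ^ 2 * ((1 + b) ^ s.card - 1) + (t * b) * (t * ((1 + b) ^ s.card - 1)) := by linarith
        _ ≤ t ^ 2 * ((1 + b) ^ (s.card + 1) - 1) := by
            have : t ^ 2 * ((1 + b) ^ (s.card + 1) - 1) -
              (t ^ 2 * ((1 + b) ^ s.card - 1) + (t * b) * (t * ((1 + b) ^ s.card - 1)))
              = t ^ 2 * b := by ring
            have h6 : 0 ≤ t ^ 2 * b := by positivity
            linarith

lemma det_ge {d : ℕ} (b : ℝ) (hb : 0 ≤ b) (B : Matrix (Fin d) (Fin d) ℝ) (hB : ∀ i j, |B i j| ≤ b)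
    (t : ℝ) (ht : 0 ≤ t) (ht1 : t ≤ 1) :
    1 - t * (∑ i, B i i) - ((d.factorial + 1 : ℝ) * (1 + b) ^ d) * t ^ 2
      ≤ (1 - t • B : Matrix (Fin d) (Fin d) ℝ).det := by
  classical
  rw [Matrix.det_apply']
  set M : Matrix (Fin d) (Fin d) ℝ := 1 - t • B with hM
  have hMe : ∀ i j, M i j = (if i = j then 1 else 0) - t * B i j := by
    intro i j
    simp [hM, Matrix.one_apply]
  -- bound for nontrivial permutations
  have hne : ∀ σ : Equiv.Perm (Fin d), σ ≠ 1 →
      |((Equiv.Perm.sign σ : ℤ) : ℝ) * ∏ i, M (σ i) i| ≤ (1 + b) ^ d * t ^ 2 := by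
    intro σ hσ
    have hs : |((Equiv.Perm.sign σ : ℤ) : ℝ)| = 1 := by
      rcases Int.units_eq_one_or (Equiv.Perm.sign σ) with h | h <;> simp [h]
    rw [abs_mul, hs, one_mul, Finset.abs_prod]
    obtain ⟨i0, hi0⟩ : ∃ i, σ i ≠ i := by
      by_contra hcon
      push Not at hcon
      exact hσ (Equiv.ext hcon)
    have hj0 : σ (σ i0) ≠ σ i0 := fun h => hi0 (σ.injective h)
    calc ∏ i, |M (σ i) i| ≤ ∏ i, ((1 + b) * (if i = i0 ∨ i = σ i0 then t else 1)) := by
          refine prod_le_prod (fun i _ => abs_nonneg _) fun i _ => ?_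
          rw [hMe]
          have htB : |t * B (σ i) i| ≤ t * b := by
            rw [abs_mul, abs_of_nonneg ht]
            exact mul_le_mul_of_nonneg_left (hB _ _) ht
          split_ifs with h1 h2 h2
          · exfalso
            rcases h2 with h2 | h2
            · rw [h2] at h1; exact hi0 h1
            · rw [h2] at h1; exact hj0 h1
          · calc |1 - t * B (σ i) i| ≤ |1| + |t * B (σ i) i| := abs_sub _ _
              _ ≤ 1 + t * b := by rw [abs_one]; linarith
              _ ≤ (1 + b) * 1 := by nlinarith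
          · rw [zero_sub, abs_neg]
            calc |t * B (σ i) i| ≤ t * b := htB
              _ ≤ (1 + b) * t := by nlinarith
          · rw [zero_sub, abs_neg]
            calc |t * B (σ i) i| ≤ t * b := htB
              _ ≤ (1 + b) * 1 := by nlinarith
      _ = (1 + b) ^ d * t ^ 2 := by
          rw [prod_mul_distrib, prod_const, prod_ite, prod_const, prod_const_one, mul_one]
          have hc : (univ.filter fun i => i = i0 ∨ i = σ i0) = {i0, σ i0} := by
            ext i
            simp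
          rw [hc, card_pair (Ne.symm hi0)]
          simp
  have hone : 1 - t * (∑ i, B i i) - (1 + b) ^ d * t ^ 2 ≤
      ((Equiv.Perm.sign (1 : Equiv.Perm (Fin d)) : ℤ) : ℝ) * ∏ i, M ((1 : Equiv.Perm (Fin d)) i) i := by
    have h := (prod_one_add (univ : Finset (Fin d)) (fun i => - B i i) b t hb
      (fun i => by rw [abs_neg]; exact hB i i) ht ht1).2.2
    rw [card_univ, Fintype.card_fin] at h
    have h2 := (abs_le.mp h).1
    have e1 : ∏ i, M ((1 : Equiv.Perm (Fin d)) i) i = ∏ i, (1 + t * -B i i) := by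
      refine prod_congr rfl fun i _ => ?_
      rw [hMe]
      simp
      ring
    rw [e1]
    simp only [Equiv.Perm.sign_one, Units.val_one, Int.cast_one, one_mul]
    rw [sum_neg_distrib] at h2
    nlinarith [sq_nonneg t]
  rw [← Finset.add_sum_erase univ _ (mem_univ (1 : Equiv.Perm (Fin d)))]
  have hsum : |∑ σ ∈ univ.erase (1 : Equiv.Perm (Fin d)),
      ((Equiv.Perm.sign σ : ℤ) : ℝ) * ∏ i, M (σ i) i| ≤ d.factorial * ((1 + b) ^ d * t ^ 2) := by
    calc |∑ σ ∈ univ.erase (1 : Equiv.Perm (Fin d)),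
          ((Equiv.Perm.sign σ : ℤ) : ℝ) * ∏ i, M (σ i) i|
        ≤ ∑ σ ∈ univ.erase (1 : Equiv.Perm (Fin d)),
          |((Equiv.Perm.sign σ : ℤ) : ℝ) * ∏ i, M (σ i) i| := abs_sum_le_sum_abs _ _
      _ ≤ ∑ σ ∈ univ.erase (1 : Equiv.Perm (Fin d)), (1 + b) ^ d * t ^ 2 :=
          sum_le_sum fun σ hσ => hne σ (ne_of_mem_erase hσ)
      _ ≤ ∑ σ : Equiv.Perm (Fin d), (1 + b) ^ d * t ^ 2 :=
          sum_le_sum_of_subset_of_nonneg (erase_subset _ _) fun _ _ _ => by positivity
      _ = d.factorial * ((1 + b) ^ d * t ^ 2) := by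
          rw [sum_const, card_univ, Fintype.card_perm, Fintype.card_fin, nsmul_eq_mul]
  have h3 := (abs_le.mp hsum).1
  have : ((d.factorial + 1 : ℝ) * (1 + b) ^ d) * t ^ 2 =
    (1 + b) ^ d * t ^ 2 + d.factorial * ((1 + b) ^ d * t ^ 2) := by ring
  linarith

end Pool.Agent.R763.PL.Dens
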