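import Pool.Agent.R763.PL.Dens1
import Pool.Agent.R763.PL.Dens2

/-!
# DENS: growth of the density in one step
-/

set_option autoImplicit false

open MeasureTheory UnitAddTorus Filter Topology Set
open scoped ENNReal Real

namespace Pool.Agent.R763.PL.Dens

/-- linear form -/
noncomputable def lin {d : ℕ} (k : Fin d → ℤ) : (Fin d → ℝ) →L[ℝ] ℝ :=
  ∑ j, (k j : ℝ) • ContinuousLinearMap.proj (R := ℝ) (φ := fun _ : Fin d => ℝ) j

lemma lin_apply {d : ℕ} (k : Fin d → ℤ) (x : Fin d → ℝ) : lin k x = ∑ j, (k j : ℝ) * x j := by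
  simp [lin]

lemma mFourier_q {d : ℕ} (k : Fin d → ℤ) (x : Fin d → ℝ) :
    mFourier k (q x) = Complex.exp (((2 * π * lin k x : ℝ) : ℂ) * Complex.I) := by
  have h : mFourier k (q x) = ∏ i, fourier (k i) ((x i : ℝ) : UnitAddCircle) := rfl
  rw [h, lin_apply]
  simp_rw [fourier_coe_apply]
  rw [← Complex.exp_sum]
  congr 1
  push_cast
  rw [Finset.mul_sum, Finset.sum_mul]
  refine Finset.sum_congr rfl fun i _ => ?_
  ring

lemma norm_mF {d : ℕ} (k : Fin d → ℤ) (x : T d) : ‖mFourier k x‖ ≤ 1 := by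
  calc ‖mFourier k x‖ ≤ ‖mFourier k‖ := (mFourier k).norm_coe_le_norm x
    _ = 1 := mFourier_norm

lemma norm_mc {d : ℕ} (η : Measure (T d)) [IsProbabilityMeasure η] (k : Fin d → ℤ) :
    ‖mc η k‖ ≤ 1 := by
  unfold mc
  have h := norm_integral_le_of_norm_le_const (μ := η) (f := fun x => mFourier (-k) x) (C := 1)
    (Eventually.of_forall fun x => norm_mF _ _)
  simpa using h

/-- coefficient of the velocity field -/
noncomputable def Cf {d : ℕ} (A : AI d) (η : Measure (T d)) (i : Fin d) (k : Fin d → ℤ) : ℂ :=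
  (A.a k : ℂ) * (sy i k * mc η k)

lemma norm_Cf {d : ℕ} (A : AI d) (η : Measure (T d)) [IsProbabilityMeasure η] (i : Fin d)
    (k : Fin d → ℤ) : ‖Cf A η i k‖ ≤ ‖sy i k‖ := by
  unfold Cf
  rw [norm_mul, norm_mul, Complex.norm_real, Real.norm_of_nonneg (A.nonneg k)]
  have h1 := A.le_one k
  have h2 := norm_mc η k
  have h3 := norm_nonneg (sy i k)
  have h4 := norm_nonneg (mc η k)
  have h5 : ‖sy i k‖ * ‖mc η k‖ ≤ ‖sy i k‖ * 1 := mul_le_mul_of_nonneg_left h2 h3
  calc A.a k * (‖sy i k‖ * ‖mc η k‖) ≤ 1 * (‖sy i k‖ * ‖mc η k‖) :=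
        mul_le_mul_of_nonneg_right h1 (by positivity)
    _ ≤ ‖sy i k‖ := by linarith

lemma wA_eq {d : ℕ} (A : AI d) (η : Measure (T d)) (i : Fin d) (x : T d) :
    wA A η i x = (∑ k ∈ A.s, Cf A η i k * mFourier k x).re := rfl

/-- entries of the derivative of the velocity field -/
noncomputable def BM {d : ℕ} (A : AI d) (η : Measure (T d)) (x : T d) :
    Matrix (Fin d) (Fin d) ℝ := fun i j =>
  (∑ k ∈ A.s, Cf A η i k * mFourier k x * (2 * π * Complex.I) * (k j : ℂ)).re

/-- derivative of the velocity field -/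
noncomputable def Dw {d : ℕ} (A : AI d) (η : Measure (T d)) (i : Fin d) (x : T d) :
    (Fin d → ℝ) →L[ℝ] ℝ :=
  Complex.reCLM.comp (∑ k ∈ A.s, (Cf A η i k * mFourier k x * (2 * π * Complex.I)) •
    (Complex.ofRealCLM.comp (lin k)))

lemma Dw_apply {d : ℕ} (A : AI d) (η : Measure (T d)) (i : Fin d) (x : T d) (v : Fin d → ℝ) :
    Dw A η i x v = ∑ j, BM A η x i j * v j := by
  have h1 : Dw A η i x v =
      (∑ k ∈ A.s, (Cf A η i k * mFourier k x * (2 * π * Complex.I)) * ((lin k v : ℝ) : ℂ)).re := by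
    simp [Dw]
  have h2 : ∑ j, BM A η x i j * v j =
      (∑ j, ∑ k ∈ A.s, Cf A η i k * mFourier k x * (2 * π * Complex.I) * (k j : ℂ) * (v j : ℂ)).re := by
    rw [Complex.re_sum]
    refine Finset.sum_congr rfl fun j _ => ?_
    rw [← Finset.sum_mul, Complex.re_mul_ofReal]
    rfl
  rw [h1, h2, Finset.sum_comm]
  congr 1
  refine Finset.sum_congr rfl fun k _ => ?_
  rw [lin_apply]
  push_cast
  rw [Finset.mul_sum]
  refine Finset.sum_congr rfl fun j _ => ?_
  ring

lemma hasFDerivAt_w {d : ℕ} (A : AI d) (η : Measure (T d)) (i : Fin d) (x : Fin d → ℝ) :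
    HasFDerivAt (fun x => wA A η i (q x)) (Dw A η i (q x)) x := by
  have h1 : ∀ k : Fin d → ℤ, HasFDerivAt (fun x : Fin d → ℝ => Cf A η i k * mFourier k (q x))
      ((Cf A η i k * mFourier k (q x) * (2 * π * Complex.I)) •
        (Complex.ofRealCLM.comp (lin k))) x := by
    intro k
    have h2 : HasFDerivAt (fun x : Fin d → ℝ => ((2 * π * lin k x : ℝ) : ℂ) * Complex.I)
        ((2 * π * Complex.I) • (Complex.ofRealCLM.comp (lin k))) x := by
      have h3 : (fun x : Fin d → ℝ => ((2 * π * lin k x : ℝ) : ℂ) * Complex.I) =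
          ⇑((2 * π * Complex.I) • (Complex.ofRealCLM.comp (lin k)) : (Fin d → ℝ) →L[ℝ] ℂ) := by
        funext y
        simp
        ring
      rw [h3]
      exact ContinuousLinearMap.hasFDerivAt _
    have h4 := (h2.cexp).const_mul (Cf A η i k)
    have h5 : (fun x : Fin d → ℝ => Cf A η i k * mFourier k (q x)) =
        fun x : Fin d → ℝ => Cf A η i k * Complex.exp (((2 * π * lin k x : ℝ) : ℂ) * Complex.I) := by
      funext y
      rw [mFourier_q]
    rw [h5, mFourier_q]
    refine h4.congr_fderiv ?_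
    apply ContinuousLinearMap.ext
    intro v
    simp
    ring
  have h2 : HasFDerivAt (fun x : Fin d → ℝ => ∑ k ∈ A.s, Cf A η i k * mFourier k (q x))
      (∑ k ∈ A.s, (Cf A η i k * mFourier k (q x) * (2 * π * Complex.I)) •
        (Complex.ofRealCLM.comp (lin k))) x := by
    exact HasFDerivAt.fun_sum (u := A.s) (fun k _ => h1 k)
  exact (Complex.reCLM.hasFDerivAt.comp x h2)

lemma abs_BM {d : ℕ} (A : AI d) (η : Measure (T d)) [IsProbabilityMeasure η] (x : T d)
    (i j : Fin d) :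
    |BM A η x i j| ≤ ∑ i : Fin d, ∑ j : Fin d, ∑ k ∈ A.s, ‖sy i k‖ * (2 * π * |(k j : ℝ)|) := by
  calc |BM A η x i j| ≤ ‖∑ k ∈ A.s, Cf A η i k * mFourier k x * (2 * π * Complex.I) * (k j : ℂ)‖ :=
        Complex.abs_re_le_norm _
    _ ≤ ∑ k ∈ A.s, ‖Cf A η i k * mFourier k x * (2 * π * Complex.I) * (k j : ℂ)‖ :=
        norm_sum_le _ _
    _ ≤ ∑ k ∈ A.s, ‖sy i k‖ * (2 * π * |(k j : ℝ)|) := by
        refine Finset.sum_le_sum fun k _ => ?_
        rw [norm_mul, norm_mul, norm_mul]
        have h1 : ‖(2 * π * Complex.I : ℂ)‖ = 2 * π := by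
          simp [abs_of_nonneg Real.pi_pos.le]
        have h2 : ‖((k j : ℤ) : ℂ)‖ = |(k j : ℝ)| := by
          rw [Complex.norm_intCast]
        rw [h1, h2, mul_assoc]
        have h3 : ‖Cf A η i k‖ * ‖mFourier k x‖ ≤ ‖sy i k‖ * 1 :=
          mul_le_mul (norm_Cf A η i k) (norm_mF k x) (norm_nonneg _) (norm_nonneg _)
        rw [mul_one] at h3
        exact mul_le_mul_of_nonneg_right h3 (by positivity)
    _ ≤ ∑ j : Fin d, ∑ k ∈ A.s, ‖sy i k‖ * (2 * π * |(k j : ℝ)|) :=
        Finset.single_le_sum (f := fun j : Fin d => ∑ k ∈ A.s, ‖sy i k‖ * (2 * π * |(k j : ℝ)|))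
          (fun j _ => by positivity) (Finset.mem_univ j)
    _ ≤ ∑ i : Fin d, ∑ j : Fin d, ∑ k ∈ A.s, ‖sy i k‖ * (2 * π * |(k j : ℝ)|) :=
        Finset.single_le_sum (f := fun i : Fin d => ∑ j : Fin d, ∑ k ∈ A.s,
          ‖sy i k‖ * (2 * π * |(k j : ℝ)|)) (fun j _ => by positivity) (Finset.mem_univ i)

lemma mFourier_sub_arg {d : ℕ} (k : Fin d → ℤ) (x y : T d) :
    mFourier k (x - y) = mFourier k x * mFourier (-k) y := by
  have h : ∀ z : T d, ∀ k : Fin d → ℤ, mFourier k z = ∏ i, fourier (k i) (z i) := fun _ _ => rfl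
  rw [h, h, h, ← Finset.prod_mul_distrib]
  refine Finset.prod_congr rfl fun i _ => ?_
  simp only [Pi.sub_apply, Pi.neg_apply, fourier_apply]
  rw [← Circle.coe_mul, ← AddCircle.toCircle_add]
  congr 2
  rw [smul_sub, neg_smul, sub_eq_add_neg]

lemma sy_mul {d : ℕ} (k : Fin d → ℤ) :
    ∑ i, (2 * π * Complex.I * (k i : ℂ)) * sy i k = if k = 0 then 0 else -1 := by
  by_cases hk : k = 0
  · subst hk
    simp
  · rw [if_neg hk]
    have h1 : ∀ i, (2 * π * Complex.I * (k i : ℂ)) * sy i k =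
        -(((4 * π ^ 2 * (k i : ℝ) ^ 2 : ℝ) : ℂ) * (gh k : ℂ)) := by
      intro i
      unfold sy
      push_cast
      linear_combination (4 * (π : ℂ) ^ 2 * (k i : ℂ) ^ 2 * (gh k : ℂ)) * Complex.I_sq
    simp_rw [h1]
    rw [Finset.sum_neg_distrib, ← Finset.sum_mul, ← Complex.ofReal_sum, ← Complex.ofReal_mul]
    have h2 : (∑ i, 4 * π ^ 2 * (k i : ℝ) ^ 2) = 4 * π ^ 2 * ∑ i, (k i : ℝ) ^ 2 := by
      rw [Finset.mul_sum]
    have h3 : (4 * π ^ 2 * ∑ i, (k i : ℝ) ^ 2) ≠ 0 := by
      have h4 : ∃ i, k i ≠ 0 := by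
        by_contra hcon
        push Not at hcon
        exact hk (funext hcon)
      obtain ⟨i, hi⟩ := h4
      have h5 : 0 < (k i : ℝ) ^ 2 := by
        have : (k i : ℝ) ≠ 0 := by exact_mod_cast hi
        positivity
      have h6 : (k i : ℝ) ^ 2 ≤ ∑ i, (k i : ℝ) ^ 2 :=
        Finset.single_le_sum (f := fun i => (k i : ℝ) ^ 2) (fun j _ => by positivity)
          (Finset.mem_univ i)
      have h7 := Real.pi_pos
      have h8 : 0 < ∑ i, (k i : ℝ) ^ 2 := lt_of_lt_of_le h5 h6
      positivity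
    rw [h2, gh, mul_inv_cancel₀ h3]
    simp

lemma trace_BM {d : ℕ} (A : AI d) (η : Measure (T d)) [IsProbabilityMeasure η] (x : T d) :
    ∑ i, BM A η x i i ≤ 1 := by
  have h0 : (0 : Fin d → ℤ) ∈ A.s := by
    by_contra hcon
    have h1 := A.supp 0 hcon
    rw [A.zero] at h1
    exact one_ne_zero h1
  have hmc0 : mc η 0 = 1 := by
    unfold mc
    rw [neg_zero, mFourier_zero]
    simp
  -- the convolution
  have hint : ∀ k : Fin d → ℤ, Integrable (fun y => mFourier (-k) y) η := by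
    intro k
    exact Integrable.of_bound ((mFourier (-k)).continuous.aestronglyMeasurable) 1
      (Eventually.of_forall fun y => norm_mF _ _)
  have hconv : (∑ k ∈ A.s, (A.a k : ℂ) * mc η k * mFourier k x).re =
      ∫ y, (∑ k ∈ A.s, (A.a k : ℂ) * mFourier k (x - y)).re ∂η := by
    have h1 : (∑ k ∈ A.s, (A.a k : ℂ) * mc η k * mFourier k x) =
        ∫ y, (∑ k ∈ A.s, (A.a k : ℂ) * mFourier k (x - y)) ∂η := by
      rw [integral_finsetSum]
      · refine Finset.sum_congr rfl fun k _ => ?_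
        simp_rw [mFourier_sub_arg]
        have : (fun y => (A.a k : ℂ) * (mFourier k x * mFourier (-k) y)) =
            fun y => ((A.a k : ℂ) * mFourier k x) * mFourier (-k) y := by
          funext y; ring
        rw [this, integral_const_mul]
        unfold mc
        ring
      · intro k _
        simp_rw [mFourier_sub_arg]
        exact ((hint k).const_mul _).const_mul _
    rw [h1]
    have hI : Integrable (fun y => ∑ k ∈ A.s, (A.a k : ℂ) * mFourier k (x - y)) η := by
      apply integrable_finsetSum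
      intro k _
      simp_rw [mFourier_sub_arg]
      exact ((hint k).const_mul _).const_mul _
    exact (integral_re hI).symm
  have hpos : 0 ≤ (∑ k ∈ A.s, (A.a k : ℂ) * mc η k * mFourier k x).re := by
    rw [hconv]
    exact integral_nonneg fun y => A.pos _
  have h1 : ∑ i, BM A η x i i =
      (∑ k ∈ A.s, (A.a k : ℂ) * mc η k * mFourier k x *
        ∑ i, (2 * π * Complex.I * (k i : ℂ)) * sy i k).re := by
    unfold BM
    rw [← Complex.re_sum, Finset.sum_comm]
    congr 1
    refine Finset.sum_congr rfl fun k _ => ?_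
    rw [Finset.mul_sum]
    refine Finset.sum_congr rfl fun i _ => ?_
    unfold Cf
    ring
  have h2 : (∑ k ∈ A.s, (A.a k : ℂ) * mc η k * mFourier k x *
        ∑ i, (2 * π * Complex.I * (k i : ℂ)) * sy i k) =
      1 - ∑ k ∈ A.s, (A.a k : ℂ) * mc η k * mFourier k x := by
    simp_rw [sy_mul]
    rw [← Finset.add_sum_erase A.s _ h0, ← Finset.add_sum_erase A.s
      (fun k => (A.a k : ℂ) * mc η k * mFourier k x) h0]
    simp only [if_true, mul_zero, zero_add, A.zero, hmc0, mFourier_zero, ContinuousMap.one_apply,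
      Complex.ofReal_one, mul_one]
    have : ∑ k ∈ A.s.erase 0, (A.a k : ℂ) * mc η k * mFourier k x * (if k = 0 then 0 else -1) =
        -∑ k ∈ A.s.erase 0, (A.a k : ℂ) * mc η k * mFourier k x := by
      rw [← Finset.sum_neg_distrib]
      refine Finset.sum_congr rfl fun k hk => ?_
      rw [if_neg (Finset.ne_of_mem_erase hk)]
      ring
    rw [this]
    ring
  rw [h1, h2, Complex.sub_re, Complex.one_re]
  linarith

theorem dens (d : ℕ) : S_DENS d := by
  intro A
  set b : ℝ := ∑ i : Fin d, ∑ j : Fin d, ∑ k ∈ A.s, ‖sy i k‖ * (2 * π * |(k j : ℝ)|) with hb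
  have hb0 : 0 ≤ b := by positivity
  set C0 : ℝ := (d.factorial + 1 : ℝ) * (1 + b) ^ d with hC0
  have hC00 : 0 ≤ C0 := by positivity
  refine ⟨C0 + 2 * (1 + C0) ^ 2, 1 / (2 * (1 + C0 + d * b)), by positivity, by positivity, ?_⟩
  intro η M hη hM hDom t ht htt
  have hK : 0 < 1 + C0 + d * b := by positivity
  have htK : t * (1 + C0 + d * b) ≤ 1 / 2 := by
    calc t * (1 + C0 + d * b) ≤ (1 / (2 * (1 + C0 + d * b))) * (1 + C0 + d * b) :=
          mul_le_mul_of_nonneg_right htt hK.le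
      _ = 1 / 2 := by field_simp
  have htC : 0 ≤ t * C0 := by positivity
  have htb : 0 ≤ t * (d * b) := by positivity
  have ht1 : t ≤ 1 := by nlinarith
  set W : T d → Fin d → ℝ := fun x i => t * wA A η i x with hW
  have hWm : Measurable W := by
    refine measurable_pi_lambda _ fun i => ?_
    have h1 : Continuous fun x : T d => (∑ k ∈ A.s, Cf A η i k * mFourier k x).re := by
      apply Complex.continuous_re.comp
      refine continuous_finsetSum _ fun k _ => ?_
      exact continuous_const.mul (mFourier k).continuous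
    exact h1.measurable.const_mul t
  set V' : (Fin d → ℝ) → (Fin d → ℝ) →L[ℝ] (Fin d → ℝ) := fun x =>
    LinearMap.toContinuousLinearMap (Matrix.toLin' (1 - t • BM A η (q x))) with hV'
  have hV'a : ∀ x v i, V' x v i = v i - t * ∑ j, BM A η (q x) i j * v j := by
    intro x v i
    simp only [hV', LinearMap.coe_toContinuousLinearMap', Matrix.toLin'_apply]
    rw [Matrix.sub_mulVec, Matrix.one_mulVec, Matrix.smul_mulVec]
    simp [Matrix.mulVec, dotProduct]
  have hV : ∀ x, HasFDerivAt (fun x : Fin d → ℝ => x - W (q x)) (V' x) x := by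
    intro x
    rw [hasFDerivAt_pi']
    intro i
    have h1 : HasFDerivAt (fun x : Fin d → ℝ => x i)
        (ContinuousLinearMap.proj (R := ℝ) (φ := fun _ : Fin d => ℝ) i) x :=
      (ContinuousLinearMap.proj (R := ℝ) (φ := fun _ : Fin d => ℝ) i).hasFDerivAt
    have h2 := h1.sub ((hasFDerivAt_w A η i x).const_mul t)
    have h3 : (ContinuousLinearMap.proj (R := ℝ) (φ := fun _ : Fin d => ℝ) i).comp (V' x) =
        ContinuousLinearMap.proj (R := ℝ) (φ := fun _ : Fin d => ℝ) i - t • Dw A η i (q x) := by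
      apply ContinuousLinearMap.ext
      intro v
      have e1 : ((ContinuousLinearMap.proj (R := ℝ) (φ := fun _ : Fin d => ℝ) i).comp (V' x)) v =
          V' x v i := rfl
      have e2 : (ContinuousLinearMap.proj (R := ℝ) (φ := fun _ : Fin d => ℝ) i -
          t • Dw A η i (q x)) v = v i - t * Dw A η i (q x) v := rfl
      rw [e1, e2, hV'a, Dw_apply]
    rw [h3]
    exact h2
  have hLip : ∀ (i : Fin d) (x y : Fin d → ℝ),
      |wA A η i (q x) - wA A η i (q y)| ≤ (d * b) * ‖x - y‖ := by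
    intro i x y
    have h := (convex_univ : Convex ℝ (univ : Set (Fin d → ℝ))).norm_image_sub_le_of_norm_hasFDerivWithin_le
      (f := fun x => wA A η i (q x)) (f' := fun x => Dw A η i (q x)) (C := d * b)
      (fun x _ => (hasFDerivAt_w A η i x).hasFDerivWithinAt) ?_ (mem_univ y) (mem_univ x)
    · exact h
    · intro x _
      apply ContinuousLinearMap.opNorm_le_bound _ (by positivity)
      intro v
      rw [Dw_apply]
      calc ‖∑ j, BM A η (q x) i j * v j‖ ≤ ∑ j, ‖BM A η (q x) i j * v j‖ := norm_sum_le _ _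
        _ ≤ ∑ j : Fin d, b * ‖v‖ := by
            refine Finset.sum_le_sum fun j _ => ?_
            rw [norm_mul]
            exact mul_le_mul (abs_BM A η (q x) i j) (norm_le_pi_norm v j) (norm_nonneg _) hb0
        _ = (d * b) * ‖v‖ := by
            rw [Finset.sum_const, Finset.card_univ, Fintype.card_fin, nsmul_eq_mul]
            ring
  have hinj : Function.Injective (fun x : Fin d → ℝ => x - W (q x)) := by
    intro x y hxy
    have h1 : ‖x - y‖ ≤ (t * (d * b)) * ‖x - y‖ := by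
      rw [pi_norm_le_iff_of_nonneg (by positivity)]
      intro i
      have h2 := congrFun hxy i
      simp only [Pi.sub_apply, hW] at h2
      have h3 : x i - y i = t * (wA A η i (q x) - wA A η i (q y)) := by linarith
      rw [Pi.sub_apply, h3, Real.norm_eq_abs, abs_mul, abs_of_nonneg ht, mul_assoc]
      exact mul_le_mul_of_nonneg_left (hLip i x y) ht
    have h2 : t * (d * b) ≤ 1 / 2 := by nlinarith
    have h3 : ‖x - y‖ ≤ 0 := by nlinarith [norm_nonneg (x - y)]
    rw [← sub_eq_zero, ← norm_le_zero_iff]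
    exact h3
  set δ : ℝ := t + C0 * t ^ 2 with hδ
  have hδ1 : δ ≤ t * (1 + C0) := by
    have : C0 * t ^ 2 ≤ C0 * t := by nlinarith
    nlinarith
  have hδ0 : 0 ≤ δ := by positivity
  have hδ2 : δ ≤ 1 / 2 := by nlinarith
  have hdet : ∀ x, 1 - δ ≤ (V' x).det := by
    intro x
    have h1 : (V' x).det = (1 - t • BM A η (q x)).det := by
      simp only [hV', ContinuousLinearMap.det]
      rw [LinearMap.coe_toContinuousLinearMap, LinearMap.det_toLin']
    rw [h1]
    have h2 := det_ge b hb0 (BM A η (q x)) (abs_BM A η (q x)) t ht ht1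
    have h3 := trace_BM A η (q x)
    have h4 : t * ∑ i, BM A η (q x) i i ≤ t * 1 := mul_le_mul_of_nonneg_left h3 ht
    linarith
  have hmap := map_le W hWm V' hV hinj (1 - δ) (by linarith) hdet
  have hTA : TA A η t = fun x : T d => fun i => x i - ((W x i : ℝ) : UnitAddCircle) := rfl
  rw [← hTA] at hmap
  have hTm : Measurable (TA A η t) := by
    rw [hTA]
    refine measurable_pi_lambda _ fun i => ?_
    have h1 : Measurable fun x : T d => ((W x i : ℝ) : UnitAddCircle) :=
      (AddCircle.continuous_mk' (1:ℝ)).measurable.comp ((measurable_pi_apply i).comp hWm)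
    exact (measurable_pi_apply i).sub h1
  have hinv : (1 - δ)⁻¹ ≤ 1 + t + (C0 + 2 * (1 + C0) ^ 2) * t ^ 2 := by
    have h1 : (1 - δ)⁻¹ ≤ 1 + δ + 2 * δ ^ 2 := by
      rw [inv_le_iff_one_le_mul₀' (by linarith)]
      nlinarith [mul_nonneg (sq_nonneg δ) (by linarith : (0:ℝ) ≤ 1 - 2 * δ)]
    have h2 : δ ^ 2 ≤ (t * (1 + C0)) ^ 2 := by
      exact pow_le_pow_left₀ hδ0 hδ1 2
    calc (1 - δ)⁻¹ ≤ 1 + δ + 2 * δ ^ 2 := h1
      _ ≤ 1 + (t + C0 * t ^ 2) + 2 * (t * (1 + C0)) ^ 2 := by rw [hδ] at h2 ⊢; linarith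
      _ = 1 + t + (C0 + 2 * (1 + C0) ^ 2) * t ^ 2 := by ring
  unfold Dom at hDom ⊢
  calc η.map (TA A η t) ≤ (ENNReal.ofReal M • vol d).map (TA A η t) :=
        Measure.map_mono hDom hTm
    _ = ENNReal.ofReal M • (vol d).map (TA A η t) := by rw [Measure.map_smul]
    _ ≤ ENNReal.ofReal M • (ENNReal.ofReal (1 - δ)⁻¹ • vol d) := by
        rw [Measure.le_iff] at hmap ⊢
        intro s hs
        rw [Measure.smul_apply, Measure.smul_apply, smul_eq_mul, smul_eq_mul]
        have := hmap s hs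
        gcongr
    _ ≤ ENNReal.ofReal (M * (1 + t + (C0 + 2 * (1 + C0) ^ 2) * t ^ 2)) • vol d := by
        rw [smul_smul, ← ENNReal.ofReal_mul hM]
        rw [Measure.le_iff]
        intro s _
        rw [Measure.smul_apply, Measure.smul_apply, smul_eq_mul, smul_eq_mul]
        gcongr

end Pool.Agent.R763.PL.Dens
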