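import Pool.Agent.R763.PL.Stm

/-!
# DENS, part 1: change of variables on the torus
-/

set_option autoImplicit false

open MeasureTheory UnitAddTorus Filter Topology Set
open scoped ENNReal Real

namespace Pool.Agent.R763.PL.Dens

/-- quotient map -/
noncomputable def q {d : ℕ} (x : Fin d → ℝ) : T d := fun i => (x i : UnitAddCircle)

/-- unit cube -/
def Q (d : ℕ) : Set (Fin d → ℝ) := Set.univ.pi fun _ => Ioc (0 : ℝ) 1

lemma measurableSet_Q (d : ℕ) : MeasurableSet (Q d) :=
  MeasurableSet.univ_pi fun _ => measurableSet_Ioc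

lemma continuous_q {d : ℕ} : Continuous (q (d := d)) := by
  unfold q
  exact continuous_pi fun i => (AddCircle.continuous_mk' 1).comp (continuous_apply i)

lemma measurable_q {d : ℕ} : Measurable (q (d := d)) := continuous_q.measurable

lemma mp_q (d : ℕ) : MeasurePreserving (q (d := d)) (volume.restrict (Q d)) (vol d) := by
  have h1 : ∀ _ : Fin d, MeasurePreserving (fun x : ℝ => (x : UnitAddCircle))
      (volume.restrict (Ioc (0:ℝ) 1)) (AddCircle.haarAddCircle : Measure UnitAddCircle) := by
    intro _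
    have h := AddCircle.measurePreserving_mk (1:ℝ) 0
    rw [zero_add, AddCircle.volume_eq_smul_haarAddCircle] at h
    simpa using h
  have h2 := measurePreserving_pi (fun _ : Fin d => (volume : Measure ℝ).restrict (Ioc (0:ℝ) 1))
    (fun _ => (AddCircle.haarAddCircle : Measure UnitAddCircle)) h1
  have h3 : (volume : Measure (Fin d → ℝ)).restrict (Q d)
      = Measure.pi (fun _ : Fin d => (volume:Measure ℝ).restrict (Ioc 0 1)) := by
    rw [volume_pi, Q, Measure.restrict_pi_pi]
  rw [h3]
  exact h2

lemma vol_apply {d : ℕ} {A : Set (T d)} (hA : MeasurableSet A) :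
    vol d A = volume (q ⁻¹' A ∩ Q d) := by
  rw [← (mp_q d).measure_preimage hA.nullMeasurableSet,
    Measure.restrict_apply (measurable_q hA)]

lemma q_add_int {d : ℕ} (x : Fin d → ℝ) (k : Fin d → ℤ) :
    q (fun i => x i + (k i : ℝ)) = q x := by
  funext i
  have : (((k i : ℝ)) : UnitAddCircle) = 0 := by
    rw [AddCircle.coe_eq_zero_iff]
    exact ⟨k i, by simp⟩
  simp only [q]
  rw [AddCircle.coe_add, this, add_zero]

lemma q_eq {d : ℕ} {x y : Fin d → ℝ} (h : q x = q y) :
    ∃ k : Fin d → ℤ, x = fun i => y i + (k i : ℝ) := by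
  have h1 : ∀ i, ∃ n : ℤ, x i = y i + (n : ℝ) := by
    intro i
    have h2 : ((x i : ℝ) : UnitAddCircle) = (y i : UnitAddCircle) := congrFun h i
    have h3 : ((x i - y i : ℝ) : UnitAddCircle) = 0 := by
      rw [AddCircle.coe_sub, h2, sub_self]
    rw [AddCircle.coe_eq_zero_iff] at h3
    obtain ⟨n, hn⟩ := h3
    refine ⟨n, ?_⟩
    simp at hn
    linarith
  choose k hk using h1
  exact ⟨k, funext hk⟩

/-- a set on which `q` is injective is at most as large as its image -/
lemma volume_le {d : ℕ} {A : Set (T d)} (hA : MeasurableSet A) {B : Set (Fin d → ℝ)}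
    (hB : MeasurableSet B) (hBA : B ⊆ q ⁻¹' A) (hinj : InjOn q B) :
    volume B ≤ vol d A := by
  set D : (Fin d → ℤ) → Set (Fin d → ℝ) := fun k =>
    (fun y : Fin d → ℝ => y + fun i => (k i : ℝ)) ⁻¹' B ∩ Q d with hD
  have hmeas : ∀ k, MeasurableSet (D k) := fun k =>
    ((measurable_id.add_const _) hB).inter (measurableSet_Q d)
  have hcov : B ⊆ ⋃ k : Fin d → ℤ, (fun y : Fin d → ℝ => y + fun i => -(k i : ℝ)) ⁻¹' D k := by
    intro x hx
    rw [mem_iUnion]
    refine ⟨fun i => ⌈x i⌉ - 1, ?_⟩
    simp only [hD, mem_preimage, mem_inter_iff]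
    constructor
    · have : (x + (fun i => -((⌈x i⌉ - 1 : ℤ) : ℝ))) + (fun i => ((⌈x i⌉ - 1 : ℤ) : ℝ)) = x := by
        funext i
        simp
        ring
      rw [this]
      exact hx
    · intro i _
      have h1 := Int.ceil_lt_add_one (x i)
      have h2 := Int.le_ceil (x i)
      simp only [Pi.add_apply, Int.cast_sub, Int.cast_one]
      constructor <;> linarith
  calc volume B ≤ volume (⋃ k : Fin d → ℤ,
        (fun y : Fin d → ℝ => y + fun i => -(k i : ℝ)) ⁻¹' D k) := measure_mono hcov
    _ ≤ ∑' k : Fin d → ℤ, volume ((fun y : Fin d → ℝ => y + fun i => -(k i : ℝ)) ⁻¹' D k) :=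
        measure_iUnion_le _
    _ = ∑' k : Fin d → ℤ, volume (D k) := by
        refine tsum_congr fun k => ?_
        exact measure_preimage_add_right volume _ _
    _ = volume (⋃ k, D k) := by
        rw [measure_iUnion _ hmeas]
        intro k l hkl
        rw [Function.onFun, Set.disjoint_left]
        rintro y ⟨hy1, _⟩ ⟨hy2, _⟩
        apply hkl
        have hq : q (y + fun i => (k i : ℝ)) = q (y + fun i => (l i : ℝ)) :=
          (q_add_int y k).trans (q_add_int y l).symm
        have he := hinj hy1 hy2 hq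
        funext i
        have := congrFun he i
        simp only [Pi.add_apply, add_right_inj, Int.cast_inj] at this
        exact this
    _ ≤ volume (q ⁻¹' A ∩ Q d) := by
        apply measure_mono
        apply iUnion_subset
        intro k y hy
        refine ⟨?_, hy.2⟩
        have h1 : q (y + fun i => (k i : ℝ)) ∈ A := hBA hy.1
        have h2 : q (y + fun i => (k i : ℝ)) = q y := q_add_int y k
        rw [h2] at h1
        exact h1
    _ = vol d A := (vol_apply hA).symm

/-- change of variables inequality on the torus -/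
lemma map_le {d : ℕ} (W : T d → Fin d → ℝ) (hW : Measurable W)
    (V' : (Fin d → ℝ) → (Fin d → ℝ) →L[ℝ] (Fin d → ℝ))
    (hV : ∀ x, HasFDerivAt (fun x : Fin d → ℝ => x - W (q x)) (V' x) x)
    (hinj : Function.Injective (fun x : Fin d → ℝ => x - W (q x)))
    (θ : ℝ) (hθ : 0 < θ) (hdet : ∀ x, θ ≤ (V' x).det) :
    (vol d).map (fun x : T d => fun i => x i - ((W x i : ℝ) : UnitAddCircle))
      ≤ ENNReal.ofReal θ⁻¹ • vol d := by
  set V : (Fin d → ℝ) → (Fin d → ℝ) := fun x => x - W (q x) with hVdef
  set Tt : T d → T d := fun x : T d => fun i => x i - ((W x i : ℝ) : UnitAddCircle) with hTdef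
  have hTm : Measurable Tt := by
    refine measurable_pi_lambda _ fun i => ?_
    have h1 : Measurable fun x : T d => ((W x i : ℝ) : UnitAddCircle) :=
      (AddCircle.continuous_mk' (1:ℝ)).measurable.comp ((measurable_pi_apply i).comp hW)
    exact (measurable_pi_apply i).sub h1
  have hqV : ∀ x, q (V x) = Tt (q x) := by
    intro x
    funext i
    simp only [q, hVdef, hTdef, Pi.sub_apply]
    rw [AddCircle.coe_sub]
  have hVadd : ∀ (x : Fin d → ℝ) (k : Fin d → ℤ),
      V (fun i => x i + (k i : ℝ)) = fun i => V x i + (k i : ℝ) := by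
    intro x k
    funext i
    simp only [hVdef, Pi.sub_apply]
    rw [q_add_int]
    ring
  rw [Measure.le_iff]
  intro A hA
  rw [Measure.map_apply hTm hA, vol_apply (hTm hA)]
  set S : Set (Fin d → ℝ) := q ⁻¹' (Tt ⁻¹' A) ∩ Q d with hS
  have hSm : MeasurableSet S := (measurable_q (hTm hA)).inter (measurableSet_Q d)
  have hder : ∀ x ∈ S, HasFDerivWithinAt V (V' x) S x := fun x _ => (hV x).hasFDerivWithinAt
  have hinjS : InjOn V S := hinj.injOn
  have h1 := lintegral_abs_det_fderiv_eq_addHaar_image (volume : Measure (Fin d → ℝ)) hSm hder hinjS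
  have h2 : ENNReal.ofReal θ * volume S ≤ volume (V '' S) := by
    rw [← h1]
    calc ENNReal.ofReal θ * volume S = ∫⁻ _ in S, ENNReal.ofReal θ := by
          rw [setLIntegral_const]
      _ ≤ ∫⁻ x in S, ENNReal.ofReal |(V' x).det| := by
          apply lintegral_mono
          intro x
          exact ENNReal.ofReal_le_ofReal ((hdet x).trans (le_abs_self _))
  have h3 : volume (V '' S) ≤ vol d A := by
    refine volume_le hA (measurable_image_of_fderivWithin hSm hder hinjS) ?_ ?_
    · rintro _ ⟨x, hx, rfl⟩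
      rw [mem_preimage, hqV]
      exact hx.1
    · rintro _ ⟨x, hx, rfl⟩ _ ⟨y, hy, rfl⟩ hxy
      obtain ⟨k, hk⟩ := q_eq hxy
      rw [← hVadd] at hk
      have h4 := hinj hk
      have h5 : k = 0 := by
        funext i
        have h6 := congrFun h4 i
        have h7 := hx.2 i (mem_univ i)
        have h8 := hy.2 i (mem_univ i)
        simp only [mem_Ioc] at h7 h8
        have h9 : (k i : ℝ) < 1 := by linarith
        have h10 : (-1 : ℝ) < (k i : ℝ) := by linarith
        have h11 : k i < 1 := by exact_mod_cast h9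
        have h12 : -1 < k i := by exact_mod_cast h10
        simp only [Pi.zero_apply]
        omega
      rw [h4, h5]
      simp
  have h4 : ENNReal.ofReal θ * volume S ≤ vol d A := h2.trans h3
  rw [Measure.smul_apply, smul_eq_mul, ENNReal.ofReal_inv_of_pos hθ]
  have h5 : ENNReal.ofReal θ ≠ 0 := by
    rw [Ne, ENNReal.ofReal_eq_zero, not_le]
    exact hθ
  calc volume S = (ENNReal.ofReal θ)⁻¹ * (ENNReal.ofReal θ * volume S) := by
        rw [← mul_assoc, ENNReal.inv_mul_cancel h5 ENNReal.ofReal_ne_top, one_mul]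
    _ ≤ (ENNReal.ofReal θ)⁻¹ * vol d A := by gcongr

end Pool.Agent.R763.PL.Dens
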