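import Pool.Agent.R763.PL.Defs

/-!
# Coulomb MMD on the torus: the independent pieces (statements)
-/

set_option autoImplicit false

open MeasureTheory UnitAddTorus Filter Topology
open scoped ENNReal Real ContDiff

namespace Pool.Agent.R763.PL

/-! ## Part P : the inequality for densities -/

/-- FEJ: product Fejér kernels form an approximate identity -/
def S_FEJ (d : ℕ) : Prop := ∃ A : ℕ → AI d, AppId A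

/-- KER: the gradient of the Green kernel is integrable -/
def S_KER (d : ℕ) : Prop :=
  ∃ K : Fin d → T d → ℝ, ∀ i, Integrable (K i) (vol d) ∧ ∀ k, fc (K i) k = sy i k

/-- YOU: convolution with an integrable kernel (Young) for `p = 3` and `p = 3/2` -/
def S_YOU (d : ℕ) : Prop :=
  ∀ K : T d → ℝ, Integrable K (vol d) → ∀ p : ℝ≥0∞, (p = 3 ∨ p = 3 / 2) →
    ∀ f : T d → ℝ, MemLp f p (vol d) → ∃ g : T d → ℝ, MemLp g p (vol d) ∧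
      eLpNorm g p (vol d) ≤ eLpNorm K 1 (vol d) * eLpNorm f p (vol d) ∧
      ∀ k, fc g k = fc K k * fc f k

/-- UNI: uniqueness of Fourier coefficients -/
def S_UNI (d : ℕ) : Prop :=
  ∀ f : T d → ℝ, Integrable f (vol d) → (∀ k, fc f k = 0) → f =ᵐ[vol d] 0

/-- SMO: smoothing = convolution, contraction, convergence (`p = 1, 3/2, 2, 3`) -/
def S_SMO (d : ℕ) : Prop :=
  (∀ (A : AI d) (f : T d → ℝ), Integrable f (vol d) →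
    ∀ x, A.sm (fc f) x = ∫ y, A.ker (x - y) * f y ∂vol d) ∧
  (∀ (A : AI d) (p : ℝ≥0∞), (p = 1 ∨ p = 3 / 2 ∨ p = 2 ∨ p = 3) → ∀ f : T d → ℝ,
    MemLp f p (vol d) → eLpNorm (A.sm (fc f)) p (vol d) ≤ eLpNorm f p (vol d)) ∧
  (∀ A : ℕ → AI d, (∀ k, Tendsto (fun n => (A n).a k) atTop (𝓝 1)) →
    ∀ p : ℝ≥0∞, (p = 1 ∨ p = 3 / 2 ∨ p = 2 ∨ p = 3) → ∀ f : T d → ℝ, MemLp f p (vol d) →
    Tendsto (fun n => eLpNorm (fun x => (A n).sm (fc f) x - f x) p (vol d)) atTop (𝓝 0))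

/-- EXI: existence of `v`, `h`, `φ` (from KER and YOU) -/
def S_EXI (d : ℕ) : Prop :=
  ∀ ρ : T d → ℝ, MemLp ρ 3 (vol d) →
    (∃ v, Grad ρ v) ∧ (∃ h, Pot ρ h) ∧ ∀ v, Grad ρ v → ∃ φ, Aux ρ v φ

/-- CPT: compactness of `ρ ↦ v` -/
def S_CPT (d : ℕ) : Prop :=
  ∀ (ρ : ℕ → T d → ℝ) (v : ℕ → Fin d → T d → ℝ) (ρ₀ : T d → ℝ) (v₀ : Fin d → T d → ℝ) (C : ℝ),
    (∀ n, MemLp (ρ n) 3 (vol d)) → (∀ n, eLpNorm (ρ n) 3 (vol d) ≤ ENNReal.ofReal C) →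
    MemLp ρ₀ 3 (vol d) → (∀ n, Grad (ρ n) (v n)) → Grad ρ₀ v₀ →
    (∀ k, Tendsto (fun n => fc (ρ n) k) atTop (𝓝 (fc ρ₀ k))) →
    ∀ i, Tendsto (fun n => eLpNorm (fun x => v n i x - v₀ i x) 3 (vol d)) atTop (𝓝 0)

/-- MIN: existence of a minimiser of `J_δ` -/
def S_MIN (d : ℕ) : Prop :=
  ∀ δ : ℝ, 0 < δ → ∃ (ρ : T d → ℝ) (v : Fin d → T d → ℝ), Adm ρ ∧ Grad ρ v ∧
    ∀ (ρ' : T d → ℝ) (v' : Fin d → T d → ℝ), Adm ρ' → Grad ρ' v' → Jd δ ρ v ≤ Jd δ ρ' v'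

/-- VAR: first variation -/
def S_VAR (d : ℕ) : Prop :=
  ∀ (ρ h φ σ : T d → ℝ) (v w : Fin d → T d → ℝ), MemLp ρ 3 (vol d) → Grad ρ v → Pot ρ h →
    Aux ρ v φ → MemLp σ 3 (vol d) → (∫ x, σ x ∂vol d = 0) → Grad σ w →
    (∫ x, σ x * ∑ i, v i x ^ 2 ∂vol d) + 2 * (∫ x, ρ x * ∑ i, v i x * w i x ∂vol d)
      - 2 * c1 d * (∫ x, ∑ i, v i x * w i x ∂vol d) = ∫ x, σ x * Lf v h φ x ∂vol d

/-- BOT: Bochner for trigonometric polynomials -/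
def S_BOT (d : ℕ) : Prop :=
  ∀ c z : (Fin d → ℤ) →₀ ℂ, RT c → RT z → (∀ x, 0 ≤ ev z x) →
    0 ≤ ∫ x, (evl z x * ∑ i, evd c i x ^ 2 + 2 * evl c x * ∑ i, evd z i x * evd c i x
      + 6 * kd d * ev z x * evl c x ^ 2) ∂vol d

/-- the distributional inequality `ΔL + fB ≥ 0`, smoothed by `A` -/
def BocAt {d : ℕ} (ρ : T d → ℝ) (v : Fin d → T d → ℝ) (h φ : T d → ℝ) : Prop :=
  ∀ (A : AI d) (x : T d),
    0 ≤ A.sm (fun k => (-(4 * π ^ 2 * ∑ i, (k i : ℝ) ^ 2 : ℝ) : ℂ) * fc (Lf v h φ) k) x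
      + A.sm (fc (fB ρ)) x

/-- BOC: Bochner inequality for `L³` densities -/
def S_BOC (d : ℕ) : Prop :=
  ∀ (ρ : T d → ℝ) (v : Fin d → T d → ℝ) (h φ : T d → ℝ), MemLp ρ 3 (vol d) → (∫ x, ρ x ∂vol d = 1) →
    Grad ρ v → Pot ρ h → Aux ρ v φ → BocAt ρ v h φ

/-- TES: test with `(L - λ)₊` -/
def S_TES (d : ℕ) : Prop :=
  ∀ (ρ : T d → ℝ) (v : Fin d → T d → ℝ) (h φ : T d → ℝ) (l : ℝ), Adm ρ → Grad ρ v → Pot ρ h →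
    Aux ρ v φ → BocAt ρ v h φ → (∀ᵐ x ∂vol d, 0 < ρ x → Lf v h φ x ≤ l) →
    ∫ x, max (Lf v h φ x - l) 0 ∂vol d ≤ 2 * kd d * ∫ x, ∑ i, v i x ^ 2 ∂vol d

/-- KKT: optimality conditions and homogeneity -/
def S_KKT (d : ℕ) : Prop :=
  ∀ (δ : ℝ) (ρ : T d → ℝ) (v : Fin d → T d → ℝ) (h φ : T d → ℝ), 0 < δ → Adm ρ → Grad ρ v →
    Pot ρ h → Aux ρ v φ →
    (∀ (ρ' : T d → ℝ) (v' : Fin d → T d → ℝ), Adm ρ' → Grad ρ' v' → Jd δ ρ v ≤ Jd δ ρ' v') →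
    ∃ l : ℝ, (∀ᵐ x ∂vol d, 0 < ρ x → Lf v h φ x ≤ l) ∧
      (1 / 3) * (2 * kd d * (∫ x, ∑ i, v i x ^ 2 ∂vol d) - ∫ x, max (Lf v h φ x - l) 0 ∂vol d)
        ≤ Jd δ ρ v

/-- PL for densities -/
def S_PL (d : ℕ) : Prop :=
  ∀ (ρ : T d → ℝ) (v : Fin d → T d → ℝ), Adm ρ → Grad ρ v →
    c1 d * (∫ x, ∑ i, v i x ^ 2 ∂vol d) ≤ ∫ x, ρ x * ∑ i, v i x ^ 2 ∂vol d

/-! ## Part G : from densities to the slope of all measures -/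

/-- STEP: one Euler step of the smoothed flow -/
def S_STEP (d : ℕ) : Prop :=
  ∀ A : AI d, ∃ C : ℝ, 0 ≤ C ∧ ∀ η : Measure (T d), IsProbabilityMeasure η →
    ∀ τ : ℝ, 0 ≤ τ → τ ≤ 1 → EA A (η.map (TA A η τ)) ≤ EA A η - τ * DA A η + C * τ ^ 2

/-- DENS: growth of the density in one step -/
def S_DENS (d : ℕ) : Prop :=
  ∀ A : AI d, ∃ C τ₀ : ℝ, 0 ≤ C ∧ 0 < τ₀ ∧ ∀ (η : Measure (T d)) (M : ℝ), IsProbabilityMeasure η →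
    0 ≤ M → Dom M η → ∀ τ : ℝ, 0 ≤ τ → τ ≤ τ₀ → Dom (M * (1 + τ + C * τ ^ 2)) (η.map (TA A η τ))

/-- FLOW: iteration of STEP and DENS -/
def S_FLOW (d : ℕ) : Prop :=
  ∀ (A : AI d) (M t e κ : ℝ) (η₀ : Measure (T d)), 0 ≤ M → 0 < t → 0 ≤ e → 0 < κ →
    IsProbabilityMeasure η₀ → Dom M η₀ →
    (∀ η : Measure (T d), IsProbabilityMeasure η → Dom (M * Real.exp (2 * t)) η →
      2 * c1 d * EA A η - e ≤ DA A η) →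
    ∃ (S : T d → T d) (u : T d → Fin d → ℝ), Measurable S ∧ Measurable u ∧
      (∀ x i, S x i = x i + ((u x i : ℝ) : UnitAddCircle)) ∧ Integrable (fun x => ∑ i, u x i ^ 2) η₀ ∧
      (∫ x, ∑ i, u x i ^ 2 ∂η₀) ≤ t * (EA A η₀ - EA A (η₀.map S)) + κ ∧
      Dom (M * Real.exp (2 * t)) (η₀.map S) ∧
      EA A (η₀.map S) ≤ Real.exp (-(2 * c1 d * t)) * EA A η₀ + e * t + κ

/-- ERR: for bounded densities the smoothed quantities are close to the exact ones -/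
def S_ERR (d : ℕ) : Prop :=
  ∀ A : ℕ → AI d, AppId A → ∀ M e : ℝ, 0 ≤ M → 0 < e → ∃ N : ℕ, ∀ n, N ≤ n →
    ∀ η : Measure (T d), IsProbabilityMeasure η → Dom M η →
      2 * c1 d * EA (A n) η - e ≤ DA (A n) η ∧ F η ≤ ENNReal.ofReal (EA (A n) η + e)

/-- LOW: lower bound of the slope -/
def S_LOW (d : ℕ) : Prop :=
  ∀ ρ : Measure (T d), IsProbabilityMeasure ρ → F ρ < ⊤ →
    ENNReal.ofReal (2 * c1 d) * F ρ ≤ slope ρ ^ 2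

/-! ## Part U : the upper bound -/

/-- UPP: slope and energy of the density `1 - Δh`, `h` a trigonometric polynomial -/
def S_UPP (d : ℕ) : Prop :=
  ∀ c : (Fin d → ℤ) →₀ ℂ, RT c → (∀ x : T d, evl c x ≤ 1) →
    let ρ : Measure (T d) := (vol d).withDensity (fun x => ENNReal.ofReal (1 - evl c x))
    IsProbabilityMeasure ρ ∧ F ρ = ENNReal.ofReal ((1 / 2) * ∫ x, ∑ i, evd c i x ^ 2 ∂vol d) ∧
      slope ρ ^ 2 ≤ ENNReal.ofReal (∫ x, (1 - evl c x) * ∑ i, evd c i x ^ 2 ∂vol d)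

/-- partial derivatives on `ℝᵈ` -/
noncomputable def pd {d : ℕ} (i : Fin d) (H : (Fin d → ℝ) → ℝ) (x : Fin d → ℝ) : ℝ :=
  fderiv ℝ H x (Pi.single i 1)

noncomputable def lapR {d : ℕ} (H : (Fin d → ℝ) → ℝ) (x : Fin d → ℝ) : ℝ := ∑ i, pd i (pd i H) x

/-- EXR: the radial example on `ℝᵈ` -/
def S_EXR (d : ℕ) : Prop :=
  ∀ ε : ℝ, 0 < ε → ∃ H : (Fin d → ℝ) → ℝ, ContDiff ℝ ∞ H ∧
    (∀ x, H x ≠ 0 → ∀ i, |x i| < 1 / 4) ∧ (∀ x, lapR H x ≤ 1) ∧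
    0 < (∫ x, ∑ i, pd i H x ^ 2) ∧
    (∫ x, (1 - lapR H x) * ∑ i, pd i H x ^ 2) ≤ (c1 d + ε) * ∫ x, ∑ i, pd i H x ^ 2

/-- EXT: transfer to trigonometric polynomials on the torus -/
def S_EXT (d : ℕ) : Prop :=
  ∀ H : (Fin d → ℝ) → ℝ, ContDiff ℝ ∞ H → (∀ x, H x ≠ 0 → ∀ i, |x i| < 1 / 4) →
    (∀ x, lapR H x ≤ 1) → ∀ ε : ℝ, 0 < ε → ∃ c : (Fin d → ℤ) →₀ ℂ, RT c ∧ (∀ x, evl c x ≤ 1) ∧
      |(∫ x, ∑ i, evd c i x ^ 2 ∂vol d) - ∫ x, ∑ i, pd i H x ^ 2| < ε ∧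
      |(∫ x, (1 - evl c x) * ∑ i, evd c i x ^ 2 ∂vol d) -
        ∫ x, (1 - lapR H x) * ∑ i, pd i H x ^ 2| < ε

end Pool.Agent.R763.PL
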