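import Mathlib
import Pool.Agent.R763.PL.Stm

/-!
# ERR: for bounded densities the smoothed energy and dissipation are close to the exact ones
-/

set_option autoImplicit false

open MeasureTheory UnitAddTorus Filter Topology
open scoped ENNReal Real ComplexConjugate

namespace Pool.Agent.R763.PL.ERR

variable {d : ℕ}

theorem prob_vol : IsProbabilityMeasure (vol d) := by
  unfold vol
  infer_instance

theorem parseval (u : T d → ℝ) (hu : MemLp u 2 (vol d)) :
    HasSum (fun k => ‖fc u k‖ ^ 2) (∫ x, u x ^ 2 ∂vol d) := by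
  have huc : MemLp (fun x => (u x : ℂ)) 2 (vol d) := hu.ofReal
  have h := UnitAddTorus.hasSum_sq_mFourierCoeff (d := Fin d) (huc.toLp _)
  have hae : (huc.toLp _ : T d → ℂ) =ᵐ[vol d] fun x => (u x : ℂ) := huc.coeFn_toLp
  have h1 : ∀ k, mFourierCoeff (huc.toLp _ : T d → ℂ) k = fc u k := by
    intro k
    unfold mFourierCoeff fc
    apply integral_congr_ae
    filter_upwards [hae] with x hx
    rw [hx, smul_eq_mul]
  have h2 : (∫ x, ‖(huc.toLp _ : T d → ℂ) x‖ ^ 2 ∂vol d) = ∫ x, u x ^ 2 ∂vol d := by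
    apply integral_congr_ae
    filter_upwards [hae] with x hx
    rw [hx, Complex.norm_real, Real.norm_eq_abs, sq_abs]
  rw [← h2]
  have h3 : (fun k => ‖fc u k‖ ^ 2) =
      fun k => ‖mFourierCoeff (huc.toLp _ : T d → ℂ) k‖ ^ 2 := by
    funext k
    rw [h1 k]
  rw [h3]
  exact h

theorem norm_mF (k : Fin d → ℤ) (x : T d) : ‖mFourier k x‖ ≤ 1 := by
  have := (mFourier k).norm_coe_le_norm x
  rwa [mFourier_norm] at this

theorem int_mF (k : Fin d → ℤ) (f : T d → ℂ) (hf : Integrable f (vol d)) :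
    Integrable (fun x => mFourier k x * f x) (vol d) := by
  refine hf.bdd_mul (c := 1) ?_ ?_
  · exact (mFourier k).continuous.aestronglyMeasurable
  · exact Eventually.of_forall fun x => norm_mF k x

theorem fc_sub (u w : T d → ℝ) (hu : Integrable u (vol d)) (hw : Integrable w (vol d))
    (k : Fin d → ℤ) : fc (fun x => u x - w x) k = fc u k - fc w k := by
  have hu' : Integrable (fun x => (u x : ℂ)) (vol d) := hu.ofReal
  have hw' : Integrable (fun x => (w x : ℂ)) (vol d) := hw.ofReal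
  unfold fc
  rw [← integral_sub (int_mF (-k) _ hu') (int_mF (-k) _ hw')]
  congr 1
  funext x
  push_cast
  ring

theorem int_mF_eq (k : Fin d → ℤ) : (∫ x, mFourier k x ∂vol d) = if k = 0 then 1 else 0 := by
  have := prob_vol (d := d)
  split_ifs with h
  · subst h
    rw [mFourier_zero]
    simp
  · have h1 := (orthonormal_iff_ite.mp (orthonormal_mFourier (d := Fin d))) 0 k
    rw [if_neg (Ne.symm h)] at h1
    rw [ContinuousMap.inner_toLp] at h1
    rw [← h1]
    unfold vol
    apply integral_congr_ae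
    refine Eventually.of_forall fun x => ?_
    simp [mFourier_zero]

/-- conjugate symmetric coefficients give real values -/
theorem sm_real (A : AI d) (c : (Fin d → ℤ) → ℂ) (hc : ∀ k, c (-k) = conj (c k)) (x : T d) :
    ((A.sm c x : ℝ) : ℂ) = ∑ k ∈ A.s, (A.a k : ℂ) * c k * mFourier k x := by
  unfold AI.sm
  set W : ℂ := ∑ k ∈ A.s, (A.a k : ℂ) * c k * mFourier k x with hW
  have h1 : W = ∑' k, (A.a k : ℂ) * c k * mFourier k x := by
    rw [hW, tsum_eq_sum]
    intro k hk
    rw [A.supp k hk]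
    simp
  have h2 : conj W = ∑' k, (A.a k : ℂ) * c k * mFourier k x := by
    rw [← (Equiv.neg (Fin d → ℤ)).tsum_eq, tsum_eq_sum (s := A.s), hW, map_sum]
    · apply Finset.sum_congr rfl
      intro k _
      simp only [Equiv.neg_apply, map_mul, Complex.conj_ofReal, A.symm k, hc k, mFourier_neg]
    · intro k hk
      simp only [Equiv.neg_apply, A.symm k, A.supp k hk]
      simp
  have h3 : conj W = W := h2.trans h1.symm
  exact Complex.conj_eq_iff_re.mp h3

theorem cont_sm (A : AI d) (c : (Fin d → ℤ) → ℂ) : Continuous (A.sm c) := by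
  unfold AI.sm
  refine Complex.continuous_re.comp ?_
  refine continuous_finsetSum _ fun k _ => ?_
  exact continuous_const.mul (mFourier k).continuous

theorem mem_cont (u : T d → ℝ) (hu : Continuous u) (p : ℝ≥0∞) : MemLp u p (vol d) := by
  have := prob_vol (d := d)
  obtain ⟨C, hC⟩ := (isCompact_range hu).isBounded.exists_norm_le
  exact MemLp.of_bound hu.aestronglyMeasurable C
    (Eventually.of_forall fun x => hC _ (Set.mem_range_self x))

theorem fc_sm (A : AI d) (c : (Fin d → ℤ) → ℂ) (hc : ∀ k, c (-k) = conj (c k))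
    (k : Fin d → ℤ) : fc (A.sm c) k = (A.a k : ℂ) * c k := by
  have := prob_vol (d := d)
  unfold fc
  have h1 : ∀ x, mFourier (-k) x * ((A.sm c x : ℝ) : ℂ) =
      ∑ j ∈ A.s, (A.a j : ℂ) * c j * mFourier (-k + j) x := by
    intro x
    rw [sm_real A c hc x, Finset.mul_sum]
    apply Finset.sum_congr rfl
    intro j _
    rw [mFourier_add]
    ring
  simp_rw [h1]
  rw [integral_finsetSum]
  · simp_rw [integral_const_mul, int_mF_eq]
    have h2 : ∀ j, (A.a j : ℂ) * c j * (if -k + j = 0 then 1 else 0) =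
        if j = k then (A.a k : ℂ) * c k else 0 := by
      intro j
      by_cases h : j = k
      · subst h
        simp
      · have : ¬ (-k + j = 0) := by
          intro h'
          apply h
          have := neg_add_eq_zero.mp h'
          exact this.symm
        simp [h, this]
    simp_rw [h2]
    rw [Finset.sum_ite_eq']
    split_ifs with h
    · rfl
    · rw [A.supp k h]
      simp
  · intro j _
    refine Integrable.const_mul ?_ _
    have h3 := int_mF (-k + j) (fun _ => (1 : ℂ)) (integrable_const _)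
    simpa using h3

theorem gh_nonneg (k : Fin d → ℤ) : 0 ≤ gh k := by
  unfold gh
  positivity

theorem sy_sq (k : Fin d → ℤ) : ∑ i, ‖sy i k‖ ^ 2 = gh k := by
  have h1 : ∀ i, ‖sy i k‖ ^ 2 = (4 * π ^ 2 * (k i : ℝ) ^ 2) * gh k ^ 2 := by
    intro i
    unfold sy
    rw [norm_mul, norm_mul, norm_mul, norm_mul]
    simp only [Complex.norm_I, Complex.norm_real, Complex.norm_intCast, Real.norm_eq_abs,
      Complex.norm_ofNat]
    rw [abs_of_pos Real.pi_pos, abs_of_nonneg (gh_nonneg k)]
    rw [mul_pow, mul_pow, mul_pow, mul_pow, sq_abs]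
    ring
  simp_rw [h1]
  rw [← Finset.sum_mul, ← Finset.mul_sum]
  unfold gh
  set X : ℝ := 4 * π ^ 2 * ∑ i, (k i : ℝ) ^ 2 with hX
  by_cases h : X = 0
  · rw [h]; simp
  · field_simp

theorem sy_neg (i : Fin d) (k : Fin d → ℤ) : sy i (-k) = conj (sy i k) := by
  have h : gh (-k) = gh k := by unfold gh; simp
  unfold sy
  rw [h]
  simp only [map_mul, Complex.conj_ofReal, Complex.conj_I, Pi.neg_apply, Int.cast_neg,
    map_intCast, Complex.conj_ofNat]
  ring

theorem mc_neg (η : Measure (T d)) (k : Fin d → ℤ) : mc η (-k) = conj (mc η k) := by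
  unfold mc
  rw [← integral_conj]
  congr 1
  funext x
  rw [mFourier_neg]

theorem gh_le_one (k : Fin d → ℤ) : gh k ≤ 1 := by
  unfold gh
  by_cases h : k = 0
  · subst h; simp
  · obtain ⟨i, hi⟩ := Function.ne_iff.mp h
    have h1 : (1 : ℝ) ≤ (k i : ℝ) ^ 2 := by
      have : (1 : ℤ) ≤ (k i) ^ 2 := by
        have h0 : k i ≠ 0 := hi
        have := sq_pos_of_ne_zero h0 
        omega
      exact_mod_cast this
    have h2 : (k i : ℝ) ^ 2 ≤ ∑ i, (k i : ℝ) ^ 2 :=
      Finset.single_le_sum (f := fun i => (k i : ℝ) ^ 2) (fun j _ => sq_nonneg _)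
        (Finset.mem_univ i)
    have h3 : (1 : ℝ) ≤ 4 * π ^ 2 := by nlinarith [Real.pi_gt_three]
    apply inv_le_one_of_one_le₀
    nlinarith [Real.pi_gt_three]

/-- uniform smallness of `(1 - a_k) gh k` -/
theorem sup_small (A : ℕ → AI d) (hA : ∀ k, Tendsto (fun n => (A n).a k) atTop (𝓝 1))
    (ε : ℝ) (hε : 0 < ε) : ∃ N : ℕ, ∀ n, N ≤ n → ∀ k, (1 - (A n).a k) * gh k ≤ ε := by
  classical
  have hfin : {k : Fin d → ℤ | ε < gh k}.Finite := by
    obtain ⟨B, hB⟩ := exists_nat_gt (1 / ε)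
    refine (Set.finite_Icc (fun _ => -(B : ℤ)) (fun _ => (B : ℤ))).subset ?_
    intro k hk
    have hk' : ε < gh k := hk
    unfold gh at hk'
    set X : ℝ := 4 * π ^ 2 * ∑ i, (k i : ℝ) ^ 2 with hX
    have hX0 : 0 ≤ X := by positivity
    have hXp : 0 < X := by
      rcases hX0.lt_or_eq with h | h
      · exact h
      · rw [← h] at hk'; simp at hk'; linarith
    have h1 : X < 1 / ε := by
      rw [lt_div_iff₀ hε]
      have := mul_lt_mul_of_pos_left hk' hXp
      rwa [mul_inv_cancel₀ hXp.ne'] at this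
    have h2 : ∀ i, |(k i : ℝ)| ≤ B := by
      intro i
      have h3 : (k i : ℝ) ^ 2 ≤ ∑ i, (k i : ℝ) ^ 2 :=
        Finset.single_le_sum (f := fun i => (k i : ℝ) ^ 2) (fun j _ => sq_nonneg _)
          (Finset.mem_univ i)
      have h40 : (0 : ℝ) ≤ ∑ i, (k i : ℝ) ^ 2 := Finset.sum_nonneg fun j _ => sq_nonneg _
      have h41 : (1 : ℝ) ≤ 4 * π ^ 2 := by nlinarith [Real.pi_gt_three]
      have h42 := mul_le_mul_of_nonneg_right h41 h40
      have h4 : (k i : ℝ) ^ 2 ≤ X := by linarith
      have h5 : |(k i : ℝ)| ≤ (k i : ℝ) ^ 2 := by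
        have : |k i| ≤ (k i) ^ 2 := by
          rw [← sq_abs (k i)]
          rcases (abs_nonneg (k i)).lt_or_eq with h | h
          · nlinarith
          · rw [← h]; norm_num
        exact_mod_cast this
      linarith
    constructor
    · intro i
      have := (abs_le.mp (h2 i)).1
      exact_mod_cast this
    · intro i
      have := (abs_le.mp (h2 i)).2
      exact_mod_cast this
  have h1 : ∀ k ∈ {k : Fin d → ℤ | ε < gh k}, ∀ᶠ n in atTop, (1 - (A n).a k) * gh k ≤ ε := by
    intro k _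
    have h2 : Tendsto (fun n => (1 - (A n).a k) * gh k) atTop (𝓝 ((1 - 1) * gh k)) :=
      ((tendsto_const_nhds).sub (hA k)).mul_const _
    rw [sub_self, zero_mul] at h2
    exact (h2.eventually (gt_mem_nhds hε)).mono fun n hn => hn.le
  have h3 := (Filter.eventually_all_finite hfin).mpr h1
  obtain ⟨N, hN⟩ := eventually_atTop.mp h3
  refine ⟨N, fun n hn k => ?_⟩
  by_cases hk : ε < gh k
  · exact hN n hn k hk
  · push Not at hk
    have h4 : (1 - (A n).a k) ≤ 1 := by linarith [(A n).nonneg k]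
    have h5 : 0 ≤ (1 - (A n).a k) := by linarith [(A n).le_one k]
    calc (1 - (A n).a k) * gh k ≤ 1 * gh k := by
          exact mul_le_mul_of_nonneg_right h4 (gh_nonneg k)
      _ ≤ ε := by linarith

/-- the density of a dominated probability measure -/
theorem density (η : Measure (T d)) (hη : IsProbabilityMeasure η) (M : ℝ) (hM : 0 ≤ M)
    (hD : Dom M η) : ∃ f : T d → ℝ, Measurable f ∧ (∀ x, 0 ≤ f x) ∧ (∀ᵐ x ∂vol d, f x ≤ M) ∧
      (∀ g : T d → ℂ, (∫ x, g x ∂η) = ∫ x, (f x : ℂ) * g x ∂vol d) ∧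
      (∀ g : T d → ℝ, (∫ x, g x ∂η) = ∫ x, f x * g x ∂vol d) := by
  have := prob_vol (d := d)
  have hac : η ≪ vol d := by
    intro s hs
    have h1 := hD s
    rw [Measure.smul_apply, hs, smul_zero] at h1
    exact le_antisymm h1 zero_le
  refine ⟨fun x => (η.rnDeriv (vol d) x).toReal,
    (Measure.measurable_rnDeriv η (vol d)).ennreal_toReal, fun x => ENNReal.toReal_nonneg,
    ?_, ?_, ?_⟩
  · have h2 : η.rnDeriv (vol d) ≤ᵐ[vol d] fun _ => ENNReal.ofReal M := by
      apply ae_le_of_forall_setLIntegral_le_of_sigmaFinite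
        (Measure.measurable_rnDeriv η (vol d))
      intro s hs _
      rw [Measure.setLIntegral_rnDeriv hac, setLIntegral_const]
      have := hD s
      rwa [Measure.smul_apply, smul_eq_mul] at this
    filter_upwards [h2] with x hx
    have := ENNReal.toReal_mono ENNReal.ofReal_ne_top hx
    rwa [ENNReal.toReal_ofReal hM] at this
  · intro g
    have h := integral_rnDeriv_smul (f := g) hac
    rw [← h]
    congr 1
  · intro g
    have h := integral_rnDeriv_smul (f := g) hac
    rw [← h]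
    congr 1

theorem sq_ineq (θ : ℝ) (hθ : 0 < θ) (v w : ℝ) :
    (1 - θ) * v ^ 2 - θ⁻¹ * (v - w) ^ 2 ≤ w ^ 2 := by
  have h1 : 0 ≤ θ⁻¹ * (v - w - θ * v) ^ 2 := by positivity
  have h2 : θ⁻¹ * (v - w - θ * v) ^ 2 =
      θ⁻¹ * (v - w) ^ 2 - 2 * (v - w) * v + θ * v ^ 2 := by
    field_simp
    ring
  nlinarith [sq_nonneg (v - w), sq_nonneg v]

/-- ERR -/
theorem err (d : ℕ) (hd : 1 ≤ d) (hPL : S_PL d) (hEXI : S_EXI d) : S_ERR d := by
  intro A hA M e hM he
  have hvol := prob_vol (d := d)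
  -- parameters
  set θ : ℝ := min (1 / 2) (e / (2 * (M + 1))) with hθ
  have hθ0 : 0 < θ := by
    rw [hθ]; apply lt_min (by norm_num); positivity
  have hθ1 : θ ≤ 1 / 2 := min_le_left _ _
  have hθ2 : θ * M ≤ e / 2 := by
    have h1 : θ ≤ e / (2 * (M + 1)) := min_le_right _ _
    have h2 : θ * (2 * (M + 1)) ≤ e := by
      rwa [le_div_iff₀ (by positivity)] at h1
    nlinarith
  set ε : ℝ := min (e / (M + 1)) (θ * (e / (2 * (M + 1) ^ 2))) with hε
  have hε0 : 0 < ε := by
    rw [hε]; apply lt_min <;> positivity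
  have hε1 : ε * M ≤ e := by
    have h1 : ε ≤ e / (M + 1) := min_le_left _ _
    rw [le_div_iff₀ (by positivity)] at h1
    nlinarith
  have hε2 : θ⁻¹ * (M * (ε * M)) ≤ e / 2 := by
    have h1 : ε ≤ θ * (e / (2 * (M + 1) ^ 2)) := min_le_right _ _
    have h2 : θ⁻¹ * ε ≤ e / (2 * (M + 1) ^ 2) := by
      rw [inv_mul_le_iff₀ hθ0]; exact h1
    rw [le_div_iff₀ (by positivity)] at h2
    have h3 : 0 ≤ θ⁻¹ * ε := by positivity
    nlinarith
  obtain ⟨N, hN⟩ := sup_small A hA.lim ε hε0
  refine ⟨N, fun n hn η hη hD => ?_⟩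
  obtain ⟨f, hfm, hf0, hfM, hfC, hfR⟩ := density η hη M hM hD
  have hkap := hN n hn
  set B : AI d := A n with hB
  -- integrability of the density
  have hfmem : ∀ p : ℝ≥0∞, MemLp f p (vol d) := by
    intro p
    refine MemLp.of_bound hfm.aestronglyMeasurable M ?_
    filter_upwards [hfM] with x hx
    rw [Real.norm_eq_abs, abs_of_nonneg (hf0 x)]
    exact hx
  have hmass : ∫ x, f x ∂vol d = 1 := by
    have h1 := hfR (fun _ => 1)
    simp only [mul_one] at h1
    rw [← h1]
    simp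
  have hmc : ∀ k, mc η k = fc f k := by
    intro k
    unfold mc fc
    rw [hfC]
    congr 1
    funext x
    ring
  have hAdm : Adm f := ⟨Eventually.of_forall hf0, hfmem 3, hmass⟩
  obtain ⟨⟨v, hv⟩, _, _⟩ := hEXI f (hfmem 3)
  have hv2 : ∀ i, MemLp (v i) 2 (vol d) := fun i => (hv.mem i).mono_exponent (by norm_num)
  have hPLf := hPL f v hAdm hv
  -- Parseval sums
  set P : ℝ := ∫ x, f x ^ 2 ∂vol d with hP
  have hPs : HasSum (fun k => ‖fc f k‖ ^ 2) P := parseval f (hfmem 2)
  have hPM : P ≤ M := by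
    rw [hP]
    have h1 : (∫ x, f x ^ 2 ∂vol d) ≤ ∫ x, M * f x ∂vol d := by
      apply integral_mono_ae (hfmem 2).integrable_sq
        (((hfmem 1).integrable le_rfl).const_mul M)
      filter_upwards [hfM] with x hx
      have := hf0 x
      nlinarith
    rw [integral_const_mul, hmass, mul_one] at h1
    exact h1
  set Q : ℝ := ∫ x, ∑ i, v i x ^ 2 ∂vol d with hQ
  have hQs : HasSum (fun k => gh k * ‖fc f k‖ ^ 2) Q := by
    have h1 : HasSum (fun k => ∑ i, ‖fc (v i) k‖ ^ 2) (∑ i, ∫ x, v i x ^ 2 ∂vol d) :=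
      hasSum_sum fun i _ => parseval (v i) (hv2 i)
    have h2 : (∑ i, ∫ x, v i x ^ 2 ∂vol d) = Q := by
      rw [hQ, integral_finsetSum]
      intro i _
      exact (hv2 i).integrable_sq
    rw [h2] at h1
    convert h1 using 1
    funext k
    rw [← sy_sq k, Finset.sum_mul]
    apply Finset.sum_congr rfl
    intro i _
    rw [hv.four i k, norm_mul, mul_pow]
  have hQ0 : 0 ≤ Q := by
    rw [hQ]
    exact integral_nonneg fun x => Finset.sum_nonneg fun i _ => sq_nonneg _
  have hQM : Q ≤ M := by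
    refine le_trans ?_ hPM
    apply hasSum_le _ hQs hPs
    intro k
    have := gh_le_one k
    nlinarith [sq_nonneg ‖fc f k‖]
  -- smoothed energy
  have hEs : HasSum (fun k => B.a k * gh k * ‖fc f k‖ ^ 2) (2 * EA B η) := by
    have h1 : 2 * EA B η = ∑ k ∈ B.s, B.a k * gh k * ‖fc f k‖ ^ 2 := by
      unfold EA
      simp_rw [hmc]
      ring
    rw [h1]
    apply hasSum_sum_of_ne_finset_zero
    intro k hk
    rw [B.supp k hk]
    ring
  have hEQ : 2 * EA B η ≤ Q := by
    apply hasSum_le _ hEs hQs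
    intro k
    have h1 := B.le_one k
    have h2 : 0 ≤ gh k * ‖fc f k‖ ^ 2 := mul_nonneg (gh_nonneg k) (sq_nonneg _)
    nlinarith
  have hQE : Q ≤ 2 * EA B η + ε * M := by
    have h1 : HasSum (fun k => ε * ‖fc f k‖ ^ 2) (ε * P) := hPs.mul_left ε
    have h2 := hEs.add h1
    have h3 : Q ≤ 2 * EA B η + ε * P := by
      apply hasSum_le _ hQs h2
      intro k
      have h4 := hkap k
      nlinarith [sq_nonneg ‖fc f k‖]
    have h4 : ε * P ≤ ε * M := mul_le_mul_of_nonneg_left hPM hε0.le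
    linarith
  -- the smoothed velocity
  have hcs : ∀ i, ∀ k, (fun k => sy i k * mc η k) (-k) =
      conj ((fun k => sy i k * mc η k) k) := by
    intro i k
    simp only [sy_neg, mc_neg, map_mul]
  have hwc : ∀ i, Continuous (wA B η i) := fun i => cont_sm B _
  have hw2 : ∀ i, MemLp (wA B η i) 2 (vol d) := fun i => mem_cont _ (hwc i) 2
  have hfw : ∀ i k, fc (wA B η i) k = (B.a k : ℂ) * (sy i k * fc f k) := by
    intro i k
    have h1 := fc_sm B (fun k => sy i k * mc η k) (hcs i) k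
    rw [hmc] at h1
    exact h1
  have hR2 : ∀ i, MemLp (fun x => v i x - wA B η i x) 2 (vol d) := fun i => (hv2 i).sub (hw2 i)
  set R : ℝ := ∑ i, ∫ x, (v i x - wA B η i x) ^ 2 ∂vol d with hR
  have hRs : HasSum (fun k => (1 - B.a k) ^ 2 * (gh k * ‖fc f k‖ ^ 2)) R := by
    have h1 : HasSum (fun k => ∑ i, ‖fc (fun x => v i x - wA B η i x) k‖ ^ 2) R :=
      hasSum_sum fun i _ => parseval _ (hR2 i)
    convert h1 using 1
    funext k
    have h2 : ∀ i, ‖fc (fun x => v i x - wA B η i x) k‖ ^ 2 =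
        (1 - B.a k) ^ 2 * (‖sy i k‖ ^ 2 * ‖fc f k‖ ^ 2) := by
      intro i
      rw [fc_sub _ _ ((hv2 i).integrable (by norm_num)) ((hw2 i).integrable (by norm_num)),
        hv.four i k, hfw i k]
      have h3 : sy i k * fc f k - (B.a k : ℂ) * (sy i k * fc f k) =
          ((1 - B.a k : ℝ) : ℂ) * (sy i k * fc f k) := by
        push_cast; ring
      rw [h3, norm_mul, norm_mul, Complex.norm_real, Real.norm_eq_abs, mul_pow, mul_pow, sq_abs]
    simp_rw [h2]
    rw [← Finset.mul_sum, ← Finset.sum_mul, sy_sq]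
  have hRM : R ≤ ε * M := by
    have h1 : HasSum (fun k => ε * ‖fc f k‖ ^ 2) (ε * P) := hPs.mul_left ε
    have h3 : R ≤ ε * P := by
      apply hasSum_le _ hRs h1
      intro k
      have h4 := hkap k
      have h5 := B.le_one k
      have h6 := B.nonneg k
      have h7 : (1 - B.a k) ^ 2 * gh k ≤ (1 - B.a k) * gh k := by
        have := gh_nonneg k
        have h8 : (1 - B.a k) ^ 2 ≤ 1 - B.a k := by nlinarith
        exact mul_le_mul_of_nonneg_right h8 this
      nlinarith [sq_nonneg ‖fc f k‖]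
    have h4 : ε * P ≤ ε * M := mul_le_mul_of_nonneg_left hPM hε0.le
    linarith
  have hc1 : 0 ≤ c1 d := by unfold c1; positivity
  have hc1' : c1 d ≤ 1 := by
    unfold c1
    have : (1 : ℝ) ≤ d := by exact_mod_cast hd
    rw [div_le_one (by positivity)]
    linarith
  constructor
  · -- dissipation
    have hDA : DA B η = ∫ x, f x * ∑ i, wA B η i x ^ 2 ∂vol d := by
      unfold DA
      rw [hfR]
    have hbw : ∀ g : T d → ℝ, Integrable g (vol d) → Integrable (fun x => f x * g x) (vol d) := by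
      intro g hg
      refine hg.bdd_mul (c := M) hfm.aestronglyMeasurable ?_
      filter_upwards [hfM] with x hx
      rw [Real.norm_eq_abs, abs_of_nonneg (hf0 x)]
      exact hx
    have hiv : Integrable (fun x => ∑ i, v i x ^ 2) (vol d) :=
      integrable_finsetSum _ fun i _ => (hv2 i).integrable_sq
    have hiw : Integrable (fun x => ∑ i, wA B η i x ^ 2) (vol d) :=
      integrable_finsetSum _ fun i _ => (hw2 i).integrable_sq
    have hir : Integrable (fun x => ∑ i, (v i x - wA B η i x) ^ 2) (vol d) :=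
      integrable_finsetSum _ fun i _ => (hR2 i).integrable_sq
    have hRe : R = ∫ x, ∑ i, (v i x - wA B η i x) ^ 2 ∂vol d := by
      rw [hR, integral_finsetSum]
      intro i _
      exact (hR2 i).integrable_sq
    have h1 : (∫ x, ((1 - θ) * (f x * ∑ i, v i x ^ 2) -
        (θ⁻¹ * M) * ∑ i, (v i x - wA B η i x) ^ 2) ∂vol d) ≤ DA B η := by
      rw [hDA]
      apply integral_mono_ae (((hbw _ hiv).const_mul _).sub (hir.const_mul _)) (hbw _ hiw)
      filter_upwards [hfM] with x hx
      have h2 : (1 - θ) * ∑ i, v i x ^ 2 - θ⁻¹ * ∑ i, (v i x - wA B η i x) ^ 2 ≤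
          ∑ i, wA B η i x ^ 2 := by
        rw [Finset.mul_sum, Finset.mul_sum, ← Finset.sum_sub_distrib]
        exact Finset.sum_le_sum fun i _ => sq_ineq θ hθ0 _ _
      have h3 := mul_le_mul_of_nonneg_left h2 (hf0 x)
      have h4 : 0 ≤ θ⁻¹ * ∑ i, (v i x - wA B η i x) ^ 2 := by positivity
      have h5 := mul_le_mul_of_nonneg_right hx h4
      simp only [Pi.sub_apply]
      nlinarith
    rw [integral_sub ((hbw _ hiv).const_mul _) (hir.const_mul _), integral_const_mul,
      integral_const_mul, ← hRe] at h1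
    have h2 : c1 d * Q ≤ ∫ x, f x * ∑ i, v i x ^ 2 ∂vol d := hPLf
    have h3 : (1 - θ) * (c1 d * Q) ≤ (1 - θ) * ∫ x, f x * ∑ i, v i x ^ 2 ∂vol d :=
      mul_le_mul_of_nonneg_left h2 (by linarith)
    have h4 : θ⁻¹ * M * R ≤ e / 2 := by
      have h5 : θ⁻¹ * M * R ≤ θ⁻¹ * M * (ε * M) :=
        mul_le_mul_of_nonneg_left hRM (by positivity)
      have h6 : θ⁻¹ * M * (ε * M) = θ⁻¹ * (M * (ε * M)) := by ring
      linarith
    have h5 : θ * (c1 d * Q) ≤ e / 2 := by
      have h6 : c1 d * Q ≤ M := by nlinarith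
      have h7 : θ * (c1 d * Q) ≤ θ * M := mul_le_mul_of_nonneg_left h6 hθ0.le
      linarith
    have h6 : c1 d * (2 * EA B η) ≤ c1 d * Q := mul_le_mul_of_nonneg_left hEQ hc1
    nlinarith
  · -- energy
    have hF : F η = ENNReal.ofReal (Q / 2) := by
      unfold F
      simp_rw [hmc]
      rw [← ENNReal.ofReal_tsum_of_nonneg (fun k => mul_nonneg (gh_nonneg k) (sq_nonneg _))
        hQs.summable, hQs.tsum_eq]
      have h1 : (1 / 2 : ℝ≥0∞) = ENNReal.ofReal (1 / 2) := by
        rw [ENNReal.ofReal_div_of_pos (by norm_num)]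
        simp
      rw [h1, ← ENNReal.ofReal_mul (by norm_num)]
      congr 1
      ring
    rw [hF]
    apply ENNReal.ofReal_le_ofReal
    linarith

end Pool.Agent.R763.PL.ERR
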