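import Pool.Agent.R763.PL.Stm

/-!
# Project PL, piece EXI: existence of `v`, `h`, `φ`
-/

set_option autoImplicit false

open MeasureTheory UnitAddTorus Filter Topology
open scoped ENNReal Real

namespace Pool.Agent.R763.PL.EXI

instance volProb (d : ℕ) : IsProbabilityMeasure (vol d) := by
  unfold vol; infer_instance

theorem integrable_mul {d : ℕ} (g : T d → ℝ) (hg : Integrable g (vol d)) (k : Fin d → ℤ) :
    Integrable (fun x => mFourier (-k) x * (g x : ℂ)) (vol d) := by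
  refine Integrable.bdd_mul (c := 1) hg.ofReal ?_ ?_
  · exact (mFourier (-k)).continuous.aestronglyMeasurable
  · refine Eventually.of_forall fun x => ?_
    calc ‖mFourier (-k) x‖ ≤ ‖mFourier (-k)‖ := (mFourier (-k)).norm_coe_le_norm x
      _ = 1 := mFourier_norm

theorem fc_neg_sum {d : ℕ} (g : Fin d → T d → ℝ) (hg : ∀ i, Integrable (g i) (vol d))
    (k : Fin d → ℤ) : fc (fun x => -∑ i, g i x) k = -∑ i, fc (g i) k := by
  unfold fc
  rw [← integral_finsetSum _ (fun i _ => integrable_mul (g i) (hg i) k), ← integral_neg]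
  refine integral_congr_ae (Eventually.of_forall fun x => ?_)
  simp only [Complex.ofReal_neg, Complex.ofReal_sum, mul_neg, Finset.mul_sum]

theorem sum_sy {d : ℕ} (k : Fin d → ℤ) : -∑ i, sy i k * sy i k = (gh k : ℂ) := by
  have h1 : ∀ i, sy i k * sy i k = -((4 * π ^ 2 * (k i : ℝ) ^ 2 * gh k ^ 2 : ℝ) : ℂ) := by
    intro i
    unfold sy
    push_cast
    have := Complex.I_sq
    linear_combination (4 * (π : ℂ) ^ 2 * (k i : ℂ) ^ 2 * (gh k : ℂ) ^ 2) * this
  simp only [h1, Finset.sum_neg_distrib, neg_neg]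
  rw [← Complex.ofReal_sum]
  congr 1
  rw [← Finset.sum_mul, ← Finset.mul_sum]
  unfold gh
  by_cases h0 : 4 * π ^ 2 * ∑ i, (k i : ℝ) ^ 2 = 0
  · rw [h0]; simp
  · field_simp

instance ht : ENNReal.HolderTriple 3 3 (3 / 2) where
  inv_add_inv_eq_inv := by
    rw [ENNReal.inv_div (Or.inl (by norm_num)) (Or.inl (by norm_num))]
    rw [div_eq_mul_inv, two_mul]

theorem exi (d : ℕ) (_hd : 1 ≤ d) (hK : S_KER d) (hY : S_YOU d) (_hU : S_UNI d) : S_EXI d := by
  obtain ⟨K, hK⟩ := hK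
  intro ρ hρ
  have hv : ∀ i, ∃ g : T d → ℝ, MemLp g 3 (vol d) ∧ ∀ k, fc g k = sy i k * fc ρ k := by
    intro i
    obtain ⟨g, hg, -, hg'⟩ := hY (K i) (hK i).1 3 (Or.inl rfl) ρ hρ
    exact ⟨g, hg, fun k => by rw [hg' k, (hK i).2 k]⟩
  choose v hv3 hvk using hv
  refine ⟨⟨v, hv3, hvk⟩, ?_, ?_⟩
  · have hh : ∀ i, ∃ g : T d → ℝ, MemLp g 3 (vol d) ∧ ∀ k, fc g k = sy i k * fc (v i) k := by
      intro i
      obtain ⟨g, hg, -, hg'⟩ := hY (K i) (hK i).1 3 (Or.inl rfl) (v i) (hv3 i)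
      exact ⟨g, hg, fun k => by rw [hg' k, (hK i).2 k]⟩
    choose g hg3 hgk using hh
    have hgi : ∀ i, Integrable (g i) (vol d) := fun i => (hg3 i).integrable (by norm_num)
    refine ⟨fun x => -∑ i, g i x, ?_, ?_⟩
    · have : MemLp (fun x => -∑ i, g i x) 3 (vol d) :=
        (memLp_finsetSum _ (fun i _ => hg3 i)).neg
      exact this.mono_exponent (by norm_num)
    · intro k
      rw [fc_neg_sum g hgi k]
      simp only [hgk, hvk]
      rw [← sum_sy k, neg_mul, Finset.sum_mul]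
      simp only [mul_assoc]
  · intro w hw
    have hf : ∀ i, MemLp (fun x => (1 - ρ x) * w i x) (3 / 2) (vol d) := by
      intro i
      have h1 : MemLp (fun x => 1 - ρ x) 3 (vol d) := (memLp_const 1).sub hρ
      exact (hw.mem i).mul h1
    have hh : ∀ i, ∃ g : T d → ℝ, MemLp g (3 / 2) (vol d) ∧
        ∀ k, fc g k = sy i k * fc (fun x => (1 - ρ x) * w i x) k := by
      intro i
      obtain ⟨g, hg, -, hg'⟩ := hY (K i) (hK i).1 (3 / 2) (Or.inr rfl) _ (hf i)
      exact ⟨g, hg, fun k => by rw [hg' k, (hK i).2 k]⟩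
    choose g hg3 hgk using hh
    have hgi : ∀ i, Integrable (g i) (vol d) := fun i => (hg3 i).integrable (by
      rw [ENNReal.le_div_iff_mul_le (Or.inl (by norm_num)) (Or.inl (by norm_num))]
      norm_num)
    refine ⟨fun x => -∑ i, g i x, ?_, ?_⟩
    · exact (memLp_finsetSum _ (fun i _ => hg3 i)).neg
    · intro k
      rw [fc_neg_sum g hgi k]
      simp only [hgk]

end Pool.Agent.R763.PL.EXI
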