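import Pool.Agent.R763.PL.Stm

/-!
# Piece EXT: transfer of a smooth compactly supported function to trigonometric polynomials
-/

set_option autoImplicit false

open MeasureTheory UnitAddTorus Filter Topology
open scoped ENNReal Real ContDiff

namespace Pool.Agent.R763.PL.EXT

variable {d : ℕ}

/-! ### The torus and the box -/

/-- covering map -/
def piT (y : Fin d → ℝ) : T d := fun i => (y i : UnitAddCircle)

/-- section -/
noncomputable def tau (x : T d) : Fin d → ℝ :=
  fun i => (AddCircle.equivIoc (1 : ℝ) (-(1 / 2)) (x i) : ℝ)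

/-- the box -/
def box (d : ℕ) : Set (Fin d → ℝ) := Set.univ.pi (fun _ => Set.Ioc (-(1 / 2) : ℝ) (-(1 / 2) + 1))

theorem haar_eq : (volume : Measure UnitAddCircle) = AddCircle.haarAddCircle := by
  have h := AddCircle.volume_eq_smul_haarAddCircle (T := (1 : ℝ))
  rw [ENNReal.ofReal_one, one_smul] at h
  exact h

theorem mp : MeasurePreserving (piT (d := d))
    ((volume : Measure (Fin d → ℝ)).restrict (box d)) (vol d) := by
  unfold box vol
  rw [volume_pi, Measure.restrict_pi_pi]
  have h : MeasurePreserving ((↑) : ℝ → UnitAddCircle)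
      (volume.restrict (Set.Ioc (-(1 / 2) : ℝ) (-(1 / 2) + 1))) AddCircle.haarAddCircle := by
    rw [← haar_eq]
    exact UnitAddCircle.measurePreserving_mk _
  exact measurePreserving_pi _ _ (fun _ => h)

theorem tau_piT {y : Fin d → ℝ} (hy : y ∈ box d) : tau (piT y) = y := by
  funext i
  unfold tau piT
  exact AddCircle.equivIoc_coe_of_mem (hy i (Set.mem_univ i))

theorem meas_tau : Measurable (tau (d := d)) := by
  unfold tau
  rw [measurable_pi_iff]
  intro i
  exact measurable_subtype_coe.comp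
    ((AddCircle.measurableEquivIoc (1 : ℝ) (-(1 / 2))).measurable.comp (measurable_pi_apply i))

theorem meas_box : MeasurableSet (box d) :=
  MeasurableSet.univ_pi (fun _ => measurableSet_Ioc)

instance : IsProbabilityMeasure (vol d) := by unfold vol; infer_instance

theorem int_torus {E : Type} [NormedAddCommGroup E] [NormedSpace ℝ E] (F : T d → E)
    (hF : AEStronglyMeasurable F (vol d)) : ∫ x, F x ∂vol d = ∫ y in box d, F (piT y) := by
  have h := mp (d := d)
  rw [← h.map_eq] at hF ⊢
  exact integral_map h.measurable.aemeasurable hF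

/-- vanishing off the cube -/
def Supp {E : Type} [Zero E] (f : (Fin d → ℝ) → E) : Prop :=
  ∀ x, (∃ j, 1 / 4 < |x j|) → f x = 0

theorem int_box {E : Type} [NormedAddCommGroup E] [NormedSpace ℝ E] (G : (Fin d → ℝ) → E)
    (hG : Supp G) : ∫ y in box d, G y = ∫ y, G y := by
  apply setIntegral_eq_integral_of_forall_compl_eq_zero
  intro x hx
  apply hG
  by_contra hc
  push Not at hc
  apply hx
  intro i _
  have := hc i
  rw [abs_le] at this
  constructor <;> linarith [this.1, this.2]

/-- function on the torus from a function on the space -/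
noncomputable def per (f : (Fin d → ℝ) → ℝ) (x : T d) : ℝ := f (tau x)

/-- nice functions -/
structure Nice (f : (Fin d → ℝ) → ℝ) : Prop where
  cd : ContDiff ℝ ∞ f
  su : Supp f

theorem compactSupp {E : Type} [Zero E] [TopologicalSpace E] {f : (Fin d → ℝ) → E} (hf : Supp f) :
    HasCompactSupport f := by
  refine HasCompactSupport.intro (K := Set.Icc (fun _ => -(1 / 4)) (fun _ => 1 / 4))
    isCompact_Icc ?_
  intro x hx
  apply hf
  by_contra hc
  push Not at hc
  apply hx
  constructor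
  · intro i
    exact (abs_le.1 (hc i)).1
  · intro i
    exact (abs_le.1 (hc i)).2

theorem Nice.bd {f : (Fin d → ℝ) → ℝ} (hf : Nice f) : ∃ B : ℝ, 0 ≤ B ∧ ∀ x, |f x| ≤ B := by
  obtain ⟨B, hB⟩ := (compactSupp hf.su).exists_bound_of_continuous hf.cd.continuous
  exact ⟨max B 0, le_max_right _ _, fun x => (hB x).trans (le_max_left _ _)⟩

theorem Nice.pd {f : (Fin d → ℝ) → ℝ} (hf : Nice f) (i : Fin d) : Nice (PL.pd i f) := by
  constructor
  · unfold PL.pd
    exact (hf.cd.fderiv_right (m := ∞) (by simp)).clm_apply contDiff_const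
  · intro x hx
    obtain ⟨j, hj⟩ := hx
    unfold PL.pd
    have h1 : f =ᶠ[𝓝 x] fun _ => 0 := by
      have h2 : {y : Fin d → ℝ | 1 / 4 < |y j|} ∈ 𝓝 x := by
        exact (isOpen_lt continuous_const (continuous_apply j).abs).mem_nhds hj
      filter_upwards [h2] with y hy
      exact hf.su y ⟨j, hy⟩
    rw [h1.fderiv_eq]
    simp

theorem Nice.lap {f : (Fin d → ℝ) → ℝ} (hf : Nice f) : Nice (lapR f) := by
  constructor
  · unfold lapR
    exact ContDiff.sum (fun i _ => ((hf.pd i).pd i).cd)
  · intro x hx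
    unfold lapR
    exact Finset.sum_eq_zero (fun i _ => ((hf.pd i).pd i).su x hx)

theorem Nice.meas {f : (Fin d → ℝ) → ℝ} (hf : Nice f) : Measurable (per f) :=
  hf.cd.continuous.measurable.comp meas_tau

theorem Nice.integrable {f : (Fin d → ℝ) → ℝ} (hf : Nice f) : Integrable (per f) (vol d) := by
  obtain ⟨B, -, hB⟩ := hf.bd
  exact Integrable.of_bound hf.meas.aestronglyMeasurable B
    (Filter.Eventually.of_forall (fun x => hB _))

/-! ### Fourier coefficients -/

/-- linear form -/
noncomputable def Lk (k : Fin d → ℤ) : (Fin d → ℝ) →L[ℝ] ℂ :=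
  ∑ j, (-(2 * π * Complex.I * (k j : ℂ))) •
    (Complex.ofRealCLM.comp (ContinuousLinearMap.proj (R := ℝ) (φ := fun _ : Fin d => ℝ) j))

theorem Lk_apply (k : Fin d → ℤ) (y : Fin d → ℝ) :
    Lk k y = ∑ j, (-(2 * π * Complex.I * (k j : ℂ))) * (y j : ℂ) := by
  unfold Lk
  simp

theorem mF_piT (k : Fin d → ℤ) (y : Fin d → ℝ) :
    mFourier (-k) (piT y) = Complex.exp (Lk k y) := by
  rw [Lk_apply, Complex.exp_sum]
  unfold mFourier piT
  simp only [ContinuousMap.coe_mk, Pi.neg_apply]
  apply Finset.prod_congr rfl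
  intro j _
  rw [fourier_coe_apply]
  congr 1
  push_cast
  ring

theorem fc_per {f : (Fin d → ℝ) → ℝ} (hf : Nice f) (k : Fin d → ℤ) :
    fc (per f) k = ∫ y, Complex.exp (Lk k y) * (f y : ℂ) := by
  unfold fc
  have hm : Measurable (fun x : T d => mFourier (-k) x * ((per f x : ℝ) : ℂ)) :=
    (mFourier (-k)).continuous.measurable.mul (Complex.measurable_ofReal.comp hf.meas)
  rw [int_torus _ hm.aestronglyMeasurable]
  rw [← int_box]
  · apply setIntegral_congr_fun meas_box
    intro y hy
    simp only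
    unfold per
    rw [tau_piT hy, mF_piT]
  · intro x hx
    change Complex.exp (Lk k x) * ((f x : ℝ) : ℂ) = 0
    rw [hf.su x hx]
    simp

theorem fc_pd {f : (Fin d → ℝ) → ℝ} (hf : Nice f) (i : Fin d) (k : Fin d → ℤ) :
    fc (per (PL.pd i f)) k = (2 * π * Complex.I * (k i : ℂ)) * fc (per f) k := by
  rw [fc_per (hf.pd i), fc_per hf]
  have hE : ∀ y, HasFDerivAt (fun y => Complex.exp (Lk k y)) (Complex.exp (Lk k y) • Lk k) y :=
    fun y => (Lk k).hasFDerivAt.cexp
  have hEc : Continuous (fun y => Complex.exp (Lk k y)) :=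
    Complex.continuous_exp.comp (Lk k).continuous
  have hE' : ∀ y, fderiv ℝ (fun y => Complex.exp (Lk k y)) y (Pi.single i 1) =
      -(2 * π * Complex.I * (k i : ℂ)) * Complex.exp (Lk k y) := by
    intro y
    have hL : Lk k (Pi.single i 1) = -(2 * π * Complex.I * (k i : ℂ)) := by
      rw [Lk_apply, Finset.sum_eq_single i]
      · simp
      · intro j _ hj
        rw [Pi.single_eq_of_ne hj]
        simp
      · simp
    rw [(hE y).fderiv]
    change Complex.exp (Lk k y) * Lk k (Pi.single i 1) = _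
    rw [hL]
    ring
  have hdiff : Differentiable ℝ f := hf.cd.differentiable (by simp)
  have hg : ∀ y, HasFDerivAt (fun y => ((f y : ℝ) : ℂ)) (Complex.ofRealCLM.comp (fderiv ℝ f y)) y :=
    fun y => Complex.ofRealCLM.hasFDerivAt.comp y (hdiff y).hasFDerivAt
  have hg' : ∀ y, fderiv ℝ (fun y => ((f y : ℝ) : ℂ)) y (Pi.single i 1) =
      ((PL.pd i f y : ℝ) : ℂ) := by
    intro y
    rw [(hg y).fderiv]
    rfl
  have hint : ∀ h : (Fin d → ℝ) → ℝ, Nice h →
      Integrable (fun y => Complex.exp (Lk k y) * (h y : ℂ)) := by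
    intro h hh
    apply Continuous.integrable_of_hasCompactSupport
    · exact hEc.mul (Complex.continuous_ofReal.comp hh.cd.continuous)
    · apply compactSupp
      intro x hx
      change Complex.exp (Lk k x) * ((h x : ℝ) : ℂ) = 0
      rw [hh.su x hx]
      simp
  have key := integral_mul_fderiv_eq_neg_fderiv_mul_of_integrable
    (μ := (volume : Measure (Fin d → ℝ))) (f := fun y => Complex.exp (Lk k y))
    (g := fun y => ((f y : ℝ) : ℂ)) (v := Pi.single i 1)
    (by
      refine ((hint f hf).const_mul (-(2 * π * Complex.I * (k i : ℂ)))).congr ?_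
      refine Filter.Eventually.of_forall (fun y => ?_)
      change _ = fderiv ℝ (fun y => Complex.exp (Lk k y)) y (Pi.single i 1) * ((f y : ℝ) : ℂ)
      rw [hE']
      ring)
    (by
      simp only [hg']
      exact hint _ (hf.pd i))
    (hint f hf) (fun y _ => (hE y).differentiableAt) (fun y _ => (hg y).differentiableAt)
  simp only [hE', hg'] at key
  rw [key, ← integral_neg, ← integral_const_mul]
  congr 1
  funext y
  ring

theorem fc_lap {f : (Fin d → ℝ) → ℝ} (hf : Nice f) (k : Fin d → ℤ) :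
    fc (per (lapR f)) k = (-(4 * π ^ 2 * ∑ i, (k i : ℝ) ^ 2 : ℝ) : ℂ) * fc (per f) k := by
  have h1 : fc (per (lapR f)) k = ∑ i, fc (per (PL.pd i (PL.pd i f))) k := by
    rw [fc_per hf.lap]
    rw [Finset.sum_congr rfl (fun i _ => fc_per ((hf.pd i).pd i) k)]
    rw [← integral_finsetSum]
    · congr 1
      funext y
      unfold lapR
      rw [Complex.ofReal_sum, Finset.mul_sum]
    · intro i _
      apply Continuous.integrable_of_hasCompactSupport
      · exact (Complex.continuous_exp.comp (Lk k).continuous).mul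
          (Complex.continuous_ofReal.comp ((hf.pd i).pd i).cd.continuous)
      · apply compactSupp
        intro x hx
        change Complex.exp (Lk k x) * ((PL.pd i (PL.pd i f) x : ℝ) : ℂ) = 0
        rw [((hf.pd i).pd i).su x hx]
        simp
  rw [h1]
  rw [Finset.sum_congr rfl (fun i _ => (fc_pd (hf.pd i) i k).trans (by rw [fc_pd hf i k]))]
  rw [Finset.sum_congr rfl (fun i _ => (mul_assoc _ _ _).symm), ← Finset.sum_mul]
  congr 1
  push_cast
  rw [Finset.mul_sum, ← Finset.sum_neg_distrib]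
  apply Finset.sum_congr rfl
  intro i _
  linear_combination (4 * (π : ℂ) ^ 2 * (k i : ℂ) ^ 2) * Complex.I_sq

/-! ### The kernel -/

theorem cont_ker (A : AI d) : Continuous A.ker := by
  unfold AI.ker
  refine Complex.continuous_re.comp (continuous_finsetSum _ (fun k _ => ?_))
  exact continuous_const.mul (mFourier k).continuous

theorem cont_sm (A : AI d) (c : (Fin d → ℤ) → ℂ) : Continuous (A.sm c) := by
  unfold AI.sm
  refine Complex.continuous_re.comp (continuous_finsetSum _ (fun k _ => ?_))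
  exact continuous_const.mul (mFourier k).continuous

theorem int_fourier {n : ℤ} (hn : n ≠ 0) :
    ∫ x : UnitAddCircle, fourier n x ∂AddCircle.haarAddCircle = 0 := by
  exact integral_eq_zero_of_add_right_eq_neg (μ := AddCircle.haarAddCircle)
      (fourier_add_half_inv_index hn (by norm_num))

theorem int_mFourier (k : Fin d → ℤ) (hk : k ≠ 0) : ∫ x, mFourier k x ∂vol d = 0 := by
  unfold vol
  have h : ∀ x : T d, mFourier k x = ∏ i, (fourier (k i) : C(UnitAddCircle, ℂ)) (x i) :=
    fun x => rfl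
  simp_rw [h]
  rw [integral_fintype_prod_eq_prod (fun i => ((fourier (k i) : C(UnitAddCircle, ℂ)) : _ → ℂ))]
  obtain ⟨i, hi⟩ := Function.ne_iff.mp hk
  exact Finset.prod_eq_zero (Finset.mem_univ i) (int_fourier hi)

theorem fc_one (k : Fin d → ℤ) : fc (fun _ : T d => (1 : ℝ)) k = if k = 0 then 1 else 0 := by
  unfold fc
  by_cases hk : k = 0
  · subst hk
    simp [mFourier_zero]
  · rw [if_neg hk]
    simp only [Complex.ofReal_one, mul_one]
    exact int_mFourier (-k) (by simpa using hk)

theorem ker_mass (hS : S_SMO d) (A : AI d) (x : T d) : ∫ y, A.ker (x - y) ∂vol d = 1 := by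
  have h1 := hS.1 A (fun _ => 1) (integrable_const 1) x
  simp only [mul_one] at h1
  rw [← h1]
  unfold AI.sm
  simp only [fc_one]
  have h0 : (0 : Fin d → ℤ) ∈ A.s := by
    by_contra h
    have := A.supp 0 h
    rw [A.zero] at this
    exact one_ne_zero this
  rw [Finset.sum_eq_single_of_mem 0 h0]
  · simp [A.zero, mFourier_zero]
  · intro k _ hk
    rw [if_neg hk]
    simp

theorem int_ker (A : AI d) (x : T d) : Integrable (fun y => A.ker (x - y)) (vol d) := by
  have hc : Continuous (fun y : T d => A.ker (x - y)) :=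
    (cont_ker A).comp (continuous_const.sub continuous_id)
  obtain ⟨B, hB⟩ := isCompact_univ.exists_bound_of_continuousOn hc.continuousOn
  exact Integrable.of_bound hc.measurable.aestronglyMeasurable B
    (Filter.Eventually.of_forall (fun y => hB y (Set.mem_univ y)))

theorem sm_le (hS : S_SMO d) (A : AI d) {f : T d → ℝ} (hf : Measurable f) {B b : ℝ}
    (hb : ∀ x, |f x| ≤ B) (hb' : ∀ x, f x ≤ b) (x : T d) : A.sm (fc f) x ≤ b := by
  have hfi : Integrable f (vol d) := Integrable.of_bound hf.aestronglyMeasurable B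
    (Filter.Eventually.of_forall (fun x => hb x))
  rw [hS.1 A f hfi x]
  calc ∫ y, A.ker (x - y) * f y ∂vol d ≤ ∫ y, A.ker (x - y) * b ∂vol d := by
        apply integral_mono
        · refine (int_ker A x).mul_bdd (c := B) hf.aestronglyMeasurable ?_
          exact Filter.Eventually.of_forall (fun x => hb x)
        · exact (int_ker A x).mul_const b
        · intro y
          exact mul_le_mul_of_nonneg_left (hb' y) (A.pos _)
    _ = b := by rw [integral_mul_const, ker_mass hS, one_mul]

theorem fc_neg (f : T d → ℝ) (k : Fin d → ℤ) : fc (fun x => - f x) k = - fc f k := by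
  unfold fc
  rw [← integral_neg]
  congr 1
  funext x
  push_cast
  ring

theorem sm_neg (A : AI d) (f : T d → ℝ) (x : T d) :
    A.sm (fc (fun x => - f x)) x = - A.sm (fc f) x := by
  unfold AI.sm
  simp only [fc_neg]
  rw [← Complex.neg_re, ← Finset.sum_neg_distrib]
  congr 1
  apply Finset.sum_congr rfl
  intro k _
  ring

theorem sm_abs (hS : S_SMO d) (A : AI d) {f : T d → ℝ} (hf : Measurable f) {B : ℝ}
    (hb : ∀ x, |f x| ≤ B) (x : T d) : |A.sm (fc f) x| ≤ B := by
  rw [abs_le]
  constructor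
  · have h := sm_le hS A hf.neg (B := B) (b := B) (fun x => by rw [Pi.neg_apply, abs_neg]; exact hb x)
      (fun x => (neg_le_abs _).trans (hb x)) x
    have h2 := sm_neg A f x
    have h3 : (fun x => - f x) = -f := rfl
    rw [h3] at h2
    linarith
  · exact sm_le hS A hf hb (fun x => (le_abs_self _).trans (hb x)) x

/-! ### Bounded convergence in `L¹` -/

/-- bounded convergence in `L¹` -/
structure Cv (F : ℕ → T d → ℝ) (f : T d → ℝ) : Prop where
  bd : ∃ B : ℝ, 0 ≤ B ∧ (∀ n x, |F n x| ≤ B) ∧ ∀ x, |f x| ≤ B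
  mF : ∀ n, Measurable (F n)
  mf : Measurable f
  lim : Tendsto (fun n => ∫⁻ x, ‖F n x - f x‖ₑ ∂vol d) atTop (𝓝 0)

theorem Cv.const (c : ℝ) : Cv (d := d) (fun _ _ => c) (fun _ => c) :=
  ⟨⟨|c|, abs_nonneg _, fun _ _ => le_rfl, fun _ => le_rfl⟩, fun _ => measurable_const,
    measurable_const, by simp⟩

theorem Cv.add {F G : ℕ → T d → ℝ} {f g : T d → ℝ} (h1 : Cv F f) (h2 : Cv G g) :
    Cv (fun n x => F n x + G n x) (fun x => f x + g x) := by
  obtain ⟨B1, b1, b2, b3⟩ := h1.bd
  obtain ⟨B2, c1, c2, c3⟩ := h2.bd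
  refine ⟨⟨B1 + B2, by linarith, fun n x => (abs_add_le _ _).trans (add_le_add (b2 n x) (c2 n x)),
    fun x => (abs_add_le _ _).trans (add_le_add (b3 x) (c3 x))⟩, fun n => (h1.mF n).add (h2.mF n),
    h1.mf.add h2.mf, ?_⟩
  have hl := h1.lim.add h2.lim
  rw [add_zero] at hl
  refine tendsto_of_tendsto_of_tendsto_of_le_of_le tendsto_const_nhds hl (fun n => zero_le) ?_
  intro n
  have hm : Measurable (fun x => ‖F n x - f x‖ₑ) := ((h1.mF n).sub h1.mf).enorm
  change ∫⁻ x, ‖F n x + G n x - (f x + g x)‖ₑ ∂vol d ≤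
    (∫⁻ x, ‖F n x - f x‖ₑ ∂vol d) + ∫⁻ x, ‖G n x - g x‖ₑ ∂vol d
  rw [← lintegral_add_left hm]
  apply lintegral_mono
  intro x
  have : F n x + G n x - (f x + g x) = (F n x - f x) + (G n x - g x) := by ring
  simp only
  rw [this]
  exact enorm_add_le _ _

theorem Cv.mul {F G : ℕ → T d → ℝ} {f g : T d → ℝ} (h1 : Cv F f) (h2 : Cv G g) :
    Cv (fun n x => F n x * G n x) (fun x => f x * g x) := by
  obtain ⟨B1, b1, b2, b3⟩ := h1.bd
  obtain ⟨B2, c1, c2, c3⟩ := h2.bd
  refine ⟨⟨B1 * B2, mul_nonneg b1 c1, fun n x => ?_, fun x => ?_⟩,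
    fun n => (h1.mF n).mul (h2.mF n), h1.mf.mul h2.mf, ?_⟩
  · rw [abs_mul]
    exact mul_le_mul (b2 n x) (c2 n x) (abs_nonneg _) b1
  · rw [abs_mul]
    exact mul_le_mul (b3 x) (c3 x) (abs_nonneg _) b1
  have hl := (ENNReal.Tendsto.const_mul (a := ENNReal.ofReal B2) h1.lim
    (Or.inr ENNReal.ofReal_ne_top)).add (ENNReal.Tendsto.const_mul (a := ENNReal.ofReal B1) h2.lim
    (Or.inr ENNReal.ofReal_ne_top))
  rw [mul_zero, mul_zero, add_zero] at hl
  refine tendsto_of_tendsto_of_tendsto_of_le_of_le tendsto_const_nhds hl (fun n => zero_le) ?_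
  intro n
  have hm : Measurable (fun x => ‖F n x - f x‖ₑ) := ((h1.mF n).sub h1.mf).enorm
  have hm2 : Measurable (fun x => ‖G n x - g x‖ₑ) := ((h2.mF n).sub h2.mf).enorm
  change ∫⁻ x, ‖F n x * G n x - f x * g x‖ₑ ∂vol d ≤
    ENNReal.ofReal B2 * (∫⁻ x, ‖F n x - f x‖ₑ ∂vol d) +
      ENNReal.ofReal B1 * ∫⁻ x, ‖G n x - g x‖ₑ ∂vol d
  rw [← lintegral_const_mul _ hm, ← lintegral_const_mul _ hm2,
    ← lintegral_add_left (hm.const_mul _)]
  apply lintegral_mono
  intro x
  have : F n x * G n x - f x * g x = G n x * (F n x - f x) + f x * (G n x - g x) := by ring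
  simp only
  rw [this]
  refine (enorm_add_le _ _).trans (add_le_add ?_ ?_)
  · rw [enorm_mul]
    refine mul_le_mul' ?_ le_rfl
    rw [Real.enorm_eq_ofReal_abs]
    exact ENNReal.ofReal_le_ofReal (c2 n x)
  · rw [enorm_mul]
    refine mul_le_mul' ?_ le_rfl
    rw [Real.enorm_eq_ofReal_abs]
    exact ENNReal.ofReal_le_ofReal (b3 x)

theorem Cv.sum {ι : Type} (s : Finset ι) {F : ι → ℕ → T d → ℝ} {f : ι → T d → ℝ}
    (h : ∀ i ∈ s, Cv (F i) (f i)) : Cv (fun n x => ∑ i ∈ s, F i n x) (fun x => ∑ i ∈ s, f i x) := by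
  classical
  induction s using Finset.induction_on with
  | empty =>
    simp only [Finset.sum_empty]
    exact Cv.const 0
  | insert a s ha ih =>
    simp only [Finset.sum_insert ha]
    exact (h a (Finset.mem_insert_self _ _)).add
      (ih (fun i hi => h i (Finset.mem_insert_of_mem hi)))

theorem Cv.int {F : ℕ → T d → ℝ} {f : T d → ℝ} (h : Cv F f) :
    Tendsto (fun n => ∫ x, F n x ∂vol d) atTop (𝓝 (∫ x, f x ∂vol d)) := by
  obtain ⟨B, b1, b2, b3⟩ := h.bd
  exact tendsto_integral_of_L1 f h.mf.aestronglyMeasurable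
    (Filter.Eventually.of_forall (fun n => Integrable.of_bound (h.mF n).aestronglyMeasurable B
      (Filter.Eventually.of_forall (fun x => b2 n x)))) h.lim

theorem Cv.base (hS : S_SMO d) {A : ℕ → AI d} (hA : AppId A) {f : (Fin d → ℝ) → ℝ}
    (hf : Nice f) : Cv (fun n => (A n).sm (fc (per f))) (per f) := by
  obtain ⟨B, hB0, hB⟩ := hf.bd
  refine ⟨⟨B, hB0, fun n x => sm_abs hS (A n) hf.meas (fun x => hB _) x, fun x => hB _⟩,
    fun n => (cont_sm _ _).measurable, hf.meas, ?_⟩
  have hm : MemLp (per f) 1 (vol d) := memLp_one_iff_integrable.2 hf.integrable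
  have h := hS.2.2 A hA.lim 1 (Or.inl rfl) (per f) hm
  simp only [eLpNorm_one_eq_lintegral_enorm] at h
  exact h

/-! ### The trigonometric polynomial -/

/-- coefficients -/
noncomputable def cc (A : AI d) (H : (Fin d → ℝ) → ℝ) : (Fin d → ℤ) →₀ ℂ :=
  Finsupp.onFinset A.s (fun k => (A.a k : ℂ) * fc (per H) k) (by
    intro k hk
    by_contra h
    apply hk
    rw [A.supp k h]
    simp)

theorem fc_conj (f : T d → ℝ) (k : Fin d → ℤ) : fc f (-k) = starRingEnd ℂ (fc f k) := by
  unfold fc
  rw [← integral_conj]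
  congr 1
  funext x
  rw [map_mul, Complex.conj_ofReal, mFourier_neg (n := -k)]

theorem cc_RT (A : AI d) (H : (Fin d → ℝ) → ℝ) : RT (cc A H) := by
  intro k
  unfold cc
  rw [Finsupp.onFinset_apply, Finsupp.onFinset_apply, A.symm, fc_conj, map_mul,
    Complex.conj_ofReal]

theorem evd_cc (A : AI d) {H : (Fin d → ℝ) → ℝ} (hH : Nice H) (i : Fin d) :
    evd (cc A H) i = A.sm (fc (per (PL.pd i H))) := by
  funext x
  unfold evd cc AI.sm
  rw [Finsupp.onFinset_sum _ (by intro a; simp)]
  congr 1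
  apply Finset.sum_congr rfl
  intro k _
  rw [fc_pd hH]
  ring

theorem evl_cc (A : AI d) {H : (Fin d → ℝ) → ℝ} (hH : Nice H) :
    evl (cc A H) = A.sm (fc (per (lapR H))) := by
  funext x
  unfold evl cc AI.sm
  rw [Finsupp.onFinset_sum _ (by intro a; simp)]
  congr 1
  apply Finset.sum_congr rfl
  intro k _
  rw [fc_lap hH]
  ring

theorem int_per {G : (Fin d → ℝ) → ℝ} (hG : Continuous G) (hs : Supp G) :
    ∫ x, G (tau x) ∂vol d = ∫ y, G y := by
  rw [int_torus (fun x => G (tau x)) (hG.measurable.comp meas_tau).aestronglyMeasurable,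
    ← int_box G hs]
  apply setIntegral_congr_fun meas_box
  intro y hy
  simp only
  rw [tau_piT hy]

theorem ext (d : ℕ) (_hd : 1 ≤ d) (hF : S_FEJ d) (hS : S_SMO d) : S_EXT d := by
  intro H hH hs hl ε hε
  have hN : Nice H := by
    refine ⟨hH, ?_⟩
    intro x hx
    obtain ⟨j, hj⟩ := hx
    by_contra hc
    have := hs x hc j
    linarith
  obtain ⟨A, hA⟩ := hF
  -- limits
  have c1 : ∀ i, Cv (fun n => evd (cc (A n) H) i) (per (pd i H)) := by
    intro i
    have h := Cv.base hS hA (hN.pd i)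
    simp only [evd_cc _ hN]
    exact h
  have c2 : Cv (fun n => evl (cc (A n) H)) (per (lapR H)) := by
    have h := Cv.base hS hA hN.lap
    simp only [evl_cc _ hN]
    exact h
  have c3 : Cv (fun n x => ∑ i, evd (cc (A n) H) i x ^ 2) (fun x => ∑ i, per (pd i H) x ^ 2) := by
    have h := Cv.sum Finset.univ (fun i _ => (c1 i).mul (c1 i))
    simp only [← pow_two] at h
    exact h
  have c4 : Cv (fun n x => (1 - evl (cc (A n) H) x) * ∑ i, evd (cc (A n) H) i x ^ 2)
      (fun x => (1 - per (lapR H) x) * ∑ i, per (pd i H) x ^ 2) := by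
    have h := ((Cv.const 1).add ((Cv.const (-1)).mul c2)).mul c3
    simp only [neg_mul, one_mul, ← sub_eq_add_neg] at h
    exact h
  have e1 : ∫ x, ∑ i, per (pd i H) x ^ 2 ∂vol d = ∫ x, ∑ i, pd i H x ^ 2 := by
    apply int_per (G := fun x => ∑ i, pd i H x ^ 2)
    · exact continuous_finsetSum _ (fun i _ => (hN.pd i).cd.continuous.pow 2)
    · intro x hx
      apply Finset.sum_eq_zero
      intro i _
      rw [(hN.pd i).su x hx]
      ring
  have e2 : ∫ x, (1 - per (lapR H) x) * ∑ i, per (pd i H) x ^ 2 ∂vol d =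
      ∫ x, (1 - lapR H x) * ∑ i, pd i H x ^ 2 := by
    apply int_per (G := fun x => (1 - lapR H x) * ∑ i, pd i H x ^ 2)
    · exact (continuous_const.sub hN.lap.cd.continuous).mul
        (continuous_finsetSum _ (fun i _ => (hN.pd i).cd.continuous.pow 2))
    · intro x hx
      have : ∑ i, pd i H x ^ 2 = 0 := by
        apply Finset.sum_eq_zero
        intro i _
        rw [(hN.pd i).su x hx]
        ring
      change (1 - lapR H x) * ∑ i, pd i H x ^ 2 = 0
      rw [this, mul_zero]
  have l3 := c3.int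
  rw [e1] at l3
  have l4 := c4.int
  rw [e2] at l4
  have f3 := (Metric.tendsto_nhds.1 l3) ε hε
  have f4 := (Metric.tendsto_nhds.1 l4) ε hε
  obtain ⟨n, hn3, hn4⟩ := (f3.and f4).exists
  rw [Real.dist_eq] at hn3 hn4
  refine ⟨cc (A n) H, cc_RT _ _, ?_, hn3, hn4⟩
  intro x
  rw [evl_cc _ hN]
  obtain ⟨B, -, hB⟩ := hN.lap.bd
  exact sm_le hS (A n) hN.lap.meas (B := B) (fun x => hB _) (fun x => hl _) x

end Pool.Agent.R763.PL.EXT
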