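import Pool.Agent.R763.PL.Stm

/-!
# Coulomb MMD on the torus: the radial example (piece EXR)
-/

set_option autoImplicit false

open MeasureTheory Filter Topology Set
open scoped ENNReal Real ContDiff

namespace Pool.Agent.R763.PL.Exr

noncomputable section

variable {d : ℕ}

/-- cut-off -/
def chi (a b t : ℝ) : ℝ := Real.smoothTransition ((b - t) / (b - a))

theorem chi_smooth (a b : ℝ) : ContDiff ℝ ∞ (chi a b) := by
  unfold chi
  exact Real.smoothTransition.contDiff.comp (by fun_prop)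

theorem chi_one {a b t : ℝ} (hab : a < b) (ht : t ≤ a) : chi a b t = 1 := by
  unfold chi
  apply Real.smoothTransition.one_of_one_le
  rw [le_div_iff₀ (by linarith)]
  linarith

theorem chi_zero {a b t : ℝ} (hab : a < b) (ht : b ≤ t) : chi a b t = 0 := by
  unfold chi
  apply Real.smoothTransition.zero_of_nonpos
  apply div_nonpos_of_nonpos_of_nonneg <;> linarith

theorem chi_nonneg (a b t : ℝ) : 0 ≤ chi a b t := Real.smoothTransition.nonneg _
theorem chi_le_one (a b t : ℝ) : chi a b t ≤ 1 := Real.smoothTransition.le_one _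

theorem chi_anti {a b : ℝ} (hab : a < b) : Antitone (chi a b) := by
  intro s t hst
  unfold chi
  apply Real.smoothTransition.monotone
  have : 0 < b - a := by linarith
  gcongr

theorem chi_deriv_nonpos {a b : ℝ} (hab : a < b) (t : ℝ) : deriv (chi a b) t ≤ 0 :=
  (chi_anti hab).deriv_nonpos

theorem chi_deriv_zero {a b t : ℝ} (hab : a < b) (ht : b < t) : deriv (chi a b) t = 0 := by
  have h : chi a b =ᶠ[𝓝 t] fun _ => 0 := by
    filter_upwards [Ioi_mem_nhds ht] with s hs
    exact chi_zero hab (le_of_lt hs)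
  rw [h.deriv_eq, deriv_const]

theorem chi_hd (a b t : ℝ) : HasDerivAt (chi a b) (deriv (chi a b) t) t :=
  ((chi_smooth a b).differentiable (by simp) t).hasDerivAt

theorem chi_dcont (a b : ℝ) : Continuous (deriv (chi a b)) :=
  (chi_smooth a b).continuous_deriv (by simp)

/-- primitive of the cut-off -/
def pr (a b t : ℝ) : ℝ := ∫ s in (0 : ℝ)..t, chi a b s

theorem pr_hd (a b t : ℝ) : HasDerivAt (pr a b) (chi a b t) t := by
  have hc := (chi_smooth a b).continuous
  exact intervalIntegral.integral_hasDerivAt_right (hc.intervalIntegrable _ _)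
    (hc.stronglyMeasurableAtFilter _ _) hc.continuousAt

theorem pr_smooth (a b : ℝ) : ContDiff ℝ ∞ (pr a b) := by
  rw [contDiff_infty_iff_deriv]
  refine ⟨fun t => (pr_hd a b t).differentiableAt, ?_⟩
  have : deriv (pr a b) = chi a b := by
    funext t
    exact (pr_hd a b t).deriv
  rw [this]
  exact chi_smooth a b

/-- squared norm -/
def S (x : Fin d → ℝ) : ℝ := ∑ i, x i ^ 2

theorem S_smooth : ContDiff ℝ ∞ (S : (Fin d → ℝ) → ℝ) := by
  unfold S
  fun_prop

theorem S_nonneg (x : Fin d → ℝ) : 0 ≤ S x := Finset.sum_nonneg fun i _ => sq_nonneg _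

theorem S_hd (x : Fin d → ℝ) :
    HasFDerivAt (S : (Fin d → ℝ) → ℝ)
      (∑ i, (2 * x i) • (ContinuousLinearMap.proj i : (Fin d → ℝ) →L[ℝ] ℝ)) x := by
  unfold S
  refine HasFDerivAt.fun_sum fun i _ => ?_
  have h := (hasFDerivAt_apply (𝕜 := ℝ) i x).pow 2
  simpa using h

theorem single_sum (x : Fin d → ℝ) (i : Fin d) :
    (∑ j, (2 * x j) • (ContinuousLinearMap.proj j : (Fin d → ℝ) →L[ℝ] ℝ)) (Pi.single i 1) =
      2 * x i := by
  rw [ContinuousLinearMap.sum_apply]
  simp [Pi.single_apply]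

/-- derivative of a function of the form `f (S x)` -/
theorem pd_comp {f : ℝ → ℝ} {f' : ℝ} {x : Fin d → ℝ} (h : HasDerivAt f f' (S x)) (i : Fin d) :
    HasFDerivAt (fun x => f (S x)) (f' • ∑ i, (2 * x i) •
      (ContinuousLinearMap.proj i : (Fin d → ℝ) →L[ℝ] ℝ)) x ∧
    pd i (fun x => f (S x)) x = f' * (2 * x i) := by
  have h1 := h.comp_hasFDerivAt x (S_hd x)
  refine ⟨h1, ?_⟩
  unfold pd
  have h2 : fderiv ℝ (fun x => f (S x)) x = _ := h1.fderiv
  rw [h2, ContinuousLinearMap.smul_apply, single_sum, smul_eq_mul]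

/-- the example -/
def H (a b : ℝ) (x : Fin d → ℝ) : ℝ := 1 / (2 * d) * (pr a b (S x) - pr a b 1)

theorem H_smooth (a b : ℝ) : ContDiff ℝ ∞ (H a b : (Fin d → ℝ) → ℝ) := by
  unfold H
  exact contDiff_const.mul (((pr_smooth a b).comp S_smooth).sub contDiff_const)

theorem H_supp {a b : ℝ} (hab : a < b) (hb : b ≤ 1 / 16) (x : Fin d → ℝ) (hx : H a b x ≠ 0)
    (i : Fin d) : |x i| < 1 / 4 := by
  by_contra hcon
  push Not at hcon
  apply hx
  have h1 : 1 / 16 ≤ S x := by
    unfold S
    calc (1 / 16 : ℝ) = (1 / 4) ^ 2 := by norm_num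
      _ ≤ |x i| ^ 2 := by gcongr
      _ = x i ^ 2 := sq_abs _
      _ ≤ ∑ j, x j ^ 2 := Finset.single_le_sum (f := fun j => x j ^ 2)
          (fun j _ => sq_nonneg _) (Finset.mem_univ i)
  have hc := (chi_smooth a b).continuous
  have h2 : pr a b (S x) - pr a b 1 = 0 := by
    unfold pr
    rw [intervalIntegral.integral_interval_sub_left (hc.intervalIntegrable _ _)
      (hc.intervalIntegrable _ _)]
    rw [intervalIntegral.integral_congr (g := fun _ => 0)]
    · simp
    · intro s hs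
      rw [Set.mem_uIcc] at hs
      apply chi_zero hab
      rcases hs with hs | hs <;> linarith [hs.1, hs.2]
  unfold H
  rw [h2, mul_zero]

theorem pd_H (a b : ℝ) (hd : 1 ≤ d) (i : Fin d) (x : Fin d → ℝ) :
    pd i (H a b) x = chi a b (S x) * x i / d := by
  have hd0 : (d : ℝ) ≠ 0 := by positivity
  have h := pd_comp (f := fun t => 1 / (2 * (d : ℝ)) * (pr a b t - pr a b 1))
    (((pr_hd a b (S x)).sub_const _).const_mul _) i
  have h2 : pd i (H a b) x = 1 / (2 * (d : ℝ)) * chi a b (S x) * (2 * x i) := h.2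
  rw [h2]
  field_simp

theorem pd_mul {f g : (Fin d → ℝ) → ℝ} {x : Fin d → ℝ} (hf : DifferentiableAt ℝ f x)
    (hg : DifferentiableAt ℝ g x) (i : Fin d) :
    pd i (fun x => f x * g x) x = pd i f x * g x + f x * pd i g x := by
  unfold pd
  rw [fderiv_fun_mul hf hg]
  simp only [ContinuousLinearMap.add_apply, ContinuousLinearMap.smul_apply, smul_eq_mul]
  ring

theorem pd_coord (x : Fin d → ℝ) (i : Fin d) : pd i (fun x => x i) x = 1 := by
  unfold pd
  have h := (hasFDerivAt_apply (𝕜 := ℝ) i x).fderiv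
  rw [h]
  simp

theorem pd_pd_H (a b : ℝ) (hd : 1 ≤ d) (i : Fin d) (x : Fin d → ℝ) :
    pd i (pd i (H a b)) x = (deriv (chi a b) (S x) * (2 * x i ^ 2) + chi a b (S x)) / d := by
  have h0 : pd i (H a b) = fun x : Fin d → ℝ => chi a b (S x) * (x i * (1 / d)) := by
    funext x
    rw [pd_H a b hd]
    ring
  have hc := pd_comp (chi_hd a b (S x)) i
  rw [h0, pd_mul hc.1.differentiableAt (by fun_prop), hc.2]
  have h1 : pd i (fun x : Fin d → ℝ => x i * (1 / d)) x = 1 / d := by
    rw [pd_mul (by fun_prop) (by fun_prop), pd_coord]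
    unfold pd
    simp
  rw [h1]
  ring

theorem lap_H (a b : ℝ) (hd : 1 ≤ d) (x : Fin d → ℝ) :
    lapR (H a b) x = chi a b (S x) + 2 / d * (S x * deriv (chi a b) (S x)) := by
  have hd0 : (d : ℝ) ≠ 0 := by positivity
  unfold lapR
  simp only [pd_pd_H a b hd]
  rw [← Finset.sum_div, Finset.sum_add_distrib, ← Finset.mul_sum, ← Finset.mul_sum,
    Finset.sum_const, Finset.card_univ, Fintype.card_fin, nsmul_eq_mul]
  change (deriv (chi a b) (S x) * (2 * S x) + d * chi a b (S x)) / d = _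
  field_simp
  ring

theorem norm_sum (a b : ℝ) (hd : 1 ≤ d) (x : Fin d → ℝ) :
    ∑ i, pd i (H a b) x ^ 2 = chi a b (S x) ^ 2 * S x / d ^ 2 := by
  have hd0 : (d : ℝ) ≠ 0 := by positivity
  simp only [pd_H a b hd]
  have : ∀ i, (chi a b (S x) * x i / d) ^ 2 = chi a b (S x) ^ 2 / d ^ 2 * x i ^ 2 := by
    intro i; field_simp
  simp only [this]
  rw [← Finset.mul_sum]
  change chi a b (S x) ^ 2 / d ^ 2 * S x = _
  ring

theorem S_gt {x : Fin d → ℝ} (hx : x ∉ Metric.closedBall (0 : Fin d → ℝ) 1) : 1 < S x := by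
  by_contra hcon
  push Not at hcon
  apply hx
  rw [mem_closedBall_zero_iff, pi_norm_le_iff_of_nonneg zero_le_one]
  intro i
  rw [Real.norm_eq_abs, ← sq_le_one_iff_abs_le_one]
  exact (Finset.single_le_sum (f := fun j => x j ^ 2)
    (fun j _ => sq_nonneg _) (Finset.mem_univ i)).trans hcon

/-- integrability -/
theorem integ {f : (Fin d → ℝ) → ℝ} (hf : Continuous f) (h0 : ∀ x, 1 < S x → f x = 0) :
    Integrable f ∧ HasCompactSupport f := by
  have hc : HasCompactSupport f :=
    HasCompactSupport.intro (isCompact_closedBall (0 : Fin d → ℝ) 1) fun x hx => h0 x (S_gt hx)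
  exact ⟨hf.integrable_of_hasCompactSupport hc, hc⟩

/-! ### integrals -/

theorem c_chi (a b : ℝ) : Continuous fun x : Fin d → ℝ => chi a b (S x) :=
  (chi_smooth a b).continuous.comp S_smooth.continuous

theorem c_dchi (a b : ℝ) : Continuous fun x : Fin d → ℝ => deriv (chi a b) (S x) :=
  (chi_dcont a b).comp S_smooth.continuous

theorem c_S : Continuous fun x : Fin d → ℝ => S x := S_smooth.continuous

theorem zero_int {g : (Fin d → ℝ) → ℝ} (i : Fin d) (hg : Differentiable ℝ g)
    (h1 : Integrable g) (h2 : Integrable (pd i g)) : ∫ x, pd i g x = 0 := by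
  have h2' : Integrable (fun x => fderiv ℝ g x (Pi.single i 1)) := h2
  have h := integral_mul_fderiv_eq_neg_fderiv_mul_of_integrable (μ := volume)
    (f := fun _ : Fin d → ℝ => (1 : ℝ)) (g := g) (v := Pi.single i 1) (by simp)
    (by simpa using h2') (by simpa using h1) (fun x _ => by fun_prop) (fun x _ => hg x)
  simpa [pd] using h

theorem div_id {a b : ℝ} (hab : a < b) (hb : b ≤ 1 / 16) :
    ∫ x : Fin d → ℝ, S x ^ 2 * chi a b (S x) ^ 2 * deriv (chi a b) (S x) =
      -((d : ℝ) + 2) / 6 * ∫ x : Fin d → ℝ, chi a b (S x) ^ 3 * S x := by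
  have hq : ∀ x : Fin d → ℝ, HasDerivAt (fun t => t * chi a b t ^ 3)
      (chi a b (S x) ^ 3 + S x * (3 * chi a b (S x) ^ 2 * deriv (chi a b) (S x))) (S x) := by
    intro x
    have h1 := (hasDerivAt_id (S x)).mul ((chi_hd a b (S x)).pow 3)
    refine h1.congr_deriv ?_
    simp
  have hpd : ∀ (i : Fin d) (x : Fin d → ℝ), pd i (fun x => x i * (S x * chi a b (S x) ^ 3)) x =
      S x * chi a b (S x) ^ 3 + x i ^ 2 * (2 * (chi a b (S x) ^ 3 +
        S x * (3 * chi a b (S x) ^ 2 * deriv (chi a b) (S x)))) := by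
    intro i x
    have h1 := pd_comp (hq x) i
    rw [pd_mul (by fun_prop) h1.1.differentiableAt, pd_coord, h1.2]
    ring
  have hz : ∀ x : Fin d → ℝ, 1 < S x → chi a b (S x) = 0 := fun x hx =>
    chi_zero hab (by linarith)
  have i1 : ∀ i : Fin d, Integrable fun x : Fin d → ℝ => x i * (S x * chi a b (S x) ^ 3) := by
    intro i
    refine (integ ?_ fun x hx => ?_).1
    · exact (continuous_apply i).mul (c_S.mul ((c_chi a b).pow 3))
    · rw [hz x hx]; ring
  have i2 : ∀ i : Fin d, Integrable (pd i fun x : Fin d → ℝ => x i * (S x * chi a b (S x) ^ 3)) := by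
    intro i
    have e : (pd i fun x : Fin d → ℝ => x i * (S x * chi a b (S x) ^ 3)) = fun x =>
      S x * chi a b (S x) ^ 3 + x i ^ 2 * (2 * (chi a b (S x) ^ 3 +
        S x * (3 * chi a b (S x) ^ 2 * deriv (chi a b) (S x)))) := funext fun x => hpd i x
    rw [e]
    refine (integ ?_ fun x hx => ?_).1
    · exact (c_S.mul ((c_chi a b).pow 3)).add (((continuous_apply i).pow 2).mul
        (continuous_const.mul (((c_chi a b).pow 3).add (c_S.mul ((continuous_const.mul
          ((c_chi a b).pow 2)).mul (c_dchi a b))))))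
    · rw [hz x hx]; ring
  have hdiff : ∀ i : Fin d, Differentiable ℝ fun x : Fin d → ℝ => x i * (S x * chi a b (S x) ^ 3) := by
    intro i x
    exact (by fun_prop : DifferentiableAt ℝ (fun x : Fin d → ℝ => x i) x).mul
      (pd_comp (hq x) i).1.differentiableAt
  have h0 : ∑ i : Fin d, ∫ x, pd i (fun x : Fin d → ℝ => x i * (S x * chi a b (S x) ^ 3)) x = 0 :=
    Finset.sum_eq_zero fun i _ => zero_int i (hdiff i) (i1 i) (i2 i)
  rw [← integral_finsetSum _ fun i _ => i2 i] at h0
  have e1 : ∀ x : Fin d → ℝ, ∑ i, pd i (fun x : Fin d → ℝ => x i * (S x * chi a b (S x) ^ 3)) x =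
      ((d : ℝ) + 2) * (chi a b (S x) ^ 3 * S x) +
        6 * (S x ^ 2 * chi a b (S x) ^ 2 * deriv (chi a b) (S x)) := by
    intro x
    simp only [hpd]
    rw [Finset.sum_add_distrib, Finset.sum_const, Finset.card_univ,
      Fintype.card_fin, nsmul_eq_mul, ← Finset.sum_mul]
    change _ + S x * _ = _
    ring
  simp only [e1] at h0
  have j1 : Integrable fun x : Fin d → ℝ => chi a b (S x) ^ 3 * S x := by
    refine (integ (((c_chi a b).pow 3).mul c_S) fun x hx => ?_).1
    simp only [Pi.mul_apply, Pi.pow_apply]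
    rw [hz x hx]; ring
  have j2 : Integrable fun x : Fin d → ℝ =>
      S x ^ 2 * chi a b (S x) ^ 2 * deriv (chi a b) (S x) := by
    refine (integ (((c_S.pow 2).mul ((c_chi a b).pow 2)).mul (c_dchi a b)) fun x hx => ?_).1
    simp only [Pi.mul_apply, Pi.pow_apply]
    rw [hz x hx]; ring
  rw [integral_add (j1.const_mul _) (j2.const_mul _), integral_const_mul, integral_const_mul] at h0
  linarith

theorem int2 {a b : ℝ} (hab : a < b) (hb : b ≤ 1 / 16) :
    Integrable fun x : Fin d → ℝ => chi a b (S x) ^ 2 * S x := by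
  refine (integ (((c_chi a b).pow 2).mul c_S) fun x hx => ?_).1
  simp only [Pi.mul_apply, Pi.pow_apply]
  rw [chi_zero hab (by linarith)]; ring

theorem int3 {a b : ℝ} (hab : a < b) (hb : b ≤ 1 / 16) :
    Integrable fun x : Fin d → ℝ => chi a b (S x) ^ 3 * S x := by
  refine (integ (((c_chi a b).pow 3).mul c_S) fun x hx => ?_).1
  simp only [Pi.mul_apply, Pi.pow_apply]
  rw [chi_zero hab (by linarith)]; ring

theorem main_id {a b : ℝ} (hd : 1 ≤ d) (hab : a < b) (hb : b ≤ 1 / 16) :
    (∫ x : Fin d → ℝ, ∑ i, pd i (H a b) x ^ 2) =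
      (∫ x : Fin d → ℝ, chi a b (S x) ^ 2 * S x) / d ^ 2 ∧
    (∫ x : Fin d → ℝ, (1 - lapR (H a b) x) * ∑ i, pd i (H a b) x ^ 2) =
      ((∫ x : Fin d → ℝ, chi a b (S x) ^ 2 * S x) -
        (1 - c1 d) * ∫ x : Fin d → ℝ, chi a b (S x) ^ 3 * S x) / d ^ 2 := by
  have hd0 : (d : ℝ) ≠ 0 := by positivity
  constructor
  · simp only [norm_sum a b hd]
    rw [integral_div]
  · simp only [norm_sum a b hd, lap_H a b hd]
    have e : ∀ x : Fin d → ℝ, (1 - (chi a b (S x) + 2 / d * (S x * deriv (chi a b) (S x)))) *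
        (chi a b (S x) ^ 2 * S x / d ^ 2) = (chi a b (S x) ^ 2 * S x - chi a b (S x) ^ 3 * S x -
        2 / d * (S x ^ 2 * chi a b (S x) ^ 2 * deriv (chi a b) (S x))) / d ^ 2 := by
      intro x; ring
    simp only [e]
    have j2 : Integrable fun x : Fin d → ℝ =>
        S x ^ 2 * chi a b (S x) ^ 2 * deriv (chi a b) (S x) := by
      refine (integ (((c_S.pow 2).mul ((c_chi a b).pow 2)).mul (c_dchi a b)) fun x hx => ?_).1
      simp only [Pi.mul_apply, Pi.pow_apply]
      rw [chi_zero hab (by linarith)]; ring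
    have j0 : Integrable fun x : Fin d → ℝ => chi a b (S x) ^ 2 * S x - chi a b (S x) ^ 3 * S x :=
      (int2 hab hb).sub (int3 hab hb)
    rw [integral_div, integral_sub j0 (j2.const_mul _),
      integral_sub (int2 hab hb) (int3 hab hb), integral_const_mul, div_id hab hb]
    unfold c1
    congr 1
    field_simp
    ring

/-- the volume of the balls -/
def mv (d : ℕ) (t : ℝ) : ℝ := (volume : Measure (Fin d → ℝ)).real {x | S x ≤ t}

theorem mv_fin (t : ℝ) : volume {x : Fin d → ℝ | S x ≤ t} ≠ ⊤ := by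
  have hK : volume (Metric.closedBall (0 : Fin d → ℝ) (|t| + 1)) ≠ ⊤ :=
    (isCompact_closedBall (0 : Fin d → ℝ) (|t| + 1)).measure_lt_top.ne
  apply ne_top_of_le_ne_top hK
  apply measure_mono
  intro x hx
  have hx' : S x ≤ t := hx
  rw [mem_closedBall_zero_iff, pi_norm_le_iff_of_nonneg (by positivity)]
  intro i
  rw [Real.norm_eq_abs]
  apply abs_le_of_sq_le_sq _ (by positivity)
  have h1 : x i ^ 2 ≤ S x := Finset.single_le_sum (f := fun j => x j ^ 2)
    (fun j _ => sq_nonneg _) (Finset.mem_univ i)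
  have h2 := le_abs_self t
  nlinarith [abs_nonneg t]

theorem mv_mono : Monotone (mv d) := by
  intro s t hst
  unfold mv
  exact measureReal_mono (fun x (hx : S x ≤ s) => hx.trans hst) (mv_fin t)

theorem diff_le {a b : ℝ} (hab : a < b) (hb : b ≤ 1 / 16) :
    (∫ x : Fin d → ℝ, chi a b (S x) ^ 2 * S x) - (∫ x : Fin d → ℝ, chi a b (S x) ^ 3 * S x) ≤
      mv d b - mv d a := by
  rw [← integral_sub (int2 hab hb) (int3 hab hb)]
  have hms : ∀ t, MeasurableSet {x : Fin d → ℝ | S x ≤ t} := fun t =>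
    (isClosed_le c_S continuous_const).measurableSet
  have hsub : {x : Fin d → ℝ | S x ≤ a} ⊆ {x | S x ≤ b} := fun x (hx : S x ≤ a) => hx.trans hab.le
  have h1 : mv d b - mv d a = ∫ x : Fin d → ℝ, ({x | S x ≤ b} \ {x | S x ≤ a}).indicator
      (fun _ => (1 : ℝ)) x := by
    rw [integral_indicator ((hms b).diff (hms a)), setIntegral_const, smul_eq_mul, mul_one]
    unfold mv
    rw [measureReal_diff hsub (hms a) (mv_fin b)]
  rw [h1]
  apply integral_mono ((int2 hab hb).sub (int3 hab hb))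
  · rw [integrable_indicator_iff ((hms b).diff (hms a))]
    exact integrableOn_const (ne_top_of_le_ne_top (mv_fin b) (measure_mono diff_subset))
  · intro x
    simp only [indicator]
    split_ifs with hx
    · have h2 : S x ≤ b := hx.1
      have h3 := chi_nonneg a b (S x)
      have h4 := chi_le_one a b (S x)
      have h5 := S_nonneg x
      have h6 : chi a b (S x) ^ 2 ≤ 1 := by nlinarith
      have h7 : chi a b (S x) ^ 2 * S x ≤ 1 := by nlinarith
      have h8 : 0 ≤ chi a b (S x) ^ 3 * S x := by positivity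
      simp only [Pi.sub_apply]
      linarith
    · by_cases h2 : S x ≤ a
      · simp [chi_one hab h2]
      · have h3 : ¬ S x ≤ b := fun h => hx ⟨h, h2⟩
        push Not at h3
        simp [chi_zero hab h3.le]

theorem int2_pos (hd : 1 ≤ d) {a b : ℝ} (ha : 0 < a) (hab : a < b) (hb : b ≤ 1 / 16) :
    0 < ∫ x : Fin d → ℝ, chi a b (S x) ^ 2 * S x := by
  have h0 := integ (d := d) (f := fun x => chi a b (S x) ^ 2 * S x) (((c_chi a b).pow 2).mul c_S)
    (fun x hx => by rw [chi_zero hab (by linarith)]; ring)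
  let i0 : Fin d := ⟨0, hd⟩
  let x0 : Fin d → ℝ := Pi.single i0 (Real.sqrt a)
  have hS : S x0 = a := by
    unfold S
    rw [Finset.sum_eq_single i0]
    · simp only [x0, Pi.single_eq_same]
      exact Real.sq_sqrt ha.le
    · intro j _ hj
      simp only [x0, Pi.single_eq_of_ne hj]
      norm_num
    · intro h; exact absurd (Finset.mem_univ i0) h
  refine (((c_chi a b).pow 2).mul c_S).integral_pos_of_hasCompactSupport_nonneg_nonzero h0.2
    (fun x => ?_) (x := x0) ?_
  · have := S_nonneg x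
    simp only [Pi.zero_apply]
    positivity
  · show chi a b (S x0) ^ 2 * S x0 ≠ 0
    rw [hS, chi_one hab le_rfl]
    simp only [one_pow, one_mul]
    exact ha.ne'

theorem exr (d : ℕ) (hd : 1 ≤ d) : S_EXR d := by
  intro ε hε
  have hd0 : (0 : ℝ) < d := by exact_mod_cast hd
  have hd1 : (1 : ℝ) ≤ d := by exact_mod_cast hd
  obtain ⟨c0, hc0⟩ : ∃ c0, c0 = ∫ x : Fin d → ℝ, chi (1 / 64) (1 / 32) (S x) ^ 2 * S x := ⟨_, rfl⟩
  have hc0p : 0 < c0 := hc0 ▸ int2_pos hd (by norm_num) (by norm_num) (by norm_num)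
  -- a continuity point of the volume
  obtain ⟨b, hbmem, hbc⟩ : ∃ b ∈ Ioo (1 / 32 : ℝ) (1 / 16), ContinuousAt (mv d) b := by
    have h1 := (mv_mono (d := d)).countable_not_continuousAt.dense_compl ℝ
    obtain ⟨b, hb1, hb2⟩ := h1.exists_mem_open isOpen_Ioo (nonempty_Ioo.2 (by norm_num : (1 / 32 : ℝ) < 1 / 16))
    refine ⟨b, hb2, ?_⟩
    by_contra h
    exact hb1 h
  obtain ⟨a, ha1, ha2, ha3⟩ : ∃ a, 1 / 32 < a ∧ a < b ∧ mv d b - mv d a ≤ ε * c0 := by
    have h1 : ∀ᶠ t in 𝓝 b, mv d b - ε * c0 < mv d t :=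
      hbc.eventually (lt_mem_nhds (by nlinarith [mul_pos hε hc0p]))
    obtain ⟨η, hη, hball⟩ := Metric.eventually_nhds_iff.1 h1
    obtain ⟨a, ha⟩ : ∃ a, a = max (b - η / 2) ((1 / 32 + b) / 2) := ⟨_, rfl⟩
    have hb1 := hbmem.1
    have h2 : b - η / 2 ≤ a := ha ▸ le_max_left _ _
    have h3 : (1 / 32 + b) / 2 ≤ a := ha ▸ le_max_right _ _
    have h4 : a < b := by rw [ha]; exact max_lt (by linarith) (by linarith)
    refine ⟨a, by linarith, h4, ?_⟩
    have h5 := hball (y := a) (by rw [Real.dist_eq, abs_of_neg (by linarith)]; linarith)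
    linarith
  have hb : b ≤ 1 / 16 := hbmem.2.le
  obtain ⟨m1, m2⟩ := main_id hd ha2 hb
  have hI2 := int2_pos hd (by linarith) ha2 hb
  have hge : c0 ≤ ∫ x : Fin d → ℝ, chi a b (S x) ^ 2 * S x := by
    rw [hc0]
    apply integral_mono (int2 (by norm_num) (by norm_num)) (int2 ha2 hb)
    intro x
    simp only
    have hS := S_nonneg x
    by_cases h : S x ≤ 1 / 32
    · rw [chi_one ha2 (by linarith)]
      have h3 := chi_nonneg (1 / 64) (1 / 32) (S x)
      have h4 := chi_le_one (1 / 64) (1 / 32) (S x)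
      have h6 : chi (1 / 64) (1 / 32) (S x) ^ 2 ≤ 1 := by nlinarith
      nlinarith
    · push Not at h
      rw [chi_zero (by norm_num) h.le]
      have : 0 ≤ chi a b (S x) ^ 2 * S x := by positivity
      simpa using this
  have hdf := diff_le (d := d) ha2 hb
  refine ⟨H a b, H_smooth a b, fun x hx i => H_supp ha2 hb x hx i, fun x => ?_, ?_, ?_⟩
  · rw [lap_H a b hd]
    have h1 := chi_le_one a b (S x)
    have h2 := chi_deriv_nonpos ha2 (S x)
    have h3 := S_nonneg x
    have h4 : S x * deriv (chi a b) (S x) ≤ 0 := mul_nonpos_of_nonneg_of_nonpos h3 h2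
    have h5 : 2 / (d : ℝ) * (S x * deriv (chi a b) (S x)) ≤ 0 :=
      mul_nonpos_of_nonneg_of_nonpos (by positivity) h4
    linarith
  · rw [m1]; positivity
  · rw [m1, m2, ← mul_div_assoc]
    apply div_le_div_of_nonneg_right _ (by positivity)
    have hc1 : 0 ≤ c1 d := by unfold c1; positivity
    have hc1' : c1 d ≤ 1 := by
      unfold c1
      rw [div_le_one (by positivity)]
      linarith
    have h1 : ε * c0 ≤ ε * ∫ x : Fin d → ℝ, chi a b (S x) ^ 2 * S x := by gcongr
    have h2 := mul_le_mul_of_nonneg_left ((hdf.trans ha3).trans h1) (sub_nonneg.2 hc1')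
    have h3 : 0 ≤ c1 d * (ε * ∫ x : Fin d → ℝ, chi a b (S x) ^ 2 * S x) := by positivity
    linarith

end

end Pool.Agent.R763.PL.Exr
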