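import Pool.Agent.R763.PL.Stm

/-!
# Coulomb MMD on the torus: product Fejér kernels (piece FEJ)
-/

set_option autoImplicit false

open MeasureTheory UnitAddTorus Filter Topology
open scoped ENNReal Real ComplexConjugate

namespace Pool.Agent.R763.PL.FEJ

/-- pairs with a given difference -/
def prs (n : ℕ) (m : ℤ) : Finset (ℕ × ℕ) :=
  ((Finset.range (n + 1)) ×ˢ (Finset.range (n + 1))).filter fun p => (p.1 : ℤ) - p.2 = m

/-- Fejér coefficients -/
noncomputable def al (n : ℕ) (m : ℤ) : ℝ := (prs n m).card / ((n : ℝ) + 1)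

lemma card_le (n : ℕ) (m : ℤ) : (prs n m).card ≤ n + 1 := by
  have h : (prs n m).card ≤ (Finset.range (n + 1)).card := by
    refine Finset.card_le_card_of_injOn (fun p => p.2) ?_ ?_
    · intro p hp
      simp only [prs, Finset.coe_filter, Finset.mem_product, Set.mem_ofPred_eq] at hp
      exact Finset.mem_coe.mpr hp.1.2
    · intro p hp q hq hpq
      simp only [prs, Finset.coe_filter, Finset.mem_product, Set.mem_ofPred_eq] at hp hq
      have h2 : p.2 = q.2 := hpq
      have h1 : p.1 = q.1 := by
        have := hp.2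
        have := hq.2
        omega
      exact Prod.ext h1 h2
  rwa [Finset.card_range] at h

lemma card_lower (n : ℕ) (m : ℤ) : n + 1 ≤ (prs n m).card + m.natAbs := by
  have h : (Finset.range (n + 1 - m.natAbs)).card ≤ (prs n m).card := by
    refine Finset.card_le_card_of_injOn (fun l => (l + m.toNat, l + (-m).toNat)) ?_ ?_
    · intro l hl
      simp only [Finset.coe_range, Set.mem_Iio] at hl
      simp only [prs, Finset.coe_filter, Finset.mem_product, Finset.mem_range, Set.mem_ofPred_eq]
      refine ⟨⟨?_, ?_⟩, ?_⟩ <;> omega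
    · intro p _ q _ hpq
      have := congrArg Prod.fst hpq
      simp only at this
      omega
  rw [Finset.card_range] at h
  omega

lemma card_symm (n : ℕ) (m : ℤ) : (prs n (-m)).card = (prs n m).card := by
  refine Finset.card_bij (fun p _ => (p.2, p.1)) ?_ ?_ ?_
  · intro p hp
    simp only [prs, Finset.mem_filter, Finset.mem_product] at hp ⊢
    exact ⟨⟨hp.1.2, hp.1.1⟩, by omega⟩
  · intro p _ q _ hpq
    have h1 := congrArg Prod.fst hpq
    have h2 := congrArg Prod.snd hpq
    exact Prod.ext h2 h1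
  · intro p hp
    simp only [prs, Finset.mem_filter, Finset.mem_product] at hp
    refine ⟨(p.2, p.1), ?_, rfl⟩
    simp only [prs, Finset.mem_filter, Finset.mem_product]
    exact ⟨⟨hp.1.2, hp.1.1⟩, by omega⟩

lemma al_supp (n : ℕ) (m : ℤ) (hm : m ∉ Finset.Icc (-(n : ℤ)) n) : al n m = 0 := by
  have : prs n m = ∅ := by
    rw [Finset.eq_empty_iff_forall_notMem]
    intro p hp
    simp only [prs, Finset.mem_filter, Finset.mem_product, Finset.mem_range] at hp
    apply hm
    rw [Finset.mem_Icc]
    omega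
  unfold al
  rw [this]
  simp

lemma al_nonneg (n : ℕ) (m : ℤ) : 0 ≤ al n m := by
  unfold al
  positivity

lemma al_le_one (n : ℕ) (m : ℤ) : al n m ≤ 1 := by
  unfold al
  rw [div_le_one (by positivity)]
  exact_mod_cast card_le n m

lemma al_symm (n : ℕ) (m : ℤ) : al n (-m) = al n m := by
  unfold al
  rw [card_symm]

lemma al_zero (n : ℕ) : al n 0 = 1 := by
  have h1 := card_le n 0
  have h2 := card_lower n 0
  have h3 : (prs n 0).card = n + 1 := by
    simp only [Int.natAbs_zero, add_zero] at h2
    omega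
  unfold al
  rw [h3]
  push_cast
  exact div_self (by positivity)

lemma al_tendsto (m : ℤ) : Tendsto (fun n => al n m) atTop (𝓝 1) := by
  have h1 : Tendsto (fun n : ℕ => 1 - (m.natAbs : ℝ) * (1 / ((n : ℝ) + 1))) atTop (𝓝 1) := by
    have := (tendsto_one_div_add_atTop_nhds_zero_nat (𝕜 := ℝ)).const_mul (m.natAbs : ℝ)
    rw [mul_zero] at this
    have h := this.const_sub (1 : ℝ)
    rwa [sub_zero] at h
  refine tendsto_of_tendsto_of_tendsto_of_le_of_le h1 tendsto_const_nhds ?_ ?_
  · intro n
    simp only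
    unfold al
    rw [le_div_iff₀ (by positivity)]
    have h2 : ((n : ℝ) + 1) ≤ (prs n m).card + m.natAbs := by exact_mod_cast card_lower n m
    have h3 : (0 : ℝ) < (n : ℝ) + 1 := by positivity
    have h4 : (1 - (m.natAbs : ℝ) * (1 / ((n : ℝ) + 1))) * ((n : ℝ) + 1) =
        (n : ℝ) + 1 - m.natAbs := by
      field_simp
    rw [h4]
    linarith
  · intro n
    exact al_le_one n m

/-- the one dimensional Fejér kernel -/
noncomputable def phi (n : ℕ) (t : UnitAddCircle) : ℝ :=
  ‖∑ j ∈ Finset.range (n + 1), (fourier (j : ℤ) t : ℂ)‖ ^ 2 / ((n : ℝ) + 1)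

lemma phi_nonneg (n : ℕ) (t : UnitAddCircle) : 0 ≤ phi n t := by
  unfold phi
  positivity

lemma phi_continuous (n : ℕ) : Continuous (phi n) := by
  unfold phi
  fun_prop

lemma phi_eq (n : ℕ) (t : UnitAddCircle) :
    ((phi n t : ℝ) : ℂ) = ∑ m ∈ Finset.Icc (-(n : ℤ)) n, (al n m : ℂ) * fourier m t := by
  have h1 : ((‖∑ j ∈ Finset.range (n + 1), (fourier (j : ℤ) t : ℂ)‖ ^ 2 : ℝ) : ℂ) =
      ∑ m ∈ Finset.Icc (-(n : ℤ)) n, ((prs n m).card : ℂ) * fourier m t := by
    rw [← Complex.normSq_eq_norm_sq, ← Complex.mul_conj, map_sum, Finset.sum_mul_sum,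
      ← Finset.sum_product']
    have h2 : ∀ p ∈ (Finset.range (n + 1)) ×ˢ (Finset.range (n + 1)),
        (fourier (p.1 : ℤ) t : ℂ) * conj (fourier (p.2 : ℤ) t : ℂ) =
          fourier ((p.1 : ℤ) - p.2) t := by
      intro p _
      rw [sub_eq_add_neg, fourier_add, fourier_neg]
    rw [Finset.sum_congr rfl h2]
    have h3 : ∀ p ∈ (Finset.range (n + 1)) ×ˢ (Finset.range (n + 1)),
        (p.1 : ℤ) - p.2 ∈ Finset.Icc (-(n : ℤ)) n := by
      intro p hp
      rw [Finset.mem_product, Finset.mem_range, Finset.mem_range] at hp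
      rw [Finset.mem_Icc]
      omega
    rw [← Finset.sum_fiberwise_of_maps_to h3]
    refine Finset.sum_congr rfl fun m _ => ?_
    have h4 : ∀ p ∈ ((Finset.range (n + 1)) ×ˢ (Finset.range (n + 1))).filter
        (fun p => (p.1 : ℤ) - p.2 = m), (fourier ((p.1 : ℤ) - p.2) t : ℂ) = fourier m t := by
      intro p hp
      rw [(Finset.mem_filter.mp hp).2]
    rw [Finset.sum_congr rfl h4, Finset.sum_const, nsmul_eq_mul]
    rfl
  unfold phi
  rw [Complex.ofReal_div, h1, Finset.sum_div]
  refine Finset.sum_congr rfl fun m _ => ?_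
  unfold al
  push_cast
  ring

lemma int_fourier (m : ℤ) (hm : m ≠ 0) :
    ∫ t, (fourier m t : ℂ) ∂(AddCircle.haarAddCircle : Measure UnitAddCircle) = 0 :=
  integral_eq_zero_of_add_right_eq_neg (μ := AddCircle.haarAddCircle)
    (fourier_add_half_inv_index hm one_pos)

lemma int_fourier_zero :
    ∫ t, (fourier 0 t : ℂ) ∂(AddCircle.haarAddCircle : Measure UnitAddCircle) = 1 := by
  simp

lemma integrable_of_continuous {f : UnitAddCircle → ℂ} (hf : Continuous f) :
    Integrable f (AddCircle.haarAddCircle : Measure UnitAddCircle) :=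
  hf.integrable_of_hasCompactSupport (HasCompactSupport.of_compactSpace f)

lemma integrable_of_continuous' {f : UnitAddCircle → ℝ} (hf : Continuous f) :
    Integrable f (AddCircle.haarAddCircle : Measure UnitAddCircle) :=
  hf.integrable_of_hasCompactSupport (HasCompactSupport.of_compactSpace f)

lemma int_phi_mul (n : ℕ) (l : ℤ) :
    ∫ t, ((phi n t : ℝ) : ℂ) * fourier l t ∂(AddCircle.haarAddCircle : Measure UnitAddCircle) =
      al n (-l) := by
  have h1 : ∀ t : UnitAddCircle, ((phi n t : ℝ) : ℂ) * fourier l t =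
      ∑ m ∈ Finset.Icc (-(n : ℤ)) n, (al n m : ℂ) * fourier (m + l) t := by
    intro t
    rw [phi_eq, Finset.sum_mul]
    refine Finset.sum_congr rfl fun m _ => ?_
    rw [fourier_add]
    ring
  simp_rw [h1]
  rw [integral_finsetSum]
  · have h2 : ∀ m ∈ Finset.Icc (-(n : ℤ)) n,
        ∫ t, (al n m : ℂ) * fourier (m + l) t
          ∂(AddCircle.haarAddCircle : Measure UnitAddCircle) =
        if m = -l then (al n m : ℂ) else 0 := by
      intro m _
      rw [integral_const_mul]
      by_cases h : m = -l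
      · rw [if_pos h, h, neg_add_cancel, int_fourier_zero, mul_one]
      · rw [if_neg h, int_fourier _ (by omega), mul_zero]
    rw [Finset.sum_congr rfl h2, Finset.sum_ite_eq']
    by_cases h : -l ∈ Finset.Icc (-(n : ℤ)) n
    · rw [if_pos h]
    · rw [if_neg h, al_supp n _ h]
      simp
  · intro m _
    exact integrable_of_continuous (by fun_prop)

lemma int_phi (n : ℕ) :
    ∫ t, phi n t ∂(AddCircle.haarAddCircle : Measure UnitAddCircle) = 1 := by
  have h := int_phi_mul n 0
  simp only [fourier_zero, mul_one, neg_zero, al_zero] at h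
  have h2 : ∫ t, ((phi n t : ℝ) : ℂ) ∂(AddCircle.haarAddCircle : Measure UnitAddCircle) =
      ((∫ t, phi n t ∂(AddCircle.haarAddCircle : Measure UnitAddCircle) : ℝ) : ℂ) :=
    integral_ofReal
  rw [h2] at h
  exact_mod_cast h

lemma norm_sq_le (t : UnitAddCircle) : ‖t‖ ^ 2 ≤ (1 / 8) * (1 - (fourier 1 t : ℂ).re) := by
  induction t using QuotientAddGroup.induction_on with
  | H x =>
    have h1 : ‖((x : ℝ) : UnitAddCircle)‖ = |x - round x| := UnitAddCircle.norm_eq
    have h2 : (fourier 1 ((x : ℝ) : UnitAddCircle) : ℂ).re = Real.cos (2 * π * (x - round x)) := by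
      rw [fourier_coe_apply]
      have h3 : 2 * (π : ℂ) * Complex.I * ((1 : ℤ) : ℂ) * (x : ℂ) / ((1 : ℝ) : ℂ) =
          ((2 * π * x : ℝ) : ℂ) * Complex.I := by
        push_cast
        ring
      rw [h3, Complex.exp_ofReal_mul_I_re]
      have h4 : 2 * π * (x - round x) = 2 * π * x - (round x : ℤ) * (2 * π) := by ring
      rw [h4, Real.cos_sub_int_mul_two_pi]
    change ‖((x : ℝ) : UnitAddCircle)‖ ^ 2 ≤
      (1 / 8) * (1 - (fourier 1 ((x : ℝ) : UnitAddCircle) : ℂ).re)
    rw [h1, h2, sq_abs]
    set y := x - round x with hy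
    have h5 : |y| ≤ 1 / 2 := abs_sub_round x
    have h6 : |2 * π * y| ≤ π := by
      rw [abs_mul, abs_of_pos (by positivity)]
      nlinarith [Real.pi_pos]
    have h7 := Real.cos_le_one_sub_mul_cos_sq h6
    have h8 : 2 / π ^ 2 * (2 * π * y) ^ 2 = 8 * y ^ 2 := by
      have : π ≠ 0 := Real.pi_ne_zero
      field_simp
      ring
    rw [h8] at h7
    linarith

lemma mom_one (n : ℕ) :
    ∫ t, ‖t‖ ^ 2 * phi n t ∂(AddCircle.haarAddCircle : Measure UnitAddCircle) ≤
      (1 / 8) * (1 - al n 1) := by
  have h1 : ∫ t, ‖t‖ ^ 2 * phi n t ∂(AddCircle.haarAddCircle : Measure UnitAddCircle) ≤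
      ∫ t, (1 / 8) * (phi n t - (((phi n t : ℝ) : ℂ) * fourier 1 t).re)
        ∂(AddCircle.haarAddCircle : Measure UnitAddCircle) := by
    refine integral_mono (integrable_of_continuous' ?_) (integrable_of_continuous' ?_) ?_
    · exact (continuous_norm.pow 2).mul (phi_continuous n)
    · have h := phi_continuous n
      exact continuous_const.mul (h.sub (Complex.continuous_re.comp
        ((Complex.continuous_ofReal.comp h).mul (fourier 1).continuous)))
    · intro t
      simp only
      rw [Complex.re_ofReal_mul]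
      have h2 := mul_le_mul_of_nonneg_right (norm_sq_le t) (phi_nonneg n t)
      nlinarith
  refine h1.trans (le_of_eq ?_)
  have hc : Integrable (fun t => ((phi n t : ℝ) : ℂ) * fourier 1 t)
      (AddCircle.haarAddCircle : Measure UnitAddCircle) :=
    integrable_of_continuous ((Complex.continuous_ofReal.comp (phi_continuous n)).mul
      (fourier 1).continuous)
  have hre : ∫ t, (((phi n t : ℝ) : ℂ) * fourier 1 t).re
      ∂(AddCircle.haarAddCircle : Measure UnitAddCircle) = al n 1 := by
    have h3 := integral_re hc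
    have h4 := int_phi_mul n 1
    rw [h4] at h3
    have h5 : RCLike.re ((al n (-1) : ℝ) : ℂ) = al n (-1) := by simp
    rw [h5, al_symm] at h3
    exact h3
  have hcr : Integrable (fun t => (((phi n t : ℝ) : ℂ) * fourier 1 t).re)
      (AddCircle.haarAddCircle : Measure UnitAddCircle) := hc.re
  rw [integral_const_mul, integral_sub (integrable_of_continuous' (phi_continuous n)) hcr,
    int_phi, hre]

variable {d : ℕ}

lemma ker_eq (n : ℕ) (x : T d) :
    ∑ k ∈ Fintype.piFinset (fun _ : Fin d => Finset.Icc (-(n : ℤ)) n),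
      ((∏ i, al n (k i) : ℝ) : ℂ) * mFourier k x = ((∏ i, phi n (x i) : ℝ) : ℂ) := by
  rw [Complex.ofReal_prod]
  simp_rw [phi_eq]
  rw [Finset.prod_univ_sum]
  refine Finset.sum_congr rfl fun k _ => ?_
  rw [Complex.ofReal_prod, Finset.prod_mul_distrib]
  rfl

/-- the product Fejér kernels -/
noncomputable def A (d n : ℕ) : AI d where
  s := Fintype.piFinset (fun _ : Fin d => Finset.Icc (-(n : ℤ)) n)
  a := fun k => ∏ i, al n (k i)
  supp := by
    intro k hk
    rw [Fintype.mem_piFinset] at hk
    push Not at hk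
    obtain ⟨i, hi⟩ := hk
    exact Finset.prod_eq_zero (Finset.mem_univ i) (al_supp n _ hi)
  nonneg := fun k => Finset.prod_nonneg fun i _ => al_nonneg n _
  le_one := fun k => Finset.prod_le_one (fun i _ => al_nonneg n _) fun i _ => al_le_one n _
  symm := by
    intro k
    refine Finset.prod_congr rfl fun i _ => ?_
    rw [Pi.neg_apply, al_symm]
  zero := by
    simp [al_zero]
  pos := by
    intro x
    rw [ker_eq, Complex.ofReal_re]
    exact Finset.prod_nonneg fun i _ => phi_nonneg n _

lemma A_ker (n : ℕ) (x : T d) : (A d n).ker x = ∏ i, phi n (x i) := by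
  unfold AI.ker
  change (∑ k ∈ Fintype.piFinset (fun _ : Fin d => Finset.Icc (-(n : ℤ)) n),
      ((∏ i, al n (k i) : ℝ) : ℂ) * mFourier k x).re = _
  rw [ker_eq, Complex.ofReal_re]

instance instProb (d : ℕ) : IsProbabilityMeasure (vol d) := by
  unfold vol
  infer_instance

lemma mom_i (n : ℕ) (i : Fin d) :
    ∫ z, ‖z i‖ ^ 2 * (A d n).ker z ∂vol d =
      ∫ t, ‖t‖ ^ 2 * phi n t ∂(AddCircle.haarAddCircle : Measure UnitAddCircle) := by
  have h1 : ∀ z : T d, ‖z i‖ ^ 2 * (A d n).ker z =
      ∏ j, (fun (j : Fin d) (t : UnitAddCircle) =>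
        (if j = i then ‖t‖ ^ 2 else 1) * phi n t) j (z j) := by
    intro z
    rw [A_ker]
    simp only
    rw [Finset.prod_mul_distrib]
    congr 1
    rw [Finset.prod_ite_eq' Finset.univ i (fun j => ‖z j‖ ^ 2)]
    simp
  simp_rw [h1]
  unfold vol
  refine (integral_fintype_prod_eq_prod (μ := fun _ => AddCircle.haarAddCircle)
    (fun (j : Fin d) (t : UnitAddCircle) =>
        (if j = i then ‖t‖ ^ 2 else 1) * phi n t)).trans ?_
  have h2 : ∀ j : Fin d, ∫ t, (if j = i then ‖t‖ ^ 2 else 1) * phi n t
      ∂(AddCircle.haarAddCircle : Measure UnitAddCircle) =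
      if j = i then ∫ t, ‖t‖ ^ 2 * phi n t
        ∂(AddCircle.haarAddCircle : Measure UnitAddCircle) else 1 := by
    intro j
    by_cases h : j = i
    · simp only [if_pos h]
    · simp only [if_neg h, one_mul]
      exact int_phi n
  simp only [h2]
  rw [Finset.prod_ite_eq' Finset.univ i]
  simp

/-- piece FEJ -/
theorem fej (d : ℕ) : S_FEJ d := by
  refine ⟨fun n => A d n, ?_, ?_⟩
  · intro k
    change Tendsto (fun n => ∏ i, al n (k i)) atTop (𝓝 1)
    have h := tendsto_finsetProd (Finset.univ : Finset (Fin d))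
      (fun i _ => al_tendsto (k i))
    simpa using h
  · have h1 : ∀ n, ∫ z, dist2 z 0 * (A d n).ker z ∂vol d =
        ∑ _i : Fin d, ∫ t, ‖t‖ ^ 2 * phi n t
          ∂(AddCircle.haarAddCircle : Measure UnitAddCircle) := by
      intro n
      have h2 : ∀ z : T d, dist2 z 0 * (A d n).ker z = ∑ i, ‖z i‖ ^ 2 * (A d n).ker z := by
        intro z
        unfold dist2
        rw [Finset.sum_mul]
        refine Finset.sum_congr rfl fun i _ => ?_
        have : (0 : T d) i = 0 := rfl
        rw [this, sub_zero]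
      simp_rw [h2]
      rw [integral_finsetSum]
      · exact Finset.sum_congr rfl fun i _ => mom_i n i
      · intro i _
        have hc : Continuous (fun z : T d => ‖z i‖ ^ 2 * (A d n).ker z) := by
          have h3 : (A d n).ker = fun z : T d => ∏ i, phi n (z i) := funext (A_ker n)
          rw [h3]
          refine Continuous.mul (by fun_prop) ?_
          exact continuous_finsetProd _ fun j _ => (phi_continuous n).comp (continuous_apply j)
        exact hc.integrable_of_hasCompactSupport (HasCompactSupport.of_compactSpace _)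
    simp_rw [h1]
    have h3 : Tendsto (fun n => ∑ _i : Fin d, (1 / 8 : ℝ) * (1 - al n 1)) atTop (𝓝 0) := by
      have h4 := ((al_tendsto 1).const_sub 1).const_mul (1 / 8 : ℝ)
      rw [sub_self, mul_zero] at h4
      have h5 := tendsto_finsetSum (Finset.univ : Finset (Fin d)) (fun i _ => h4)
      simpa using h5
    refine tendsto_of_tendsto_of_tendsto_of_le_of_le tendsto_const_nhds h3 ?_ ?_
    · intro n
      exact Finset.sum_nonneg fun i _ => integral_nonneg fun t =>
        mul_nonneg (sq_nonneg _) (phi_nonneg n t)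
    · intro n
      exact Finset.sum_le_sum fun i _ => mom_one n

end Pool.Agent.R763.PL.FEJ
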