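import Pool.Agent.R763.PL.Stm

/-!
# FLOW: iteration of STEP and DENS
-/

set_option autoImplicit false

open MeasureTheory UnitAddTorus Filter Topology
open scoped ENNReal Real

namespace Pool.Agent.R763.PL.Flow

open Pool.Agent.R763.PL

variable {d : ℕ}

lemma cont_wA (A : AI d) (η : Measure (T d)) (i : Fin d) : Continuous (wA A η i) := by
  unfold wA AI.sm
  refine Complex.continuous_re.comp ?_
  refine continuous_finsetSum _ fun k _ => ?_
  exact continuous_const.mul (mFourier k).continuous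

lemma meas_TA (A : AI d) (η : Measure (T d)) (τ : ℝ) : Measurable (TA A η τ) := by
  refine measurable_pi_iff.2 fun i => ?_
  refine Continuous.measurable ?_
  unfold TA
  refine (continuous_apply i).sub ?_
  exact (AddCircle.continuous_mk' (1 : ℝ)).comp (continuous_const.mul (cont_wA A η i))

lemma EA_nonneg (A : AI d) (η : Measure (T d)) : 0 ≤ EA A η := by
  unfold EA
  refine mul_nonneg (by norm_num) (Finset.sum_nonneg fun k _ => ?_)
  have h1 : 0 ≤ gh k := by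
    unfold gh
    have : 0 ≤ ∑ i, (k i : ℝ) ^ 2 := Finset.sum_nonneg fun i _ => sq_nonneg _
    positivity
  exact mul_nonneg (mul_nonneg (A.nonneg k) h1) (sq_nonneg _)

lemma bdd_wA (A : AI d) (η : Measure (T d)) : ∃ K : ℝ, 0 ≤ K ∧ ∀ i x, |wA A η i x| ≤ K := by
  have h1 : ∀ i, ∃ K : ℝ, ∀ x, |wA A η i x| ≤ K := by
    intro i
    obtain ⟨K, hK⟩ := (isCompact_range ((cont_wA A η i).abs)).bddAbove
    exact ⟨K, fun x => hK ⟨x, rfl⟩⟩
  choose K hK using h1
  refine ⟨∑ i, |K i|, Finset.sum_nonneg fun i _ => abs_nonneg _, fun i x => ?_⟩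
  refine (hK i x).trans ((le_abs_self _).trans ?_)
  exact Finset.single_le_sum (f := fun i => |K i|) (fun j _ => abs_nonneg _) (Finset.mem_univ i)

/-- the iteration -/
noncomputable def st (A : AI d) (η₀ : Measure (T d)) (τ : ℝ) :
    ℕ → (T d → T d) × (T d → Fin d → ℝ)
  | 0 => (id, fun _ _ => 0)
  | j + 1 => (fun x => TA A (η₀.map (st A η₀ τ j).1) τ ((st A η₀ τ j).1 x),
      fun x i => (st A η₀ τ j).2 x i - τ * wA A (η₀.map (st A η₀ τ j).1) i ((st A η₀ τ j).1 x))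

variable (A : AI d) (η₀ : Measure (T d)) (τ : ℝ)

lemma meas_S (j : ℕ) : Measurable (st A η₀ τ j).1 := by
  induction j with
  | zero => exact measurable_id
  | succ j ih => exact (meas_TA A _ τ).comp ih

lemma meas_u (j : ℕ) : Measurable (st A η₀ τ j).2 := by
  induction j with
  | zero => exact measurable_const
  | succ j ih =>
    refine measurable_pi_iff.2 fun i => ?_
    refine ((measurable_pi_apply i).comp ih).sub ?_
    exact (((cont_wA A _ i).measurable).comp (meas_S A η₀ τ j)).const_mul τ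

lemma rel (j : ℕ) (x : T d) (i : Fin d) :
    (st A η₀ τ j).1 x i = x i + (((st A η₀ τ j).2 x i : ℝ) : UnitAddCircle) := by
  induction j with
  | zero => simp [st]
  | succ j ih =>
    have h1 : (st A η₀ τ (j + 1)).1 x i
        = (st A η₀ τ j).1 x i
          - ((τ * wA A (η₀.map (st A η₀ τ j).1) i ((st A η₀ τ j).1 x) : ℝ) : UnitAddCircle) := rfl
    have h2 : (st A η₀ τ (j + 1)).2 x i
        = (st A η₀ τ j).2 x i - τ * wA A (η₀.map (st A η₀ τ j).1) i ((st A η₀ τ j).1 x) := rfl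
    rw [h1, h2, ih, AddCircle.coe_sub]
    abel

lemma eta_succ (j : ℕ) : η₀.map (st A η₀ τ (j + 1)).1
    = (η₀.map (st A η₀ τ j).1).map (TA A (η₀.map (st A η₀ τ j).1) τ) := by
  rw [Measure.map_map (meas_TA A _ τ) (meas_S A η₀ τ j)]
  rfl

lemma u_sum (j : ℕ) (x : T d) (i : Fin d) : (st A η₀ τ j).2 x i
    = - ∑ l ∈ Finset.range j, τ * wA A (η₀.map (st A η₀ τ l).1) i ((st A η₀ τ l).1 x) := by
  induction j with
  | zero => simp [st]
  | succ j ih =>
    have h2 : (st A η₀ τ (j + 1)).2 x i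
        = (st A η₀ τ j).2 x i - τ * wA A (η₀.map (st A η₀ τ j).1) i ((st A η₀ τ j).1 x) := rfl
    rw [h2, ih, Finset.sum_range_succ]
    ring

lemma u_bdd (j : ℕ) : ∃ K : ℝ, 0 ≤ K ∧ ∀ x i, |(st A η₀ τ j).2 x i| ≤ K := by
  induction j with
  | zero => exact ⟨0, le_rfl, fun x i => by simp [st]⟩
  | succ j ih =>
    obtain ⟨K, hK0, hK⟩ := ih
    obtain ⟨K', hK'0, hK'⟩ := bdd_wA A (η₀.map (st A η₀ τ j).1)
    refine ⟨K + |τ| * K', by positivity, fun x i => ?_⟩
    have h2 : (st A η₀ τ (j + 1)).2 x i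
        = (st A η₀ τ j).2 x i - τ * wA A (η₀.map (st A η₀ τ j).1) i ((st A η₀ τ j).1 x) := rfl
    rw [h2]
    refine (abs_sub _ _).trans (add_le_add (hK x i) ?_)
    rw [abs_mul]
    exact mul_le_mul_of_nonneg_left (hK' i _) (abs_nonneg _)

lemma prob [IsProbabilityMeasure η₀] (j : ℕ) : IsProbabilityMeasure (η₀.map (st A η₀ τ j).1) :=
  Measure.isProbabilityMeasure_map (meas_S A η₀ τ j).aemeasurable

lemma u_int [IsProbabilityMeasure η₀] (j : ℕ) :
    Integrable (fun x => ∑ i, (st A η₀ τ j).2 x i ^ 2) η₀ := by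
  obtain ⟨K, hK0, hK⟩ := u_bdd A η₀ τ j
  refine integrable_finsetSum _ fun i _ => ?_
  refine Integrable.of_bound (C := K ^ 2) ?_ ?_
  · exact (((measurable_pi_apply i).comp (meas_u A η₀ τ j)).pow_const 2).aestronglyMeasurable
  · refine Filter.Eventually.of_forall fun x => ?_
    rw [Real.norm_eq_abs, abs_pow]
    exact pow_le_pow_left₀ (abs_nonneg _) (hK x i) 2

lemma w_int [IsProbabilityMeasure η₀] (l : ℕ) :
    Integrable (fun x => ∑ i, wA A (η₀.map (st A η₀ τ l).1) i ((st A η₀ τ l).1 x) ^ 2) η₀ := by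
  obtain ⟨K, hK0, hK⟩ := bdd_wA A (η₀.map (st A η₀ τ l).1)
  refine integrable_finsetSum _ fun i _ => ?_
  refine Integrable.of_bound (C := K ^ 2) ?_ ?_
  · exact ((((cont_wA A _ i).measurable).comp (meas_S A η₀ τ l)).pow_const 2).aestronglyMeasurable
  · refine Filter.Eventually.of_forall fun x => ?_
    rw [Real.norm_eq_abs, abs_pow]
    exact pow_le_pow_left₀ (abs_nonneg _) (hK i _) 2

lemma w_DA (l : ℕ) :
    ∫ x, ∑ i, wA A (η₀.map (st A η₀ τ l).1) i ((st A η₀ τ l).1 x) ^ 2 ∂η₀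
      = DA A (η₀.map (st A η₀ τ l).1) := by
  unfold DA
  rw [integral_map (meas_S A η₀ τ l).aemeasurable]
  refine Continuous.aestronglyMeasurable ?_
  exact continuous_finsetSum _ fun i _ => (cont_wA A _ i).pow 2

lemma u_le [IsProbabilityMeasure η₀] (N : ℕ) :
    (∫ x, ∑ i, (st A η₀ τ N).2 x i ^ 2 ∂η₀)
      ≤ (N : ℝ) * τ ^ 2 * ∑ l ∈ Finset.range N, DA A (η₀.map (st A η₀ τ l).1) := by
  have h1 : ∀ x, ∑ i, (st A η₀ τ N).2 x i ^ 2
      ≤ (N : ℝ) * τ ^ 2 * ∑ l ∈ Finset.range N,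
        ∑ i, wA A (η₀.map (st A η₀ τ l).1) i ((st A η₀ τ l).1 x) ^ 2 := by
    intro x
    rw [Finset.sum_comm, Finset.mul_sum]
    refine Finset.sum_le_sum fun i _ => ?_
    rw [u_sum, neg_sq]
    have h2 := sq_sum_le_card_mul_sum_sq (s := Finset.range N)
      (f := fun l => τ * wA A (η₀.map (st A η₀ τ l).1) i ((st A η₀ τ l).1 x))
    rw [Finset.card_range] at h2
    refine h2.trans (le_of_eq ?_)
    simp only [mul_pow]
    rw [← Finset.mul_sum]
    ring
  calc (∫ x, ∑ i, (st A η₀ τ N).2 x i ^ 2 ∂η₀)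
      ≤ ∫ x, (N : ℝ) * τ ^ 2 * ∑ l ∈ Finset.range N,
        ∑ i, wA A (η₀.map (st A η₀ τ l).1) i ((st A η₀ τ l).1 x) ^ 2 ∂η₀ := by
        refine integral_mono (u_int A η₀ τ N) ?_ h1
        exact (integrable_finsetSum _ fun l _ => w_int A η₀ τ l).const_mul _
    _ = (N : ℝ) * τ ^ 2 * ∑ l ∈ Finset.range N, DA A (η₀.map (st A η₀ τ l).1) := by
        rw [integral_const_mul, integral_finsetSum _ fun l _ => w_int A η₀ τ l]
        congr 1
        exact Finset.sum_congr rfl fun l _ => w_DA A η₀ τ l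

lemma dom_mono {M M' : ℝ} (h : M ≤ M') {η : Measure (T d)} (hη : Dom M η) : Dom M' η := by
  unfold Dom at *
  refine hη.trans ?_
  intro s
  simp only [Measure.smul_apply, smul_eq_mul]
  exact mul_le_mul_left (ENNReal.ofReal_le_ofReal h) _

lemma ev (t K L : ℝ) (hL : 0 < L) : ∀ᶠ N : ℕ in atTop, K * (t / N) ≤ L := by
  have h1 : Tendsto (fun N : ℕ => K * (t / N)) atTop (𝓝 (K * 0)) :=
    (tendsto_const_div_atTop_nhds_zero_nat t).const_mul K
  rw [mul_zero] at h1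
  exact (h1.eventually (gt_mem_nhds hL)).mono fun N hN => le_of_lt hN

theorem flow (d : ℕ) (hstep : S_STEP d) (hdens : S_DENS d) : S_FLOW d := by
  intro A M t e κ η₀ hM ht he hκ hη₀ hdom hDA
  obtain ⟨C₁, hC₁, hst⟩ := hstep A
  obtain ⟨C₂, τ₀, hC₂, hτ₀, hde⟩ := hdens A
  have hc1 : 0 ≤ c1 d := by unfold c1; positivity
  have hexp2 : (1 : ℝ) ≤ Real.exp (2 * t) := Real.one_le_exp (by linarith)
  -- choose the number of steps
  obtain ⟨N, hN1, hN2, hN3, hN4, hN5, hN6, hNpos⟩ :=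
    (((ev t 1 1 one_pos).and ((ev t 1 τ₀ hτ₀).and ((ev t (2 * c1 d) 1 one_pos).and
      ((ev t C₂ 1 one_pos).and ((ev t (C₁ * t ^ 2) κ hκ).and ((ev t (C₁ * t) κ hκ).and
        (eventually_gt_atTop 0)))))))).exists
  set τ : ℝ := t / N with hτdef
  have hNr : (0 : ℝ) < N := by exact_mod_cast hNpos
  have hNτ : (N : ℝ) * τ = t := by rw [hτdef]; field_simp
  have hτ0 : 0 ≤ τ := by positivity
  have hτ1 : τ ≤ 1 := by linarith
  have hττ₀ : τ ≤ τ₀ := by linarith
  let η : ℕ → Measure (T d) := fun j => η₀.map (st A η₀ τ j).1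
  have hprob : ∀ j, IsProbabilityMeasure (η j) := fun j => prob A η₀ τ j
  have hη0 : η 0 = η₀ := by
    change η₀.map id = η₀
    exact Measure.map_id
  have hsucc : ∀ j, η (j + 1) = (η j).map (TA A (η j) τ) := fun j => eta_succ A η₀ τ j
  -- densities
  have hq : 1 + τ + C₂ * τ ^ 2 ≤ Real.exp (τ + C₂ * τ ^ 2) := by
    have := Real.add_one_le_exp (τ + C₂ * τ ^ 2)
    linarith
  have hq0 : 0 ≤ 1 + τ + C₂ * τ ^ 2 := by positivity
  have hdomj : ∀ j, Dom (M * (1 + τ + C₂ * τ ^ 2) ^ j) (η j) := by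
    intro j
    induction j with
    | zero => rw [hη0, pow_zero, mul_one]; exact hdom
    | succ j ih =>
      have h1 := hde (η j) _ (hprob j) (by positivity) ih τ hτ0 hττ₀
      rw [hsucc, pow_succ, ← mul_assoc]
      exact h1
  have hpow : ∀ j, j ≤ N → (1 + τ + C₂ * τ ^ 2) ^ j ≤ Real.exp (2 * t) := by
    intro j hj
    have h1 : (1 + τ + C₂ * τ ^ 2) ^ j ≤ (1 + τ + C₂ * τ ^ 2) ^ N :=
      pow_le_pow_right₀ (by nlinarith [mul_nonneg hC₂ (sq_nonneg τ)]) hj
    have h2 : (1 + τ + C₂ * τ ^ 2) ^ N ≤ Real.exp (τ + C₂ * τ ^ 2) ^ N :=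
      pow_le_pow_left₀ hq0 hq N
    rw [← Real.exp_nat_mul] at h2
    have h3 : (N : ℝ) * (τ + C₂ * τ ^ 2) ≤ 2 * t := by
      have h4 : (N : ℝ) * (τ + C₂ * τ ^ 2) = t + t * (C₂ * τ) := by
        rw [← hNτ]; ring
      rw [h4]
      nlinarith
    exact h1.trans (h2.trans (Real.exp_le_exp.2 h3))
  have hdomE : ∀ j, j ≤ N → Dom (M * Real.exp (2 * t)) (η j) := fun j hj =>
    dom_mono (mul_le_mul_of_nonneg_left (hpow j hj) hM) (hdomj j)
  -- energies
  have hEstep : ∀ j, EA A (η (j + 1)) ≤ EA A (η j) - τ * DA A (η j) + C₁ * τ ^ 2 := by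
    intro j
    rw [hsucc]
    exact hst (η j) (hprob j) τ hτ0 hτ1
  have hEdec : ∀ j, j ≤ N → EA A (η j)
      ≤ (1 - 2 * c1 d * τ) ^ j * EA A η₀ + j * (e * τ + C₁ * τ ^ 2) := by
    intro j
    induction j with
    | zero => intro _; rw [hη0]; simp
    | succ j ih =>
      intro hj
      have h1 := ih (by omega)
      have h2 := hEstep j
      have h3 := hDA (η j) (hprob j) (hdomE j (by omega))
      have h4 : τ * (2 * c1 d * EA A (η j) - e) ≤ τ * DA A (η j) :=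
        mul_le_mul_of_nonneg_left h3 hτ0
      have h5 : EA A (η (j + 1)) ≤ (1 - 2 * c1 d * τ) * EA A (η j) + (e * τ + C₁ * τ ^ 2) := by
        linarith
      have h6 : 0 ≤ 1 - 2 * c1 d * τ := by linarith
      have h7 : (1 - 2 * c1 d * τ) * EA A (η j)
          ≤ (1 - 2 * c1 d * τ) * ((1 - 2 * c1 d * τ) ^ j * EA A η₀ + j * (e * τ + C₁ * τ ^ 2)) :=
        mul_le_mul_of_nonneg_left h1 h6
      have h8 : (1 - 2 * c1 d * τ) * (j * (e * τ + C₁ * τ ^ 2)) ≤ j * (e * τ + C₁ * τ ^ 2) := by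
        have h9 : 0 ≤ (j : ℝ) * (e * τ + C₁ * τ ^ 2) := by positivity
        have h10 : 1 - 2 * c1 d * τ ≤ 1 := by
          have : 0 ≤ 2 * c1 d * τ := by positivity
          linarith
        calc (1 - 2 * c1 d * τ) * (j * (e * τ + C₁ * τ ^ 2))
            ≤ 1 * (j * (e * τ + C₁ * τ ^ 2)) := mul_le_mul_of_nonneg_right h10 h9
          _ = _ := one_mul _
      push_cast
      rw [pow_succ]
      linarith
  refine ⟨(st A η₀ τ N).1, (st A η₀ τ N).2, meas_S A η₀ τ N, meas_u A η₀ τ N, rel A η₀ τ N,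
    u_int A η₀ τ N, ?_, hdomE N le_rfl, ?_⟩
  · refine (u_le A η₀ τ N).trans ?_
    have h1 : ∀ n, τ * ∑ l ∈ Finset.range n, DA A (η l)
        ≤ EA A η₀ - EA A (η n) + n * (C₁ * τ ^ 2) := by
      intro n
      induction n with
      | zero => rw [hη0]; simp
      | succ n ih =>
        rw [Finset.sum_range_succ, mul_add]
        have := hEstep n
        push_cast
        linarith
    have h2 : (N : ℝ) * τ ^ 2 * ∑ l ∈ Finset.range N, DA A (η l)
        = t * (τ * ∑ l ∈ Finset.range N, DA A (η l)) := by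
      rw [← hNτ]; ring
    have h3 := mul_le_mul_of_nonneg_left (h1 N) ht.le
    have h4 : t * ((N : ℝ) * (C₁ * τ ^ 2)) = C₁ * t ^ 2 * τ := by
      have : (N : ℝ) * (C₁ * τ ^ 2) = C₁ * τ * ((N : ℝ) * τ) := by ring
      rw [this, hNτ]; ring
    change (N : ℝ) * τ ^ 2 * ∑ l ∈ Finset.range N, DA A (η l)
      ≤ t * (EA A η₀ - EA A (η N)) + κ
    rw [h2]
    rw [mul_add, h4] at h3
    linarith
  · change EA A (η N) ≤ Real.exp (-(2 * c1 d * t)) * EA A η₀ + e * t + κ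
    have h1 := hEdec N le_rfl
    have h2 : (1 - 2 * c1 d * τ) ^ N ≤ Real.exp (-(2 * c1 d * t)) := by
      have h3 : 1 - 2 * c1 d * τ ≤ Real.exp (-(2 * c1 d * τ)) := by
        have := Real.add_one_le_exp (-(2 * c1 d * τ))
        linarith
      have h4 := pow_le_pow_left₀ (by linarith : 0 ≤ 1 - 2 * c1 d * τ) h3 N
      rw [← Real.exp_nat_mul] at h4
      have h5 : (N : ℝ) * -(2 * c1 d * τ) = -(2 * c1 d * t) := by
        rw [← hNτ]; ring
      rwa [h5] at h4
    have h6 := mul_le_mul_of_nonneg_right h2 (EA_nonneg A η₀)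
    have h7 : (N : ℝ) * (e * τ + C₁ * τ ^ 2) = e * t + C₁ * t * τ := by
      have : (N : ℝ) * (e * τ + C₁ * τ ^ 2) = e * ((N : ℝ) * τ) + C₁ * τ * ((N : ℝ) * τ) := by ring
      rw [this, hNτ]; ring
    linarith

end Pool.Agent.R763.PL.Flow
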