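import Pool.Agent.R763.PL.Stm

/-!
# Coulomb MMD on the torus: optimality conditions (piece KKT)
-/

set_option autoImplicit false

open MeasureTheory UnitAddTorus Filter Topology
open scoped ENNReal Real

namespace Pool.Agent.R763.PL.KKT

variable {d : ℕ}

instance vol_prob (d : ℕ) : IsProbabilityMeasure (vol d) := by
  unfold vol
  infer_instance

theorem hc331 : ENNReal.HolderTriple 3 3 (3 / 2) := by
  constructor
  rw [ENNReal.inv_div (by simp) (by simp), ← two_mul, ENNReal.div_eq_inv_mul, mul_comm]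

theorem hc321 : ENNReal.HolderTriple 3 (3 / 2) 1 := by
  constructor
  rw [ENNReal.inv_div (by simp) (by simp), inv_one]
  have h1 : (3 : ℝ≥0∞)⁻¹ = 1 / 3 := by rw [one_div]
  rw [h1, ENNReal.div_add_div_same]
  have h2 : (1 : ℝ≥0∞) + 2 = 3 := by norm_num
  rw [h2]
  exact ENNReal.div_self (by simp) (by simp)

theorem mul33 {f g : T d → ℝ} (hf : MemLp f 3 (vol d)) (hg : MemLp g 3 (vol d)) :
    MemLp (fun x => f x * g x) (3 / 2) (vol d) := by
  have := hc331
  exact MemLp.mul' hg hf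

theorem int32 {f g : T d → ℝ} (hf : MemLp f 3 (vol d)) (hg : MemLp g (3 / 2) (vol d)) :
    Integrable (fun x => f x * g x) (vol d) := by
  have := hc321
  exact memLp_one_iff_integrable.1 (MemLp.mul' hg hf)

theorem int3 {f : T d → ℝ} (hf : MemLp f 3 (vol d)) : Integrable f (vol d) :=
  hf.integrable (by norm_num)

theorem one_le_32 : (1 : ℝ≥0∞) ≤ 3 / 2 := by
  rw [ENNReal.le_div_iff_mul_le (by simp) (by simp)]
  norm_num

theorem int2 {f : T d → ℝ} (hf : MemLp f (3 / 2) (vol d)) : Integrable f (vol d) :=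
  hf.integrable one_le_32

theorem ci {a b : T d → ℝ} (ha : Integrable a (vol d)) (hb : Integrable b (vol d)) (s : ℝ) :
    Integrable (fun x => a x + s * b x) (vol d) := ha.add (hb.const_mul s)

theorem lin2 {a b : T d → ℝ} (ha : Integrable a (vol d)) (hb : Integrable b (vol d)) (s : ℝ) :
    ∫ x, (a x + s * b x) ∂vol d = (∫ x, a x ∂vol d) + s * ∫ x, b x ∂vol d := by
  rw [integral_add ha (hb.const_mul s), integral_const_mul]

theorem lin3 {a b c : T d → ℝ} (ha : Integrable a (vol d)) (hb : Integrable b (vol d))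
    (hc : Integrable c (vol d)) (s t : ℝ) :
    ∫ x, (a x + s * b x + t * c x) ∂vol d =
      (∫ x, a x ∂vol d) + s * (∫ x, b x ∂vol d) + t * ∫ x, c x ∂vol d := by
  rw [lin2 (ci ha hb s) hc t, lin2 ha hb s]

theorem lin4 {a b c e : T d → ℝ} (ha : Integrable a (vol d)) (hb : Integrable b (vol d))
    (hc : Integrable c (vol d)) (he : Integrable e (vol d)) (s t u : ℝ) :
    ∫ x, (a x + s * b x + t * c x + u * e x) ∂vol d =
      (∫ x, a x ∂vol d) + s * (∫ x, b x ∂vol d) + t * (∫ x, c x ∂vol d) + u * ∫ x, e x ∂vol d := by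
  rw [lin2 (ci (ci ha hb s) hc t) he u, lin3 ha hb hc s t]

theorem lin6 {a b c e f g : T d → ℝ} (ha : Integrable a (vol d)) (hb : Integrable b (vol d))
    (hc : Integrable c (vol d)) (he : Integrable e (vol d)) (hf : Integrable f (vol d))
    (hg : Integrable g (vol d)) (s t u v w : ℝ) :
    ∫ x, (a x + s * b x + t * c x + u * e x + v * f x + w * g x) ∂vol d =
      (∫ x, a x ∂vol d) + s * (∫ x, b x ∂vol d) + t * (∫ x, c x ∂vol d) + u * (∫ x, e x ∂vol d) +
        v * (∫ x, f x ∂vol d) + w * ∫ x, g x ∂vol d := by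
  rw [lin2 (ci (ci (ci (ci ha hb s) hc t) he u) hf v) hg w, lin2 (ci (ci (ci ha hb s) hc t) he u)
    hf v, lin4 ha hb hc he s t u]

/-! ### Fourier coefficients -/

theorem int_fc {f : T d → ℝ} (hf : Integrable f (vol d)) (k : Fin d → ℤ) :
    Integrable (fun x => mFourier (-k) x * (f x : ℂ)) (vol d) := by
  obtain ⟨C, hC⟩ : ∃ C, ∀ x, ‖mFourier (-k) x‖ ≤ C :=
    ⟨‖mFourier (-k)‖, fun x => ContinuousMap.norm_coe_le_norm _ x⟩
  exact hf.ofReal.bdd_mul (mFourier (-k)).continuous.aestronglyMeasurable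
    (Eventually.of_forall hC)

theorem fc_add {f g : T d → ℝ} (hf : Integrable f (vol d)) (hg : Integrable g (vol d))
    (s : ℝ) (k : Fin d → ℤ) : fc (fun x => f x + s * g x) k = fc f k + s * fc g k := by
  unfold fc
  have e : (fun x => mFourier (-k) x * ((f x + s * g x : ℝ) : ℂ)) =
      fun x => mFourier (-k) x * (f x : ℂ) + (s : ℂ) * (mFourier (-k) x * (g x : ℂ)) := by
    funext x
    push_cast
    ring
  rw [e, integral_add (int_fc hf k) ((int_fc hg k).const_mul _), integral_const_mul]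

theorem int_mFourier (k : Fin d → ℤ) (hk : k ≠ 0) : ∫ x, mFourier (-k) x ∂vol d = 0 := by
  obtain ⟨i, hi⟩ : ∃ i, k i ≠ 0 := by
    by_contra h
    push Not at h
    exact hk (funext h)
  have h1 : ∫ x, mFourier (-k) x ∂vol d =
      ∏ i, ∫ t, fourier (-k i) t ∂(AddCircle.haarAddCircle : Measure UnitAddCircle) :=
    integral_fintype_prod_eq_prod (μ := fun _ : Fin d =>
      (AddCircle.haarAddCircle : Measure UnitAddCircle)) (fun i t => (fourier (-k i) t : ℂ))
  rw [h1]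
  refine Finset.prod_eq_zero (Finset.mem_univ i) ?_
  exact integral_eq_zero_of_add_right_eq_neg (μ := AddCircle.haarAddCircle)
    (fourier_add_half_inv_index (neg_ne_zero.2 hi) (by norm_num))

theorem fc_one (i : Fin d) (k : Fin d → ℤ) : sy i k * fc (fun _ : T d => (1 : ℝ)) k = 0 := by
  by_cases hk : k = 0
  · subst hk
    unfold sy
    simp
  · have : fc (fun _ : T d => (1 : ℝ)) k = 0 := by
      unfold fc
      simp only [Complex.ofReal_one, mul_one]
      exact int_mFourier k hk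
    rw [this, mul_zero]

theorem grad_add {ρ σ : T d → ℝ} {v w : Fin d → T d → ℝ} (hρ : MemLp ρ 3 (vol d))
    (hσ : MemLp σ 3 (vol d)) (hv : Grad ρ v) (hw : Grad σ w) (s : ℝ) :
    Grad (fun x => ρ x + s * σ x) (fun i x => v i x + s * w i x) := by
  refine ⟨fun i => (hv.mem i).add ((hw.mem i).const_mul s), fun i k => ?_⟩
  rw [fc_add (int3 (hv.mem i)) (int3 (hw.mem i)), fc_add (int3 hρ) (int3 hσ), hv.four, hw.four]
  ring

/-! ### the derivative -/

theorem sumsq (a b : Fin d → ℝ) (s : ℝ) : ∑ i, (a i + s * b i) ^ 2 =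
    ∑ i, a i ^ 2 + 2 * s * ∑ i, a i * b i + s ^ 2 * ∑ i, b i ^ 2 := by
  rw [Finset.mul_sum, Finset.mul_sum, ← Finset.sum_add_distrib, ← Finset.sum_add_distrib]
  exact Finset.sum_congr rfl fun i _ => by ring

theorem memC {v w : Fin d → T d → ℝ} (hv : ∀ i, MemLp (v i) 3 (vol d))
    (hw : ∀ i, MemLp (w i) 3 (vol d)) :
    MemLp (fun x => ∑ i, v i x * w i x) (3 / 2) (vol d) :=
  memLp_finsetSum _ fun i _ => mul33 (hv i) (hw i)

theorem memV {v : Fin d → T d → ℝ} (hv : ∀ i, MemLp (v i) 3 (vol d)) :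
    MemLp (fun x => ∑ i, v i x ^ 2) (3 / 2) (vol d) := by
  have e : (fun x => ∑ i, v i x ^ 2) = fun x => ∑ i, v i x * v i x := by
    funext x
    exact Finset.sum_congr rfl fun i _ => by ring
  rw [e]
  exact memC hv hv

theorem Jd_add (δ : ℝ) {ρ σ : T d → ℝ} {v w : Fin d → T d → ℝ} (hρ : MemLp ρ 3 (vol d))
    (hσ : MemLp σ 3 (vol d)) (hv : ∀ i, MemLp (v i) 3 (vol d)) (hw : ∀ i, MemLp (w i) 3 (vol d)) :
    ∃ D2 D3 : ℝ, ∀ s : ℝ, Jd δ (fun x => ρ x + s * σ x) (fun i x => v i x + s * w i x) =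
      Jd δ ρ v + s * ((∫ x, σ x * ∑ i, v i x ^ 2 ∂vol d) +
        2 * (∫ x, ρ x * ∑ i, v i x * w i x ∂vol d)
        - 2 * c1 d * (∫ x, ∑ i, v i x * w i x ∂vol d) + 3 * δ * ∫ x, σ x * (ρ x * ρ x) ∂vol d) +
      s ^ 2 * D2 + s ^ 3 * D3 := by
  have mV := memV hv
  have mW := memV hw
  have mC := memC hv hw
  refine ⟨2 * (∫ x, σ x * ∑ i, v i x * w i x ∂vol d) + (∫ x, ρ x * ∑ i, w i x ^ 2 ∂vol d) -
    c1 d * (∫ x, ∑ i, w i x ^ 2 ∂vol d) + 3 * δ * ∫ x, ρ x * (σ x * σ x) ∂vol d,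
    (∫ x, σ x * ∑ i, w i x ^ 2 ∂vol d) + δ * ∫ x, σ x * (σ x * σ x) ∂vol d, fun s => ?_⟩
  unfold Jd
  have e1 : (∫ x, (ρ x + s * σ x) * ∑ i, (v i x + s * w i x) ^ 2 ∂vol d) =
      (∫ x, ρ x * ∑ i, v i x ^ 2 ∂vol d) + s * (∫ x, σ x * ∑ i, v i x ^ 2 ∂vol d) +
      (2 * s) * (∫ x, ρ x * ∑ i, v i x * w i x ∂vol d) +
      (2 * s ^ 2) * (∫ x, σ x * ∑ i, v i x * w i x ∂vol d) +
      s ^ 2 * (∫ x, ρ x * ∑ i, w i x ^ 2 ∂vol d) + s ^ 3 * ∫ x, σ x * ∑ i, w i x ^ 2 ∂vol d := by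
    rw [← lin6 (int32 hρ mV) (int32 hσ mV) (int32 hρ mC) (int32 hσ mC) (int32 hρ mW)
      (int32 hσ mW)]
    refine integral_congr_ae (Eventually.of_forall fun x => ?_)
    show (ρ x + s * σ x) * ∑ i, (v i x + s * w i x) ^ 2 = _
    rw [sumsq]
    ring
  have e2 : (∫ x, ∑ i, (v i x + s * w i x) ^ 2 ∂vol d) =
      (∫ x, ∑ i, v i x ^ 2 ∂vol d) + (2 * s) * (∫ x, ∑ i, v i x * w i x ∂vol d) +
      s ^ 2 * ∫ x, ∑ i, w i x ^ 2 ∂vol d := by
    rw [← lin3 (int2 mV) (int2 mC) (int2 mW)]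
    refine integral_congr_ae (Eventually.of_forall fun x => ?_)
    show ∑ i, (v i x + s * w i x) ^ 2 = _
    rw [sumsq]
  have e3 : (∫ x, (ρ x + s * σ x) ^ 3 ∂vol d) =
      (∫ x, ρ x * (ρ x * ρ x) ∂vol d) + (3 * s) * (∫ x, σ x * (ρ x * ρ x) ∂vol d) +
      (3 * s ^ 2) * (∫ x, ρ x * (σ x * σ x) ∂vol d) + s ^ 3 * ∫ x, σ x * (σ x * σ x) ∂vol d := by
    rw [← lin4 (int32 hρ (mul33 hρ hρ)) (int32 hσ (mul33 hρ hρ)) (int32 hρ (mul33 hσ hσ))
      (int32 hσ (mul33 hσ hσ))]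
    refine integral_congr_ae (Eventually.of_forall fun x => ?_)
    show (ρ x + s * σ x) ^ 3 = _
    ring
  have e4 : (∫ x, ρ x ^ 3 ∂vol d) = ∫ x, ρ x * (ρ x * ρ x) ∂vol d :=
    integral_congr_ae (Eventually.of_forall fun x => by
      show ρ x ^ 3 = ρ x * (ρ x * ρ x)
      ring)
  rw [e1, e2, e3, e4]
  ring

theorem deriv_nonneg (D1 D2 D3 : ℝ)
    (h : ∀ s : ℝ, 0 < s → s ≤ 1 → 0 ≤ s * D1 + s ^ 2 * D2 + s ^ 3 * D3) : 0 ≤ D1 := by
  by_contra hcon
  rw [not_le] at hcon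
  obtain ⟨K, hK⟩ : ∃ K : ℝ, K = |D2| + |D3| + 1 := ⟨_, rfl⟩
  have hK0 : 0 < K := by
    rw [hK]
    positivity
  obtain ⟨s, hs⟩ : ∃ s : ℝ, s = min 1 (-D1 / (2 * K)) := ⟨_, rfl⟩
  have hs0 : 0 < s := by
    rw [hs]
    exact lt_min one_pos (div_pos (by linarith) (by positivity))
  have hs1 : s ≤ 1 := by
    rw [hs]
    exact min_le_left _ _
  have hs2 : s * K ≤ -D1 / 2 := by
    have h1 : s ≤ -D1 / (2 * K) := by
      rw [hs]
      exact min_le_right _ _
    have h2 := mul_le_mul_of_nonneg_right h1 hK0.le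
    have h3 : -D1 / (2 * K) * K = -D1 / 2 := by
      field_simp
    linarith
  have h1 := h s hs0 hs1
  have h2 : D2 ≤ |D2| := le_abs_self _
  have h3 : D3 ≤ |D3| := le_abs_self _
  have h4 : s * D3 ≤ |D3| := by
    have h5 : s * D3 ≤ s * |D3| := mul_le_mul_of_nonneg_left h3 hs0.le
    have h6 : s * |D3| ≤ 1 * |D3| := mul_le_mul_of_nonneg_right hs1 (abs_nonneg _)
    linarith
  have h5 : s * (D1 + s * (D2 + s * D3)) ≤ s * (D1 + s * K) := by
    refine mul_le_mul_of_nonneg_left ?_ hs0.le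
    have h6 : s * (D2 + s * D3) ≤ s * K := by
      refine mul_le_mul_of_nonneg_left ?_ hs0.le
      rw [hK]
      linarith
    linarith
  have h6 : s * (D1 + s * K) < 0 := by
    refine mul_neg_of_pos_of_neg hs0 ?_
    linarith
  have h7 : s * D1 + s ^ 2 * D2 + s ^ 3 * D3 = s * (D1 + s * (D2 + s * D3)) := by ring
  linarith

theorem mem_L {v : Fin d → T d → ℝ} {h φ : T d → ℝ} (hv : ∀ i, MemLp (v i) 3 (vol d))
    (hh : MemLp h 2 (vol d)) (hφ : MemLp φ (3 / 2) (vol d)) :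
    MemLp (Lf v h φ) (3 / 2) (vol d) := by
  have h1 : MemLp h (3 / 2) (vol d) := hh.mono_exponent (by
    rw [ENNReal.div_le_iff (by simp) (by simp)]
    norm_num)
  have h2 : MemLp (fun x => ∑ i, v i x ^ 2 + 4 * kd d * h x - 2 * φ x) (3 / 2) (vol d) :=
    ((memV hv).add (h1.const_mul (4 * kd d))).sub (hφ.const_mul 2)
  exact h2

/-- **KKT** -/
theorem kkt (d : ℕ) (hd : 1 ≤ d) (hV : S_VAR d) (hE : S_EXI d) : S_KKT d := by
  intro δ ρ v h φ hδ hρ hv hh hφ hmin
  have mρ := hρ.mem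
  have mL : MemLp (Lf v h φ) (3 / 2) (vol d) := mem_L hv.mem hh.mem hφ.mem
  obtain ⟨M, hM⟩ : ∃ M : T d → ℝ, M = fun x => Lf v h φ x + 3 * δ * (ρ x * ρ x) := ⟨_, rfl⟩
  have mM : MemLp M (3 / 2) (vol d) := by
    rw [hM]
    exact mL.add ((mul33 mρ mρ).const_mul (3 * δ))
  -- the first variation is nonnegative
  have hvar : ∀ ρ' : T d → ℝ, Adm ρ' → 0 ≤ ∫ x, (ρ' x - ρ x) * M x ∂vol d := by
    intro ρ' hρ'
    obtain ⟨v', hv'⟩ := (hE ρ' hρ'.mem).1
    obtain ⟨σ, hσ⟩ : ∃ σ : T d → ℝ, σ = fun x => ρ' x + (-1) * ρ x := ⟨_, rfl⟩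
    obtain ⟨w, hw⟩ : ∃ w : Fin d → T d → ℝ, w = fun i x => v' i x + (-1) * v i x := ⟨_, rfl⟩
    have mσ : MemLp σ 3 (vol d) := by
      rw [hσ]
      exact hρ'.mem.add (mρ.const_mul (-1))
    have gw : Grad σ w := by
      rw [hσ, hw]
      exact grad_add hρ'.mem mρ hv' hv (-1)
    have iσ : ∫ x, σ x ∂vol d = 0 := by
      rw [hσ, lin2 (int3 hρ'.mem) (int3 mρ), hρ.mass, hρ'.mass]
      ring
    obtain ⟨D2, D3, hJ⟩ := Jd_add δ mρ mσ hv.mem gw.mem
    have hcub : ∀ s : ℝ, 0 < s → s ≤ 1 → 0 ≤ s * ((∫ x, σ x * ∑ i, v i x ^ 2 ∂vol d) +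
        2 * (∫ x, ρ x * ∑ i, v i x * w i x ∂vol d)
        - 2 * c1 d * (∫ x, ∑ i, v i x * w i x ∂vol d) + 3 * δ * ∫ x, σ x * (ρ x * ρ x) ∂vol d) +
        s ^ 2 * D2 + s ^ 3 * D3 := by
      intro s hs0 hs1
      have hadm : Adm (fun x => ρ x + s * σ x) := by
        refine ⟨?_, mρ.add (mσ.const_mul s), ?_⟩
        · filter_upwards [hρ.nonneg, hρ'.nonneg] with x hx hx'
          rw [hσ]
          have h1 : 0 ≤ (1 - s) * ρ x := mul_nonneg (by linarith) hx
          have h2 : 0 ≤ s * ρ' x := mul_nonneg hs0.le hx'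
          linarith
        · rw [lin2 (int3 mρ) (int3 mσ), iσ, hρ.mass]
          ring
      have h1 := hmin _ _ hadm (grad_add mρ mσ hv gw s)
      rw [hJ s] at h1
      linarith
    have h1 := deriv_nonneg _ _ _ hcub
    have h2 := hV ρ h φ σ v w mρ hv hh hφ mσ iσ gw
    have h3 : ∫ x, (ρ' x - ρ x) * M x ∂vol d =
        (∫ x, σ x * Lf v h φ x ∂vol d) + (3 * δ) * ∫ x, σ x * (ρ x * ρ x) ∂vol d := by
      rw [← lin2 (int32 mσ mL) (int32 mσ (mul33 mρ mρ))]
      refine integral_congr_ae (Eventually.of_forall fun x => ?_)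
      show (ρ' x - ρ x) * M x = σ x * Lf v h φ x + (3 * δ) * (σ x * (ρ x * ρ x))
      rw [hM, hσ]
      ring
    rw [h3]
    linarith
  obtain ⟨l, hl⟩ : ∃ l : ℝ, l = ∫ x, ρ x * M x ∂vol d := ⟨_, rfl⟩
  have hMint : Integrable M (vol d) := int2 mM
  -- `M ≥ l`
  have hMl : ∀ᵐ x ∂vol d, l ≤ M x := by
    have h1 : 0 ≤ᵐ[vol d] fun x => M x - l := by
      refine ae_nonneg_of_forall_setIntegral_nonneg (hMint.sub (integrable_const l)) ?_
      intro s hs _
      rw [integral_sub hMint.integrableOn (integrable_const l).integrableOn, setIntegral_const,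
        smul_eq_mul]
      rcases (measureReal_nonneg (μ := vol d) (s := s)).eq_or_lt with h0 | h0
      · have h2 : (vol d) s = 0 := by
          have := h0.symm
          rwa [measureReal_eq_zero_iff] at this
        rw [← h0, zero_mul, sub_zero, setIntegral_measure_zero _ h2]
      · obtain ⟨c, hc⟩ : ∃ c : ℝ, c = ((vol d).real s)⁻¹ := ⟨_, rfl⟩
        have hc0 : 0 < c := by
          rw [hc]
          positivity
        have hadm : Adm (s.indicator fun _ => c) := by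
          refine ⟨Eventually.of_forall fun x => Set.indicator_nonneg (fun _ _ => hc0.le) x,
            memLp_indicator_const 3 hs c (Or.inr (measure_ne_top _ _)), ?_⟩
          rw [integral_indicator hs, setIntegral_const, smul_eq_mul, hc]
          exact mul_inv_cancel₀ h0.ne'
        have h2 := hvar _ hadm
        have h3 : ∫ x, (s.indicator (fun _ => c) x - ρ x) * M x ∂vol d =
            c * (∫ x in s, M x ∂vol d) - l := by
          have e1 : (fun x => (s.indicator (fun _ => c) x - ρ x) * M x) =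
              fun x => s.indicator (fun x => c * M x) x + (-1) * (ρ x * M x) := by
            funext x
            by_cases hx : x ∈ s
            · rw [Set.indicator_of_mem hx, Set.indicator_of_mem hx]
              ring
            · rw [Set.indicator_of_notMem hx, Set.indicator_of_notMem hx]
              ring
          rw [e1, lin2 ((hMint.const_mul c).indicator hs) (int32 mρ mM), integral_indicator hs,
            integral_const_mul, ← hl]
          ring
        rw [h3] at h2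
        have h4 : c * (vol d).real s = 1 := by
          rw [hc]
          exact inv_mul_cancel₀ h0.ne'
        have h5 : 0 ≤ (vol d).real s * (c * (∫ x in s, M x ∂vol d) - l) :=
          mul_nonneg h0.le h2
        have h6 : (vol d).real s * (c * (∫ x in s, M x ∂vol d) - l) =
            (c * (vol d).real s) * (∫ x in s, M x ∂vol d) - (vol d).real s * l := by ring
        rw [h6, h4, one_mul] at h5
        exact h5
    filter_upwards [h1] with x hx
    have hx' : 0 ≤ M x - l := hx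
    linarith
  have hint0 : ∫ x, (ρ x * M x + (-l) * ρ x) ∂vol d = 0 := by
    rw [lin2 (int32 mρ mM) (int3 mρ), ← hl, hρ.mass]
    ring
  have hMρ : ∀ᵐ x ∂vol d, (M x - l) * ρ x = 0 := by
    have h1 : 0 ≤ᵐ[vol d] fun x => ρ x * M x + (-l) * ρ x := by
      filter_upwards [hMl, hρ.nonneg] with x h1 h2
      have h3 : 0 ≤ (M x - l) * ρ x := mul_nonneg (by linarith) h2
      show 0 ≤ ρ x * M x + (-l) * ρ x
      linarith
    have h2 := (integral_eq_zero_iff_of_nonneg_ae h1 (ci (int32 mρ mM) (int3 mρ) (-l))).1 hint0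
    filter_upwards [h2] with x hx
    have hx' : ρ x * M x + (-l) * ρ x = 0 := hx
    linarith
  refine ⟨l, ?_, ?_⟩
  · filter_upwards [hMρ] with x hx hpos
    have h1 : M x - l = 0 := (mul_eq_zero.1 hx).resolve_right hpos.ne'
    rw [hM] at h1
    have h2 : Lf v h φ x + 3 * δ * (ρ x * ρ x) - l = 0 := h1
    have h3 : 0 ≤ 3 * δ * (ρ x * ρ x) := by positivity
    linarith
  · -- homogeneity
    have m1 : MemLp (fun _ : T d => (1 : ℝ)) 3 (vol d) := memLp_const 1
    obtain ⟨σ, hσ⟩ : ∃ σ : T d → ℝ, σ = fun x => ρ x + (-1) * 1 := ⟨_, rfl⟩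
    have mσ : MemLp σ 3 (vol d) := by
      rw [hσ]
      exact mρ.add (m1.const_mul (-1))
    have iσ : ∫ x, σ x ∂vol d = 0 := by
      rw [hσ, lin2 (int3 mρ) (int3 m1), hρ.mass]
      simp
    have gσ : Grad σ v := by
      refine ⟨hv.mem, fun i k => ?_⟩
      rw [hσ, fc_add (int3 mρ) (int3 m1), hv.four, mul_add, mul_left_comm (sy i k), fc_one,
        mul_zero, add_zero]
    have hv1 := hV ρ h φ σ v v mρ hv hh hφ mσ iσ gσ
    have eV : (fun x => ∑ i, v i x * v i x) = fun x => ∑ i, v i x ^ 2 := by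
      funext x
      exact Finset.sum_congr rfl fun i _ => by ring
    have mV := memV hv.mem
    have e1 : ∫ x, σ x * ∑ i, v i x ^ 2 ∂vol d =
        (∫ x, ρ x * ∑ i, v i x ^ 2 ∂vol d) + (-1) * ∫ x, ∑ i, v i x ^ 2 ∂vol d := by
      rw [← lin2 (int32 mρ mV) (int2 mV)]
      refine integral_congr_ae (Eventually.of_forall fun x => ?_)
      show σ x * ∑ i, v i x ^ 2 = ρ x * ∑ i, v i x ^ 2 + (-1) * ∑ i, v i x ^ 2
      rw [hσ]
      ring
    have e2 : ∫ x, ρ x * ∑ i, v i x * v i x ∂vol d = ∫ x, ρ x * ∑ i, v i x ^ 2 ∂vol d := by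
      refine integral_congr_ae (Eventually.of_forall fun x => ?_)
      show ρ x * ∑ i, v i x * v i x = ρ x * ∑ i, v i x ^ 2
      rw [congrFun eV x]
    have e3 : ∫ x, ∑ i, v i x * v i x ∂vol d = ∫ x, ∑ i, v i x ^ 2 ∂vol d := by rw [eV]
    rw [e1, e2, e3] at hv1
    -- `∫ σ L`
    have mLl : MemLp (fun x => Lf v h φ x - l) (3 / 2) (vol d) := mL.sub (memLp_const l)
    have iLl : Integrable (fun x => Lf v h φ x - l) (vol d) := int2 mLl
    have e4 : ∫ x, σ x * Lf v h φ x ∂vol d =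
        (∫ x, (ρ x * M x + (-l) * ρ x) ∂vol d) + (-(3 * δ)) * (∫ x, ρ x * (ρ x * ρ x) ∂vol d) +
        (-1) * (∫ x, (Lf v h φ x - l) ∂vol d) + l * ∫ x, σ x ∂vol d := by
      rw [← lin4 (ci (int32 mρ mM) (int3 mρ) (-l)) (int32 mρ (mul33 mρ mρ)) iLl (int3 mσ)]
      refine integral_congr_ae (Eventually.of_forall fun x => ?_)
      show σ x * Lf v h φ x = (ρ x * M x + (-l) * ρ x) + (-(3 * δ)) * (ρ x * (ρ x * ρ x)) +
        (-1) * (Lf v h φ x - l) + l * σ x
      rw [hM, hσ]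
      ring
    have e5 : ∫ x, (Lf v h φ x - l) ∂vol d ≤ ∫ x, max (Lf v h φ x - l) 0 ∂vol d := by
      refine integral_mono iLl ?_ fun x => le_max_left _ _
      exact iLl.pos_part
    have e6 : (∫ x, ρ x ^ 3 ∂vol d) = ∫ x, ρ x * (ρ x * ρ x) ∂vol d :=
      integral_congr_ae (Eventually.of_forall fun x => by
        show ρ x ^ 3 = ρ x * (ρ x * ρ x)
        ring)
    rw [hint0, iσ] at e4
    have hdR : (1 : ℝ) ≤ d := by exact_mod_cast hd
    have hck : 1 - c1 d = 2 * kd d := by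
      unfold c1 kd
      field_simp
      ring
    unfold Jd
    rw [e6]
    have e7 : c1 d = 1 - 2 * kd d := by linarith
    rw [e7] at hv1 ⊢
    linarith

end Pool.Agent.R763.PL.KKT
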