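import Pool.Agent.R763.PL.Stm

/-! # KER: the gradient of the Green kernel of the torus is integrable -/

set_option autoImplicit false
set_option maxHeartbeats 1000000

open MeasureTheory UnitAddTorus Filter Topology
open scoped ENNReal Real

namespace Pool.Agent.R763.PL.Ker

/-- the normalised measure of the circle -/
noncomputable abbrev hm : Measure UnitAddCircle := AddCircle.haarAddCircle

/-! ## absolutely convergent Fourier series on the circle -/

/-- the function with Fourier coefficients `a` -/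
noncomputable def fs (a : ℤ → ℂ) : C(UnitAddCircle, ℂ) := ∑' n, a n • fourier n

theorem cont_int {f : UnitAddCircle → ℂ} (hf : Continuous f) : Integrable f hm :=
  hf.integrable_of_hasCompactSupport (HasCompactSupport.of_compactSpace _)

theorem cont_intR {f : UnitAddCircle → ℝ} (hf : Continuous f) : Integrable f hm :=
  hf.integrable_of_hasCompactSupport (HasCompactSupport.of_compactSpace _)

theorem fs_hasSum {a : ℤ → ℂ} (ha : Summable fun n => ‖a n‖) :
    HasSum (fun n => a n • (fourier n : C(UnitAddCircle, ℂ))) (fs a) := by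
  apply Summable.hasSum
  apply Summable.of_norm
  refine ha.congr fun n => ?_
  rw [norm_smul, fourier_norm, mul_one]

theorem fs_apply {a : ℤ → ℂ} (ha : Summable fun n => ‖a n‖) (x : UnitAddCircle) :
    HasSum (fun n => a n * fourier n x) (fs a x) :=
  (ContinuousMap.evalCLM ℂ x).hasSum (fs_hasSum ha)

theorem norm_fourier (n : ℤ) (x : UnitAddCircle) : ‖(fourier n x : ℂ)‖ = 1 := by
  rw [fourier_apply, Circle.norm_coe]

theorem int_fourier (m n : ℤ) :
    ∫ x, fourier (-m) x * fourier n x ∂hm = if n = m then 1 else 0 := by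
  have h := congrFun (fourierCoeff_fourier (T := 1) n) m
  unfold fourierCoeff at h
  simp only [smul_eq_mul] at h
  rw [h, Pi.single_apply]
  by_cases hnm : n = m
  · rw [if_pos hnm.symm, if_pos hnm]
  · rw [if_neg (Ne.symm hnm), if_neg hnm]

theorem fs_coeff {a : ℤ → ℂ} (ha : Summable fun n => ‖a n‖) (m : ℤ) :
    ∫ x, fourier (-m) x * fs a x ∂hm = a m := by
  have hF : ∀ n : ℤ, Integrable (fun x : UnitAddCircle => fourier (-m) x * (a n * fourier n x)) hm :=
    fun n => cont_int ((fourier (-m)).continuous.mul (continuous_const.mul (fourier n).continuous))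
  have hn : ∀ n : ℤ, ∫ x : UnitAddCircle, ‖fourier (-m) x * (a n * fourier n x)‖ ∂hm = ‖a n‖ := by
    intro n
    have : ∀ x : UnitAddCircle, ‖(fourier (-m) x : ℂ) * (a n * fourier n x)‖ = ‖a n‖ := by
      intro x
      rw [norm_mul, norm_mul, norm_fourier, norm_fourier, one_mul, mul_one]
    simp only [this]
    simp
  have h := hasSum_integral_of_summable_integral_norm (μ := hm) hF (by simpa only [hn] using ha)
  have e1 : ∀ x : UnitAddCircle, ∑' n : ℤ, fourier (-m) x * (a n * fourier n x) =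
      fourier (-m) x * fs a x := by
    intro x
    rw [tsum_mul_left, (fs_apply ha x).tsum_eq]
  simp only [e1] at h
  have e2 : ∀ n : ℤ, ∫ x : UnitAddCircle, fourier (-m) x * (a n * fourier n x) ∂hm =
      if n = m then a m else 0 := by
    intro n
    have : ∀ x : UnitAddCircle, (fourier (-m) x : ℂ) * (a n * fourier n x) =
        a n * (fourier (-m) x * fourier n x) := fun x => by ring
    simp only [this]
    rw [integral_const_mul, int_fourier]
    by_cases hnm : n = m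
    · rw [if_pos hnm, if_pos hnm, hnm, mul_one]
    · rw [if_neg hnm, if_neg hnm, mul_zero]
  simp only [e2] at h
  exact h.unique (hasSum_ite_eq m (a m))

theorem fs_L2 {a : ℤ → ℂ} (ha : Summable fun n => ‖a n‖) :
    HasSum (fun n => ‖a n‖ ^ 2) (∫ x, ‖fs a x‖ ^ 2 ∂hm) := by
  have h := hasSum_sq_fourierCoeff (T := 1) (ContinuousMap.toLp (E := ℂ) 2 hm ℂ (fs a))
  simp only [fourierCoeff_toLp] at h
  have e1 : ∀ n, fourierCoeff (T := 1) (fs a) n = a n := by
    intro n
    unfold fourierCoeff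
    simp only [smul_eq_mul]
    exact fs_coeff ha n
  simp only [e1] at h
  have e2 : ∫ x, ‖(ContinuousMap.toLp (E := ℂ) 2 hm ℂ (fs a)) x‖ ^ 2 ∂hm =
      ∫ x, ‖fs a x‖ ^ 2 ∂hm := by
    refine integral_congr_ae ?_
    filter_upwards [ContinuousMap.coeFn_toLp (p := 2) (𝕜 := ℂ) hm (fs a)] with x hx
    rw [hx]
  rwa [e2] at h

theorem fs_L1 {a : ℤ → ℂ} (ha : Summable fun n => ‖a n‖) :
    (∫ x, ‖fs a x‖ ∂hm) ^ 2 ≤ ∑' n, ‖a n‖ ^ 2 := by
  rw [(fs_L2 ha).tsum_eq]
  set m := ∫ x, ‖fs a x‖ ∂hm with hm'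
  have h0 : 0 ≤ ∫ x, (‖fs a x‖ - m) ^ 2 ∂hm := integral_nonneg fun x => sq_nonneg _
  have i1 : Integrable (fun x => ‖fs a x‖ ^ 2) hm := cont_intR ((fs a).continuous.norm.pow 2)
  have i2 : Integrable (fun x => ‖fs a x‖) hm := cont_intR (fs a).continuous.norm
  have e : ∀ x, (‖fs a x‖ - m) ^ 2 = ‖fs a x‖ ^ 2 - (2 * m * ‖fs a x‖ - m ^ 2) := fun x => by ring
  simp only [e] at h0
  have i3 : Integrable (fun x => 2 * m * ‖fs a x‖ - m ^ 2) hm :=
    (i2.const_mul (2 * m)).sub (integrable_const (m ^ 2))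
  rw [integral_sub i1 i3, integral_sub (i2.const_mul (2 * m)) (integrable_const (m ^ 2)),
    integral_const_mul, ← hm'] at h0
  have e4 : ∫ _x : UnitAddCircle, m ^ 2 ∂hm = m ^ 2 := by simp
  rw [e4] at h0
  nlinarith

/-! ## the coefficients -/

/-- coefficients of the heat kernel -/
noncomputable def αt (s : ℝ) (n : ℤ) : ℂ := ((Real.exp (-(4 * π ^ 2 * s) * (n : ℝ) ^ 2) : ℝ) : ℂ)

/-- coefficients of the heat kernel or of its derivative -/
noncomputable def αb (b : Bool) (s : ℝ) (n : ℤ) : ℂ :=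
  (if b then 2 * π * Complex.I * (n : ℂ) else 1) * αt s n

theorem norm_αt (s : ℝ) (n : ℤ) : ‖αt s n‖ = Real.exp (-(4 * π ^ 2 * s) * (n : ℝ) ^ 2) := by
  unfold αt
  rw [Complex.norm_real, Real.norm_of_nonneg (Real.exp_nonneg _)]

theorem exp_bd {c : ℝ} (hc : 0 < c) {n : ℤ} (hn : n ≠ 0) :
    Real.exp (-c * (n : ℝ) ^ 2) ≤ 2 / c ^ 2 * (1 / |(n : ℝ)| ^ 4) := by
  have hn' : (1 : ℝ) ≤ |(n : ℝ)| := by
    rw [← Int.cast_abs]
    exact_mod_cast Int.one_le_abs hn
  have h1 := Real.pow_div_factorial_le_exp (c * (n : ℝ) ^ 2) (by positivity) 2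
  have h2 : (0 : ℝ) < (c * (n : ℝ) ^ 2) ^ 2 / 2 := by
    have : (n : ℝ) ≠ 0 := by exact_mod_cast hn
    positivity
  rw [neg_mul, Real.exp_neg]
  have h3 : ((Nat.factorial 2 : ℕ) : ℝ) = 2 := by norm_num [Nat.factorial]
  rw [h3] at h1
  have h4 := inv_anti₀ h2 h1
  refine h4.trans (le_of_eq ?_)
  have h5 : |(n : ℝ)| ^ 4 = ((n : ℝ) ^ 2) ^ 2 := by
    rw [← pow_mul]
    exact Even.pow_abs (by decide) _
  rw [h5]
  field_simp

theorem norm_αb_le (b : Bool) {s : ℝ} (hs : 0 < s) {n : ℤ} (hn : n ≠ 0) :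
    ‖αb b s n‖ ≤ (2 * π + 1) * (2 / (4 * π ^ 2 * s) ^ 2) * (1 / |(n : ℝ)| ^ 2) := by
  have hn' : (1 : ℝ) ≤ |(n : ℝ)| := by
    rw [← Int.cast_abs]
    exact_mod_cast Int.one_le_abs hn
  have hc : 0 < 4 * π ^ 2 * s := by positivity
  have h1 := exp_bd hc hn
  have h2 : ‖(if b then 2 * π * Complex.I * (n : ℂ) else 1 : ℂ)‖ ≤ (2 * π + 1) * |(n : ℝ)| := by
    cases b
    · simp only [Bool.false_eq_true, if_false, norm_one]
      nlinarith [Real.pi_pos]
    · simp only [if_true, norm_mul, Complex.norm_real, Complex.norm_I, mul_one, Complex.norm_ofNat,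
        Complex.norm_intCast, Real.norm_of_nonneg Real.pi_pos.le]
      nlinarith [Real.pi_pos]
  unfold αb
  rw [norm_mul, norm_αt]
  calc _ ≤ ((2 * π + 1) * |(n : ℝ)|) * (2 / (4 * π ^ 2 * s) ^ 2 * (1 / |(n : ℝ)| ^ 4)) :=
        mul_le_mul h2 h1 (Real.exp_nonneg _) (by positivity)
    _ = (2 * π + 1) * (2 / (4 * π ^ 2 * s) ^ 2) * (|(n : ℝ)| / |(n : ℝ)| ^ 4) := by ring
    _ ≤ (2 * π + 1) * (2 / (4 * π ^ 2 * s) ^ 2) * (1 / |(n : ℝ)| ^ 2) := by
        refine mul_le_mul_of_nonneg_left ?_ (by positivity)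
        rw [div_le_div_iff₀ (by positivity) (by positivity), one_mul]
        calc |(n : ℝ)| * |(n : ℝ)| ^ 2 = |(n : ℝ)| ^ 3 := by ring
          _ ≤ |(n : ℝ)| ^ 4 := pow_le_pow_right₀ hn' (by norm_num)

theorem summ_inv_sq : Summable fun n : ℤ => 1 / |(n : ℝ)| ^ 2 := by
  have h := (Real.summable_one_div_int_pow (p := 2)).mpr (by norm_num)
  refine h.congr fun n => ?_
  rw [sq_abs]

theorem summ_αb (b : Bool) {s : ℝ} (hs : 0 < s) : Summable fun n => ‖αb b s n‖ := by
  refine Summable.of_norm_bounded_eventually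
    (summ_inv_sq.mul_left ((2 * π + 1) * (2 / (4 * π ^ 2 * s) ^ 2))) ?_
  refine (Set.finite_singleton (0 : ℤ)).subset ?_
  intro n hn
  by_contra h
  apply hn
  change ‖‖αb b s n‖‖ ≤ _
  rw [norm_norm]
  exact norm_αb_le b hs h

/-! ## the norms -/

theorem th_real {s : ℝ} (hs : 0 < s) (x : UnitAddCircle) :
    ∃ r : ℝ, 0 ≤ r ∧ fs (αb false s) x = (r : ℂ) := by
  obtain ⟨t, rfl⟩ := QuotientAddGroup.mk_surjective x
  refine ⟨1 / (4 * π * s) ^ (1 / 2 : ℝ) *
    ∑' n : ℤ, Real.exp (-π / (4 * π * s) * ((n : ℝ) - t) ^ 2), ?_, ?_⟩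
  · exact mul_nonneg (by positivity) (tsum_nonneg fun n => Real.exp_nonneg _)
  · rw [← (fs_apply (summ_αb false hs) _).tsum_eq]
    have e1 : ∀ n : ℤ, αb false s n * fourier n ((t : ℝ) : UnitAddCircle) =
        Complex.exp (-π * ((4 * π * s : ℝ) : ℂ) * (n : ℂ) ^ 2 +
          2 * π * (Complex.I * t) * n) := by
      intro n
      rw [fourier_coe_apply]
      unfold αb αt
      rw [Complex.ofReal_exp, if_neg (by decide), one_mul, ← Complex.exp_add]
      congr 1
      push_cast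
      ring
    refine (tsum_congr e1).trans ?_
    rw [Complex.tsum_exp_neg_quadratic (by rw [Complex.ofReal_re]; positivity)]
    have e2 : ∀ n : ℤ, Complex.exp (-π / ((4 * π * s : ℝ) : ℂ) *
        ((n : ℂ) + Complex.I * (Complex.I * t)) ^ 2) =
        ((Real.exp (-π / (4 * π * s) * ((n : ℝ) - t) ^ 2) : ℝ) : ℂ) := by
      intro n
      rw [Complex.ofReal_exp]
      congr 1
      rw [← mul_assoc, Complex.I_mul_I]
      push_cast
      ring
    rw [tsum_congr e2, ← Complex.ofReal_tsum]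
    have e3 : ((4 * π * s : ℝ) : ℂ) ^ (1 / 2 : ℂ) = (((4 * π * s) ^ (1 / 2 : ℝ) : ℝ) : ℂ) := by
      rw [Complex.ofReal_cpow (by positivity)]
      push_cast
      ring_nf
    rw [e3]
    push_cast
    ring

theorem th_L1 {s : ℝ} (hs : 0 < s) : ∫ x, ‖fs (αb false s) x‖ ∂hm = 1 := by
  have e1 : ∀ x, ‖fs (αb false s) x‖ = (fs (αb false s) x).re := by
    intro x
    obtain ⟨r, hr, hx⟩ := th_real hs x
    rw [hx, Complex.norm_real, Real.norm_of_nonneg hr, Complex.ofReal_re]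
  simp only [e1]
  have h := fs_coeff (summ_αb false hs) 0
  simp only [neg_zero, fourier_zero, one_mul] at h
  have i1 : Integrable (fun x => fs (αb false s) x) hm := cont_int (fs (αb false s)).continuous
  have h2 := congrArg Complex.re h
  have h3 : (∫ x, fs (αb false s) x ∂hm).re = ∫ x, (fs (αb false s) x).re ∂hm :=
    (integral_re (𝕜 := ℂ) i1).symm
  rw [h3] at h2
  rw [h2]
  unfold αb αt
  simp

theorem rpow_exp_bd {y : ℝ} (hy : 0 < y) : y ^ (7 / 4 : ℝ) * Real.exp (-y) ≤ 3 := by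
  have h1 : y ^ (7 / 4 : ℝ) ≤ 1 + y ^ 2 := by
    rcases le_total y 1 with h | h
    · have := Real.rpow_le_one hy.le h (by norm_num : (0 : ℝ) ≤ 7 / 4)
      nlinarith [sq_nonneg y]
    · have h2 : y ^ (7 / 4 : ℝ) ≤ y ^ (2 : ℝ) := Real.rpow_le_rpow_of_exponent_le h (by norm_num)
      rw [Real.rpow_two] at h2
      linarith
  have h3 := Real.pow_div_factorial_le_exp y hy.le 2
  have h4 : ((Nat.factorial 2 : ℕ) : ℝ) = 2 := by norm_num [Nat.factorial]
  rw [h4] at h3
  have h5 : 1 ≤ Real.exp y := Real.one_le_exp hy.le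
  rw [Real.exp_neg, ← div_eq_mul_inv, div_le_iff₀ (Real.exp_pos _)]
  linarith

theorem dt_term {s : ℝ} (hs : 0 < s) (n : ℤ) :
    ‖αb true s n‖ ^ 2 ≤ 12 * π ^ 2 * (s ^ (-(7 / 4) : ℝ) * Real.exp (-(2 * s))) *
      |(n : ℝ)| ^ (-(3 / 2) : ℝ) := by
  by_cases hn : n = 0
  · subst hn
    have : αb true s 0 = 0 := by unfold αb; simp
    rw [this, norm_zero]
    have h1 : 0 ≤ |((0 : ℤ) : ℝ)| ^ (-(3 / 2) : ℝ) := Real.rpow_nonneg (abs_nonneg _) _
    have h2 : 0 ≤ s ^ (-(7 / 4) : ℝ) := Real.rpow_nonneg hs.le _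
    rw [zero_pow two_ne_zero]
    exact mul_nonneg (mul_nonneg (by positivity) (mul_nonneg h2 (Real.exp_nonneg _))) h1
  have hn' : (1 : ℝ) ≤ |(n : ℝ)| := by
    rw [← Int.cast_abs]
    exact_mod_cast Int.one_le_abs hn
  set N : ℝ := |(n : ℝ)| with hN
  have hN0 : 0 < N := by linarith
  have hnN : (n : ℝ) ^ 2 = N ^ 2 := (sq_abs _).symm
  have hpi : (1 : ℝ) ≤ π := by linarith [Real.pi_gt_three]
  set y : ℝ := 4 * π ^ 2 * s * N ^ 2 with hy
  have hy0 : 0 < y := by positivity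
  have hnorm : ‖αb true s n‖ = 2 * π * N * Real.exp (-y) := by
    unfold αb
    rw [norm_mul, norm_αt, hnN]
    simp only [if_true, norm_mul, Complex.norm_real, Complex.norm_I, mul_one, Complex.norm_ofNat,
      Complex.norm_intCast, Real.norm_of_nonneg Real.pi_pos.le]
    rw [hy, hN, neg_mul]
  have h1 := rpow_exp_bd hy0
  have h2 : s * N ^ 2 ≤ y := by
    rw [hy]
    have : (1 : ℝ) ≤ 4 * π ^ 2 := by nlinarith
    have h3 : 0 < s * N ^ 2 := by positivity
    nlinarith
  have h3 : (s * N ^ 2) ^ (7 / 4 : ℝ) ≤ y ^ (7 / 4 : ℝ) :=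
    Real.rpow_le_rpow (by positivity) h2 (by norm_num)
  have h4 : (s * N ^ 2) ^ (7 / 4 : ℝ) = s ^ (7 / 4 : ℝ) * N ^ (7 / 2 : ℝ) := by
    rw [Real.mul_rpow hs.le (by positivity), ← Real.rpow_natCast N 2, ← Real.rpow_mul hN0.le]
    norm_num
  have h5 : s ^ (7 / 4 : ℝ) * N ^ (7 / 2 : ℝ) * Real.exp (-y) ≤ 3 := by
    rw [← h4]
    exact (mul_le_mul_of_nonneg_right h3 (Real.exp_nonneg _)).trans h1
  have h6 : 2 * s ≤ y := by
    rw [hy]
    have hN2 : 1 ≤ N ^ 2 := one_le_pow₀ hn'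
    have hp2 : 1 ≤ π ^ 2 := one_le_pow₀ hpi
    have := one_le_mul_of_one_le_of_one_le hp2 hN2
    nlinarith
  have h7 : Real.exp (-y) ≤ Real.exp (-(2 * s)) := Real.exp_le_exp.mpr (by linarith)
  have hsp : 0 < s ^ (7 / 4 : ℝ) := Real.rpow_pos_of_pos hs _
  have hNp : 0 < N ^ (7 / 2 : ℝ) := Real.rpow_pos_of_pos hN0 _
  have e1 : s ^ (-(7 / 4) : ℝ) = (s ^ (7 / 4 : ℝ))⁻¹ := Real.rpow_neg hs.le _
  have e2 : N ^ (-(3 / 2) : ℝ) = N ^ 2 * (N ^ (7 / 2 : ℝ))⁻¹ := by
    rw [← Real.rpow_neg hN0.le, ← Real.rpow_natCast N 2, ← Real.rpow_add hN0]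
    norm_num
  rw [hnorm, e1, e2]
  have h8 : Real.exp (-y) ≤ 3 * ((s ^ (7 / 4 : ℝ))⁻¹ * (N ^ (7 / 2 : ℝ))⁻¹) := by
    rw [← mul_inv, ← div_eq_mul_inv, le_div_iff₀ (by positivity)]
    linarith
  have h9 : 0 ≤ Real.exp (-y) := Real.exp_nonneg _
  calc (2 * π * N * Real.exp (-y)) ^ 2 = 4 * π ^ 2 * N ^ 2 * (Real.exp (-y) * Real.exp (-y)) := by ring
    _ ≤ 4 * π ^ 2 * N ^ 2 * (3 * ((s ^ (7 / 4 : ℝ))⁻¹ * (N ^ (7 / 2 : ℝ))⁻¹) * Real.exp (-(2 * s))) :=
        mul_le_mul_of_nonneg_left (mul_le_mul h8 h7 h9 (by positivity)) (by positivity)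
    _ = _ := by ring

theorem dt_L1 : ∃ C : ℝ, 0 ≤ C ∧ ∀ s : ℝ, 0 < s →
    ∫ x, ‖fs (αb true s) x‖ ∂hm ≤ C * (s ^ (-(7 / 8) : ℝ) * Real.exp (-s)) := by
  have hZ := Real.summable_abs_int_rpow (b := 3 / 2) (by norm_num)
  set Z : ℝ := ∑' n : ℤ, |(n : ℝ)| ^ (-(3 / 2) : ℝ) with hZd
  have hZ0 : 0 ≤ Z := tsum_nonneg fun n => Real.rpow_nonneg (abs_nonneg _) _
  refine ⟨Real.sqrt (12 * π ^ 2 * Z), Real.sqrt_nonneg _, ?_⟩
  intro s hs
  have h1 := fs_L1 (summ_αb true hs)
  have h2 : ∑' n, ‖αb true s n‖ ^ 2 ≤ 12 * π ^ 2 * (s ^ (-(7 / 4) : ℝ) * Real.exp (-(2 * s))) * Z := by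
    rw [hZd, ← tsum_mul_left]
    exact (fs_L2 (summ_αb true hs)).summable.tsum_le_tsum (fun n => dt_term hs n)
      (hZ.mul_left _)
  have h3 := h1.trans h2
  have hs8 : 0 ≤ s ^ (-(7 / 8) : ℝ) := Real.rpow_nonneg hs.le _
  have h4 : (Real.sqrt (12 * π ^ 2 * Z) * (s ^ (-(7 / 8) : ℝ) * Real.exp (-s))) ^ 2 =
      12 * π ^ 2 * (s ^ (-(7 / 4) : ℝ) * Real.exp (-(2 * s))) * Z := by
    rw [mul_pow, Real.sq_sqrt (by positivity), mul_pow, ← Real.rpow_natCast (s ^ (-(7 / 8) : ℝ)) 2,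
      ← Real.rpow_mul hs.le, ← Real.exp_nat_mul]
    norm_num
    ring_nf
  rw [← h4] at h3
  exact (pow_le_pow_iff_left₀ (integral_nonneg fun x => norm_nonneg _) (by positivity)
    (by norm_num)).mp h3

/-! ## joint measurability -/

/-- the two kernels as functions of time and position -/
noncomputable def gg (b : Bool) (p : ℝ × UnitAddCircle) : ℂ :=
  if 0 < p.1 then fs (αb b p.1) p.2 else 0

theorem meas_αb (b : Bool) (n : ℤ) : Measurable fun s : ℝ => αb b s n := by
  unfold αb αt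
  apply Measurable.const_mul
  apply Continuous.measurable
  fun_prop

theorem meas_gg (b : Bool) : Measurable (gg b) := by
  refine measurable_of_tendsto_metrizable' (atTop : Filter (Finset ℤ))
    (f := fun A p => if 0 < p.1 then ∑ n ∈ A, αb b p.1 n * fourier n p.2 else 0) ?_ ?_
  · intro A
    refine Measurable.ite (measurableSet_lt measurable_const measurable_fst) ?_ measurable_const
    refine Finset.measurable_fun_sum A fun n _ => ?_
    exact ((meas_αb b n).comp measurable_fst).mul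
      ((fourier n).continuous.measurable.comp measurable_snd)
  · rw [tendsto_pi_nhds]
    intro p
    unfold gg
    by_cases hp : 0 < p.1
    · simp only [if_pos hp]
      exact fs_apply (summ_αb b hp) p.2
    · simp only [if_neg hp]
      exact tendsto_const_nhds

theorem gg_apply (b : Bool) {s : ℝ} (hs : 0 < s) (x : UnitAddCircle) :
    gg b (s, x) = fs (αb b s) x := by
  unfold gg
  rw [if_pos hs]

/-! ## the kernel -/

section

variable {d : ℕ} (i : Fin d)

/-- the integrand -/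
noncomputable def FF (p : ℝ × T d) : ℂ := ∏ j, gg (decide (j = i)) (p.1, p.2 j)

theorem meas_FF : Measurable (FF i) := by
  unfold FF
  refine Finset.measurable_fun_prod _ fun j _ => ?_
  exact (meas_gg _).comp (measurable_fst.prodMk ((measurable_pi_apply j).comp measurable_snd))

theorem FF_int {s : ℝ} (hs : 0 < s) : Integrable (fun x => FF i (s, x)) (vol d) := by
  unfold FF vol
  refine Integrable.fintype_prod (f := fun j y => gg (decide (j = i)) (s, y)) fun j => ?_
  have : (fun y => gg (decide (j = i)) (s, y)) = fs (αb (decide (j = i)) s) := by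
    funext y
    exact gg_apply _ hs y
  rw [this]
  exact cont_int (fs _).continuous

theorem FF_norm {s : ℝ} (hs : 0 < s) :
    ∫ x, ‖FF i (s, x)‖ ∂vol d = ∫ y, ‖fs (αb true s) y‖ ∂hm := by
  unfold FF vol
  simp only [norm_prod]
  rw [integral_fintype_prod_eq_prod (𝕜 := ℝ) (fun j y => ‖gg (decide (j = i)) (s, y)‖),
    Finset.prod_eq_single i]
  · simp only [decide_true, gg_apply _ hs]
  · intro j _ hj
    simp only [decide_eq_false hj, gg_apply _ hs]
    exact th_L1 hs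
  · intro h
    exact absurd (Finset.mem_univ _) h

theorem FF_coef {s : ℝ} (hs : 0 < s) (k : Fin d → ℤ) :
    ∫ x, mFourier (-k) x * FF i (s, x) ∂vol d =
      2 * π * Complex.I * (k i : ℂ) *
        ((Real.exp (-(4 * π ^ 2 * ∑ j, (k j : ℝ) ^ 2) * s) : ℝ) : ℂ) := by
  have e1 : ∀ x : T d, mFourier (-k) x * FF i (s, x) =
      ∏ j, (fourier (-(k j)) (x j) * fs (αb (decide (j = i)) s) (x j)) := by
    intro x
    unfold FF
    rw [Finset.prod_mul_distrib]
    congr 1
    exact Finset.prod_congr rfl fun j _ => gg_apply _ hs _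
  simp only [e1]
  unfold vol
  rw [integral_fintype_prod_eq_prod (𝕜 := ℂ)
    (fun j y => fourier (-(k j)) y * fs (αb (decide (j = i)) s) y)]
  have e2 : ∀ j, ∫ y, fourier (-(k j)) y * fs (αb (decide (j = i)) s) y ∂hm =
      (if j = i then 2 * π * Complex.I * (k j : ℂ) else 1) * αt s (k j) := by
    intro j
    rw [fs_coeff (summ_αb _ hs)]
    unfold αb
    by_cases h : j = i
    · simp [h]
    · simp [h]
  rw [Finset.prod_congr rfl fun j _ => e2 j, Finset.prod_mul_distrib,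
    Finset.prod_ite_eq' Finset.univ i, if_pos (Finset.mem_univ _)]
  congr 1
  unfold αt
  rw [← Complex.ofReal_prod, ← Real.exp_sum]
  congr 2
  rw [← Finset.mul_sum]
  ring

theorem FF_prod : Integrable (FF i) ((volume.restrict (Set.Ioi (0 : ℝ))).prod (vol d)) := by
  have : SFinite (vol d) := by unfold vol; infer_instance
  rw [integrable_prod_iff (meas_FF i).aestronglyMeasurable]
  refine ⟨ae_restrict_of_forall_mem measurableSet_Ioi fun s hs => FF_int i hs, ?_⟩
  obtain ⟨C, hC0, hC⟩ := dt_L1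
  have hg := integrableOn_rpow_mul_exp_neg_mul_rpow (p := 1) (s := -(7 / 8)) (b := 1)
    (by norm_num) (by norm_num) (by norm_num)
  refine Integrable.mono' (g := fun s => C * (s ^ (-(7 / 8) : ℝ) * Real.exp (-s))) ?_ ?_ ?_
  · refine Integrable.const_mul ?_ C
    refine (hg.congr_fun (fun s hs => ?_) measurableSet_Ioi)
    simp only [Real.rpow_one, neg_mul, one_mul]
  · exact ((meas_FF i).norm.stronglyMeasurable.integral_prod_right'
      (ν := vol d)).aestronglyMeasurable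
  · refine ae_restrict_of_forall_mem measurableSet_Ioi fun s hs => ?_
    rw [Real.norm_of_nonneg (integral_nonneg fun x => norm_nonneg _), FF_norm i hs]
    exact hC s hs

/-- the complex kernel -/
noncomputable def Kc (x : T d) : ℂ := ∫ s in Set.Ioi (0 : ℝ), FF i (s, x)

theorem Kc_int : Integrable (Kc i) (vol d) := by
  have : SFinite (vol d) := by unfold vol; infer_instance
  exact (FF_prod i).integral_prod_right

theorem Kc_coef (k : Fin d → ℤ) : ∫ x, mFourier (-k) x * Kc i x ∂vol d = sy i k := by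
  have : SFinite (vol d) := by unfold vol; infer_instance
  have hnorm : ∀ x : T d, ‖(mFourier (-k) x : ℂ)‖ ≤ 1 := fun x => by
    have := (mFourier (-k)).norm_coe_le_norm x
    rwa [mFourier_norm] at this
  have e1 : ∀ x : T d, mFourier (-k) x * Kc i x =
      ∫ s in Set.Ioi (0 : ℝ), mFourier (-k) x * FF i (s, x) := by
    intro x
    unfold Kc
    rw [integral_const_mul]
  simp only [e1]
  have hI : Integrable (Function.uncurry fun (s : ℝ) (x : T d) => mFourier (-k) x * FF i (s, x))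
      ((volume.restrict (Set.Ioi (0 : ℝ))).prod (vol d)) := by
    refine (FF_prod i).bdd_mul (c := 1) ?_ ?_
    · exact ((mFourier (-k)).continuous.measurable.comp measurable_snd).aestronglyMeasurable
    · exact Filter.Eventually.of_forall fun p => hnorm p.2
  rw [← integral_integral_swap hI]
  have e2 : ∫ s in Set.Ioi (0 : ℝ), ∫ x, mFourier (-k) x * FF i (s, x) ∂vol d =
      ∫ s in Set.Ioi (0 : ℝ), 2 * π * Complex.I * (k i : ℂ) *
        ((Real.exp (-(4 * π ^ 2 * ∑ j, (k j : ℝ) ^ 2) * s) : ℝ) : ℂ) :=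
    setIntegral_congr_fun measurableSet_Ioi fun s hs => FF_coef i hs k
  rw [e2]
  unfold sy
  by_cases hk : k i = 0
  · simp [hk]
  · have hQ : 0 < ∑ j, (k j : ℝ) ^ 2 := by
      have h1 : (0 : ℝ) < (k i : ℝ) ^ 2 := by
        have : (k i : ℝ) ≠ 0 := by exact_mod_cast hk
        positivity
      exact lt_of_lt_of_le h1 (Finset.single_le_sum (f := fun j => (k j : ℝ) ^ 2)
        (fun j _ => sq_nonneg _) (Finset.mem_univ i))
    rw [integral_const_mul, integral_complex_ofReal, integral_exp_mul_Ioi (by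
      have : 0 < 4 * π ^ 2 * ∑ j, (k j : ℝ) ^ 2 := by positivity
      linarith)]
    congr 2
    unfold gh
    rw [mul_zero, Real.exp_zero, neg_div_neg_eq, one_div]

end

theorem ker (d : ℕ) (_hd : 1 ≤ d) : S_KER d := by
  refine ⟨fun i x => (Kc i x).re, fun i => ⟨(Kc_int i).re, fun k => ?_⟩⟩
  unfold fc
  have hnorm : ∀ (k : Fin d → ℤ) (x : T d), ‖(mFourier k x : ℂ)‖ ≤ 1 := fun k x => by
    have := (mFourier k).norm_coe_le_norm x
    rwa [mFourier_norm] at this
  have i1 : ∀ k : Fin d → ℤ, Integrable (fun x => mFourier k x * Kc i x) (vol d) := fun k =>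
    (Kc_int i).bdd_mul (c := 1) (mFourier k).continuous.measurable.aestronglyMeasurable
      (Filter.Eventually.of_forall (hnorm k))
  have e1 : ∀ x : T d, mFourier (-k) x * (((Kc i x).re : ℝ) : ℂ) =
      (1 / 2 : ℂ) * (mFourier (-k) x * Kc i x) +
        (1 / 2 : ℂ) * (starRingEnd ℂ) (mFourier k x * Kc i x) := by
    intro x
    rw [Complex.re_eq_add_conj, map_mul, ← mFourier_neg]
    ring
  simp only [e1]
  have i2 : Integrable (fun x => (starRingEnd ℂ) (mFourier k x * Kc i x)) (vol d) :=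
    (Complex.conjCLE.toContinuousLinearMap).integrable_comp (i1 k)
  rw [integral_add ((i1 (-k)).const_mul _) (i2.const_mul _), integral_const_mul,
    integral_const_mul, Kc_coef i k, integral_conj]
  have e3 : ∫ x, mFourier k x * Kc i x ∂vol d = sy i (-k) := by
    have := Kc_coef i (-k)
    rwa [neg_neg] at this
  rw [e3]
  have e4 : (starRingEnd ℂ) (sy i (-k)) = sy i k := by
    have hg : gh (-k) = gh k := by
      unfold gh
      simp
    unfold sy
    rw [hg]
    simp only [map_mul, Complex.conj_ofReal, Complex.conj_I, map_ofNat, Pi.neg_apply,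
      map_intCast]
    push_cast
    ring
  rw [e4]
  ring

end Pool.Agent.R763.PL.Ker
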