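import Pool.Agent.R763.PL.Stm

set_option autoImplicit false

open MeasureTheory UnitAddTorus Filter Topology
open scoped ENNReal Real

namespace Pool.Agent.R763.PL.LOW

variable {d : ℕ}

instance : IsProbabilityMeasure (vol d) := by unfold vol; infer_instance
instance : (vol d).IsAddLeftInvariant := by unfold vol; infer_instance

lemma int_four (n : ℤ) : ∫ x, fourier n x ∂(AddCircle.haarAddCircle : Measure UnitAddCircle) =
    if n = 0 then 1 else 0 := by
  split_ifs with h
  · subst h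
    simp
  · exact integral_eq_zero_of_add_right_eq_neg (μ := AddCircle.haarAddCircle)
      (fourier_add_half_inv_index h (by norm_num))

lemma int_mF (k : Fin d → ℤ) : ∫ x, mFourier k x ∂vol d = if k = 0 then 1 else 0 := by
  have h1 : ∫ x, mFourier k x ∂vol d =
      ∏ i, ∫ x, fourier (k i) x ∂(AddCircle.haarAddCircle : Measure UnitAddCircle) := by
    unfold vol
    exact integral_fintype_prod_eq_prod (fun i => fun x : UnitAddCircle => fourier (k i) x)
  rw [h1]
  simp_rw [int_four]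
  split_ifs with h
  · subst h
    simp
  · have : ∃ i, k i ≠ 0 := by
      by_contra hcon
      push Not at hcon
      exact h (funext hcon)
    obtain ⟨i, hi⟩ := this
    exact Finset.prod_eq_zero (Finset.mem_univ i) (if_neg hi)

lemma norm_mF (k : Fin d → ℤ) (x : T d) : ‖mFourier k x‖ = 1 := by
  simp only [mFourier, fourier_apply, ContinuousMap.coe_mk, norm_prod, Circle.norm_coe,
      Finset.prod_const_one]

lemma int_mFi (μ : Measure (T d)) [IsFiniteMeasure μ] (k : Fin d → ℤ) :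
    Integrable (fun x => mFourier k x) μ :=
  Integrable.of_bound (mFourier k).continuous.aestronglyMeasurable 1
    (Eventually.of_forall fun x => (norm_mF k x).le)

lemma ker_cont (A : AI d) : Continuous A.ker := by
  unfold AI.ker
  fun_prop

lemma ker_le (A : AI d) (x : T d) : A.ker x ≤ ∑ k ∈ A.s, A.a k := by
  unfold AI.ker
  refine (Complex.re_le_norm _).trans ((norm_sum_le _ _).trans (Finset.sum_le_sum fun k _ => ?_))
  rw [norm_mul, norm_mF, mul_one, Complex.norm_real, Real.norm_of_nonneg (A.nonneg k)]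

lemma ker_eq (A : AI d) (x : T d) : (A.ker x : ℂ) =
    (∑ k ∈ A.s, (A.a k : ℂ) * mFourier k x + ∑ k ∈ A.s, (A.a k : ℂ) * mFourier (-k) x) / 2 := by
  unfold AI.ker
  rw [Complex.re_eq_add_conj, map_sum]
  congr 2
  refine Finset.sum_congr rfl fun k _ => ?_
  rw [map_mul, Complex.conj_ofReal, mFourier_neg]

lemma int_mf_ker (A : AI d) (k : Fin d → ℤ) :
    ∫ x, mFourier (-k) x * (A.ker x : ℂ) ∂vol d = A.a k := by
  have h0 : ∀ x, mFourier (-k) x * (A.ker x : ℂ) =
      (∑ j ∈ A.s, (A.a j : ℂ) / 2 * mFourier (j - k) x) +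
        ∑ j ∈ A.s, (A.a j : ℂ) / 2 * mFourier (-j - k) x := by
    intro x
    rw [ker_eq, mul_div_assoc', mul_add, Finset.mul_sum, Finset.mul_sum, add_div, Finset.sum_div,
      Finset.sum_div]
    congr 1
    · refine Finset.sum_congr rfl fun j _ => ?_
      rw [sub_eq_add_neg, mFourier_add]; ring
    · refine Finset.sum_congr rfl fun j _ => ?_
      rw [sub_eq_add_neg, mFourier_add]; ring
  simp_rw [h0]
  rw [integral_add (integrable_finset_sum _ fun j _ => (int_mFi _ _).const_mul _)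
    (integrable_finset_sum _ fun j _ => (int_mFi _ _).const_mul _),
    integral_finset_sum _ fun j _ => (int_mFi _ _).const_mul _,
    integral_finset_sum _ fun j _ => (int_mFi _ _).const_mul _]
  simp_rw [integral_const_mul, int_mF]
  have e1 : ∑ j ∈ A.s, (A.a j : ℂ) / 2 * (if j - k = 0 then 1 else 0) = (A.a k : ℂ) / 2 := by
    by_cases hk : k ∈ A.s
    · rw [Finset.sum_eq_single k]
      · simp
      · intro j _ hj
        rw [if_neg (sub_ne_zero.2 hj), mul_zero]
      · intro h; exact absurd hk h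
    · rw [Finset.sum_eq_zero, A.supp k hk]
      · simp
      · intro j hj
        have : j ≠ k := fun h => hk (h ▸ hj)
        rw [if_neg (sub_ne_zero.2 this), mul_zero]
  have e2 : ∑ j ∈ A.s, (A.a j : ℂ) / 2 * (if -j - k = 0 then 1 else 0) = (A.a k : ℂ) / 2 := by
    have hiff : ∀ j, (-j - k = 0) ↔ j = -k := fun j => by
      constructor
      · intro h
        have := sub_eq_zero.1 h
        rw [← this, neg_neg]
      · rintro rfl; simp
    by_cases hk : -k ∈ A.s
    · rw [Finset.sum_eq_single (-k)]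
      · simp [A.symm k]
      · intro j _ hj
        rw [if_neg (fun h => hj ((hiff j).1 h)), mul_zero]
      · intro h; exact absurd hk h
    · rw [Finset.sum_eq_zero, ← A.symm k, A.supp (-k) hk]
      · simp
      · intro j hj
        have : j ≠ -k := fun h => hk (h ▸ hj)
        rw [if_neg (fun h => this ((hiff j).1 h)), mul_zero]
  rw [e1, e2]
  ring

/-- the kernel measure -/
noncomputable def km (A : AI d) : Measure (T d) :=
  (vol d).withDensity (fun z => ENNReal.ofReal (A.ker z))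

lemma ker_int (A : AI d) : Integrable A.ker (vol d) :=
  Integrable.of_bound (ker_cont A).aestronglyMeasurable (∑ k ∈ A.s, A.a k)
    (Eventually.of_forall fun x => by
      rw [Real.norm_of_nonneg (show 0 ≤ A.ker x from A.pos x)]; exact ker_le A x)

lemma int_ker (A : AI d) : ∫ x, A.ker x ∂vol d = 1 := by
  have h1 := int_mf_ker A 0
  rw [A.zero] at h1
  simp only [neg_zero, mFourier_zero, ContinuousMap.one_apply, one_mul] at h1
  rw [integral_complex_ofReal] at h1
  exact_mod_cast h1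

lemma km_univ (A : AI d) : km A Set.univ = 1 := by
  unfold km
  rw [withDensity_apply _ MeasurableSet.univ, Measure.restrict_univ,
    ← ofReal_integral_eq_lintegral_ofReal (ker_int A) (Eventually.of_forall A.pos), int_ker,
    ENNReal.ofReal_one]

instance (A : AI d) : IsProbabilityMeasure (km A) := ⟨km_univ A⟩

lemma km_integral {E : Type*} [NormedAddCommGroup E] [NormedSpace ℝ E] (A : AI d) (f : T d → E) :
    ∫ z, f z ∂km A = ∫ z, A.ker z • f z ∂vol d := by
  unfold km
  rw [integral_withDensity_eq_integral_toReal_smul₀]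
  · refine integral_congr_ae (Eventually.of_forall fun z => ?_)
    simp only [ENNReal.toReal_ofReal (A.pos z)]
    rw [ENNReal.toReal_ofReal (show 0 ≤ A.ker z from A.pos z)]
  · exact (ker_cont A).measurable.ennreal_ofReal.aemeasurable
  · exact Eventually.of_forall fun z => ENNReal.ofReal_lt_top

lemma mc_km (A : AI d) (k : Fin d → ℤ) : mc (km A) k = A.a k := by
  unfold mc
  rw [km_integral, ← int_mf_ker A k]
  refine integral_congr_ae (Eventually.of_forall fun z => ?_)
  simp only [Complex.real_smul]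
  ring

lemma km_le (A : AI d) : km A ≤ ENNReal.ofReal (∑ k ∈ A.s, A.a k) • vol d := by
  unfold km
  rw [← withDensity_const]
  exact withDensity_mono (Eventually.of_forall fun z => ENNReal.ofReal_le_ofReal (ker_le A z))

/-- the smoothed measure -/
noncomputable def eta0 (A : AI d) (ρ : Measure (T d)) : Measure (T d) :=
  (ρ.prod (km A)).map (fun p => p.1 + p.2)

lemma madd : Measurable (fun p : T d × T d => p.1 + p.2) := measurable_fst.add measurable_snd

instance (A : AI d) (ρ : Measure (T d)) [IsProbabilityMeasure ρ] :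
    IsProbabilityMeasure (eta0 A ρ) :=
  Measure.isProbabilityMeasure_map madd.aemeasurable

lemma mc_eta0 (A : AI d) (ρ : Measure (T d)) [IsProbabilityMeasure ρ] (k : Fin d → ℤ) :
    mc (eta0 A ρ) k = A.a k * mc ρ k := by
  unfold eta0
  rw [mc, integral_map madd.aemeasurable (mFourier (-k)).continuous.aestronglyMeasurable]
  have h1 : ∀ p : T d × T d, mFourier (-k) (p.1 + p.2) = mFourier (-k) p.1 * mFourier (-k) p.2 := by
    intro p
    simp only [mFourier, ContinuousMap.coe_mk, Pi.add_apply, ← Finset.prod_mul_distrib]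
    refine Finset.prod_congr rfl fun i _ => ?_
    simp only [fourier_apply, smul_add, AddCircle.toCircle_add, Circle.coe_mul]
  simp_rw [h1]
  rw [integral_prod_mul (fun x => mFourier (-k) x) (fun z => mFourier (-k) z)]
  have h2 := mc_km A k
  unfold mc at h2 ⊢
  rw [h2, mul_comm]

lemma dom_eta0 (A : AI d) (ρ : Measure (T d)) [IsProbabilityMeasure ρ] :
    Dom (∑ k ∈ A.s, A.a k) (eta0 A ρ) := by
  unfold Dom
  rw [Measure.le_iff]
  intro s hs
  unfold eta0
  rw [Measure.map_apply madd hs, Measure.prod_apply (madd hs), Measure.smul_apply, smul_eq_mul]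
  have h1 : ∀ x : T d, km A (Prod.mk x ⁻¹' ((fun p : T d × T d => p.1 + p.2) ⁻¹' s)) ≤
      ENNReal.ofReal (∑ k ∈ A.s, A.a k) * vol d s := by
    intro x
    have h2 := km_le A (Prod.mk x ⁻¹' ((fun p : T d × T d => p.1 + p.2) ⁻¹' s))
    refine h2.trans (le_of_eq ?_)
    rw [Measure.smul_apply, smul_eq_mul]
    congr 1
    exact measure_preimage_add (vol d) x s
  calc ∫⁻ x, km A (Prod.mk x ⁻¹' ((fun p : T d × T d => p.1 + p.2) ⁻¹' s)) ∂ρ
      ≤ ∫⁻ _, ENNReal.ofReal (∑ k ∈ A.s, A.a k) * vol d s ∂ρ := lintegral_mono h1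
    _ = ENNReal.ofReal (∑ k ∈ A.s, A.a k) * vol d s := by
        rw [lintegral_const, measure_univ, mul_one]

/-! ### energy of the smoothed measure -/

lemma gh_nonneg (k : Fin d → ℤ) : 0 ≤ gh k := by
  unfold gh
  positivity

lemma EA_le (B A : AI d) (ρ : Measure (T d)) [IsProbabilityMeasure ρ] (hF : F ρ < ⊤) :
    EA B (eta0 A ρ) ≤ (F ρ).toReal := by
  rw [← ENNReal.ofReal_le_iff_le_toReal hF.ne]
  have h1 : EA B (eta0 A ρ) ≤ (1 / 2) * ∑ k ∈ B.s, gh k * ‖mc ρ k‖ ^ 2 := by
    unfold EA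
    refine mul_le_mul_of_nonneg_left (Finset.sum_le_sum fun k _ => ?_) (by norm_num)
    rw [mc_eta0, norm_mul, Complex.norm_real, Real.norm_of_nonneg (A.nonneg k)]
    have h2 : A.a k * ‖mc ρ k‖ ≤ ‖mc ρ k‖ := mul_le_of_le_one_left (norm_nonneg _) (A.le_one k)
    have h3 : (A.a k * ‖mc ρ k‖) ^ 2 ≤ ‖mc ρ k‖ ^ 2 :=
      pow_le_pow_left₀ (mul_nonneg (A.nonneg k) (norm_nonneg _)) h2 2
    have h4 : B.a k * gh k ≤ gh k := mul_le_of_le_one_left (gh_nonneg k) (B.le_one k)
    exact mul_le_mul h4 h3 (sq_nonneg _) (gh_nonneg k)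
  refine (ENNReal.ofReal_le_ofReal h1).trans ?_
  unfold F
  rw [ENNReal.ofReal_mul (by norm_num), ENNReal.ofReal_sum_of_nonneg
    (fun k _ => mul_nonneg (gh_nonneg k) (sq_nonneg _))]
  have h5 : ENNReal.ofReal (1 / 2) = 1 / 2 := by
    rw [ENNReal.ofReal_div_of_pos (by norm_num)]
    simp
  rw [h5]
  gcongr
  exact ENNReal.sum_le_tsum _

lemma EA_nonneg (B : AI d) (η : Measure (T d)) : 0 ≤ EA B η := by
  unfold EA
  refine mul_nonneg (by norm_num) (Finset.sum_nonneg fun k _ => ?_)
  exact mul_nonneg (mul_nonneg (B.nonneg k) (gh_nonneg k)) (sq_nonneg _)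

/-! ### Wasserstein distance -/

lemma dist2_nonneg (x y : T d) : 0 ≤ dist2 x y := Finset.sum_nonneg fun i _ => sq_nonneg _

lemma dist2_cont : Continuous (fun p : T d × T d => dist2 p.1 p.2) := by
  unfold dist2
  fun_prop

lemma norm_le_one (a : UnitAddCircle) : ‖a‖ ≤ 1 := by
  have := AddCircle.norm_le_half_period (1 : ℝ) (x := a) one_ne_zero
  rw [abs_one] at this
  linarith

lemma dist2_le (x y : T d) : dist2 x y ≤ d := by
  unfold dist2
  calc ∑ i, ‖x i - y i‖ ^ 2 ≤ ∑ _i : Fin d, (1 : ℝ) := by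
        refine Finset.sum_le_sum fun i _ => ?_
        have := norm_le_one (x i - y i)
        exact pow_le_one₀ (norm_nonneg _) this
    _ = d := by simp

lemma dist2_int (γ : Measure (T d × T d)) [IsFiniteMeasure γ] :
    Integrable (fun p : T d × T d => dist2 p.1 p.2) γ :=
  Integrable.of_bound dist2_cont.aestronglyMeasurable d
    (Eventually.of_forall fun p => by
      rw [Real.norm_of_nonneg (dist2_nonneg _ _)]; exact dist2_le _ _)

lemma bddBelow (ρ η : Measure (T d)) : BddBelow (Set.range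
    fun γ : {γ : Measure (T d × T d) // Coupling ρ η γ} => ∫ p, dist2 p.1 p.2 ∂γ.1) :=
  ⟨0, by rintro _ ⟨γ, rfl⟩; exact integral_nonneg fun p => dist2_nonneg _ _⟩

lemma W2_sq_le {ρ η : Measure (T d)} (γ : Measure (T d × T d)) (h : Coupling ρ η γ) :
    W2 ρ η ^ 2 ≤ ∫ p, dist2 p.1 p.2 ∂γ := by
  unfold W2
  rw [Real.sq_sqrt (Real.iInf_nonneg fun γ => integral_nonneg fun p => dist2_nonneg _ _)]
  exact ciInf_le (bddBelow ρ η) ⟨γ, h⟩

lemma coup_prob {ρ η : Measure (T d)} [IsProbabilityMeasure ρ] {γ : Measure (T d × T d)}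
    (h : Coupling ρ η γ) : IsProbabilityMeasure γ := by
  constructor
  have h1 : (γ.map Prod.fst) Set.univ = 1 := by rw [h.1, measure_univ]
  rw [Measure.map_apply measurable_fst MeasurableSet.univ] at h1
  exact h1

lemma mc_fst {ρ η : Measure (T d)} {γ : Measure (T d × T d)} (h : Coupling ρ η γ)
    (k : Fin d → ℤ) : mc ρ k = ∫ p, mFourier (-k) p.1 ∂γ := by
  unfold mc
  rw [← h.1, integral_map measurable_fst.aemeasurable
    (mFourier (-k)).continuous.aestronglyMeasurable]

lemma mc_snd {ρ η : Measure (T d)} {γ : Measure (T d × T d)} (h : Coupling ρ η γ)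
    (k : Fin d → ℤ) : mc η k = ∫ p, mFourier (-k) p.2 ∂γ := by
  unfold mc
  rw [← h.2, integral_map measurable_snd.aemeasurable
    (mFourier (-k)).continuous.aestronglyMeasurable]

lemma W2_zero {ρ η : Measure (T d)} [IsProbabilityMeasure ρ] [IsProbabilityMeasure η]
    (h : W2 ρ η = 0) (k : Fin d → ℤ) : mc ρ k = mc η k := by
  have hne : Nonempty {γ : Measure (T d × T d) // Coupling ρ η γ} :=
    ⟨⟨ρ.prod η, by simp [Measure.map_fst_prod], by simp [Measure.map_snd_prod]⟩⟩
  unfold W2 at h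
  rw [Real.sqrt_eq_zero'] at h
  rw [← sub_eq_zero, ← norm_le_zero_iff]
  refine le_of_forall_pos_le_add fun ε hε => ?_
  rw [zero_add]
  have hε2 : 0 < ε / 2 := by positivity
  have huc := CompactSpace.uniformContinuous_of_continuous (mFourier (-k) : C(T d, ℂ)).continuous
  obtain ⟨δ, hδ, hδ2⟩ := Metric.uniformContinuous_iff.1 huc (ε / 2) hε2
  have hpt : ∀ x y : T d, ‖mFourier (-k) x - mFourier (-k) y‖ ≤ ε / 2 + 2 / δ ^ 2 * dist2 x y := by
    intro x y
    by_cases hxy : dist2 x y < δ ^ 2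
    · have h1 : dist x y < δ := by
        rw [dist_pi_lt_iff hδ]
        intro i
        rw [dist_eq_norm]
        have h2 : ‖x i - y i‖ ^ 2 ≤ dist2 x y :=
          Finset.single_le_sum (f := fun i => ‖x i - y i‖ ^ 2) (fun i _ => sq_nonneg _)
            (Finset.mem_univ i)
        exact lt_of_pow_lt_pow_left₀ 2 hδ.le (h2.trans_lt hxy)
      have h3 := hδ2 h1
      rw [dist_eq_norm] at h3
      have h4 : 0 ≤ 2 / δ ^ 2 * dist2 x y := mul_nonneg (by positivity) (dist2_nonneg _ _)
      linarith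
    · push Not at hxy
      have h1 : ‖mFourier (-k) x - mFourier (-k) y‖ ≤ 2 := by
        refine (norm_sub_le _ _).trans ?_
        rw [norm_mF, norm_mF]; norm_num
      have h2 : 2 ≤ 2 / δ ^ 2 * dist2 x y := by
        rw [div_mul_eq_mul_div, le_div_iff₀ (by positivity)]
        linarith
      linarith
  obtain ⟨γ, hγ⟩ := exists_lt_of_ciInf_lt (h.trans_lt (show 0 < ε / 2 * (δ ^ 2 / 2) by positivity))
  have := coup_prob γ.2
  rw [mc_fst γ.2, mc_snd γ.2]
  have i1 : Integrable (fun p : T d × T d => mFourier (-k) p.1) γ.1 :=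
    Integrable.of_bound ((mFourier (-k)).continuous.comp continuous_fst).aestronglyMeasurable 1
      (Eventually.of_forall fun x => (norm_mF _ _).le)
  have i2 : Integrable (fun p : T d × T d => mFourier (-k) p.2) γ.1 :=
    Integrable.of_bound ((mFourier (-k)).continuous.comp continuous_snd).aestronglyMeasurable 1
      (Eventually.of_forall fun x => (norm_mF _ _).le)
  rw [← integral_sub i1 i2]
  calc ‖∫ p, (mFourier (-k) p.1 - mFourier (-k) p.2) ∂γ.1‖
      ≤ ∫ p, ‖mFourier (-k) p.1 - mFourier (-k) p.2‖ ∂γ.1 := norm_integral_le_integral_norm _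
    _ ≤ ∫ p, (ε / 2 + 2 / δ ^ 2 * dist2 p.1 p.2) ∂γ.1 := by
        refine integral_mono (i1.sub i2).norm
          ((integrable_const _).add ((dist2_int γ.1).const_mul _)) fun p => hpt _ _
    _ = ε / 2 + 2 / δ ^ 2 * ∫ p, dist2 p.1 p.2 ∂γ.1 := by
        rw [integral_add (integrable_const _) ((dist2_int γ.1).const_mul _), integral_const_mul]
        simp
    _ ≤ ε / 2 + 2 / δ ^ 2 * (ε / 2 * (δ ^ 2 / 2)) := by
        gcongr
    _ = ε := by field_simp; ring

/-! ### cost of the coupling -/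

lemma coe_norm_le (u : ℝ) : ‖(u : UnitAddCircle)‖ ≤ |u| := by
  rw [UnitAddCircle.norm_eq]
  have := round_le u 0
  simpa using this

lemma cost (A : AI d) (ρ : Measure (T d)) [IsProbabilityMeasure ρ] (S : T d → T d)
    (u : T d → Fin d → ℝ) (hS : Measurable S) (hSu : ∀ x i, S x i = x i + ((u x i : ℝ) : UnitAddCircle))
    (hint : Integrable (fun x => ∑ i, u x i ^ 2) (eta0 A ρ)) (h : ℝ) (hh : 0 < h) :
    W2 ρ ((eta0 A ρ).map S) ^ 2 ≤ (1 + 1 / h) * ∫ z, dist2 z 0 * A.ker z ∂vol d +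
      (1 + h) * ∫ x, ∑ i, u x i ^ 2 ∂(eta0 A ρ) := by
  set P := ρ.prod (km A) with hP
  have hm : Measurable (fun p : T d × T d => (p.1, S (p.1 + p.2))) :=
    measurable_fst.prodMk (hS.comp madd)
  have hcoup : Coupling ρ ((eta0 A ρ).map S) (P.map (fun p => (p.1, S (p.1 + p.2)))) := by
    constructor
    · rw [Measure.map_map measurable_fst hm]
      have : (Prod.fst ∘ fun p : T d × T d => (p.1, S (p.1 + p.2))) = Prod.fst := rfl
      rw [this, hP, Measure.map_fst_prod, measure_univ, one_smul]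
    · rw [Measure.map_map measurable_snd hm, eta0, Measure.map_map hS madd]
      rfl
  refine (W2_sq_le _ hcoup).trans ?_
  rw [integral_map hm.aemeasurable dist2_cont.aestronglyMeasurable]
  have i1 : Integrable (fun p : T d × T d => dist2 p.2 0) P :=
    Integrable.of_bound ((dist2_cont.comp (continuous_snd.prodMk continuous_const)
      ).aestronglyMeasurable) d (Eventually.of_forall fun p => by
        rw [Real.norm_of_nonneg (dist2_nonneg _ _)]; exact dist2_le _ _)
  have i2 : Integrable (fun p : T d × T d => ∑ i, u (p.1 + p.2) i ^ 2) P := by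
    have := (integrable_map_measure (μ := P) (f := fun p : T d × T d => p.1 + p.2)
      (g := fun x => ∑ i, u x i ^ 2) hint.aestronglyMeasurable madd.aemeasurable).1 hint
    exact this
  have hpt : ∀ p : T d × T d, dist2 p.1 (S (p.1 + p.2)) ≤
      (1 + 1 / h) * dist2 p.2 0 + (1 + h) * ∑ i, u (p.1 + p.2) i ^ 2 := by
    intro p
    unfold dist2
    rw [Finset.mul_sum, Finset.mul_sum, ← Finset.sum_add_distrib]
    refine Finset.sum_le_sum fun i _ => ?_
    have h1 : ‖p.1 i - S (p.1 + p.2) i‖ ≤ ‖p.2 i‖ + |u (p.1 + p.2) i| := by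
      have e1 : p.1 i - S (p.1 + p.2) i =
          -(p.2 i + ((u (p.1 + p.2) i : ℝ) : UnitAddCircle)) := by
        rw [hSu, Pi.add_apply]; abel
      rw [e1, norm_neg]
      exact (norm_add_le _ _).trans (add_le_add le_rfl (coe_norm_le _))
    have h2 : p.2 i - (0 : T d) i = p.2 i := by simp
    rw [h2]
    have h3 := pow_le_pow_left₀ (norm_nonneg _) h1 2
    refine h3.trans ?_
    rw [← sq_abs (u (p.1 + p.2) i)]
    set a := ‖p.2 i‖
    set b := |u (p.1 + p.2) i|
    have h4 : 0 ≤ (a - h * b) ^ 2 / h := by positivity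
    have h5 : (1 + 1 / h) * a ^ 2 + (1 + h) * b ^ 2 - (a + b) ^ 2 = (a - h * b) ^ 2 / h := by
      field_simp; ring
    linarith
  calc ∫ p, dist2 p.1 (S (p.1 + p.2)) ∂P
      ≤ ∫ p, ((1 + 1 / h) * dist2 p.2 0 + (1 + h) * ∑ i, u (p.1 + p.2) i ^ 2) ∂P := by
        refine integral_mono_of_nonneg (Eventually.of_forall fun p => dist2_nonneg _ _)
          ((i1.const_mul _).add (i2.const_mul _)) (Eventually.of_forall hpt)
    _ = (1 + 1 / h) * ∫ p, dist2 p.2 0 ∂P + (1 + h) * ∫ p, ∑ i, u (p.1 + p.2) i ^ 2 ∂P := by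
        rw [integral_add (i1.const_mul _) (i2.const_mul _), integral_const_mul,
          integral_const_mul]
    _ = (1 + 1 / h) * ∫ z, dist2 z 0 * A.ker z ∂vol d +
          (1 + h) * ∫ x, ∑ i, u x i ^ 2 ∂(eta0 A ρ) := by
        congr 2
        · rw [hP, integral_fun_snd (f := fun z : T d => dist2 z 0), probReal_univ, one_smul,
            km_integral]
          refine integral_congr_ae (Eventually.of_forall fun z => ?_)
          simp only [smul_eq_mul]
          ring
        · rw [eta0, integral_map madd.aemeasurable hint.aestronglyMeasurable]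

/-! ### real numbers -/

lemma c1_pos (hd : 1 ≤ d) : 0 < c1 d := by
  unfold c1
  have : (0 : ℝ) < d := by exact_mod_cast hd
  positivity

/-- choice of the step `t` and the parameter `h` -/
lemma choice (c f q r : ℝ) (hc : 0 < c) (hf : 0 < f) (hq0 : 0 ≤ q) (hq : q < c * f) (hr : 0 < r) :
    ∃ t h : ℝ, 0 < t ∧ 0 < h ∧ (1 + h) * t * f ≤ r ^ 2 / 4 ∧
      q * (1 + h) * t < (1 - Real.exp (-(c * t))) * f := by
  have hcf : 0 < c * f := mul_pos hc hf
  set h : ℝ := (c * f - q) / (4 * (c * f)) with hh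
  have hh0 : 0 < h := div_pos (by linarith) (by positivity)
  have hh1 : h ≤ 1 / 4 := by
    rw [hh, div_le_iff₀ (by positivity)]
    linarith
  have hkey : q * (1 + h) ^ 2 < c * f := by
    have e1 : h * (4 * (c * f)) = c * f - q := by
      rw [hh]; field_simp
    have e2 : q * (2 * h + h ^ 2) ≤ (c * f) * (3 * h) := by
      have a1 : q * (2 * h + h ^ 2) ≤ (c * f) * (2 * h + h ^ 2) :=
        mul_le_mul_of_nonneg_right hq.le (by positivity)
      have a2 : (c * f) * (2 * h + h ^ 2) ≤ (c * f) * (3 * h) :=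
        mul_le_mul_of_nonneg_left (by nlinarith) hcf.le
      linarith
    nlinarith
  set t : ℝ := min (h / c) (r ^ 2 / (4 * ((1 + h) * f))) with ht
  have ht0 : 0 < t := lt_min (by positivity) (by positivity)
  have ht1 : c * t ≤ h := by
    have : t ≤ h / c := min_le_left _ _
    rw [le_div_iff₀ hc] at this
    linarith
  have ht2 : (1 + h) * t * f ≤ r ^ 2 / 4 := by
    have : t ≤ r ^ 2 / (4 * ((1 + h) * f)) := min_le_right _ _
    rw [le_div_iff₀ (by positivity)] at this
    linarith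
  refine ⟨t, h, ht0, hh0, ht2, ?_⟩
  have h1 : Real.exp (-(c * t)) ≤ 1 / (1 + c * t) := by
    rw [Real.exp_neg, ← one_div]
    apply one_div_le_one_div_of_le (by positivity)
    have := Real.add_one_le_exp (c * t)
    linarith
  have h2 : c * t / (1 + h) ≤ 1 - Real.exp (-(c * t)) := by
    have e1 : 1 - 1 / (1 + c * t) = c * t / (1 + c * t) := by
      have : 1 + c * t ≠ 0 := by positivity
      field_simp
      ring
    have e2 : c * t / (1 + h) ≤ c * t / (1 + c * t) :=
      div_le_div_of_nonneg_left (by positivity) (by positivity) (by linarith)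
    linarith
  have h3 : q * (1 + h) * t < c * t / (1 + h) * f := by
    rw [div_mul_eq_mul_div, lt_div_iff₀ (by positivity)]
    nlinarith
  have h4 : c * t / (1 + h) * f ≤ (1 - Real.exp (-(c * t))) * f :=
    mul_le_mul_of_nonneg_right h2 hf.le
  linarith

/-- the competitor -/
lemma competitor (hd : 1 ≤ d) (hFEJ : S_FEJ d) (hFLOW : S_FLOW d) (hERR : S_ERR d)
    (ρ : Measure (T d)) [IsProbabilityMeasure ρ] (hF : F ρ < ⊤) (hF0 : F ρ ≠ 0) (q r : ℝ)
    (hq0 : 0 ≤ q) (hq : q < 2 * c1 d * (F ρ).toReal) (hr : 0 < r) :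
    ∃ η : Measure (T d), IsProbabilityMeasure η ∧ F η < ⊤ ∧ 0 < W2 ρ η ∧ W2 ρ η < r ∧
      0 < (F ρ).toReal - (F η).toReal ∧
      q * W2 ρ η ^ 2 ≤ ((F ρ).toReal - (F η).toReal) ^ 2 := by
  set f : ℝ := (F ρ).toReal with hf
  have hf0 : 0 < f := ENNReal.toReal_pos hF0 hF.ne
  set c : ℝ := 2 * c1 d with hc
  have hc0 : 0 < c := by rw [hc]; have := c1_pos hd; positivity
  obtain ⟨t, h, ht, hh, hth, hkey⟩ := choice c f q r hc0 hf0 hq0 hq hr
  set X0 : ℝ := (1 - Real.exp (-(c * t))) * f with hX0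
  set β : ℝ := (X0 - q * (1 + h) * t) / 2 with hβ
  have hβ0 : 0 < β := by rw [hβ]; linarith
  set σ : ℝ := min (β ^ 2 / (2 * (q + 1))) (r ^ 2 / 8) with hσ
  have hσ0 : 0 < σ := lt_min (by positivity) (by positivity)
  have hσ1 : q * (2 * σ) ≤ β ^ 2 := by
    have : σ ≤ β ^ 2 / (2 * (q + 1)) := min_le_left _ _
    rw [le_div_iff₀ (by positivity)] at this
    nlinarith
  have hσ2 : σ ≤ r ^ 2 / 8 := min_le_right _ _
  set κ : ℝ := min (β / (t + 2)) (σ / ((1 + h) * (t + 1))) with hκ
  have hκ0 : 0 < κ := lt_min (by positivity) (by positivity)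
  have hκ1 : κ * (t + 2) ≤ β := by
    have : κ ≤ β / (t + 2) := min_le_left _ _
    rwa [le_div_iff₀ (by positivity)] at this
  have hκ2 : κ * ((1 + h) * (t + 1)) ≤ σ := by
    have : κ ≤ σ / ((1 + h) * (t + 1)) := min_le_right _ _
    rwa [le_div_iff₀ (by positivity)] at this
  obtain ⟨A, hA⟩ := hFEJ
  -- choice of `m`
  have hm : ∀ᶠ m in atTop, (1 + 1 / h) * ∫ z, dist2 z 0 * (A m).ker z ∂vol d < σ := by
    have h1 := hA.mom.const_mul (1 + 1 / h)
    rw [mul_zero] at h1
    exact (tendsto_order.1 h1).2 σ hσ0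
  obtain ⟨m, hm⟩ := hm.exists
  set M : ℝ := ∑ k ∈ (A m).s, (A m).a k with hM
  have hM0 : 0 ≤ M := Finset.sum_nonneg fun k _ => (A m).nonneg k
  obtain ⟨n, hn⟩ := hERR A hA (M * Real.exp (2 * t)) κ (by positivity) hκ0
  have hn' := hn n le_rfl
  obtain ⟨S, u, hS, hu, hSu, hint, hI, hDom, hE⟩ := hFLOW (A n) M t κ κ (eta0 (A m) ρ) hM0 ht
    hκ0.le hκ0 inferInstance (dom_eta0 (A m) ρ) (fun η hη hDη => (hn' η hη hDη).1)
  have hηp : IsProbabilityMeasure ((eta0 (A m) ρ).map S) :=
    Measure.isProbabilityMeasure_map hS.aemeasurable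
  have hEA0 : EA (A n) (eta0 (A m) ρ) ≤ f := EA_le (A n) (A m) ρ hF
  have hFη := (hn' _ hηp hDom).2
  have hEη0 := EA_nonneg (A n) ((eta0 (A m) ρ).map S)
  have hFη' : (F ((eta0 (A m) ρ).map S)).toReal ≤ EA (A n) ((eta0 (A m) ρ).map S) + κ :=
    ENNReal.toReal_le_of_le_ofReal (by linarith) hFη
  have hFηtop : F ((eta0 (A m) ρ).map S) < ⊤ := hFη.trans_lt ENNReal.ofReal_lt_top
  have hcost := cost (A m) ρ S u hS hSu hint h hh
  set η := (eta0 (A m) ρ).map S with hη
  set E0 := EA (A n) (eta0 (A m) ρ) with hE0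
  set E1 := EA (A n) η with hE1
  set I := ∫ x, ∑ i, u x i ^ 2 ∂(eta0 (A m) ρ) with hIdef
  set X : ℝ := f - (F η).toReal with hX
  have hexp0 : 0 ≤ Real.exp (-(c * t)) := (Real.exp_pos _).le
  have hX1 : X0 - β ≤ X := by
    have a1 : Real.exp (-(c * t)) * E0 ≤ Real.exp (-(c * t)) * f :=
      mul_le_mul_of_nonneg_left hEA0 hexp0
    rw [hX, hX0]
    nlinarith
  have hX2 : q * (1 + h) * t + β ≤ X := by
    have : X0 - β = q * (1 + h) * t + β := by rw [hβ]; ring
    linarith
  have hqpos : 0 ≤ q * (1 + h) * t := by positivity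
  have hXpos : 0 < X := by linarith
  have hI2 : I ≤ t * (X + κ) + κ := by
    have : t * (E0 - E1) ≤ t * (X + κ) := mul_le_mul_of_nonneg_left (by linarith) ht.le
    linarith
  have hW : W2 ρ η ^ 2 ≤ (1 + h) * t * X + 2 * σ := by
    have a1 : (1 + h) * I ≤ (1 + h) * (t * (X + κ) + κ) :=
      mul_le_mul_of_nonneg_left hI2 (by positivity)
    nlinarith
  have hXf : X ≤ f := by
    have : 0 ≤ (F η).toReal := ENNReal.toReal_nonneg
    linarith
  have hW0 : 0 ≤ W2 ρ η := Real.sqrt_nonneg _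
  have hWr : W2 ρ η < r := by
    have a1 : (1 + h) * t * X ≤ (1 + h) * t * f := mul_le_mul_of_nonneg_left hXf (by positivity)
    have a2 : W2 ρ η ^ 2 < r ^ 2 := by nlinarith
    exact lt_of_pow_lt_pow_left₀ 2 hr.le a2
  have hWpos : 0 < W2 ρ η := by
    rcases hW0.lt_or_eq with hlt | heq
    · exact hlt
    · exfalso
      have hmc := W2_zero heq.symm
      have : F ρ = F η := by
        unfold F
        simp_rw [hmc]
      rw [hX, hf, this, sub_self] at hXpos
      exact lt_irrefl _ hXpos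
  refine ⟨η, hηp, hFηtop, hWpos, hWr, hXpos, ?_⟩
  have b1 : q * W2 ρ η ^ 2 ≤ q * ((1 + h) * t * X + 2 * σ) := mul_le_mul_of_nonneg_left hW hq0
  have b2 : β * β ≤ X * (X - q * (1 + h) * t) :=
    mul_le_mul (by linarith) (by linarith) hβ0.le hXpos.le
  nlinarith

end Pool.Agent.R763.PL.LOW

namespace Pool.Agent.R763.PL.Low

open Pool.Agent.R763.PL.LOW

/-- LOW: lower bound of the slope -/
theorem low (d : ℕ) (hd : 1 ≤ d) (hFEJ : S_FEJ d) (hFLOW : S_FLOW d) (hERR : S_ERR d) :
    S_LOW d := by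
  intro ρ hρ hF
  by_cases hF0 : F ρ = 0
  · rw [hF0, mul_zero]; exact bot_le
  have hf0 : 0 < (F ρ).toReal := ENNReal.toReal_pos hF0 hF.ne
  have hc0 : 0 < 2 * c1 d := by have := c1_pos hd; positivity
  have e1 : ENNReal.ofReal (2 * c1 d) * F ρ = ENNReal.ofReal (2 * c1 d * (F ρ).toReal) := by
    rw [ENNReal.ofReal_mul hc0.le, ENNReal.ofReal_toReal hF.ne]
  rw [e1]
  refine le_of_forall_lt fun a ha => ?_
  -- a real number between `a` and the bound
  obtain ⟨b, hab, hb⟩ := exists_between ha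
  have hbtop : b ≠ ⊤ := (hb.trans ENNReal.ofReal_lt_top).ne
  refine hab.trans_le ?_
  set q : ℝ := b.toReal with hq
  have hq0 : 0 ≤ q := ENNReal.toReal_nonneg
  have hbq : b = ENNReal.ofReal q := (ENNReal.ofReal_toReal hbtop).symm
  have hqlt : q < 2 * c1 d * (F ρ).toReal := by
    rw [hbq] at hb
    exact (ENNReal.ofReal_lt_ofReal_iff (by positivity)).1 hb
  have hs : ENNReal.ofReal (Real.sqrt q) ≤ slope ρ := by
    unfold slope
    refine le_iInf fun r => ?_
    obtain ⟨η, hηp, hηtop, hW0, hWr, hX, hqW⟩ :=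
      competitor hd hFEJ hFLOW hERR ρ hF hF0 q r.1 hq0 hqlt r.2
    refine le_trans ?_ (le_iSup (fun η : {η : Measure (T d) // IsProbabilityMeasure η ∧
      0 < W2 ρ η ∧ W2 ρ η < r.1} => (F ρ - F η.1) / ENNReal.ofReal (W2 ρ η.1))
      ⟨η, hηp, hW0, hWr⟩)
    have e2 : F ρ - F η = ENNReal.ofReal ((F ρ).toReal - (F η).toReal) := by
      rw [ENNReal.ofReal_sub _ ENNReal.toReal_nonneg, ENNReal.ofReal_toReal hF.ne,
        ENNReal.ofReal_toReal hηtop.ne]
    show ENNReal.ofReal (Real.sqrt q) ≤ (F ρ - F η) / ENNReal.ofReal (W2 ρ η)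
    rw [e2, ← ENNReal.ofReal_div_of_pos hW0]
    apply ENNReal.ofReal_le_ofReal
    rw [le_div_iff₀ hW0]
    apply le_of_sq_le_sq _ hX.le
    rw [mul_pow, Real.sq_sqrt hq0]
    exact hqW
  rw [hbq]
  calc ENNReal.ofReal q = ENNReal.ofReal (Real.sqrt q) ^ 2 := by
        rw [← ENNReal.ofReal_pow (Real.sqrt_nonneg _), Real.sq_sqrt hq0]
    _ ≤ slope ρ ^ 2 := by gcongr

end Pool.Agent.R763.PL.Low
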