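import Pool.Agent.R763.PL.MIN1

/-! # PL-MIN, part 3: bounds and weak compactness -/

set_option autoImplicit false

open MeasureTheory UnitAddTorus Filter Topology
open scoped ENNReal Real

namespace Pool.Agent.R763.PL.MIN

theorem fc_sub {d : ℕ} {f g : T d → ℝ} (hf : Integrable f (vol d)) (hg : Integrable g (vol d))
    (k : Fin d → ℤ) : fc (fun x => f x - g x) k = fc f k - fc g k := by
  unfold fc
  rw [← integral_sub (int_mF hf (-k)) (int_mF hg (-k))]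
  congr 1
  funext x
  push_cast
  ring

theorem coer {d : ℕ} (hK : S_KER d) (hY : S_YOU d) (hU : S_UNI d) :
    ∃ κ : ℝ≥0∞, κ ≠ ⊤ ∧ ∀ (ρ : T d → ℝ) (v : Fin d → T d → ℝ), MemLp ρ 3 (vol d) → Grad ρ v →
      ∀ i, eLpNorm (v i) 3 (vol d) ≤ κ * eLpNorm ρ 3 (vol d) := by
  obtain ⟨K, hK⟩ := hK
  refine ⟨∑ i, eLpNorm (K i) 1 (vol d), ?_, ?_⟩
  · refine (ENNReal.sum_lt_top.2 fun i _ => ?_).ne
    exact (memLp_one_iff_integrable.2 (hK i).1).2
  · intro ρ v hρ hv i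
    obtain ⟨g, hg, hg2, hg3⟩ := hY (K i) (hK i).1 3 (Or.inl rfl) ρ hρ
    have h1 : Integrable (v i) (vol d) := (hv.mem i).integrable (by norm_num)
    have h2 : Integrable g (vol d) := hg.integrable (by norm_num)
    have h3 := hU (fun x => v i x - g x) (h1.sub h2) (fun k => by
      rw [fc_sub h1 h2, hv.four, hg3, (hK i).2, sub_self])
    have h4 : v i =ᵐ[vol d] g := by
      filter_upwards [h3] with x hx
      simpa [sub_eq_zero] using hx
    rw [eLpNorm_congr_ae h4]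
    refine hg2.trans (mul_le_mul' ?_ le_rfl)
    exact Finset.single_le_sum (f := fun i => eLpNorm (K i) 1 (vol d)) (fun _ _ => bot_le)
      (Finset.mem_univ i)

/-- the second moment is at most the square of the `L³` norm -/
theorem sq_le {d : ℕ} {f : T d → ℝ} (hf : MemLp f 3 (vol d)) :
    ∫ x, f x ^ 2 ∂vol d ≤ (eLpNorm f 3 (vol d)).toReal ^ 2 := by
  haveI := tri_3_32_1
  have h1 : (1 : ℝ≥0∞) ≤ 3 / 2 := by
    rw [ENNReal.le_div_iff_mul_le (by simp) (by simp)]; norm_num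
  have h2 : (3 / 2 : ℝ≥0∞) ≤ 3 := by
    rw [ENNReal.div_le_iff_le_mul (by simp) (by simp)]; norm_num
  have hf2 : MemLp f (3 / 2) (vol d) := hf.mono_exponent h2
  have h3 := holder hf hf2
  have h4 : eLpNorm f (3 / 2) (vol d) ≤ eLpNorm f 3 (vol d) :=
    eLpNorm_le_eLpNorm_of_exponent_le h2 hf.1
  have h5 : ‖∫ x, f x * f x ∂vol d‖ₑ ≤ eLpNorm f 3 (vol d) * eLpNorm f 3 (vol d) :=
    h3.trans (mul_le_mul' le_rfl h4)
  have h6 := ENNReal.toReal_mono (ENNReal.mul_ne_top hf.2.ne hf.2.ne) h5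
  rw [toReal_enorm, ENNReal.toReal_mul] at h6
  have h7 : ∫ x, f x ^ 2 ∂vol d = ∫ x, f x * f x ∂vol d := by
    congr 1
    funext x
    ring
  rw [h7, sq]
  exact (Real.le_norm_self _).trans h6

/-- weak sequential compactness in `L²` -/
theorem wcpt {d : ℕ} (ρ : ℕ → T d → ℝ) (C : ℝ) (h1 : ∀ n, MemLp (ρ n) 2 (vol d))
    (h2 : ∀ n, eLpNorm (ρ n) 2 (vol d) ≤ ENNReal.ofReal C) :
    ∃ (ρ₀ : T d → ℝ) (ψ : ℕ → ℕ), StrictMono ψ ∧ MemLp ρ₀ 2 (vol d) ∧
      ∀ g, MemLp g 2 (vol d) → Tendsto (fun n => ∫ x, ρ (ψ n) x * g x ∂vol d) atTop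
        (𝓝 (∫ x, ρ₀ x * g x ∂vol d)) := by
  set F : ℕ → Lp ℝ 2 (vol d) := fun n => (h1 n).toLp with hF
  have hFn : ∀ n, ‖F n‖ ≤ max C 0 := by
    intro n
    rw [hF]
    simp only
    rw [Lp.norm_toLp]
    refine (ENNReal.toReal_mono ENNReal.ofReal_ne_top (h2 n)).trans ?_
    rw [ENNReal.toReal_ofReal']
  haveI : Fact ((2 : ℝ≥0∞) ≠ ⊤) := ⟨by norm_num⟩
  have hcomp := WeakDual.isSeqCompact_closedBall (𝕜 := ℝ) (E := Lp ℝ 2 (vol d)) 0 (max C 0)
  obtain ⟨φ, -, ψ, hψ, hlim⟩ := hcomp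
    (x := fun n => StrongDual.toWeakDual (InnerProductSpace.toDual ℝ (Lp ℝ 2 (vol d)) (F n)))
    (fun n => by
      rw [Set.mem_preimage, mem_closedBall_zero_iff]
      change ‖InnerProductSpace.toDual ℝ (Lp ℝ 2 (vol d)) (F n)‖ ≤ _
      rw [LinearIsometryEquiv.norm_map]
      exact hFn n)
  set R : Lp ℝ 2 (vol d) :=
    (InnerProductSpace.toDual ℝ (Lp ℝ 2 (vol d))).symm (WeakDual.toStrongDual φ) with hR
  refine ⟨R, ψ, hψ, Lp.memLp R, fun g hg => ?_⟩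
  have e1 : ∀ (f : T d → ℝ) (hf : MemLp f 2 (vol d)),
      inner ℝ (hf.toLp) (hg.toLp) = ∫ x, f x * g x ∂vol d := by
    intro f hf
    rw [L2.inner_def]
    refine integral_congr_ae ?_
    filter_upwards [hf.coeFn_toLp, hg.coeFn_toLp] with x hx hx'
    rw [hx, hx']
    simp [mul_comm]
  have e2 : inner ℝ R (hg.toLp) = ∫ x, R x * g x ∂vol d := by
    rw [L2.inner_def]
    refine integral_congr_ae ?_
    filter_upwards [hg.coeFn_toLp] with x hx'
    rw [hx']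
    simp [mul_comm]
  have e3 := ((WeakDual.eval_continuous (𝕜 := ℝ) (E := Lp ℝ 2 (vol d)) (hg.toLp)).tendsto φ).comp
    hlim
  have e4 : (WeakDual.toStrongDual φ) (hg.toLp) = inner ℝ R (hg.toLp) := by
    rw [hR, InnerProductSpace.toDual_symm_apply]
  rw [← e2, ← e4]
  refine e3.congr fun n => ?_
  exact e1 _ (h1 (ψ n))

end Pool.Agent.R763.PL.MIN
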