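import Pool.Agent.R763.PL.MIN2
import Pool.Agent.R763.PL.MIN3

/-! # PL-MIN: existence of a minimiser of `J_δ` -/

set_option autoImplicit false

open MeasureTheory UnitAddTorus Filter Topology
open scoped ENNReal Real

namespace Pool.Agent.R763.PL.MIN

theorem c1_nonneg (d : ℕ) : 0 ≤ c1 d := by
  unfold c1
  positivity

theorem sq32 {d : ℕ} {g : T d → ℝ} (hg : MemLp g 3 (vol d)) :
    MemLp (fun x => g x ^ 2) (3 / 2) (vol d) := by
  have := (memLp_mul33 hg hg).1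
  simpa only [sq] using this

theorem Jd_eq {d : ℕ} (δ : ℝ) {ρ : T d → ℝ} {v : Fin d → T d → ℝ} (hρ : MemLp ρ 3 (vol d))
    (hv : Grad ρ v) : Jd δ ρ v = (∑ i, ∫ x, ρ x * v i x ^ 2 ∂vol d) -
      c1 d * (∑ i, ∫ x, (1 : ℝ) * v i x ^ 2 ∂vol d) + δ * ∫ x, ρ x ^ 3 ∂vol d := by
  haveI := tri_3_32_1
  unfold Jd
  have h1 : ∫ x, ρ x * ∑ i, v i x ^ 2 ∂vol d = ∑ i, ∫ x, ρ x * v i x ^ 2 ∂vol d := by
    rw [← integral_finsetSum _ fun i _ => int_mul hρ (sq32 (hv.mem i))]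
    congr 1
    funext x
    rw [Finset.mul_sum]
  have h2 : ∫ x, ∑ i, v i x ^ 2 ∂vol d = ∑ i, ∫ x, (1 : ℝ) * v i x ^ 2 ∂vol d := by
    rw [← integral_finsetSum _ fun i _ =>
      int_mul (p := 3) (q := 3 / 2) (memLp_const (1 : ℝ)) (sq32 (hv.mem i))]
    congr 1
    funext x
    simp only [one_mul]
  rw [h1, h2]

theorem Jd_lower {d : ℕ} {κ : ℝ≥0∞} (hκ : κ ≠ ⊤)
    (hco : ∀ (ρ : T d → ℝ) (v : Fin d → T d → ℝ), MemLp ρ 3 (vol d) → Grad ρ v →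
      ∀ i, eLpNorm (v i) 3 (vol d) ≤ κ * eLpNorm ρ 3 (vol d)) {δ : ℝ} {ρ : T d → ℝ}
    {v : Fin d → T d → ℝ} (hρ : Adm ρ) (hv : Grad ρ v) :
    (eLpNorm ρ 3 (vol d)).toReal ^ 2 * (δ * (eLpNorm ρ 3 (vol d)).toReal -
      c1 d * (d * κ.toReal ^ 2)) ≤ Jd δ ρ v := by
  rw [Jd_eq δ hρ.mem hv, ← (int_cube hρ.mem hρ.nonneg).2]
  set x := (eLpNorm ρ 3 (vol d)).toReal with hx
  have h1 : 0 ≤ ∑ i, ∫ x, ρ x * v i x ^ 2 ∂vol d := by
    refine Finset.sum_nonneg fun i _ => integral_nonneg_of_ae ?_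
    filter_upwards [hρ.nonneg] with x hx
    exact mul_nonneg hx (sq_nonneg _)
  have h2 : ∑ i, ∫ x, (1 : ℝ) * v i x ^ 2 ∂vol d ≤ d * (κ.toReal ^ 2 * x ^ 2) := by
    have h3 : ∀ i ∈ (Finset.univ : Finset (Fin d)), ∫ x, (1 : ℝ) * v i x ^ 2 ∂vol d ≤
        κ.toReal ^ 2 * x ^ 2 := by
      intro i _
      simp only [one_mul]
      refine (sq_le (hv.mem i)).trans ?_
      rw [← mul_pow]
      refine pow_le_pow_left₀ ENNReal.toReal_nonneg ?_ 2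
      rw [hx, ← ENNReal.toReal_mul]
      exact ENNReal.toReal_mono (ENNReal.mul_ne_top hκ hρ.mem.2.ne) (hco ρ v hρ.mem hv i)
    refine (Finset.sum_le_card_nsmul _ _ _ h3).trans (le_of_eq ?_)
    simp
  have h4 := mul_le_mul_of_nonneg_left h2 (c1_nonneg d)
  nlinarith

theorem fc_eq {d : ℕ} {f : T d → ℝ} (hf : Integrable f (vol d)) (k : Fin d → ℤ) :
    fc f k = ((∫ x, f x * (mFourier (-k) x).re ∂vol d : ℝ) : ℂ) +
      ((∫ x, f x * (mFourier (-k) x).im ∂vol d : ℝ) : ℂ) * Complex.I := by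
  have h := int_mF hf (-k)
  have h1 : ∫ x, f x * (mFourier (-k) x).re ∂vol d = (fc f k).re := by
    have e : ∫ x, (mFourier (-k) x * (f x : ℂ)).re ∂vol d = (fc f k).re := integral_re h
    rw [← e]
    congr 1
    funext x
    simp [mul_comm]
  have h2 : ∫ x, f x * (mFourier (-k) x).im ∂vol d = (fc f k).im := by
    have e : ∫ x, (mFourier (-k) x * (f x : ℂ)).im ∂vol d = (fc f k).im := integral_im h
    rw [← e]
    congr 1
    funext x
    simp [mul_comm]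
  rw [h1, h2, Complex.re_add_im]

theorem norm_mF_le {d : ℕ} (k : Fin d → ℤ) (x : T d) : ‖mFourier k x‖ ≤ 1 :=
  calc ‖mFourier k x‖ ≤ ‖mFourier k‖ := (mFourier k).norm_coe_le_norm x
    _ = 1 := mFourier_norm

theorem min (d : ℕ) (_hd : 1 ≤ d) (hEXI : S_EXI d) (hCPT : S_CPT d) (hKER : S_KER d)
    (hYOU : S_YOU d) (hUNI : S_UNI d) (hSMO : S_SMO d) (hFEJ : S_FEJ d) : S_MIN d := by
  intro δ hδ
  obtain ⟨A, hA⟩ := hFEJ
  obtain ⟨κ, hκ, hco⟩ := coer hKER hYOU hUNI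
  set K : ℝ := c1 d * (d * κ.toReal ^ 2) with hK
  have hK0 : 0 ≤ K := mul_nonneg (c1_nonneg d) (by positivity)
  set S : Set ℝ := {J | ∃ (ρ : T d → ℝ) (v : Fin d → T d → ℝ), Adm ρ ∧ Grad ρ v ∧ Jd δ ρ v = J}
    with hS
  have hne : S.Nonempty := by
    have h1 : Adm (fun _ : T d => (1 : ℝ)) := by
      refine ⟨Eventually.of_forall fun _ => zero_le_one, memLp_const 1, ?_⟩
      simp
    obtain ⟨v, hv⟩ := (hEXI _ h1.mem).1
    exact ⟨_, _, v, h1, hv, rfl⟩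
  have hbd : BddBelow S := by
    refine ⟨-(K * (K / δ) ^ 2), ?_⟩
    rintro J ⟨ρ, v, hρ, hv, rfl⟩
    refine le_trans ?_ (Jd_lower hκ hco hρ hv)
    set x := (eLpNorm ρ 3 (vol d)).toReal with hx
    have hx0 : 0 ≤ x := ENNReal.toReal_nonneg
    rcases le_or_gt K (δ * x) with h | h
    · have h1 : 0 ≤ x ^ 2 * (δ * x - K) := mul_nonneg (sq_nonneg _) (by linarith)
      have h2 : 0 ≤ K * (K / δ) ^ 2 := by positivity
      linarith
    · have h1 : x ≤ K / δ := by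
        rw [le_div_iff₀ hδ]; linarith
      have h2 : x ^ 2 ≤ (K / δ) ^ 2 := pow_le_pow_left₀ hx0 h1 2
      have h3 : K * x ^ 2 ≤ K * (K / δ) ^ 2 := mul_le_mul_of_nonneg_left h2 hK0
      have h4 : 0 ≤ x ^ 2 * (δ * x) := by positivity
      nlinarith
  obtain ⟨u, hu1, hu2, hu3⟩ := exists_seq_tendsto_sInf hne hbd
  choose ρ v hρ hv hJ using hu3
  -- bounds
  obtain ⟨X, hX0, hX⟩ : ∃ X : ℝ, 0 ≤ X ∧ ∀ n, (eLpNorm (ρ n) 3 (vol d)).toReal ≤ X := by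
    refine ⟨(K + 1) / δ + 1 + |u 0|, by positivity, fun n => ?_⟩
    by_contra hcon
    push Not at hcon
    set x := (eLpNorm (ρ n) 3 (vol d)).toReal with hx
    have h1 : x ^ 2 * (δ * x - K) ≤ u 0 := by
      refine (Jd_lower hκ hco (hρ n) (hv n)).trans ?_
      rw [hJ n]
      exact hu1 (Nat.zero_le n)
    have h2 : 0 < (K + 1) / δ := by positivity
    have h3 : (K + 1) / δ < x := by linarith [abs_nonneg (u 0)]
    have h4 : K + 1 < δ * x := by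
      rw [div_lt_iff₀ hδ] at h3; linarith
    have h5 : 1 < x := by linarith [abs_nonneg (u 0)]
    have h6 : |u 0| < x := by linarith
    have h7 : x ^ 2 * 1 ≤ x ^ 2 * (δ * x - K) :=
      mul_le_mul_of_nonneg_left (by linarith) (sq_nonneg _)
    have h8 := le_abs_self (u 0)
    nlinarith
  have hX3 : ∀ n, eLpNorm (ρ n) 3 (vol d) ≤ ENNReal.ofReal X := fun n =>
    (ENNReal.le_ofReal_iff_toReal_le (hρ n).mem.2.ne hX0).2 (hX n)
  have h32 : (2 : ℝ≥0∞) ≤ 3 := by norm_num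
  have hρ2 : ∀ n, MemLp (ρ n) 2 (vol d) := fun n => (hρ n).mem.mono_exponent h32
  obtain ⟨ρ₀, ψ, hψ, hρ₀2, hw⟩ := wcpt ρ X hρ2 (fun n =>
    (eLpNorm_le_eLpNorm_of_exponent_le h32 (hρ n).mem.1).trans (hX3 n))
  have hρ₀1 : Integrable ρ₀ (vol d) := hρ₀2.integrable (by norm_num)
  -- Fourier coefficients
  have hfc : ∀ k, Tendsto (fun n => fc (ρ (ψ n)) k) atTop (𝓝 (fc ρ₀ k)) := by
    intro k
    have e1 : ∀ n, fc (ρ (ψ n)) k = _ := fun n =>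
      fc_eq ((hρ (ψ n)).mem.integrable (by norm_num)) k
    simp only [e1]
    rw [fc_eq hρ₀1 k]
    have m1 : MemLp (fun x => (mFourier (-k) x).re) 2 (vol d) := by
      refine MemLp.of_bound (Complex.continuous_re.comp
        (mFourier (-k)).continuous).aestronglyMeasurable 1 (Eventually.of_forall fun x => ?_)
      exact (Complex.abs_re_le_norm _).trans (norm_mF_le _ _)
    have m2 : MemLp (fun x => (mFourier (-k) x).im) 2 (vol d) := by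
      refine MemLp.of_bound (Complex.continuous_im.comp
        (mFourier (-k)).continuous).aestronglyMeasurable 1 (Eventually.of_forall fun x => ?_)
      exact (Complex.abs_im_le_norm _).trans (norm_mF_le _ _)
    have t1 := (Complex.continuous_ofReal.tendsto _).comp (hw _ m1)
    have t2 := (Complex.continuous_ofReal.tendsto _).comp (hw _ m2)
    exact t1.add (t2.mul_const Complex.I)
  -- nonnegativity
  have hpos : ∀ᵐ x ∂vol d, 0 ≤ ρ₀ x := by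
    have m1 : MemLp (fun x => max (-ρ₀ x) 0) 2 (vol d) := by
      refine MemLp.mono hρ₀2 (hρ₀2.1.neg.sup aestronglyMeasurable_const)
        (Eventually.of_forall fun x => ?_)
      rw [Real.norm_of_nonneg (le_max_right _ _)]
      exact max_le (neg_le_abs _) (abs_nonneg _)
    have t1 := hw _ m1
    have t2 : 0 ≤ ∫ x, ρ₀ x * max (-ρ₀ x) 0 ∂vol d := by
      refine ge_of_tendsto' t1 fun n => integral_nonneg_of_ae ?_
      filter_upwards [(hρ (ψ n)).nonneg] with x hx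
      exact mul_nonneg hx (le_max_right _ _)
    have t3 : ∫ x, ρ₀ x * max (-ρ₀ x) 0 ∂vol d = -∫ x, max (-ρ₀ x) 0 ^ 2 ∂vol d := by
      rw [← integral_neg]
      congr 1
      funext x
      rcases le_total 0 (ρ₀ x) with h | h
      · rw [max_eq_right (by linarith)]; ring
      · rw [max_eq_left (by linarith)]; ring
    have t4 : ∫ x, max (-ρ₀ x) 0 ^ 2 ∂vol d = 0 := by
      refine le_antisymm (by linarith) (integral_nonneg fun x => sq_nonneg _)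
    have t5 := (integral_eq_zero_iff_of_nonneg (fun x => sq_nonneg (max (-ρ₀ x) 0))
      m1.integrable_sq).1 t4
    filter_upwards [t5] with x hx
    have h1 : max (-ρ₀ x) 0 ^ 2 = 0 := hx
    have h2 : max (-ρ₀ x) 0 = 0 := (pow_eq_zero_iff two_ne_zero).1 h1
    have h3 := le_max_left (-ρ₀ x) 0
    linarith
  -- mass
  have hmass : ∫ x, ρ₀ x ∂vol d = 1 := by
    have t1 := hw (fun _ => 1) (memLp_const 1)
    simp only [mul_one] at t1
    refine tendsto_nhds_unique t1 ?_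
    have : ∀ n, ∫ x, ρ (ψ n) x ∂vol d = 1 := fun n => (hρ (ψ n)).mass
    simp only [this]
    exact tendsto_const_nhds
  -- integrability
  have hρ₀3 : MemLp ρ₀ 3 (vol d) := by
    refine (lsc (fun n => ρ (ψ n)) ρ₀ (fun _ => X ^ 3) (X ^ 3) (fun n => (hρ (ψ n)).mem)
      (fun n => (hρ (ψ n)).nonneg) (fun n => ?_) tendsto_const_nhds hρ₀2 hpos hw).1
    rw [← (int_cube (hρ (ψ n)).mem (hρ (ψ n)).nonneg).2]
    exact pow_le_pow_left₀ ENNReal.toReal_nonneg (hX (ψ n)) 3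
  obtain ⟨v₀, hv₀⟩ := (hEXI ρ₀ hρ₀3).1
  have hcpt := hCPT (fun n => ρ (ψ n)) (fun n => v (ψ n)) ρ₀ v₀ X (fun n => (hρ (ψ n)).mem)
    (fun n => hX3 (ψ n)) hρ₀3 (fun n => hv (ψ n)) hv₀ hfc
  haveI := tri_3_32_1
  have h13 : (1 : ℝ≥0∞) ≤ 3 := by norm_num
  have hw3 : ∀ k : T d → ℝ, MemLp k (3 / 2) (vol d) →
      Tendsto (fun n => ∫ x, ρ (ψ n) x * k x ∂vol d) atTop (𝓝 (∫ x, ρ₀ x * k x ∂vol d)) :=
    fun k hk => wc hSMO A hA.lim (p := 3) (q := 3 / 2) h13 (Or.inr (Or.inl rfl))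
      (fun n => ρ (ψ n)) ρ₀ (ENNReal.ofReal X) ENNReal.ofReal_ne_top (fun n => (hρ (ψ n)).mem)
      (fun n => hX3 (ψ n)) hρ₀3 hfc k hk
  have hD : Tendsto (fun n => ∑ i, ∫ x, ρ (ψ n) x * v (ψ n) i x ^ 2 ∂vol d) atTop
      (𝓝 (∑ i, ∫ x, ρ₀ x * v₀ i x ^ 2 ∂vol d)) := by
    refine tendsto_finsetSum _ fun i _ => ?_
    exact tri (fun n => ρ (ψ n)) ρ₀ (ENNReal.ofReal X) ENNReal.ofReal_ne_top
      (fun n => (hρ (ψ n)).mem) (fun n => hX3 (ψ n)) hw3 (fun n => v (ψ n) i) (v₀ i)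
      (fun n => (hv (ψ n)).mem i) (hv₀.mem i) (hcpt i)
  have hQ : Tendsto (fun n => ∑ i, ∫ x, (1 : ℝ) * v (ψ n) i x ^ 2 ∂vol d) atTop
      (𝓝 (∑ i, ∫ x, (1 : ℝ) * v₀ i x ^ 2 ∂vol d)) := by
    refine tendsto_finsetSum _ fun i _ => ?_
    exact tri (fun _ _ => (1 : ℝ)) (fun _ => 1) (eLpNorm (fun _ : T d => (1 : ℝ)) 3 (vol d))
      (memLp_const (1 : ℝ)).2.ne (fun n => memLp_const 1) (fun n => le_rfl)
      (fun k hk => tendsto_const_nhds) (fun n => v (ψ n) i) (v₀ i)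
      (fun n => (hv (ψ n)).mem i) (hv₀.mem i) (hcpt i)
  have hJt : Tendsto (fun n => u (ψ n)) atTop (𝓝 (sInf S)) := hu2.comp hψ.tendsto_atTop
  set D := ∑ i, ∫ x, ρ₀ x * v₀ i x ^ 2 ∂vol d with hDdef
  set Q := ∑ i, ∫ x, (1 : ℝ) * v₀ i x ^ 2 ∂vol d with hQdef
  have hB : Tendsto (fun n => (u (ψ n) - (∑ i, ∫ x, ρ (ψ n) x * v (ψ n) i x ^ 2 ∂vol d) +
      c1 d * (∑ i, ∫ x, (1 : ℝ) * v (ψ n) i x ^ 2 ∂vol d)) / δ) atTop
      (𝓝 ((sInf S - D + c1 d * Q) / δ)) :=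
    ((hJt.sub hD).add (hQ.const_mul (c1 d))).div_const δ
  have hl := (lsc (fun n => ρ (ψ n)) ρ₀ _ _ (fun n => (hρ (ψ n)).mem)
      (fun n => (hρ (ψ n)).nonneg) (fun n => by
        rw [le_div_iff₀ hδ]
        have e := hJ (ψ n)
        rw [Jd_eq δ (hρ (ψ n)).mem (hv (ψ n))] at e
        linarith) hB hρ₀2 hpos hw).2
  refine ⟨ρ₀, v₀, ⟨hpos, hρ₀3, hmass⟩, hv₀, fun ρ' v' hρ' hv' => ?_⟩
  have hle : sInf S ≤ Jd δ ρ' v' := csInf_le hbd ⟨ρ', v', hρ', hv', rfl⟩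
  refine le_trans ?_ hle
  rw [Jd_eq δ hρ₀3 hv₀]
  rw [le_div_iff₀ hδ] at hl
  linarith

end Pool.Agent.R763.PL.MIN
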