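import Pool.Agent.R763.PL.Stm

/-! # PL-MIN, part 1: Hoelder, weak convergence by smoothing -/

set_option autoImplicit false

open MeasureTheory UnitAddTorus Filter Topology
open scoped ENNReal Real

namespace Pool.Agent.R763.PL.MIN

instance (d : ℕ) : IsProbabilityMeasure (vol d) := by unfold vol; infer_instance

theorem tri_3_32_1 : ENNReal.HolderTriple 3 (3 / 2) 1 := by
  refine ⟨?_⟩
  rw [inv_one, ENNReal.inv_div (by simp) (by simp)]
  have h : (3 : ℝ≥0∞)⁻¹ = 1 / 3 := by rw [one_div]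
  rw [h, ENNReal.div_add_div_same]
  norm_num
  exact ENNReal.div_self (by norm_num) (by norm_num)

theorem tri_3_3_32 : ENNReal.HolderTriple 3 3 (3 / 2) := by
  refine ⟨?_⟩
  rw [ENNReal.inv_div (by simp) (by simp)]
  have h : (3 : ℝ≥0∞)⁻¹ = 1 / 3 := by rw [one_div]
  rw [h, ENNReal.div_add_div_same]
  norm_num

theorem tri_2_2_1 : ENNReal.HolderTriple 2 2 1 := by
  refine ⟨?_⟩
  rw [inv_one]
  exact ENNReal.inv_two_add_inv_two

section

variable {d : ℕ} {p q : ℝ≥0∞} [hpq : ENNReal.HolderTriple p q 1]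

theorem holder {f g : T d → ℝ} (hf : MemLp f p (vol d)) (hg : MemLp g q (vol d)) :
    ‖∫ x, f x * g x ∂vol d‖ₑ ≤ eLpNorm f p (vol d) * eLpNorm g q (vol d) := by
  have h1 : eLpNorm (f • g) 1 (vol d) ≤ eLpNorm f p (vol d) * eLpNorm g q (vol d) :=
    eLpNorm_smul_le_mul_eLpNorm (p := p) (q := q) (r := 1) hg.1 hf.1
  have h2 : (f • g : T d → ℝ) = fun x => f x * g x := rfl
  rw [h2, eLpNorm_one_eq_lintegral_enorm] at h1
  exact (enorm_integral_le_lintegral_enorm _).trans h1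

theorem int_mul {f g : T d → ℝ} (hf : MemLp f p (vol d)) (hg : MemLp g q (vol d)) :
    Integrable (fun x => f x * g x) (vol d) := by
  have h : MemLp (fun x => f x * g x) 1 (vol d) := MemLp.mul' hg hf
  exact memLp_one_iff_integrable.1 h

end

/-- approximation -/
theorem approx (a : ℕ → ℝ) (a0 : ℝ) (b : ℕ → ℕ → ℝ) (b0 : ℕ → ℝ) (δ : ℕ → ℝ)
    (hδ : Tendsto δ atTop (𝓝 0)) (h1 : ∀ m n, |a n - b m n| ≤ δ m) (h2 : ∀ m, |a0 - b0 m| ≤ δ m)
    (h3 : ∀ m, Tendsto (b m) atTop (𝓝 (b0 m))) : Tendsto a atTop (𝓝 a0) := by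
  rw [Metric.tendsto_atTop]
  intro ε hε
  obtain ⟨m, hm⟩ := (Metric.tendsto_atTop.1 hδ) (ε / 3) (by linarith)
  have hm' := hm m le_rfl
  rw [Real.dist_eq, sub_zero] at hm'
  have hm'' : δ m < ε / 3 := (le_abs_self _).trans_lt hm'
  obtain ⟨N, hN⟩ := (Metric.tendsto_atTop.1 (h3 m)) (ε / 3) (by linarith)
  refine ⟨N, fun n hn => ?_⟩
  have h4 := hN n hn
  rw [Real.dist_eq] at h4 ⊢
  have h5 := h1 m n
  have h6 := h2 m
  calc |a n - a0| = |(a n - b m n) + (b m n - b0 m) + (b0 m - a0)| := by ring_nf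
    _ ≤ |(a n - b m n) + (b m n - b0 m)| + |b0 m - a0| := abs_add_le _ _
    _ ≤ |a n - b m n| + |b m n - b0 m| + |b0 m - a0| := by
        gcongr
        exact abs_add_le _ _
    _ < ε := by
        rw [abs_sub_comm (b0 m) a0]
        linarith

/-! ### integrals against smoothed functions -/

theorem cont_sm {d : ℕ} (A : AI d) (c : (Fin d → ℤ) → ℂ) : Continuous (A.sm c) := by
  unfold AI.sm
  refine Complex.continuous_re.comp (continuous_finsetSum _ fun k _ => ?_)
  exact continuous_const.mul (mFourier k).continuous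

theorem memLp_sm {d : ℕ} (A : AI d) (c : (Fin d → ℤ) → ℂ) (p : ℝ≥0∞) :
    MemLp (A.sm c) p (vol d) := by
  have hc := cont_sm A c
  obtain ⟨C, hC⟩ := (isCompact_univ (X := T d)).exists_bound_of_continuousOn hc.continuousOn
  exact MemLp.of_bound hc.aestronglyMeasurable C (Eventually.of_forall fun x => hC x (Set.mem_univ x))

theorem int_mF {d : ℕ} {f : T d → ℝ} (hf : Integrable f (vol d)) (k : Fin d → ℤ) :
    Integrable (fun x => mFourier k x * (f x : ℂ)) (vol d) := by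
  have h1 : Integrable (fun x => (f x : ℂ)) (vol d) := hf.ofReal
  refine h1.bdd_mul (c := 1) (mFourier k).continuous.aestronglyMeasurable ?_
  refine Eventually.of_forall fun x => ?_
  calc ‖mFourier k x‖ ≤ ‖mFourier k‖ := (mFourier k).norm_coe_le_norm x
    _ = 1 := mFourier_norm

theorem int_sm {d : ℕ} (A : AI d) (c : (Fin d → ℤ) → ℂ) {f : T d → ℝ}
    (hf : Integrable f (vol d)) :
    ∫ x, f x * A.sm c x ∂vol d = (∑ k ∈ A.s, (A.a k : ℂ) * c k * fc f (-k)).re := by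
  have h1 : ∀ x, f x * A.sm c x =
      (∑ k ∈ A.s, (A.a k : ℂ) * c k * (mFourier k x * (f x : ℂ))).re := by
    intro x
    unfold AI.sm
    rw [← Complex.re_ofReal_mul, Finset.mul_sum]
    congr 1
    refine Finset.sum_congr rfl fun k _ => ?_
    ring
  have h2 : Integrable (fun x => ∑ k ∈ A.s, (A.a k : ℂ) * c k * (mFourier k x * (f x : ℂ)))
      (vol d) := integrable_finsetSum _ fun k _ => (int_mF hf k).const_mul _
  calc ∫ x, f x * A.sm c x ∂vol d
      = ∫ x, (∑ k ∈ A.s, (A.a k : ℂ) * c k * (mFourier k x * (f x : ℂ))).re ∂vol d := by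
        simp_rw [h1]
    _ = (∫ x, ∑ k ∈ A.s, (A.a k : ℂ) * c k * (mFourier k x * (f x : ℂ)) ∂vol d).re :=
        integral_re h2
    _ = _ := by
        rw [integral_finsetSum _ fun k _ => (int_mF hf k).const_mul _]
        congr 1
        refine Finset.sum_congr rfl fun k _ => ?_
        rw [integral_const_mul]
        unfold fc
        rw [neg_neg]

/-- weak convergence from the convergence of the Fourier coefficients -/
theorem wc {d : ℕ} (hS : S_SMO d) (A : ℕ → AI d)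
    (hA : ∀ k, Tendsto (fun n => (A n).a k) atTop (𝓝 1)) {p q : ℝ≥0∞}
    [ENNReal.HolderTriple p q 1] (hp1 : 1 ≤ p) (hq : q = 1 ∨ q = 3 / 2 ∨ q = 2 ∨ q = 3)
    (ρ : ℕ → T d → ℝ) (ρ₀ : T d → ℝ) (C : ℝ≥0∞) (hC : C ≠ ⊤) (h1 : ∀ n, MemLp (ρ n) p (vol d))
    (h2 : ∀ n, eLpNorm (ρ n) p (vol d) ≤ C) (h3 : MemLp ρ₀ p (vol d))
    (h4 : ∀ k, Tendsto (fun n => fc (ρ n) k) atTop (𝓝 (fc ρ₀ k))) (g : T d → ℝ)
    (hg : MemLp g q (vol d)) :
    Tendsto (fun n => ∫ x, ρ n x * g x ∂vol d) atTop (𝓝 (∫ x, ρ₀ x * g x ∂vol d)) := by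
  set D := C + eLpNorm ρ₀ p (vol d) with hD
  have hDt : D ≠ ⊤ := ENNReal.add_ne_top.2 ⟨hC, h3.2.ne⟩
  set G : ℕ → T d → ℝ := fun m => (A m).sm (fc g) with hG
  have hGm : ∀ m, MemLp (G m) q (vol d) := fun m => memLp_sm _ _ _
  have key : ∀ (f : T d → ℝ), MemLp f p (vol d) → eLpNorm f p (vol d) ≤ D → ∀ m,
      |∫ x, f x * g x ∂vol d - ∫ x, f x * G m x ∂vol d| ≤
        (D * eLpNorm (fun x => G m x - g x) q (vol d)).toReal := by
    intro f hf hfD m
    have hd : MemLp (fun x => G m x - g x) q (vol d) := (hGm m).sub hg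
    have e1 : ∫ x, f x * g x ∂vol d - ∫ x, f x * G m x ∂vol d =
        -∫ x, f x * (G m x - g x) ∂vol d := by
      rw [← integral_sub (int_mul hf hg) (int_mul hf (hGm m)), ← integral_neg]
      congr 1
      funext x
      ring
    rw [e1, abs_neg, ← Real.norm_eq_abs, ← toReal_enorm]
    refine ENNReal.toReal_mono (ENNReal.mul_ne_top hDt hd.2.ne) ?_
    exact (holder hf hd).trans (mul_le_mul_left hfD _)
  refine approx _ _ (fun m n => ∫ x, ρ n x * G m x ∂vol d) (fun m => ∫ x, ρ₀ x * G m x ∂vol d)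
    (fun m => (D * eLpNorm (fun x => G m x - g x) q (vol d)).toReal) ?_ ?_ ?_ ?_
  · have h5 := hS.2.2 A hA q hq g hg
    have h6 : Tendsto (fun m => D * eLpNorm (fun x => G m x - g x) q (vol d)) atTop (𝓝 (D * 0)) :=
      ENNReal.Tendsto.const_mul h5 (Or.inr hDt)
    rw [mul_zero] at h6
    have h7 := (ENNReal.tendsto_toReal ENNReal.zero_ne_top).comp h6
    rw [ENNReal.toReal_zero] at h7
    exact h7
  · intro m n
    exact key _ (h1 n) ((h2 n).trans le_self_add) m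
  · intro m
    exact key _ h3 le_add_self m
  · intro m
    have e1 : ∀ n, ∫ x, ρ n x * G m x ∂vol d =
        (∑ k ∈ (A m).s, ((A m).a k : ℂ) * fc g k * fc (ρ n) (-k)).re :=
      fun n => int_sm _ _ ((h1 n).integrable hp1)
    have e2 : ∫ x, ρ₀ x * G m x ∂vol d =
        (∑ k ∈ (A m).s, ((A m).a k : ℂ) * fc g k * fc ρ₀ (-k)).re :=
      int_sm _ _ (h3.integrable hp1)
    simp only [e1, e2]
    refine (Complex.continuous_re.tendsto _).comp ?_
    refine tendsto_finsetSum _ fun k _ => ?_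
    exact (h4 (-k)).const_mul _

end Pool.Agent.R763.PL.MIN
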