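import Pool.Agent.R763.PL.MIN1

/-! # PL-MIN, part 2: lower semicontinuity, bounds, weak compactness -/

set_option autoImplicit false

open MeasureTheory UnitAddTorus Filter Topology
open scoped ENNReal Real

namespace Pool.Agent.R763.PL.MIN

theorem memLp_mul33 {d : ℕ} {f g : T d → ℝ} (hf : MemLp f 3 (vol d)) (hg : MemLp g 3 (vol d)) :
    MemLp (fun x => f x * g x) (3 / 2) (vol d) ∧
      eLpNorm (fun x => f x * g x) (3 / 2) (vol d) ≤ eLpNorm f 3 (vol d) * eLpNorm g 3 (vol d) := by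
  haveI := tri_3_3_32
  have h1 : eLpNorm (f • g) (3 / 2) (vol d) ≤ eLpNorm f 3 (vol d) * eLpNorm g 3 (vol d) :=
    eLpNorm_smul_le_mul_eLpNorm (p := 3) (q := 3) (r := 3 / 2) hg.1 hf.1
  have h2 : (f • g : T d → ℝ) = fun x => f x * g x := rfl
  rw [h2] at h1
  exact ⟨⟨hf.1.mul hg.1, h1.trans_lt (ENNReal.mul_lt_top hf.2 hg.2)⟩, h1⟩

/-- convergence of `∫ h f²` -/
theorem tri {d : ℕ} (h : ℕ → T d → ℝ) (h0 : T d → ℝ) (C : ℝ≥0∞) (hC : C ≠ ⊤)
    (hm : ∀ n, MemLp (h n) 3 (vol d)) (hb : ∀ n, eLpNorm (h n) 3 (vol d) ≤ C)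
    (hw : ∀ k : T d → ℝ, MemLp k (3 / 2) (vol d) →
      Tendsto (fun n => ∫ x, h n x * k x ∂vol d) atTop (𝓝 (∫ x, h0 x * k x ∂vol d)))
    (f : ℕ → T d → ℝ) (f0 : T d → ℝ) (hf : ∀ n, MemLp (f n) 3 (vol d)) (hf0 : MemLp f0 3 (vol d))
    (hc : Tendsto (fun n => eLpNorm (fun x => f n x - f0 x) 3 (vol d)) atTop (𝓝 0)) :
    Tendsto (fun n => ∫ x, h n x * f n x ^ 2 ∂vol d) atTop (𝓝 (∫ x, h0 x * f0 x ^ 2 ∂vol d)) := by
  haveI := tri_3_32_1
  set E : ℕ → ℝ≥0∞ := fun n => eLpNorm (fun x => f n x - f0 x) 3 (vol d) with hE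
  set D : ℝ≥0∞ := eLpNorm (fun x => 2 * f0 x) 3 (vol d) with hD
  have hDm : MemLp (fun x => 2 * f0 x) 3 (vol d) := hf0.const_mul 2
  have hDt : D ≠ ⊤ := hDm.2.ne
  have hsq : ∀ g : T d → ℝ, MemLp g 3 (vol d) → MemLp (fun x => g x ^ 2) (3 / 2) (vol d) := by
    intro g hg
    have := (memLp_mul33 hg hg).1
    simpa only [sq] using this
  have e1 : ∀ n, ∫ x, h n x * f n x ^ 2 ∂vol d =
      (∫ x, h n x * ((f n x - f0 x) * (f n x + f0 x)) ∂vol d) + ∫ x, h n x * f0 x ^ 2 ∂vol d := by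
    intro n
    have m1 : MemLp (fun x => (f n x - f0 x) * (f n x + f0 x)) (3 / 2) (vol d) :=
      (memLp_mul33 ((hf n).sub hf0) ((hf n).add hf0)).1
    rw [← integral_add (int_mul (hm n) m1) (int_mul (hm n) (hsq f0 hf0))]
    congr 1
    funext x
    ring
  have e2 : Tendsto (fun n => ∫ x, h n x * ((f n x - f0 x) * (f n x + f0 x)) ∂vol d) atTop
      (𝓝 0) := by
    have b1 : ∀ n, ‖∫ x, h n x * ((f n x - f0 x) * (f n x + f0 x)) ∂vol d‖ₑ ≤
        C * (E n * (E n + D)) := by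
      intro n
      have m0 := memLp_mul33 ((hf n).sub hf0) ((hf n).add hf0)
      have m1 : MemLp (fun x => (f n x - f0 x) * (f n x + f0 x)) (3 / 2) (vol d) := m0.1
      have m2 : eLpNorm (fun x => (f n x - f0 x) * (f n x + f0 x)) (3 / 2) (vol d) ≤
        eLpNorm (fun x => f n x - f0 x) 3 (vol d) * eLpNorm (fun x => f n x + f0 x) 3 (vol d) := m0.2
      have m3 : eLpNorm (fun x => f n x + f0 x) 3 (vol d) ≤ E n + D := by
        have a1 : (fun x => f n x + f0 x) = (fun x => f n x - f0 x) + fun x => 2 * f0 x := by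
          funext x
          simp only [Pi.add_apply]
          ring
        rw [a1]
        exact eLpNorm_add_le ((hf n).sub hf0).1 hDm.1 (by norm_num)
      refine (holder (hm n) m1).trans ?_
      exact mul_le_mul' (hb n) (m2.trans (mul_le_mul' le_rfl m3))
    have hEt : ∀ n, E n ≠ ⊤ := fun n => ((hf n).sub hf0).2.ne
    have b2 : Tendsto (fun n => (C * (E n * (E n + D))).toReal) atTop (𝓝 0) := by
      have c1 : Tendsto (fun n => E n + D) atTop (𝓝 (0 + D)) := hc.add_const D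
      have c2 : Tendsto (fun n => E n * (E n + D)) atTop (𝓝 (0 * (0 + D))) :=
        ENNReal.Tendsto.mul hc (Or.inr (by simpa using hDt)) c1 (Or.inr ENNReal.zero_ne_top)
      have c3 := ENNReal.Tendsto.const_mul (a := C) c2 (Or.inr hC)
      rw [zero_mul, mul_zero] at c3
      have c4 := (ENNReal.tendsto_toReal ENNReal.zero_ne_top).comp c3
      rw [ENNReal.toReal_zero] at c4
      exact c4
    refine squeeze_zero_norm (fun n => ?_) b2
    rw [← toReal_enorm]
    refine ENNReal.toReal_mono ?_ (b1 n)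
    exact ENNReal.mul_ne_top hC (ENNReal.mul_ne_top (hEt n) (ENNReal.add_ne_top.2 ⟨hEt n, hDt⟩))
  simp only [e1]
  have e3 := e2.add (hw _ (hsq f0 hf0))
  rw [zero_add] at e3
  exact e3

theorem int_cube {d : ℕ} {f : T d → ℝ} (hf : MemLp f 3 (vol d)) (h0 : ∀ᵐ x ∂vol d, 0 ≤ f x) :
    Integrable (fun x => f x ^ 3) (vol d) ∧
      (eLpNorm f 3 (vol d)).toReal ^ 3 = ∫ x, f x ^ 3 ∂vol d := by
  have h1 : Integrable (fun x => ‖f x‖ ^ (3 : ℝ≥0∞).toReal) (vol d) :=
    (integrable_norm_rpow_iff hf.1 (by norm_num) (by norm_num)).2 hf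
  have h2 : (fun x => ‖f x‖ ^ (3 : ℝ≥0∞).toReal) =ᵐ[vol d] fun x => f x ^ 3 := by
    filter_upwards [h0] with x hx
    rw [Real.norm_of_nonneg hx]
    have : (3 : ℝ≥0∞).toReal = ((3 : ℕ) : ℝ) := by norm_num
    rw [this, Real.rpow_natCast]
  refine ⟨h1.congr h2, ?_⟩
  rw [hf.eLpNorm_eq_integral_rpow_norm (by norm_num) (by norm_num), integral_congr_ae h2]
  have h3 : 0 ≤ ∫ x, f x ^ 3 ∂vol d := by
    refine integral_nonneg_of_ae ?_
    filter_upwards [h0] with x hx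
    exact pow_nonneg hx 3
  rw [ENNReal.toReal_ofReal (Real.rpow_nonneg h3 _), ← Real.rpow_natCast, ← Real.rpow_mul h3]
  norm_num

/-- lower semicontinuity of the cube and integrability of the limit -/
theorem lsc {d : ℕ} (ρ : ℕ → T d → ℝ) (ρ₀ : T d → ℝ) (B : ℕ → ℝ) (L : ℝ)
    (h1 : ∀ n, MemLp (ρ n) 3 (vol d)) (h2 : ∀ n, ∀ᵐ x ∂vol d, 0 ≤ ρ n x)
    (h3 : ∀ n, ∫ x, ρ n x ^ 3 ∂vol d ≤ B n) (h4 : Tendsto B atTop (𝓝 L))
    (h5 : MemLp ρ₀ 2 (vol d)) (h6 : ∀ᵐ x ∂vol d, 0 ≤ ρ₀ x)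
    (h7 : ∀ g : T d → ℝ, MemLp g 2 (vol d) →
      Tendsto (fun n => ∫ x, ρ n x * g x ∂vol d) atTop (𝓝 (∫ x, ρ₀ x * g x ∂vol d))) :
    MemLp ρ₀ 3 (vol d) ∧ ∫ x, ρ₀ x ^ 3 ∂vol d ≤ L := by
  haveI := tri_2_2_1
  set m : ℕ → T d → ℝ := fun R x => min (max (ρ₀ x) 0) R with hm
  have m0 : ∀ R x, 0 ≤ m R x := fun R x => le_min (le_max_right _ _) (Nat.cast_nonneg R)
  have mR : ∀ R x, m R x ≤ R := fun R x => min_le_right _ _
  have mm : ∀ R, AEStronglyMeasurable (m R) (vol d) := fun R =>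
    (h5.1.sup aestronglyMeasurable_const).inf aestronglyMeasurable_const
  have mρ : ∀ R, ∀ᵐ x ∂vol d, m R x ≤ ρ₀ x := by
    intro R
    filter_upwards [h6] with x hx
    exact (min_le_left _ _).trans (by rw [max_eq_left hx])
  have m2 : ∀ R, MemLp (fun x => m R x ^ 2) 2 (vol d) := by
    intro R
    refine MemLp.of_bound ((mm R).pow 2) ((R : ℝ) ^ 2) (Eventually.of_forall fun x => ?_)
    rw [Real.norm_of_nonneg (by positivity)]
    exact pow_le_pow_left₀ (m0 R x) (mR R x) 2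
  have m3 : ∀ R, Integrable (fun x => m R x ^ 3) (vol d) := by
    intro R
    have : MemLp (fun x => m R x ^ 3) 1 (vol d) := by
      refine MemLp.of_bound ((mm R).pow 3) ((R : ℝ) ^ 3) (Eventually.of_forall fun x => ?_)
      have := m0 R x
      rw [Real.norm_of_nonneg (by positivity)]
      exact pow_le_pow_left₀ (m0 R x) (mR R x) 3
    exact memLp_one_iff_integrable.1 this
  have h12 : ∀ n, MemLp (ρ n) 2 (vol d) := fun n => (h1 n).mono_exponent (by norm_num)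
  have key : ∀ R, ∫ x, m R x ^ 3 ∂vol d ≤ L := by
    intro R
    have k1 : ∀ n, 3 * (∫ x, ρ n x * m R x ^ 2 ∂vol d) - 2 * (∫ x, m R x ^ 3 ∂vol d) ≤ B n := by
      intro n
      refine le_trans ?_ (h3 n)
      have i1 : Integrable (fun x => ρ n x * m R x ^ 2) (vol d) := int_mul (h12 n) (m2 R)
      rw [← integral_const_mul, ← integral_const_mul,
        ← integral_sub (i1.const_mul 3) ((m3 R).const_mul 2)]
      refine integral_mono_ae ((i1.const_mul 3).sub ((m3 R).const_mul 2))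
        (int_cube (h1 n) (h2 n)).1 ?_
      filter_upwards [h2 n] with x hx
      have := m0 R x
      have h8 : 0 ≤ (ρ n x - m R x) ^ 2 * (ρ n x + 2 * m R x) := by positivity
      nlinarith
    have k2 : 3 * (∫ x, ρ₀ x * m R x ^ 2 ∂vol d) - 2 * (∫ x, m R x ^ 3 ∂vol d) ≤ L :=
      le_of_tendsto_of_tendsto' (((h7 _ (m2 R)).const_mul 3).sub_const _) h4 k1
    have k3 : ∫ x, m R x ^ 3 ∂vol d ≤ ∫ x, ρ₀ x * m R x ^ 2 ∂vol d := by
      refine integral_mono_ae (m3 R) (int_mul h5 (m2 R)) ?_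
      filter_upwards [mρ R] with x hx
      have := m0 R x
      calc m R x ^ 3 = m R x * m R x ^ 2 := by ring
        _ ≤ ρ₀ x * m R x ^ 2 := by gcongr
    linarith
  have hL : 0 ≤ L := by
    refine le_trans ?_ (key 0)
    exact integral_nonneg fun x => pow_nonneg (m0 0 x) 3
  have hF : ∫⁻ x, ENNReal.ofReal (max (ρ₀ x) 0 ^ 3) ∂vol d ≤ ENNReal.ofReal L := by
    have f1 : ∀ x, liminf (fun R => ENNReal.ofReal (m R x ^ 3)) atTop =
        ENNReal.ofReal (max (ρ₀ x) 0 ^ 3) := by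
      intro x
      refine Tendsto.liminf_eq ?_
      have : ∀ᶠ R : ℕ in atTop, ENNReal.ofReal (max (ρ₀ x) 0 ^ 3) = ENNReal.ofReal (m R x ^ 3) := by
        obtain ⟨N, hN⟩ := exists_nat_ge (max (ρ₀ x) 0)
        filter_upwards [eventually_ge_atTop N] with R hR
        have : max (ρ₀ x) 0 ≤ R := hN.trans (by exact_mod_cast hR)
        rw [hm]
        simp only
        rw [min_eq_left this]
      exact tendsto_const_nhds.congr' this
    calc ∫⁻ x, ENNReal.ofReal (max (ρ₀ x) 0 ^ 3) ∂vol d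
        = ∫⁻ x, liminf (fun R => ENNReal.ofReal (m R x ^ 3)) atTop ∂vol d := by
          simp_rw [f1]
      _ ≤ liminf (fun R => ∫⁻ x, ENNReal.ofReal (m R x ^ 3) ∂vol d) atTop :=
          lintegral_liminf_le' fun R => ((mm R).pow 3).aemeasurable.ennreal_ofReal
      _ ≤ liminf (fun _ : ℕ => ENNReal.ofReal L) atTop := by
          refine liminf_le_liminf (Eventually.of_forall fun R => ?_)
          rw [← ofReal_integral_eq_lintegral_ofReal (m3 R)
            (Eventually.of_forall fun x => pow_nonneg (m0 R x) 3)]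
          exact ENNReal.ofReal_le_ofReal (key R)
      _ = ENNReal.ofReal L := liminf_const _
  have g1 : (fun x => max (ρ₀ x) 0 ^ 3) =ᵐ[vol d] fun x => ρ₀ x ^ 3 := by
    filter_upwards [h6] with x hx
    rw [max_eq_left hx]
  have g2 : Integrable (fun x => max (ρ₀ x) 0 ^ 3) (vol d) := by
    refine (lintegral_ofReal_ne_top_iff_integrable
      ((h5.1.sup aestronglyMeasurable_const).pow 3) (Eventually.of_forall fun x => ?_)).1
      (hF.trans_lt ENNReal.ofReal_lt_top).ne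
    exact pow_nonneg (le_max_right _ _) 3
  constructor
  · refine (integrable_norm_rpow_iff h5.1 (by norm_num) (by norm_num)).1 (g2.congr ?_)
    filter_upwards [h6] with x hx
    rw [Real.norm_of_nonneg hx, max_eq_left hx]
    have : (3 : ℝ≥0∞).toReal = ((3 : ℕ) : ℝ) := by norm_num
    rw [this, Real.rpow_natCast]
  · rw [← integral_congr_ae g1, integral_eq_lintegral_of_nonneg_ae
      (Eventually.of_forall fun x => pow_nonneg (le_max_right _ _) 3)
      ((h5.1.sup aestronglyMeasurable_const).pow 3)]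
    exact ENNReal.toReal_le_of_le_ofReal hL hF

end Pool.Agent.R763.PL.MIN
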