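import Pool.Agent.R763.PL.UNI

/-!
# PL-SMO: smoothing by a nonnegative kernel on the torus
-/

set_option autoImplicit false
set_option maxHeartbeats 1000000

open MeasureTheory UnitAddTorus Filter Topology
open scoped ENNReal Real

namespace Pool.Agent.R763.PL.SMO

open Pool.Agent.R763.PL.UNI

instance instHaar (d : ℕ) : Measure.IsAddHaarMeasure (vol d) := by
  unfold vol
  infer_instance

instance instNeg1 : (AddCircle.haarAddCircle : Measure UnitAddCircle).IsNegInvariant := by
  have : (AddCircle.haarAddCircle : Measure UnitAddCircle).Regular := by infer_instance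
  infer_instance

instance instNeg (d : ℕ) : (vol d).IsNegInvariant := by
  unfold vol
  infer_instance

theorem mF_sub {d : ℕ} (k : Fin d → ℤ) (x y : T d) :
    mFourier k (x - y) = mFourier k x * mFourier (-k) y := by
  simp only [mFourier, ContinuousMap.coe_mk, ← Finset.prod_mul_distrib, Pi.sub_apply, Pi.neg_apply]
  apply Finset.prod_congr rfl
  intro i _
  simp only [fourier_apply, sub_eq_add_neg, smul_add, smul_neg, neg_smul, AddCircle.toCircle_add,
    Circle.coe_mul]

theorem mF_norm {d : ℕ} (k : Fin d → ℤ) (x : T d) : ‖mFourier k x‖ = 1 := by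
  simp only [mFourier, ContinuousMap.coe_mk, norm_prod, fourier_apply, Circle.norm_coe,
    Finset.prod_const_one]

theorem int_fourier (n : ℤ) : ∫ x : UnitAddCircle, fourier n x ∂AddCircle.haarAddCircle =
    if n = 0 then 1 else 0 := by
  have h := orthonormal_iff_ite.mp (orthonormal_fourier (T := 1)) 0 n
  rw [ContinuousMap.inner_toLp] at h
  simpa [eq_comm] using h

theorem int_mF {d : ℕ} (k : Fin d → ℤ) : ∫ x, mFourier k x ∂vol d = if k = 0 then 1 else 0 := by
  unfold vol
  simp only [mFourier, ContinuousMap.coe_mk]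
  rw [integral_fintype_prod_eq_prod (f := fun i (x : UnitAddCircle) => fourier (k i) x)]
  simp only [int_fourier]
  split_ifs with h
  · subst h
    simp
  · obtain ⟨i, hi⟩ := Function.ne_iff.mp h
    apply Finset.prod_eq_zero (Finset.mem_univ i)
    exact if_neg hi

/-- the complex kernel -/
noncomputable def kC {d : ℕ} (A : AI d) (z : T d) : ℂ := ∑ k ∈ A.s, (A.a k : ℂ) * mFourier k z

theorem kC_cont {d : ℕ} (A : AI d) : Continuous (kC A) := by
  unfold kC
  fun_prop

theorem ker_cont {d : ℕ} (A : AI d) : Continuous A.ker := by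
  unfold AI.ker
  fun_prop

theorem kC_re {d : ℕ} (A : AI d) (z : T d) : (kC A z).re = A.ker z := rfl

theorem kC_conj {d : ℕ} (A : AI d) (z : T d) : (starRingEnd ℂ) (kC A z) = kC A z := by
  unfold kC
  rw [map_sum]
  classical
  -- sum over a symmetric set
  have h1 : ∑ k ∈ A.s, (A.a k : ℂ) * mFourier k z =
      ∑ k ∈ A.s ∪ A.s.image (fun k => -k), (A.a k : ℂ) * mFourier k z := by
    apply Finset.sum_subset Finset.subset_union_left
    intro k _ hk
    rw [A.supp k hk]
    simp
  have h2 : ∑ k ∈ A.s, (starRingEnd ℂ) ((A.a k : ℂ) * mFourier k z) =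
      ∑ k ∈ A.s ∪ A.s.image (fun k => -k), (starRingEnd ℂ) ((A.a k : ℂ) * mFourier k z) := by
    apply Finset.sum_subset Finset.subset_union_left
    intro k _ hk
    rw [A.supp k hk]
    simp
  rw [h1, h2]
  refine Finset.sum_bij' (fun k _ => -k) (fun k _ => -k) ?_ ?_ ?_ ?_ ?_
  · intro k hk
    simp only [Finset.mem_union, Finset.mem_image] at hk ⊢
    rcases hk with hk | ⟨l, hl, rfl⟩
    · exact Or.inr ⟨k, hk, rfl⟩
    · left; rwa [neg_neg]
  · intro k hk
    simp only [Finset.mem_union, Finset.mem_image] at hk ⊢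
    rcases hk with hk | ⟨l, hl, rfl⟩
    · exact Or.inr ⟨k, hk, rfl⟩
    · left; rwa [neg_neg]
  · intro k _; exact neg_neg k
  · intro k _; exact neg_neg k
  · intro k _
    rw [map_mul, Complex.conj_ofReal, ← mFourier_neg, A.symm]

theorem kC_eq {d : ℕ} (A : AI d) (z : T d) : kC A z = (A.ker z : ℂ) := by
  have := Complex.conj_eq_iff_re.1 (kC_conj A z)
  rw [← this, kC_re]

theorem int_cont {d : ℕ} {E : Type*} [NormedAddCommGroup E] (f : T d → E) (hf : Continuous f) :
    Integrable f (vol d) :=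
  hf.integrable_of_hasCompactSupport (HasCompactSupport.of_compactSpace f)

/-- the kernel acts diagonally -/
theorem kC_mF {d : ℕ} (A : AI d) (k : Fin d → ℤ) (x : T d) :
    ∫ y, kC A (x - y) * mFourier k y ∂vol d = (A.a k : ℂ) * mFourier k x := by
  have h1 : ∀ y, kC A (x - y) * mFourier k y =
      ∑ j ∈ A.s, ((A.a j : ℂ) * mFourier j x) * mFourier (k + -j) y := by
    intro y
    unfold kC
    rw [Finset.sum_mul]
    apply Finset.sum_congr rfl
    intro j _
    rw [mF_sub, mFourier_add]
    ring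
  simp_rw [h1]
  rw [integral_finsetSum]
  · simp_rw [integral_const_mul, int_mF]
    by_cases hk : k ∈ A.s
    · rw [Finset.sum_eq_single k]
      · simp
      · intro j _ hj
        rw [if_neg, mul_zero]
        intro h
        apply hj
        rw [← sub_eq_add_neg, sub_eq_zero] at h
        exact h.symm
      · intro h; exact absurd hk h
    · rw [A.supp k hk]
      simp only [Complex.ofReal_zero, zero_mul]
      apply Finset.sum_eq_zero
      intro j hj
      rw [if_neg, mul_zero]
      intro h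
      rw [← sub_eq_add_neg, sub_eq_zero] at h
      rw [h] at hk
      exact hk hj
  · intro j _
    exact (int_cont _ (mFourier (k + -j)).continuous).const_mul _

theorem int_ker {d : ℕ} (A : AI d) (x : T d) : ∫ y, A.ker (x - y) ∂vol d = 1 := by
  have h1 := kC_mF A 0 x
  rw [A.zero] at h1
  simp only [mFourier_zero, ContinuousMap.one_apply, mul_one, kC_eq] at h1
  rw [integral_complex_ofReal] at h1
  exact_mod_cast h1

theorem sm_conv {d : ℕ} (A : AI d) (f : T d → ℝ) (hf : Integrable f (vol d)) (x : T d) :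
    A.sm (fc f) x = ∫ y, A.ker (x - y) * f y ∂vol d := by
  unfold AI.sm fc
  have h1 : ∑ k ∈ A.s, (A.a k : ℂ) * (∫ y, mFourier (-k) y * (f y : ℂ) ∂vol d) * mFourier k x =
      ∫ y, kC A (x - y) * (f y : ℂ) ∂vol d := by
    have h2 : ∀ y, kC A (x - y) * (f y : ℂ) =
        ∑ k ∈ A.s, ((A.a k : ℂ) * mFourier k x) * (mFourier (-k) y * (f y : ℂ)) := by
      intro y
      unfold kC
      rw [Finset.sum_mul]
      apply Finset.sum_congr rfl
      intro j _
      rw [mF_sub]
      ring
    simp_rw [h2]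
    rw [integral_finsetSum]
    · apply Finset.sum_congr rfl
      intro k _
      rw [integral_const_mul]
      ring
    · intro k _
      exact (int_mul f hf (mFourier (-k))).const_mul _
  rw [h1]
  have h3 : ∀ y, kC A (x - y) * (f y : ℂ) = ((A.ker (x - y) * f y : ℝ) : ℂ) := by
    intro y
    rw [kC_eq]
    push_cast
    rfl
  simp_rw [h3]
  rw [integral_complex_ofReal, Complex.ofReal_re]

theorem ker_nonneg {d : ℕ} (A : AI d) (x : T d) : 0 ≤ A.ker x := A.pos x

theorem ker_bdd {d : ℕ} (A : AI d) : ∃ C : ℝ, ∀ x : T d, ‖A.ker x‖ ≤ C := by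
  obtain ⟨C, hC⟩ := (isCompact_univ (X := T d)).exists_bound_of_continuousOn
    (ker_cont A).continuousOn
  exact ⟨C, fun x => hC x (Set.mem_univ x)⟩

theorem lint_ker_left {d : ℕ} (A : AI d) (x : T d) :
    ∫⁻ y, ENNReal.ofReal (A.ker (x - y)) ∂vol d = 1 := by
  rw [← ofReal_integral_eq_lintegral_ofReal]
  · rw [int_ker, ENNReal.ofReal_one]
  · exact int_cont _ ((ker_cont A).comp (continuous_const.sub continuous_id))
  · exact Eventually.of_forall fun y => ker_nonneg A _

theorem lint_ker_right {d : ℕ} (A : AI d) (y : T d) :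
    ∫⁻ x, ENNReal.ofReal (A.ker (x - y)) ∂vol d = 1 := by
  have h1 := lint_ker_left A 0
  rw [lintegral_sub_right_eq_self (fun x => ENNReal.ofReal (A.ker x)) y]
  rw [← h1]
  exact (lintegral_sub_left_eq_self (fun x => ENNReal.ofReal (A.ker x)) 0).symm

/-- Jensen's inequality -/
theorem jensen {d : ℕ} (w g : T d → ℝ≥0∞) (hw : Measurable w) (hw1 : ∫⁻ y, w y ∂vol d = 1)
    (hg : Measurable g) (p : ℝ) (hp : 1 ≤ p) :
    (∫⁻ y, w y * g y ∂vol d) ^ p ≤ ∫⁻ y, w y * g y ^ p ∂vol d := by
  have hprob : IsProbabilityMeasure ((vol d).withDensity w) := by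
    constructor
    rw [withDensity_apply _ MeasurableSet.univ, Measure.restrict_univ, hw1]
  have h1 : ∫⁻ y, g y ∂(vol d).withDensity w = ∫⁻ y, w y * g y ∂vol d :=
    lintegral_withDensity_eq_lintegral_mul _ hw hg
  have h2 : ∫⁻ y, g y ^ p ∂(vol d).withDensity w = ∫⁻ y, w y * g y ^ p ∂vol d :=
    lintegral_withDensity_eq_lintegral_mul _ hw (hg.pow_const p)
  rw [← h1, ← h2]
  have hp0 : 0 < p := by linarith
  rcases hp.eq_or_lt with h | h
  · rw [← h]; simp
  · have h4 := ENNReal.lintegral_mul_le_Lp_mul_Lq ((vol d).withDensity w)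
      (Real.HolderConjugate.conjExponent h) (f := g) (g := fun _ => 1)
      hg.aemeasurable aemeasurable_const
    simp only [Pi.mul_apply, mul_one, ENNReal.one_rpow, lintegral_one, measure_univ] at h4
    calc (∫⁻ y, g y ∂(vol d).withDensity w) ^ p ≤
        ((∫⁻ y, g y ^ p ∂(vol d).withDensity w) ^ (1 / p)) ^ p := ENNReal.rpow_le_rpow h4 hp0.le
      _ = ∫⁻ y, g y ^ p ∂(vol d).withDensity w := by
          rw [← ENNReal.rpow_mul, one_div, inv_mul_cancel₀ hp0.ne', ENNReal.rpow_one]

theorem swap_step {d : ℕ} (A : AI d) (g : T d → ℝ≥0∞) (hg : Measurable g) :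
    ∫⁻ x, ∫⁻ y, ENNReal.ofReal (A.ker (x - y)) * g y ∂vol d ∂vol d = ∫⁻ y, g y ∂vol d := by
  have hkm : Measurable fun q : T d × T d => ENNReal.ofReal (A.ker (q.1 - q.2)) :=
    (((ker_cont A).comp (continuous_fst.sub continuous_snd)).measurable).ennreal_ofReal
  have hm : AEMeasurable (Function.uncurry fun x y : T d => ENNReal.ofReal (A.ker (x - y)) * g y)
      ((vol d).prod (vol d)) := (hkm.mul (hg.comp measurable_snd)).aemeasurable
  rw [lintegral_lintegral_swap hm]
  apply lintegral_congr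
  intro y
  have hk1 : Measurable fun x : T d => ENNReal.ofReal (A.ker (x - y)) :=
    (((ker_cont A).comp (continuous_id.sub continuous_const)).measurable).ennreal_ofReal
  rw [lintegral_mul_const _ hk1, lint_ker_right, one_mul]

theorem point_step {d : ℕ} (A : AI d) (p : ℝ) (hp : 1 ≤ p) (f : T d → ℝ)
    (hf : Integrable f (vol d)) (hfm : Measurable f) (x : T d) :
    ‖A.sm (fc f) x‖ₑ ^ p ≤ ∫⁻ y, ENNReal.ofReal (A.ker (x - y)) * ‖f y‖ₑ ^ p ∂vol d := by
  have hk1 : Measurable fun y : T d => ENNReal.ofReal (A.ker (x - y)) :=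
    (((ker_cont A).comp (continuous_const.sub continuous_id)).measurable).ennreal_ofReal
  have h1 : ‖A.sm (fc f) x‖ₑ ≤ ∫⁻ y, ENNReal.ofReal (A.ker (x - y)) * ‖f y‖ₑ ∂vol d := by
    rw [sm_conv A f hf]
    refine (enorm_integral_le_lintegral_enorm _).trans (le_of_eq ?_)
    apply lintegral_congr
    intro y
    rw [enorm_mul, Real.enorm_of_nonneg (ker_nonneg A _)]
  refine (ENNReal.rpow_le_rpow h1 (by linarith)).trans ?_
  exact jensen (fun y => ENNReal.ofReal (A.ker (x - y))) (fun y => ‖f y‖ₑ)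
    hk1 (lint_ker_left A x) hfm.enorm p hp

theorem contract_meas {d : ℕ} (A : AI d) (p : ℝ≥0∞) (hp : 1 ≤ p) (hp' : p ≠ ∞) (f : T d → ℝ)
    (hf : Integrable f (vol d)) (hfm : Measurable f) :
    eLpNorm (A.sm (fc f)) p (vol d) ≤ eLpNorm f p (vol d) := by
  have hp0 : p ≠ 0 := by
    rintro rfl
    simp at hp
  have hpr : 1 ≤ p.toReal := by
    have := ENNReal.toReal_mono hp' hp
    simpa using this
  rw [eLpNorm_eq_lintegral_rpow_enorm_toReal hp0 hp', eLpNorm_eq_lintegral_rpow_enorm_toReal hp0 hp']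
  apply ENNReal.rpow_le_rpow _ (by positivity)
  rw [← swap_step A (fun y => ‖f y‖ₑ ^ p.toReal) (hfm.enorm.pow_const _)]
  exact lintegral_mono fun x => point_step A p.toReal hpr f hf hfm x

theorem contract {d : ℕ} (A : AI d) (p : ℝ≥0∞) (hp : 1 ≤ p) (hp' : p ≠ ∞) (f : T d → ℝ)
    (hf : MemLp f p (vol d)) :
    eLpNorm (A.sm (fc f)) p (vol d) ≤ eLpNorm f p (vol d) := by
  have hf1 : Integrable f (vol d) := hf.integrable hp
  obtain ⟨g, hg, hfg⟩ := hf.aestronglyMeasurable
  have h1 : fc f = fc g := by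
    funext k
    unfold fc
    apply integral_congr_ae
    filter_upwards [hfg] with x hx
    rw [hx]
  rw [h1, eLpNorm_congr_ae hfg]
  exact contract_meas A p hp hp' g (hf1.congr hfg) hg.measurable

/-! ### convergence -/

theorem dense_trig {d : ℕ} (p : ℝ≥0∞) (hp : 1 ≤ p) (hp' : p ≠ ∞) (f : T d → ℝ)
    (hf : MemLp f p (vol d)) (ε : ℝ) (hε : 0 < ε) :
    ∃ c : (Fin d → ℤ) →₀ ℂ,
      eLpNorm (fun x => f x - (c.sum fun k a => a * mFourier k x).re) p (vol d) ≤
        ENNReal.ofReal ε := by
  have : Fact (1 ≤ p) := ⟨hp⟩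
  have hfC : MemLp (fun x => (f x : ℂ)) p (vol d) := hf.ofReal
  have h1 : (Submodule.span ℂ (Set.range (fun n : Fin d → ℤ =>
      ContinuousMap.toLp (E := ℂ) p (vol d) ℂ (mFourier n)))).topologicalClosure = ⊤ :=
    span_mFourierLp_closure_eq_top hp'
  have h2 : hfC.toLp _ ∈ (Submodule.span ℂ (Set.range (fun n : Fin d → ℤ =>
      ContinuousMap.toLp (E := ℂ) p (vol d) ℂ (mFourier n)))).topologicalClosure := by
    rw [h1]; trivial
  obtain ⟨G, hG, hd⟩ := Metric.mem_closure_iff.1 h2 ε hε
  obtain ⟨c, rfl⟩ := Finsupp.mem_span_range_iff_exists_finsupp.1 hG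
  refine ⟨c, ?_⟩
  set P : T d → ℂ := fun x => c.sum fun k a => a * mFourier k x with hP
  have hPc : Continuous P := by
    simp only [hP, Finsupp.sum]
    fun_prop
  have hG' : ((c.sum fun i a => a • ContinuousMap.toLp (E := ℂ) p (vol d) ℂ (mFourier i) :
      Lp ℂ p (vol d)) : T d → ℂ) =ᵐ[vol d] P := by
    have e1 : (c.sum fun i a => a • ContinuousMap.toLp (E := ℂ) p (vol d) ℂ (mFourier i)) =
        ContinuousMap.toLp (E := ℂ) p (vol d) ℂ (c.sum fun i a => a • mFourier i) := by
      simp only [Finsupp.sum, map_sum, map_smul]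
    rw [e1]
    refine (ContinuousMap.coeFn_toLp (vol d) _).trans ?_
    refine Eventually.of_forall fun x => ?_
    simp [hP, Finsupp.sum]
  have h3 : eLpNorm (fun x => (f x : ℂ) - P x) p (vol d) ≤ ENNReal.ofReal ε := by
    have e2 : dist (hfC.toLp _) (c.sum fun i a =>
        a • ContinuousMap.toLp (E := ℂ) p (vol d) ℂ (mFourier i)) =
        (eLpNorm (fun x => (f x : ℂ) - P x) p (vol d)).toReal := by
      rw [Lp.dist_def]
      congr 1
      apply eLpNorm_congr_ae
      filter_upwards [hfC.coeFn_toLp, hG'] with x hx1 hx2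
      rw [Pi.sub_apply, hx1, hx2]
    rw [e2] at hd
    have hPm : MemLp P p (vol d) := hPc.memLp_of_hasCompactSupport
      (HasCompactSupport.of_compactSpace P)
    have h5 : eLpNorm (fun x => (f x : ℂ) - P x) p (vol d) ≠ ∞ := (hfC.sub hPm).eLpNorm_ne_top
    rw [← ENNReal.ofReal_toReal h5]
    exact ENNReal.ofReal_le_ofReal hd.le
  refine le_trans ?_ h3
  apply eLpNorm_mono
  intro x
  have : f x - (P x).re = ((f x : ℂ) - P x).re := by simp
  rw [Real.norm_eq_abs, this]
  exact Complex.abs_re_le_norm _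

theorem sm_trig {d : ℕ} (A : AI d) (c : (Fin d → ℤ) →₀ ℂ) (x : T d) :
    A.sm (fc fun x => (c.sum fun k a => a * mFourier k x).re) x =
      (c.sum fun k a => (A.a k : ℂ) * a * mFourier k x).re := by
  have hPc : Continuous fun x : T d => (c.sum fun k a => a * mFourier k x) := by
    simp only [Finsupp.sum]
    fun_prop
  rw [sm_conv A (fun x => (c.sum fun k a => a * mFourier k x).re)
    (int_cont _ (Complex.continuous_re.comp hPc))]
  have h1 : ∀ y, A.ker (x - y) * (c.sum fun k a => a * mFourier k y).re =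
      (kC A (x - y) * (c.sum fun k a => a * mFourier k y)).re := by
    intro y
    rw [kC_eq, Complex.re_ofReal_mul]
  simp_rw [h1]
  have hcont2 : Continuous fun y : T d => kC A (x - y) * (c.sum fun k a => a * mFourier k y) :=
    ((kC_cont A).comp (continuous_const.sub continuous_id)).mul hPc
  have h2 := Complex.reCLM.integral_comp_comm (int_cont _ hcont2)
  simp only [Complex.reCLM_apply] at h2
  rw [h2]
  congr 1
  simp only [Finsupp.sum, Finset.mul_sum]
  rw [integral_finsetSum]
  · apply Finset.sum_congr rfl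
    intro k _
    have h3 : ∀ y, kC A (x - y) * (c k * mFourier k y) = c k * (kC A (x - y) * mFourier k y) := by
      intro y; ring
    simp_rw [h3]
    rw [integral_const_mul, kC_mF]
    ring
  · intro k _
    apply int_cont
    exact ((kC_cont A).comp (continuous_const.sub continuous_id)).mul
      (continuous_const.mul (mFourier k).continuous)

theorem sm_sub {d : ℕ} (A : AI d) (f g : T d → ℝ) (hf : Integrable f (vol d))
    (hg : Integrable g (vol d)) (x : T d) :
    A.sm (fc fun x => f x - g x) x = A.sm (fc f) x - A.sm (fc g) x := by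
  obtain ⟨C, hC⟩ := ker_bdd A
  have hi : ∀ h : T d → ℝ, Integrable h (vol d) →
      Integrable (fun y => A.ker (x - y) * h y) (vol d) := fun h hh =>
    hh.bdd_mul (c := C)
      ((ker_cont A).comp (continuous_const.sub continuous_id)).aestronglyMeasurable
      (Eventually.of_forall fun y => hC _)
  rw [sm_conv A (fun x => f x - g x) (hf.sub hg), sm_conv A _ hf, sm_conv A _ hg, ← integral_sub (hi f hf) (hi g hg)]
  congr 1
  funext y
  ring

theorem conv {d : ℕ} (A : ℕ → AI d) (hA : ∀ k, Tendsto (fun n => (A n).a k) atTop (𝓝 1))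
    (p : ℝ≥0∞) (hp : 1 ≤ p) (hp' : p ≠ ∞) (f : T d → ℝ) (hf : MemLp f p (vol d)) :
    Tendsto (fun n => eLpNorm (fun x => (A n).sm (fc f) x - f x) p (vol d)) atTop (𝓝 0) := by
  rw [ENNReal.tendsto_nhds_zero]
  intro ε hε
  obtain ⟨δ, hδ0, hδ⟩ : ∃ δ : ℝ, 0 < δ ∧ ENNReal.ofReal δ + ENNReal.ofReal δ + ENNReal.ofReal δ ≤ ε := by
    rcases eq_or_ne ε ∞ with rfl | h
    · exact ⟨1, one_pos, le_top⟩
    · have h0 : 0 < ε.toReal := ENNReal.toReal_pos hε.ne' h
      refine ⟨ε.toReal / 3, by positivity, ?_⟩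
      rw [← ENNReal.ofReal_add (by positivity) (by positivity),
        ← ENNReal.ofReal_add (by positivity) (by positivity)]
      rw [show ε.toReal / 3 + ε.toReal / 3 + ε.toReal / 3 = ε.toReal by ring,
        ENNReal.ofReal_toReal h]
  obtain ⟨c, hc⟩ := dense_trig p hp hp' f hf δ hδ0
  set g : T d → ℝ := fun x => (c.sum fun k a => a * mFourier k x).re with hg
  have hgc : Continuous g := by
    simp only [hg, Finsupp.sum]
    fun_prop
  have hgm : MemLp g p (vol d) := hgc.memLp_of_hasCompactSupport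
    (HasCompactSupport.of_compactSpace g)
  have hf1 : Integrable f (vol d) := hf.integrable hp
  have hg1 : Integrable g (vol d) := hgm.integrable hp
  -- the middle term
  have hlim : Tendsto (fun n => ∑ k ∈ c.support, ‖c k‖ * |(A n).a k - 1|) atTop (𝓝 0) := by
    have : Tendsto (fun n => ∑ k ∈ c.support, ‖c k‖ * |(A n).a k - 1|) atTop
        (𝓝 (∑ k ∈ c.support, ‖c k‖ * |(1 : ℝ) - 1|)) := by
      apply tendsto_finsetSum
      intro k _
      exact ((((hA k).sub_const 1).abs).const_mul _)
    simpa using this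
  filter_upwards [hlim.eventually_le_const hδ0] with n hn
  have hmid : eLpNorm (fun x => (A n).sm (fc g) x - g x) p (vol d) ≤ ENNReal.ofReal δ := by
    refine (eLpNorm_le_of_ae_bound (C := δ) (Eventually.of_forall fun x => ?_)).trans ?_
    · rw [hg, sm_trig, ← Complex.sub_re, Real.norm_eq_abs]
      refine (Complex.abs_re_le_norm _).trans (le_trans ?_ hn)
      simp only [Finsupp.sum]
      rw [← Finset.sum_sub_distrib]
      refine (norm_sum_le _ _).trans (Finset.sum_le_sum fun k _ => ?_)
      have e1 : ((A n).a k : ℂ) * c k * mFourier k x - c k * mFourier k x =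
          c k * (((A n).a k - 1 : ℝ) : ℂ) * mFourier k x := by push_cast; ring
      rw [e1, norm_mul, norm_mul, mF_norm, mul_one, Complex.norm_real, Real.norm_eq_abs]
    · rw [measure_univ, ENNReal.one_rpow, one_mul]
  have hfirst : eLpNorm (fun x => (A n).sm (fc fun x => f x - g x) x) p (vol d) ≤
      ENNReal.ofReal δ := by
    refine (contract (A n) p hp hp' (fun x => f x - g x) (hf.sub hgm)).trans hc
  have hsplit : (fun x => (A n).sm (fc f) x - f x) =
      (fun x => (A n).sm (fc fun x => f x - g x) x) + ((fun x => (A n).sm (fc g) x - g x) +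
        (fun x => g x - f x)) := by
    funext x
    simp only [Pi.add_apply]
    rw [sm_sub (A n) f g hf1 hg1]
    ring
  have hsmc : ∀ c' : (Fin d → ℤ) → ℂ, Continuous ((A n).sm c') := by
    intro c'
    unfold AI.sm
    fun_prop
  rw [hsplit]
  have h3 : eLpNorm (fun x => g x - f x) p (vol d) ≤ ENNReal.ofReal δ := by
    refine le_trans (le_of_eq ?_) hc
    rw [← eLpNorm_neg]
    congr 1
    funext x
    simp [hg]
  calc _ ≤ eLpNorm (fun x => (A n).sm (fc fun x => f x - g x) x) p (vol d) +
        eLpNorm ((fun x => (A n).sm (fc g) x - g x) + fun x => g x - f x) p (vol d) :=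
        eLpNorm_add_le (hsmc _).aestronglyMeasurable
          (((hsmc _).sub hgc).aestronglyMeasurable.add
            (hgc.aestronglyMeasurable.sub hf.aestronglyMeasurable)) hp
    _ ≤ ENNReal.ofReal δ + (ENNReal.ofReal δ + ENNReal.ofReal δ) := by
        refine add_le_add hfirst ?_
        exact (eLpNorm_add_le ((hsmc _).sub hgc).aestronglyMeasurable
          (hgc.aestronglyMeasurable.sub hf.aestronglyMeasurable) hp).trans (add_le_add hmid h3)
    _ ≤ ε := by rw [← add_assoc]; exact hδ

theorem exps (p : ℝ≥0∞) (h : p = 1 ∨ p = 3 / 2 ∨ p = 2 ∨ p = 3) : 1 ≤ p ∧ p ≠ ∞ := by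
  rcases h with rfl | rfl | rfl | rfl
  · exact ⟨le_rfl, ENNReal.one_ne_top⟩
  · constructor
    · rw [ENNReal.le_div_iff_mul_le (Or.inl (by norm_num)) (Or.inl (by norm_num))]
      norm_num
    · exact ENNReal.div_ne_top (by norm_num) (by norm_num)
  · exact ⟨by norm_num, by norm_num⟩
  · exact ⟨by norm_num, by norm_num⟩

/-- smoothing -/
theorem smo (d : ℕ) (_ : 1 ≤ d) : S_SMO d := by
  refine ⟨fun A f hf x => sm_conv A f hf x, ?_, ?_⟩
  · intro A p hp f hf
    obtain ⟨h1, h2⟩ := exps p hp
    exact contract A p h1 h2 f hf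
  · intro A hA p hp f hf
    obtain ⟨h1, h2⟩ := exps p hp
    exact conv A hA p h1 h2 f hf

end Pool.Agent.R763.PL.SMO
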