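import Pool.Agent.R763.PL.Stm

/-!
# STEP: one Euler step of the smoothed flow
-/

set_option autoImplicit false

open MeasureTheory UnitAddTorus Filter Topology
open scoped ENNReal Real ComplexConjugate

namespace Pool.Agent.R763.PL.STEP

variable {d : ℕ}

theorem cont_w (A : AI d) (η : Measure (T d)) (i : Fin d) : Continuous (wA A η i) := by
  unfold wA AI.sm
  fun_prop

theorem norm_e (k : Fin d → ℤ) (x : T d) : ‖mFourier k x‖ = 1 := by
  simp only [mFourier, fourier_apply, ContinuousMap.coe_mk, norm_prod, Circle.norm_coe,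
      Finset.prod_const_one]

theorem norm_mc (η : Measure (T d)) [IsProbabilityMeasure η] (k : Fin d → ℤ) : ‖mc η k‖ ≤ 1 := by
  unfold mc
  calc ‖∫ x, mFourier (-k) x ∂η‖ ≤ ∫ x, ‖mFourier (-k) x‖ ∂η := norm_integral_le_integral_norm _
    _ = 1 := by simp [norm_e]

/-- bound for the velocity -/
noncomputable def W (A : AI d) (i : Fin d) : ℝ := ∑ k ∈ A.s, ‖(sy i k : ℂ)‖

theorem W_nonneg (A : AI d) (i : Fin d) : 0 ≤ W A i := Finset.sum_nonneg fun _ _ => norm_nonneg _

theorem w_le (A : AI d) (η : Measure (T d)) [IsProbabilityMeasure η] (i : Fin d) (x : T d) :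
    |wA A η i x| ≤ W A i := by
  unfold wA AI.sm W
  refine (Complex.abs_re_le_norm _).trans ?_
  refine (norm_sum_le _ _).trans (Finset.sum_le_sum fun k _ => ?_)
  rw [norm_mul, norm_mul, norm_e, mul_one, norm_mul]
  have h1 : ‖((A.a k : ℝ) : ℂ)‖ ≤ 1 := by
    rw [Complex.norm_real, Real.norm_eq_abs, abs_of_nonneg (A.nonneg k)]
    exact A.le_one k
  have h2 := norm_mc η k
  calc ‖((A.a k : ℝ) : ℂ)‖ * (‖(sy i k : ℂ)‖ * ‖mc η k‖) ≤ 1 * (‖(sy i k : ℂ)‖ * 1) := by
        apply mul_le_mul h1 _ (by positivity) (by norm_num)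
        exact mul_le_mul_of_nonneg_left h2 (norm_nonneg _)
    _ = ‖(sy i k : ℂ)‖ := by ring

/-- the phase -/
noncomputable def th (A : AI d) (η : Measure (T d)) (k : Fin d → ℤ) (x : T d) : ℝ :=
  2 * π * ∑ i, (k i : ℝ) * wA A η i x

noncomputable def B (A : AI d) (k : Fin d → ℤ) : ℝ := 2 * π * ∑ i, |(k i : ℝ)| * W A i

theorem B_nonneg (A : AI d) (k : Fin d → ℤ) : 0 ≤ B A k := by
  unfold B
  have : 0 ≤ ∑ i, |(k i : ℝ)| * W A i :=
    Finset.sum_nonneg fun i _ => mul_nonneg (abs_nonneg _) (W_nonneg A i)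
  positivity

theorem th_le (A : AI d) (η : Measure (T d)) [IsProbabilityMeasure η] (k : Fin d → ℤ) (x : T d) :
    |th A η k x| ≤ B A k := by
  unfold th B
  rw [abs_mul, abs_of_nonneg (by positivity : (0:ℝ) ≤ 2 * π)]
  apply mul_le_mul_of_nonneg_left _ (by positivity)
  refine (Finset.abs_sum_le_sum_abs _ _).trans (Finset.sum_le_sum fun i _ => ?_)
  rw [abs_mul]
  exact mul_le_mul_of_nonneg_left (w_le A η i x) (abs_nonneg _)

theorem cont_th (A : AI d) (η : Measure (T d)) (k : Fin d → ℤ) : Continuous (th A η k) := by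
  unfold th
  have := fun i => cont_w A η i
  fun_prop

theorem cont_TA (A : AI d) (η : Measure (T d)) (τ : ℝ) : Continuous (TA A η τ) := by
  unfold TA
  have := fun i => cont_w A η i
  refine continuous_pi fun i => ?_
  refine (continuous_apply i).sub ?_
  exact (AddCircle.continuous_mk' 1).comp ((this i).const_mul τ |>.congr fun _ => rfl)

theorem e_TA (A : AI d) (η : Measure (T d)) (τ : ℝ) (k : Fin d → ℤ) (x : T d) :
    mFourier (-k) (TA A η τ x) =
      mFourier (-k) x * Complex.exp (Complex.I * ((τ * th A η k x : ℝ) : ℂ)) := by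
  have h1 : ∀ i : Fin d, fourier ((-k) i) (TA A η τ x i) = fourier ((-k) i) (x i) *
      Complex.exp (2 * π * Complex.I * (k i : ℂ) * ((τ * wA A η i x : ℝ) : ℂ)) := by
    intro i
    have : TA A η τ x i = x i + (((-(τ * wA A η i x)) : ℝ) : UnitAddCircle) := by
      simp only [TA]
      rw [sub_eq_add_neg]
      congr 1
    rw [this]
    have h2 := fourier_coe_apply (T := (1:ℝ)) (n := (-k) i) (x := (-(τ * wA A η i x) : ℝ))
    have h3 : (fourier ((-k) i)) (x i + (((-(τ * wA A η i x)) : ℝ) : UnitAddCircle)) =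
        fourier ((-k) i) (x i) * fourier ((-k) i) (((-(τ * wA A η i x)) : ℝ) : UnitAddCircle) := by
      simp only [fourier_apply, smul_add, AddCircle.toCircle_add, Circle.coe_mul]
    rw [h3]
    congr 1
    refine h2.trans ?_
    congr 1
    push_cast
    simp only [Pi.neg_apply, Int.cast_neg]
    ring
  have h4 : mFourier (-k) (TA A η τ x) = ∏ i, fourier ((-k) i) (TA A η τ x i) := rfl
  have h5 : mFourier (-k) x = ∏ i, fourier ((-k) i) (x i) := rfl
  rw [h4, h5, Finset.prod_congr rfl fun i _ => h1 i, Finset.prod_mul_distrib, ← Complex.exp_sum]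
  congr 2
  unfold th
  push_cast
  rw [Finset.mul_sum, Finset.mul_sum, Finset.mul_sum]
  refine Finset.sum_congr rfl fun i _ => ?_
  ring

theorem exp_bd (s : ℝ) :
    ‖Complex.exp (Complex.I * (s : ℂ)) - 1 - Complex.I * (s : ℂ)‖ ≤ 3 * s ^ 2 := by
  have hn : ‖Complex.I * (s : ℂ)‖ = |s| := by simp
  rcases le_or_gt |s| 1 with h | h
  · have := Complex.norm_exp_sub_one_sub_id_le (x := Complex.I * (s : ℂ)) (by rw [hn]; exact h)
    rw [hn, sq_abs] at this
    nlinarith [sq_nonneg s]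
  · have h1 : ‖Complex.exp (Complex.I * (s : ℂ))‖ = 1 := by
      rw [mul_comm]; exact Complex.norm_exp_ofReal_mul_I s
    have h2 : ‖Complex.exp (Complex.I * (s : ℂ)) - 1 - Complex.I * (s : ℂ)‖ ≤ 1 + 1 + |s| := by
      refine (norm_sub_le _ _).trans ?_
      rw [hn]
      refine add_le_add ((norm_sub_le _ _).trans ?_) le_rfl
      rw [h1, norm_one]
    have h3 : |s| ^ 2 = s ^ 2 := sq_abs s
    nlinarith

/-- linear term -/
noncomputable def mm (A : AI d) (η : Measure (T d)) (k : Fin d → ℤ) : ℂ :=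
  ∫ x, mFourier (-k) x * (th A η k x : ℂ) ∂η

theorem bdint {η : Measure (T d)} [IsProbabilityMeasure η] {f : T d → ℂ} (hf : Continuous f) :
    Integrable f η := by
  obtain ⟨C, hC⟩ := (isCompact_univ (X := T d)).exists_bound_of_continuousOn hf.continuousOn
  exact Integrable.of_bound hf.aestronglyMeasurable C (Eventually.of_forall fun x => hC x trivial)

theorem norm_int_le {η : Measure (T d)} [IsProbabilityMeasure η] {f : T d → ℂ} {C : ℝ}
    (h : ∀ x, ‖f x‖ ≤ C) : ‖∫ x, f x ∂η‖ ≤ C := by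
  have := norm_integral_le_of_norm_le_const (μ := η) (f := f) (C := C) (Eventually.of_forall h)
  simpa using this

theorem mm_le (A : AI d) (η : Measure (T d)) [IsProbabilityMeasure η] (k : Fin d → ℤ) :
    ‖mm A η k‖ ≤ B A k := by
  refine norm_int_le fun x => ?_
  rw [norm_mul, norm_e, one_mul, Complex.norm_real]
  exact th_le A η k x

theorem mc_map (A : AI d) (η : Measure (T d)) [IsProbabilityMeasure η] (τ : ℝ) (k : Fin d → ℤ) :
    ∃ R : ℂ, mc (η.map (TA A η τ)) k = mc η k + Complex.I * (τ : ℂ) * mm A η k + R ∧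
      ‖R‖ ≤ 3 * B A k ^ 2 * τ ^ 2 := by
  refine ⟨∫ x, mFourier (-k) x * (Complex.exp (Complex.I * ((τ * th A η k x : ℝ) : ℂ)) - 1 -
      Complex.I * ((τ * th A η k x : ℝ) : ℂ)) ∂η, ?_, ?_⟩
  · have hc := cont_th A η k
    have h0 : mc (η.map (TA A η τ)) k = ∫ x, mFourier (-k) (TA A η τ x) ∂η := by
      unfold mc
      exact integral_map (cont_TA A η τ).measurable.aemeasurable
        (mFourier (-k)).continuous.aestronglyMeasurable
    rw [h0]
    unfold mc mm
    rw [← integral_const_mul, ← integral_add, ← integral_add]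
    · refine integral_congr_ae (Eventually.of_forall fun x => ?_)
      simp only []
      rw [e_TA]
      push_cast
      ring
    · exact bdint (by fun_prop)
    · exact bdint (by fun_prop)
    · exact bdint (by fun_prop)
    · exact bdint (by fun_prop)
  · refine norm_int_le fun x => ?_
    rw [norm_mul, norm_e, one_mul]
    refine (exp_bd _).trans ?_
    have h1 := th_le A η k x
    have h2 : (th A η k x) ^ 2 ≤ B A k ^ 2 := by
      rw [← sq_abs (th A η k x)]
      exact pow_le_pow_left₀ (abs_nonneg _) h1 2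
    rw [mul_pow]
    nlinarith [sq_nonneg τ, mul_le_mul_of_nonneg_left h2 (sq_nonneg τ)]

/-- the constant for one frequency -/
noncomputable def Ck (A : AI d) (k : Fin d → ℤ) : ℝ :=
  B A k ^ 2 + 2 * (1 + B A k) * (3 * B A k ^ 2) + (3 * B A k ^ 2) ^ 2

theorem Ck_nonneg (A : AI d) (k : Fin d → ℤ) : 0 ≤ Ck A k := by
  have := B_nonneg A k
  unfold Ck
  positivity

theorem sq_bd (A : AI d) (η : Measure (T d)) [IsProbabilityMeasure η] (τ : ℝ) (h0 : 0 ≤ τ)
    (h1 : τ ≤ 1) (k : Fin d → ℤ) :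
    ‖mc (η.map (TA A η τ)) k‖ ^ 2 ≤ ‖mc η k‖ ^ 2 +
      2 * τ * (conj (mc η k) * (Complex.I * mm A η k)).re + Ck A k * τ ^ 2 := by
  obtain ⟨R, hR, hRn⟩ := mc_map A η τ k
  rw [hR]
  set c := mc η k
  set m := mm A η k
  have hc : ‖c‖ ≤ 1 := norm_mc η k
  have hm : ‖m‖ ≤ B A k := mm_le A η k
  have hB := B_nonneg A k
  have hu : ‖c + Complex.I * (τ : ℂ) * m‖ ^ 2 = ‖c‖ ^ 2 +
      2 * τ * (conj c * (Complex.I * m)).re + τ ^ 2 * ‖m‖ ^ 2 := by
    rw [Complex.sq_norm, Complex.sq_norm, Complex.sq_norm, Complex.normSq_apply,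
      Complex.normSq_apply, Complex.normSq_apply]
    simp
    ring
  have hul : ‖c + Complex.I * (τ : ℂ) * m‖ ≤ 1 + B A k := by
    refine (norm_add_le _ _).trans (add_le_add hc ?_)
    rw [norm_mul, norm_mul, Complex.norm_I, one_mul, Complex.norm_real, Real.norm_eq_abs,
      abs_of_nonneg h0]
    calc τ * ‖m‖ ≤ 1 * B A k := mul_le_mul h1 hm (norm_nonneg _) (by norm_num)
      _ = B A k := one_mul _
  have htr : ‖c + Complex.I * (τ : ℂ) * m + R‖ ^ 2 ≤
      (‖c + Complex.I * (τ : ℂ) * m‖ + ‖R‖) ^ 2 :=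
    pow_le_pow_left₀ (norm_nonneg _) (norm_add_le _ _) 2
  have hR2 : ‖R‖ ^ 2 ≤ (3 * B A k ^ 2) ^ 2 * τ ^ 2 := by
    have : ‖R‖ ^ 2 ≤ (3 * B A k ^ 2 * τ ^ 2) ^ 2 := pow_le_pow_left₀ (norm_nonneg _) hRn 2
    refine this.trans ?_
    rw [mul_pow]
    apply mul_le_mul_of_nonneg_left _ (by positivity)
    have h2 : τ ^ 2 ≤ 1 := pow_le_one₀ h0 h1
    nlinarith [sq_nonneg τ]
  have hm2 : τ ^ 2 * ‖m‖ ^ 2 ≤ τ ^ 2 * B A k ^ 2 :=
    mul_le_mul_of_nonneg_left (pow_le_pow_left₀ (norm_nonneg _) hm 2) (sq_nonneg _)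
  have hcr : ‖c + Complex.I * (τ : ℂ) * m‖ * ‖R‖ ≤ (1 + B A k) * (3 * B A k ^ 2 * τ ^ 2) :=
    mul_le_mul hul hRn (norm_nonneg _) (by positivity)
  unfold Ck
  nlinarith

theorem w_sq (A : AI d) (η : Measure (T d)) (x : T d) :
    ∑ i, wA A η i x ^ 2 = - (∑ k ∈ A.s, ((A.a k * gh k : ℝ) : ℂ) * (conj (mc η k) *
      (Complex.I * (mFourier (-k) x * (th A η k x : ℂ))))).re := by
  have h1 : ∀ i : Fin d, wA A η i x = - ∑ k ∈ A.s, A.a k * gh k * (2 * π * (k i : ℝ)) *
      (Complex.I * (conj (mc η k) * mFourier (-k) x)).re := by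
    intro i
    unfold wA AI.sm
    rw [Complex.re_sum, ← Finset.sum_neg_distrib]
    refine Finset.sum_congr rfl fun k _ => ?_
    rw [mFourier_neg]
    simp only [sy]
    have : (↑(A.a k) * (2 * ↑π * Complex.I * ↑(k i) * ((gh k : ℝ) : ℂ) * mc η k) * mFourier k x : ℂ) =
        ((A.a k * gh k * (2 * π * (k i : ℝ)) : ℝ) : ℂ) * (Complex.I * (mc η k * mFourier k x)) := by
      push_cast
      ring
    rw [this, Complex.re_ofReal_mul]
    simp
    ring
  rw [Complex.re_sum, ← Finset.sum_neg_distrib]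
  have h2 : ∀ k ∈ A.s, -(((A.a k * gh k : ℝ) : ℂ) * (conj (mc η k) *
      (Complex.I * (mFourier (-k) x * (th A η k x : ℂ))))).re =
      ∑ i, wA A η i x * (-(A.a k * gh k * (2 * π * (k i : ℝ)) *
      (Complex.I * (conj (mc η k) * mFourier (-k) x)).re)) := by
    intro k _
    have : ((A.a k * gh k : ℝ) : ℂ) * (conj (mc η k) *
      (Complex.I * (mFourier (-k) x * (th A η k x : ℂ)))) = ((A.a k * gh k * th A η k x : ℝ) : ℂ) *
        (Complex.I * (conj (mc η k) * mFourier (-k) x)) := by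
      push_cast
      ring
    rw [this, Complex.re_ofReal_mul]
    unfold th
    rw [show A.a k * gh k * (2 * π * ∑ i, (k i : ℝ) * wA A η i x) *
      (Complex.I * (conj (mc η k) * mFourier (-k) x)).re = (∑ i, (k i : ℝ) * wA A η i x) *
        (A.a k * gh k * (2 * π) * (Complex.I * (conj (mc η k) * mFourier (-k) x)).re) by ring,
      Finset.sum_mul, ← Finset.sum_neg_distrib]
    refine Finset.sum_congr rfl fun i _ => ?_
    ring
  rw [Finset.sum_congr rfl h2, Finset.sum_comm]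
  refine Finset.sum_congr rfl fun i _ => ?_
  rw [← Finset.mul_sum, Finset.sum_neg_distrib, ← h1 i, sq]

theorem DA_eq (A : AI d) (η : Measure (T d)) [IsProbabilityMeasure η] :
    ∑ k ∈ A.s, A.a k * gh k * (conj (mc η k) * (Complex.I * mm A η k)).re = - DA A η := by
  have hint : ∀ k, Integrable (fun x => ((A.a k * gh k : ℝ) : ℂ) * (conj (mc η k) *
      (Complex.I * (mFourier (-k) x * (th A η k x : ℂ))))) η := by
    intro k
    have hc := cont_th A η k
    exact bdint (by fun_prop)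
  have h1 : DA A η = - (∫ x, ∑ k ∈ A.s, ((A.a k * gh k : ℝ) : ℂ) * (conj (mc η k) *
      (Complex.I * (mFourier (-k) x * (th A η k x : ℂ)))) ∂η).re := by
    unfold DA
    have h2 := integral_re (μ := η) (𝕜 := ℂ) (f := fun x => ∑ k ∈ A.s, ((A.a k * gh k : ℝ) : ℂ) *
      (conj (mc η k) * (Complex.I * (mFourier (-k) x * (th A η k x : ℂ)))))
      (integrable_finset_sum _ fun k _ => hint k)
    have h3 : (∫ x, ∑ k ∈ A.s, ((A.a k * gh k : ℝ) : ℂ) * (conj (mc η k) *
      (Complex.I * (mFourier (-k) x * (th A η k x : ℂ)))) ∂η).re = ∫ x, (∑ k ∈ A.s,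
      ((A.a k * gh k : ℝ) : ℂ) * (conj (mc η k) * (Complex.I * (mFourier (-k) x *
      (th A η k x : ℂ))))).re ∂η := h2.symm
    rw [h3, ← integral_neg]
    exact integral_congr_ae (Eventually.of_forall fun x => w_sq A η x)
  rw [h1, neg_neg, integral_finset_sum _ fun k _ => hint k, Complex.re_sum]
  refine Finset.sum_congr rfl fun k _ => ?_
  rw [integral_const_mul, integral_const_mul, integral_const_mul, Complex.re_ofReal_mul]
  rfl

theorem gh_nonneg (k : Fin d → ℤ) : 0 ≤ (gh k : ℝ) := by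
  unfold gh
  have : 0 ≤ ∑ i, (k i : ℝ) ^ 2 := Finset.sum_nonneg fun i _ => sq_nonneg _
  positivity

theorem step (d : ℕ) : S_STEP d := by
  intro A
  refine ⟨(1 / 2) * ∑ k ∈ A.s, A.a k * gh k * Ck A k, ?_, ?_⟩
  · refine mul_nonneg (by norm_num) (Finset.sum_nonneg fun k _ => ?_)
    exact mul_nonneg (mul_nonneg (A.nonneg k) (gh_nonneg k)) (Ck_nonneg A k)
  · intro η hη τ h0 h1
    have h2 : EA A (η.map (TA A η τ)) ≤ (1 / 2) * ∑ k ∈ A.s, A.a k * gh k * (‖mc η k‖ ^ 2 +
      2 * τ * (conj (mc η k) * (Complex.I * mm A η k)).re + Ck A k * τ ^ 2) := by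
      unfold EA
      refine mul_le_mul_of_nonneg_left (Finset.sum_le_sum fun k _ => ?_) (by norm_num)
      exact mul_le_mul_of_nonneg_left (sq_bd A η τ h0 h1 k) (mul_nonneg (A.nonneg k) (gh_nonneg k))
    have h3 : (1 / 2) * ∑ k ∈ A.s, A.a k * gh k * (‖mc η k‖ ^ 2 +
      2 * τ * (conj (mc η k) * (Complex.I * mm A η k)).re + Ck A k * τ ^ 2) = EA A η +
      τ * ∑ k ∈ A.s, A.a k * gh k * (conj (mc η k) * (Complex.I * mm A η k)).re +
      ((1 / 2) * ∑ k ∈ A.s, A.a k * gh k * Ck A k) * τ ^ 2 := by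
      unfold EA
      simp only [mul_add, Finset.sum_add_distrib, Finset.mul_sum, Finset.sum_mul]
      congr 1
      · congr 1
        refine Finset.sum_congr rfl fun k _ => ?_
        ring
      · refine Finset.sum_congr rfl fun k _ => ?_
        ring
    rw [h3, DA_eq] at h2
    linarith

end Pool.Agent.R763.PL.STEP
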