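import Pool.Agent.R763.PL.Stm

/-!
# MP_91511c_an, piece TES: testing the Bochner inequality with `(L - l)₊`
-/

set_option autoImplicit false

open MeasureTheory UnitAddTorus Filter Topology
open scoped ENNReal Real ContDiff

namespace Pool.Agent.R763.PL.Tes

variable {d : ℕ}

instance : IsProbabilityMeasure (vol d) := by unfold vol; infer_instance

instance : (vol d).IsAddLeftInvariant := by unfold vol; infer_instance

instance : (vol d).IsAddRightInvariant := by unfold vol; infer_instance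

theorem mF_add (k : Fin d → ℤ) (x z : T d) : mFourier k (x + z) = mFourier k x * mFourier k z := by
  show (∏ i, fourier (k i) ((x + z) i)) = (∏ i, fourier (k i) (x i)) * ∏ i, fourier (k i) (z i)
  rw [← Finset.prod_mul_distrib]
  refine Finset.prod_congr rfl fun i _ => ?_
  rw [Pi.add_apply, fourier_apply, fourier_apply, fourier_apply, smul_add,
    AddCircle.toCircle_add, Circle.coe_mul]

theorem mF_norm (k : Fin d → ℤ) (x : T d) : ‖mFourier k x‖ = 1 := by
  show ‖∏ i, fourier (k i) (x i)‖ = 1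
  rw [norm_prod]
  refine Finset.prod_eq_one fun i _ => ?_
  rw [fourier_apply]
  exact Circle.norm_coe _

theorem mF_zero_arg (k : Fin d → ℤ) : mFourier k (0 : T d) = 1 := by
  show (∏ i, fourier (k i) ((0 : T d) i)) = 1
  refine Finset.prod_eq_one fun i _ => ?_
  rw [Pi.zero_apply, fourier_eval_zero]

theorem mF_neg_arg (k : Fin d → ℤ) (x : T d) :
    mFourier k (-x) = starRingEnd ℂ (mFourier k x) := by
  have h1 : mFourier k x * mFourier k (-x) = 1 := by
    rw [← mF_add, add_neg_cancel, mF_zero_arg]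
  have h2 : mFourier k x * starRingEnd ℂ (mFourier k x) = 1 := by
    rw [Complex.mul_conj, Complex.normSq_eq_norm_sq, mF_norm]
    norm_num
  have h3 : mFourier k x ≠ 0 := by
    intro h
    rw [h, zero_mul] at h1
    exact zero_ne_one h1
  exact mul_left_cancel₀ h3 (h1.trans h2.symm)

theorem cont_int {E : Type*} [NormedAddCommGroup E] {f : T d → E} (hf : Continuous f) :
    Integrable f (vol d) :=
  hf.integrable_of_hasCompactSupport (HasCompactSupport.of_compactSpace f)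

theorem mF_mul_int (k : Fin d → ℤ) {u : T d → ℝ} (hu : Integrable u (vol d)) :
    Integrable (fun x => mFourier k x * (u x : ℂ)) (vol d) := by
  refine (hu.ofReal (𝕜 := ℂ)).bdd_mul (c := 1) ((mFourier k).continuous.aestronglyMeasurable) ?_
  exact Filter.Eventually.of_forall fun x => (mF_norm k x).le

theorem fc_neg (u : T d → ℝ) (k : Fin d → ℤ) : fc u (-k) = starRingEnd ℂ (fc u k) := by
  unfold fc
  rw [← integral_conj]
  refine integral_congr_ae (Filter.Eventually.of_forall fun x => ?_)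
  simp only [map_mul, Complex.conj_ofReal, neg_neg]
  rw [mFourier_neg, Complex.conj_conj]

theorem fc_shift (u : T d → ℝ) (z : T d) (k : Fin d → ℤ) :
    fc (fun x => u (x + z)) k = mFourier k z * fc u k := by
  unfold fc
  have h1 := integral_add_right_eq_self (μ := vol d)
    (fun x : T d => mFourier (-k) (x - z) * (u x : ℂ)) z
  simp only [add_sub_cancel_right] at h1
  rw [h1, ← integral_const_mul]
  refine integral_congr_ae (Filter.Eventually.of_forall fun x => ?_)
  simp only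
  rw [sub_eq_add_neg, mF_add, mF_neg_arg, mFourier_neg (x := z), Complex.conj_conj]
  ring

theorem fc_sub (u w : T d → ℝ) (hu : Integrable u (vol d)) (hw : Integrable w (vol d))
    (k : Fin d → ℤ) : fc (fun x => u x - w x) k = fc u k - fc w k := by
  unfold fc
  rw [← integral_sub (mF_mul_int _ hu) (mF_mul_int _ hw)]
  refine integral_congr_ae (Filter.Eventually.of_forall fun x => ?_)
  simp only [Complex.ofReal_sub]
  ring

theorem bessel (f : T d → ℝ) (hf : MemLp f 2 (vol d)) (S : Finset (Fin d → ℤ)) :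
    ∑ k ∈ S, ‖fc f k‖ ^ 2 ≤ ∫ x, f x ^ 2 ∂vol d := by
  have hF : MemLp (fun x => (f x : ℂ)) 2 (vol d) := hf.ofReal
  have H := UnitAddTorus.hasSum_sq_mFourierCoeff (d := Fin d) (hF.toLp (fun x => (f x : ℂ)))
  have h1 : ∀ k, mFourierCoeff (hF.toLp (fun x => (f x : ℂ))) k = fc f k := by
    intro k
    refine integral_congr_ae ?_
    filter_upwards [hF.coeFn_toLp] with x hx
    rw [hx, smul_eq_mul]
  have h2 : (∫ x, ‖(hF.toLp (fun x => (f x : ℂ))) x‖ ^ 2 ∂vol d) = ∫ x, f x ^ 2 ∂vol d := by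
    refine integral_congr_ae ?_
    filter_upwards [hF.coeFn_toLp] with x hx
    rw [hx, Complex.norm_real, Real.norm_eq_abs, sq_abs]
  calc ∑ k ∈ S, ‖fc f k‖ ^ 2
      = ∑ k ∈ S, ‖mFourierCoeff (hF.toLp (fun x => (f x : ℂ))) k‖ ^ 2 :=
        Finset.sum_congr rfl fun k _ => by rw [h1]
    _ ≤ _ := sum_le_hasSum S (fun k _ => by positivity) H
    _ = _ := h2

theorem pair (u : T d → ℝ) (hu : Integrable u (vol d)) (s : Finset (Fin d → ℤ))
    (w : (Fin d → ℤ) → ℂ) :
    ∫ x, u x * (∑ k ∈ s, w k * mFourier k x).re ∂vol d = ∑ k ∈ s, (w k * fc u (-k)).re := by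
  have h1 : ∀ k, Integrable (fun x => w k * (mFourier k x * (u x : ℂ))) (vol d) := fun k =>
    (mF_mul_int k hu).const_mul _
  have h2 : ∀ x, u x * (∑ k ∈ s, w k * mFourier k x).re =
      RCLike.re (∑ k ∈ s, w k * (mFourier k x * (u x : ℂ))) := by
    intro x
    have : ∑ k ∈ s, w k * (mFourier k x * (u x : ℂ)) = (u x : ℂ) * ∑ k ∈ s, w k * mFourier k x := by
      rw [Finset.mul_sum]
      refine Finset.sum_congr rfl fun k _ => ?_
      ring
    rw [this]
    simp
  simp only [h2]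
  rw [integral_re (integrable_finsetSum _ fun k _ => h1 k), integral_finsetSum _ fun k _ => h1 k]
  have h3 : ∀ k, (∫ x, w k * (mFourier k x * (u x : ℂ)) ∂vol d) = w k * fc u (-k) := by
    intro k
    rw [integral_const_mul]
    unfold fc
    rw [neg_neg]
  simp only [h3]
  simp

/-- the truncation -/
noncomputable def th (R s : ℝ) : ℝ := min (max s 0) R

theorem th_cont (R : ℝ) : Continuous (th R) := by
  unfold th
  fun_prop

theorem th_nonneg {R : ℝ} (hR : 0 ≤ R) (s : ℝ) : 0 ≤ th R s := le_min (le_max_right _ _) hR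

theorem th_le {R : ℝ} (s : ℝ) : th R s ≤ R := min_le_right _ _

theorem th_sq (R a b : ℝ) : (th R a - th R b) ^ 2 ≤ (a - b) * (th R a - th R b) := by
  have h1 : ∀ a b : ℝ, a ≤ b → 0 ≤ th R b - th R a ∧ th R b - th R a ≤ b - a := by
    intro a b hab
    unfold th
    constructor
    · have := min_le_min_right R (max_le_max_right 0 hab)
      linarith
    · rcases le_total a 0 with ha | ha <;> rcases le_total b 0 with hb | hb <;>
        simp only [max_eq_left, max_eq_right, ha, hb] <;>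
        rcases le_total a R with h1 | h1 <;> rcases le_total b R with h2 | h2 <;>
        rcases le_total 0 R with h3 | h3 <;>
        simp only [min_eq_left, min_eq_right, h1, h2, h3] <;> linarith
  rcases le_total a b with hab | hab
  · obtain ⟨h2, h3⟩ := h1 a b hab
    nlinarith
  · obtain ⟨h2, h3⟩ := h1 b a hab
    nlinarith

/-- real part of a trigonometric polynomial -/
noncomputable def tp (s : Finset (Fin d → ℤ)) (c : (Fin d → ℤ) → ℂ) (x : T d) : ℝ :=
  (∑ k ∈ s, c k * mFourier k x).re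

theorem tp_cont (s : Finset (Fin d → ℤ)) (c : (Fin d → ℤ) → ℂ) : Continuous (tp s c) := by
  unfold tp
  exact Complex.continuous_re.comp
    (continuous_finsetSum _ fun k _ => continuous_const.mul (mFourier k).continuous)

theorem tp_second (s : Finset (Fin d → ℤ)) (c : (Fin d → ℤ) → ℂ) (x z : T d) :
    tp s c (x + z) + tp s c (x - z) - 2 * tp s c x =
      -tp s (fun k => ((‖mFourier k z - 1‖ ^ 2 : ℝ) : ℂ) * c k) x := by
  unfold tp
  have h2 : (2 : ℝ) * (∑ k ∈ s, c k * mFourier k x).re =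
      ((2 : ℂ) * ∑ k ∈ s, c k * mFourier k x).re := by
    rw [Complex.mul_re]
    simp
  rw [h2, ← Complex.add_re, ← Complex.sub_re, ← Complex.neg_re]
  congr 1
  rw [Finset.mul_sum, ← Finset.sum_add_distrib, ← Finset.sum_sub_distrib, ← Finset.sum_neg_distrib]
  refine Finset.sum_congr rfl fun k _ => ?_
  rw [sub_eq_add_neg x z, mF_add, mF_add, mF_neg_arg]
  have h3 : ((‖mFourier k z - 1‖ ^ 2 : ℝ) : ℂ) =
      (mFourier k z - 1) * (starRingEnd ℂ (mFourier k z) - 1) := by
    rw [← Complex.normSq_eq_norm_sq, ← Complex.mul_conj, map_sub, map_one]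
  have h4 : mFourier k z * starRingEnd ℂ (mFourier k z) = 1 := by
    rw [Complex.mul_conj, Complex.normSq_eq_norm_sq, mF_norm]
    norm_num
  beta_reduce
  rw [h3]
  linear_combination (c k * mFourier k x) * h4

theorem int4 {a b c e : T d → ℝ} (ha : Integrable a (vol d)) (hb : Integrable b (vol d))
    (hc : Integrable c (vol d)) (he : Integrable e (vol d)) :
    ∫ x, (a x - b x - c x + e x) ∂vol d =
      (∫ x, a x ∂vol d) - (∫ x, b x ∂vol d) - (∫ x, c x ∂vol d) + ∫ x, e x ∂vol d := by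
  rw [integral_add (f := fun x => a x - b x - c x) ((ha.sub hb).sub hc) he,
    integral_sub (f := fun x => a x - b x) (ha.sub hb) hc, integral_sub ha hb]

theorem key1 (s S : Finset (Fin d → ℤ)) (c : (Fin d → ℤ) → ℂ) (l R : ℝ) (z : T d) :
    ∑ k ∈ S, ‖mFourier k z - 1‖ ^ 2 * ‖fc (fun x => th R (tp s c x - l)) k‖ ^ 2 ≤
      ∑ k ∈ s, ‖mFourier k z - 1‖ ^ 2 *
        (c k * fc (fun x => th R (tp s c x - l)) (-k)).re := by
  set u : T d → ℝ := fun x => th R (tp s c x - l) with hu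
  have huc : Continuous u := (th_cont R).comp ((tp_cont s c).sub continuous_const)
  have hWc : Continuous (tp s c) := tp_cont s c
  have hui : Integrable u (vol d) := cont_int huc
  have hsc : Continuous fun x : T d => x + z := continuous_id.add continuous_const
  have husc : Continuous (fun x => u (x + z)) := huc.comp hsc
  have h1 : ∑ k ∈ S, ‖mFourier k z - 1‖ ^ 2 * ‖fc u k‖ ^ 2 ≤
      ∫ x, (u (x + z) - u x) ^ 2 ∂vol d := by
    have hc : Continuous (fun x => u (x + z) - u x) := husc.sub huc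
    have hm : MemLp (fun x => u (x + z) - u x) 2 (vol d) :=
      (hc.memLp_of_hasCompactSupport (HasCompactSupport.of_compactSpace _))
    refine le_trans (le_of_eq (Finset.sum_congr rfl fun k _ => ?_)) (bessel _ hm S)
    rw [fc_sub _ _ (cont_int husc) hui, fc_shift]
    rw [← mul_pow, ← norm_mul]
    congr 2
    ring
  have h2 : ∫ x, (u (x + z) - u x) ^ 2 ∂vol d ≤
      ∫ x, (tp s c (x + z) - tp s c x) * (u (x + z) - u x) ∂vol d := by
    refine integral_mono (cont_int (by fun_prop)) (cont_int ?_) ?_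
    · exact ((hWc.comp hsc).sub hWc).mul (husc.sub huc)
    · intro x
      have := th_sq R (tp s c (x + z) - l) (tp s c x - l)
      simp only [hu]
      linarith
  have h3 : ∫ x, (tp s c (x + z) - tp s c x) * (u (x + z) - u x) ∂vol d =
      ∫ x, u x * tp s (fun k => ((‖mFourier k z - 1‖ ^ 2 : ℝ) : ℂ) * c k) x ∂vol d := by
    have hmc : Continuous fun x : T d => x - z := continuous_id.sub continuous_const
    have i1 : Integrable (fun x => tp s c (x + z) * u (x + z)) (vol d) :=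
      cont_int ((hWc.comp hsc).mul husc)
    have i2 : Integrable (fun x => tp s c (x + z) * u x) (vol d) :=
      cont_int ((hWc.comp hsc).mul huc)
    have i3 : Integrable (fun x => tp s c x * u (x + z)) (vol d) := cont_int (hWc.mul husc)
    have i4 : Integrable (fun x => tp s c x * u x) (vol d) := cont_int (hWc.mul huc)
    have i5 : Integrable (fun x => tp s c (x - z) * u x) (vol d) :=
      cont_int ((hWc.comp hmc).mul huc)
    have e1 : ∫ x, tp s c (x + z) * u (x + z) ∂vol d = ∫ x, tp s c x * u x ∂vol d :=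
      integral_add_right_eq_self (μ := vol d) (fun x => tp s c x * u x) z
    have e2 : ∫ x, tp s c x * u (x + z) ∂vol d = ∫ x, tp s c (x - z) * u x ∂vol d := by
      rw [← integral_add_right_eq_self (μ := vol d) (fun x => tp s c (x - z) * u x) z]
      simp only [add_sub_cancel_right]
    have e3 : ∀ x, (tp s c (x + z) - tp s c x) * (u (x + z) - u x) =
        tp s c (x + z) * u (x + z) - tp s c (x + z) * u x - tp s c x * u (x + z) +
          tp s c x * u x := fun x => by ring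
    simp only [e3]
    rw [int4 i1 i2 i3 i4, e1, e2]
    have e4 : ∀ x, u x * tp s (fun k => ((‖mFourier k z - 1‖ ^ 2 : ℝ) : ℂ) * c k) x =
        tp s c x * u x - tp s c (x + z) * u x - tp s c (x - z) * u x + tp s c x * u x := by
      intro x
      have := tp_second s c x z
      linear_combination (u x) * this
    simp only [e4]
    rw [int4 i4 i2 i5 i4]
  have h4 := pair u hui s (fun k => ((‖mFourier k z - 1‖ ^ 2 : ℝ) : ℂ) * c k)
  refine (h1.trans h2).trans (le_of_eq (h3.trans ?_))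
  refine h4.trans (Finset.sum_congr rfl fun k _ => ?_)
  rw [mul_assoc, Complex.re_ofReal_mul]

theorem om (k : Fin d → ℤ) (i : Fin d) (t : ℝ) :
    mFourier k (Pi.single i (t : UnitAddCircle) : T d) =
      Complex.exp (2 * π * Complex.I * (k i : ℂ) * t) := by
  show (∏ j, fourier (k j) ((Pi.single i (t : UnitAddCircle) : T d) j)) = _
  rw [Finset.prod_eq_single i]
  · rw [Pi.single_eq_same, fourier_coe_apply]
    simp
  · intro j _ hj
    rw [Pi.single_eq_of_ne hj, fourier_eval_zero]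
  · intro h
    exact absurd (Finset.mem_univ i) h

theorem om_lim (k : Fin d → ℤ) (i : Fin d) :
    Tendsto (fun t : ℝ => ‖mFourier k (Pi.single i (t : UnitAddCircle) : T d) - 1‖ ^ 2 / t ^ 2)
      (𝓝[≠] 0) (𝓝 (4 * π ^ 2 * (k i : ℝ) ^ 2)) := by
  have h1 : HasDerivAt (fun t : ℝ => Complex.exp (2 * π * Complex.I * (k i : ℂ) * t))
      (2 * π * Complex.I * (k i : ℂ)) 0 := by
    have h2 : HasDerivAt (fun t : ℝ => 2 * π * Complex.I * (k i : ℂ) * (t : ℂ))
        (2 * π * Complex.I * (k i : ℂ) * 1) 0 := by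
      exact (HasDerivAt.ofReal_comp (hasDerivAt_id (0 : ℝ))).const_mul _
    have h3 := h2.cexp
    simpa using h3
  rw [hasDerivAt_iff_tendsto_slope_zero] at h1
  have h4 := (h1.norm).pow 2
  have h5 : ‖2 * (π : ℂ) * Complex.I * (k i : ℂ)‖ ^ 2 = 4 * π ^ 2 * (k i : ℝ) ^ 2 := by
    rw [norm_mul, norm_mul, norm_mul, Complex.norm_I, Complex.norm_real, Complex.norm_intCast]
    have : ‖(2 : ℂ)‖ = 2 := by simp
    rw [this, mul_one, mul_pow, mul_pow, Real.norm_eq_abs, sq_abs, sq_abs]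
    ring
  rw [h5] at h4
  refine h4.congr fun t => ?_
  rw [zero_add, om]
  simp only [Complex.ofReal_zero, mul_zero, Complex.exp_zero]
  rw [norm_smul, mul_pow, norm_inv, inv_pow, Real.norm_eq_abs, sq_abs, div_eq_inv_mul]

theorem key2 (s S : Finset (Fin d → ℤ)) (c : (Fin d → ℤ) → ℂ) (l R : ℝ) :
    ∑ k ∈ S, (4 * π ^ 2 * ∑ i, (k i : ℝ) ^ 2) * ‖fc (fun x => th R (tp s c x - l)) k‖ ^ 2 ≤
      ∑ k ∈ s, (4 * π ^ 2 * ∑ i, (k i : ℝ) ^ 2) *
        (c k * fc (fun x => th R (tp s c x - l)) (-k)).re := by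
  set u : T d → ℝ := fun x => th R (tp s c x - l) with hu
  have h1 : ∀ i : Fin d, ∑ k ∈ S, (4 * π ^ 2 * (k i : ℝ) ^ 2) * ‖fc u k‖ ^ 2 ≤
      ∑ k ∈ s, (4 * π ^ 2 * (k i : ℝ) ^ 2) * (c k * fc u (-k)).re := by
    intro i
    have t1 : Tendsto (fun t : ℝ => ∑ k ∈ S,
        (‖mFourier k (Pi.single i (t : UnitAddCircle) : T d) - 1‖ ^ 2 / t ^ 2) * ‖fc u k‖ ^ 2)
        (𝓝[≠] 0) (𝓝 (∑ k ∈ S, (4 * π ^ 2 * (k i : ℝ) ^ 2) * ‖fc u k‖ ^ 2)) :=
      tendsto_finsetSum _ fun k _ => (om_lim k i).mul_const _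
    have t2 : Tendsto (fun t : ℝ => ∑ k ∈ s,
        (‖mFourier k (Pi.single i (t : UnitAddCircle) : T d) - 1‖ ^ 2 / t ^ 2) *
          (c k * fc u (-k)).re)
        (𝓝[≠] 0) (𝓝 (∑ k ∈ s, (4 * π ^ 2 * (k i : ℝ) ^ 2) * (c k * fc u (-k)).re)) :=
      tendsto_finsetSum _ fun k _ => (om_lim k i).mul_const _
    refine le_of_tendsto_of_tendsto t1 t2 ?_
    filter_upwards [self_mem_nhdsWithin] with t ht
    have ht0 : (0 : ℝ) < t ^ 2 := by
      have : t ≠ 0 := ht
      positivity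
    have h2 := key1 s S c l R (Pi.single i (t : UnitAddCircle) : T d)
    have h3 := div_le_div_of_nonneg_right h2 ht0.le
    rw [Finset.sum_div, Finset.sum_div] at h3
    simp only [div_mul_eq_mul_div]
    exact h3
  have e1 : ∀ (Z : Finset (Fin d → ℤ)) (g : (Fin d → ℤ) → ℝ),
      ∑ k ∈ Z, (4 * π ^ 2 * ∑ i, (k i : ℝ) ^ 2) * g k =
        ∑ i, ∑ k ∈ Z, (4 * π ^ 2 * (k i : ℝ) ^ 2) * g k := by
    intro Z g
    rw [Finset.sum_comm]
    refine Finset.sum_congr rfl fun k _ => ?_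
    rw [Finset.mul_sum, Finset.sum_mul]
  rw [e1, e1]
  exact Finset.sum_le_sum fun i _ => h1 i

theorem key3 (A : AI d) (S : Finset (Fin d → ℤ)) (c cf : (Fin d → ℤ) → ℂ) (l R : ℝ) (hR : 0 ≤ R)
    (hB : ∀ x, 0 ≤ A.sm (fun k => (-(4 * π ^ 2 * ∑ i, (k i : ℝ) ^ 2 : ℝ) : ℂ) * c k) x +
      A.sm cf x) :
    ∑ k ∈ S, (4 * π ^ 2 * ∑ i, (k i : ℝ) ^ 2) * ‖fc (fun x => th R (A.sm c x - l)) k‖ ^ 2 ≤
      ∫ x, th R (A.sm c x - l) * A.sm cf x ∂vol d := by
  have h1 := key2 A.s S (fun k => (A.a k : ℂ) * c k) l R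
  have hsm : ∀ x, tp A.s (fun k => (A.a k : ℂ) * c k) x = A.sm c x := fun x => rfl
  simp only [hsm] at h1
  refine h1.trans ?_
  set u : T d → ℝ := fun x => th R (A.sm c x - l) with hu
  have hcs : ∀ c' : (Fin d → ℤ) → ℂ, Continuous (A.sm c') := fun c' =>
    tp_cont A.s (fun k => (A.a k : ℂ) * c' k)
  have huc : Continuous u := (th_cont R).comp ((hcs c).sub continuous_const)
  have h2 := pair u (cont_int huc) A.s
    (fun k => (A.a k : ℂ) * ((-(4 * π ^ 2 * ∑ i, (k i : ℝ) ^ 2 : ℝ) : ℂ) * c k))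
  have h3 : ∑ k ∈ A.s, (4 * π ^ 2 * ∑ i, (k i : ℝ) ^ 2) *
      ((A.a k : ℂ) * c k * fc u (-k)).re = -∫ x, u x *
        A.sm (fun k => (-(4 * π ^ 2 * ∑ i, (k i : ℝ) ^ 2 : ℝ) : ℂ) * c k) x ∂vol d := by
    rw [eq_neg_iff_add_eq_zero]
    have h4 : ∫ x, u x * A.sm (fun k => (-(4 * π ^ 2 * ∑ i, (k i : ℝ) ^ 2 : ℝ) : ℂ) * c k) x
        ∂vol d = ∑ k ∈ A.s, ((A.a k : ℂ) *
          ((-(4 * π ^ 2 * ∑ i, (k i : ℝ) ^ 2 : ℝ) : ℂ) * c k) * fc u (-k)).re := h2
    rw [h4, ← Finset.sum_add_distrib]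
    refine Finset.sum_eq_zero fun k _ => ?_
    rw [← Complex.re_ofReal_mul, ← Complex.add_re]
    have : (((4 * π ^ 2 * ∑ i, (k i : ℝ) ^ 2 : ℝ) : ℂ)) * ((A.a k : ℂ) * c k * fc u (-k)) +
        (A.a k : ℂ) * ((-(4 * π ^ 2 * ∑ i, (k i : ℝ) ^ 2 : ℝ) : ℂ) * c k) * fc u (-k) = 0 := by
      ring
    rw [this, Complex.zero_re]
  rw [h3, ← integral_neg]
  refine integral_mono (cont_int (huc.mul (hcs _)).neg) (cont_int (huc.mul (hcs _))) ?_
  intro x
  have h5 := hB x
  have h6 : 0 ≤ u x := th_nonneg hR _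
  simp only
  nlinarith

theorem gh_sum (ρ : T d → ℝ) (v : Fin d → T d → ℝ) (hv : Grad ρ v) (S : Finset (Fin d → ℤ)) :
    ∑ k ∈ S, gh k * ‖fc ρ k‖ ^ 2 ≤ ∫ x, ∑ i, v i x ^ 2 ∂vol d := by
  have hm : ∀ i, MemLp (v i) 2 (vol d) := fun i => (hv.mem i).mono_exponent (by norm_num)
  have h1 : ∀ k : Fin d → ℤ, gh k * ‖fc ρ k‖ ^ 2 = ∑ i, ‖fc (v i) k‖ ^ 2 := by
    intro k
    have h2 : ∀ i, ‖fc (v i) k‖ ^ 2 = (4 * π ^ 2 * (k i : ℝ) ^ 2) * (gh k ^ 2 * ‖fc ρ k‖ ^ 2) := by
      intro i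
      rw [hv.four, norm_mul, mul_pow]
      unfold sy
      rw [norm_mul, norm_mul, norm_mul, norm_mul, Complex.norm_I, Complex.norm_real,
        Complex.norm_real, Complex.norm_intCast]
      have : ‖(2 : ℂ)‖ = 2 := by simp
      rw [this, mul_one, mul_pow, mul_pow, mul_pow, Real.norm_eq_abs, Real.norm_eq_abs, sq_abs,
        sq_abs, sq_abs]
      ring
    simp only [h2]
    rw [← Finset.sum_mul, ← Finset.mul_sum]
    unfold gh
    generalize (4 * π ^ 2 * ∑ i, (k i : ℝ) ^ 2) = y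
    by_cases hy : y = 0
    · rw [hy]
      simp
    · field_simp
  simp only [h1]
  rw [Finset.sum_comm, integral_finsetSum _ fun i _ => (hm i).integrable_sq]
  exact Finset.sum_le_sum fun i _ => bessel (v i) (hm i) S

theorem fc_zero (u : T d → ℝ) : fc u 0 = ((∫ x, u x ∂vol d : ℝ) : ℂ) := by
  unfold fc
  rw [neg_zero, mFourier_zero]
  simp only [ContinuousMap.one_apply, one_mul]
  exact integral_ofReal

theorem key4 (B : AI d) (ρ : T d → ℝ) (v : Fin d → T d → ℝ) (hv : Grad ρ v)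
    (hmass : ∫ x, ρ x ∂vol d = 1) (u : T d → ℝ) (hu : Integrable u (vol d)) (E : ℝ)
    (hE : ∀ S : Finset (Fin d → ℤ),
      ∑ k ∈ S, (4 * π ^ 2 * ∑ i, (k i : ℝ) ^ 2) * ‖fc u k‖ ^ 2 ≤ E) :
    (∫ x, u x ∂vol d) - ∫ x, u x * B.sm (fc ρ) x ∂vol d ≤
      √(∫ x, ∑ i, v i x ^ 2 ∂vol d) * √E := by
  have h1 : ∫ x, u x * B.sm (fc ρ) x ∂vol d =
      ∑ k ∈ B.s, ((B.a k : ℂ) * fc ρ k * fc u (-k)).re :=
    pair u hu B.s (fun k => (B.a k : ℂ) * fc ρ k)
  have h0 : (0 : Fin d → ℤ) ∈ B.s := by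
    by_contra h
    have := B.supp 0 h
    rw [B.zero] at this
    exact one_ne_zero this
  rw [h1, ← Finset.add_sum_erase _ _ h0]
  have h2 : ((B.a 0 : ℂ) * fc ρ 0 * fc u (-0)).re = ∫ x, u x ∂vol d := by
    rw [neg_zero, B.zero, fc_zero, fc_zero, hmass]
    simp
  rw [h2]
  have h3 : ∀ k ∈ B.s.erase 0, -((B.a k : ℂ) * fc ρ k * fc u (-k)).re ≤
      (√(gh k) * ‖fc ρ k‖) * (√(4 * π ^ 2 * ∑ i, (k i : ℝ) ^ 2) * ‖fc u k‖) := by
    intro k hk
    have hk0 : k ≠ 0 := (Finset.mem_erase.1 hk).1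
    have hpos : 0 < 4 * π ^ 2 * ∑ i, (k i : ℝ) ^ 2 := by
      obtain ⟨i, hi⟩ := Function.ne_iff.1 hk0
      have h4 : 0 < ∑ i, (k i : ℝ) ^ 2 := by
        refine Finset.sum_pos' (fun j _ => sq_nonneg _) ⟨i, Finset.mem_univ i, ?_⟩
        have : (k i : ℝ) ≠ 0 := by exact_mod_cast hi
        positivity
      positivity
    have h5 : √(gh k) * √(4 * π ^ 2 * ∑ i, (k i : ℝ) ^ 2) = 1 := by
      unfold gh
      rw [Real.sqrt_inv, inv_mul_cancel₀ (Real.sqrt_ne_zero'.2 hpos)]
    have h6 : ‖((B.a k : ℂ) * fc ρ k * fc u (-k))‖ ≤ ‖fc ρ k‖ * ‖fc u k‖ := by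
      rw [norm_mul, norm_mul, fc_neg, RCLike.norm_conj, Complex.norm_real, Real.norm_eq_abs,
        abs_of_nonneg (B.nonneg k)]
      have h7 := B.le_one k
      have h8 : 0 ≤ ‖fc ρ k‖ * ‖fc u k‖ := by positivity
      have h9 := mul_le_mul_of_nonneg_right h7 h8
      linarith
    have h7 := Complex.abs_re_le_norm ((B.a k : ℂ) * fc ρ k * fc u (-k))
    have h8 := neg_abs_le ((B.a k : ℂ) * fc ρ k * fc u (-k)).re
    calc -((B.a k : ℂ) * fc ρ k * fc u (-k)).re ≤ ‖fc ρ k‖ * ‖fc u k‖ := by linarith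
      _ = (√(gh k) * √(4 * π ^ 2 * ∑ i, (k i : ℝ) ^ 2)) * (‖fc ρ k‖ * ‖fc u k‖) := by
          rw [h5, one_mul]
      _ = _ := by ring
  have h4 := Finset.sum_le_sum h3
  rw [Finset.sum_neg_distrib] at h4
  have h5 : (∫ x, u x ∂vol d) - ((∫ x, u x ∂vol d) +
      ∑ k ∈ B.s.erase 0, ((B.a k : ℂ) * fc ρ k * fc u (-k)).re) =
      -∑ k ∈ B.s.erase 0, ((B.a k : ℂ) * fc ρ k * fc u (-k)).re := by ring
  rw [h5]
  refine h4.trans ((Real.sum_mul_le_sqrt_mul_sqrt _ _ _).trans ?_)
  have hghn : ∀ k : Fin d → ℤ, 0 ≤ gh k := fun k => by unfold gh; positivity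
  have h6 : ∑ k ∈ B.s.erase 0, (√(gh k) * ‖fc ρ k‖) ^ 2 ≤ ∫ x, ∑ i, v i x ^ 2 ∂vol d := by
    refine le_trans (le_of_eq (Finset.sum_congr rfl fun k _ => ?_)) (gh_sum ρ v hv (B.s.erase 0))
    rw [mul_pow, Real.sq_sqrt (hghn k)]
  have h7 : ∑ k ∈ B.s.erase 0, (√(4 * π ^ 2 * ∑ i, (k i : ℝ) ^ 2) * ‖fc u k‖) ^ 2 ≤ E := by
    refine le_trans (le_of_eq (Finset.sum_congr rfl fun k _ => ?_)) (hE (B.s.erase 0))
    rw [mul_pow, Real.sq_sqrt (by positivity)]
  exact mul_le_mul (Real.sqrt_le_sqrt h6) (Real.sqrt_le_sqrt h7) (Real.sqrt_nonneg _)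
    (Real.sqrt_nonneg _)

theorem lim_prod (u : ℕ → T d → ℝ) (u0 : T d → ℝ) (g : ℕ → T d → ℝ) (g0 : T d → ℝ) (R : ℝ)
    (hu : ∀ n, AEStronglyMeasurable (u n) (vol d)) (hub : ∀ n x, |u n x| ≤ R)
    (hlim : ∀ᵐ x ∂vol d, Tendsto (fun n => u n x) atTop (𝓝 (u0 x)))
    (hg : ∀ n, Integrable (g n) (vol d)) (hg0 : Integrable g0 (vol d))
    (hgl : Tendsto (fun n => eLpNorm (fun x => g n x - g0 x) 1 (vol d)) atTop (𝓝 0)) :
    Tendsto (fun n => ∫ x, u n x * g n x ∂vol d) atTop (𝓝 (∫ x, u0 x * g0 x ∂vol d)) := by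
  have i1 : ∀ n, Integrable (fun x => u n x * g0 x) (vol d) := fun n =>
    hg0.bdd_mul (c := R) (hu n) (Filter.Eventually.of_forall fun x => hub n x)
  have i2 : ∀ n, Integrable (fun x => u n x * (g n x - g0 x)) (vol d) := fun n =>
    ((hg n).sub hg0).bdd_mul (c := R) (hu n) (Filter.Eventually.of_forall fun x => hub n x)
  have t1 : Tendsto (fun n => ∫ x, u n x * g0 x ∂vol d) atTop (𝓝 (∫ x, u0 x * g0 x ∂vol d)) := by
    refine tendsto_integral_of_dominated_convergence (fun x => R * |g0 x|)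
      (fun n => (i1 n).aestronglyMeasurable) (hg0.abs.const_mul R) ?_ ?_
    · intro n
      refine Filter.Eventually.of_forall fun x => ?_
      rw [Real.norm_eq_abs, abs_mul]
      exact mul_le_mul_of_nonneg_right (hub n x) (abs_nonneg _)
    · filter_upwards [hlim] with x hx
      exact hx.mul_const _
  have t2 : Tendsto (fun n => ∫ x, u n x * (g n x - g0 x) ∂vol d) atTop (𝓝 0) := by
    have t3 : Tendsto (fun n => R * (eLpNorm (fun x => g n x - g0 x) 1 (vol d)).toReal) atTop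
        (𝓝 0) := by
      have := (ENNReal.tendsto_toReal ENNReal.zero_ne_top).comp hgl
      simpa using this.const_mul R
    refine squeeze_zero_norm (fun n => ?_) t3
    have e1 : (eLpNorm (fun x => g n x - g0 x) 1 (vol d)).toReal =
        ∫ x, ‖g n x - g0 x‖ ∂vol d := by
      have hm : AEStronglyMeasurable (fun x => g n x - g0 x) (vol d) :=
        ((hg n).sub hg0).aestronglyMeasurable
      rw [eLpNorm_one_eq_lintegral_enorm, integral_norm_eq_lintegral_enorm hm]
    rw [e1, ← integral_const_mul]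
    refine (norm_integral_le_integral_norm _).trans ?_
    refine integral_mono (i2 n).norm (((hg n).sub hg0).norm.const_mul R) fun x => ?_
    simp only [norm_mul]
    exact mul_le_mul_of_nonneg_right (hub n x) (norm_nonneg _)
  have t4 := t2.add t1
  rw [zero_add] at t4
  refine t4.congr fun n => ?_
  rw [← integral_add (i2 n) (i1 n)]
  refine integral_congr_ae (Filter.Eventually.of_forall fun x => ?_)
  simp only
  ring

theorem sm_cont (A : AI d) (c : (Fin d → ℤ) → ℂ) : Continuous (A.sm c) :=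
  tp_cont A.s (fun k => (A.a k : ℂ) * c k)

theorem th_abs {R : ℝ} (hR : 0 ≤ R) (s : ℝ) : |th R s| ≤ R := by
  rw [abs_of_nonneg (th_nonneg hR s)]
  exact th_le s

theorem main_R (hd : 1 ≤ d) (hFEJ : S_FEJ d) (hSMO : S_SMO d) (ρ : T d → ℝ)
    (v : Fin d → T d → ℝ) (h φ : T d → ℝ) (l : ℝ) (hρ : Adm ρ) (hv : Grad ρ v)
    (hL : Integrable (Lf v h φ) (vol d)) (hfB : Integrable (fB ρ) (vol d))
    (hBoc : BocAt ρ v h φ) (hl : ∀ᵐ x ∂vol d, 0 < ρ x → Lf v h φ x ≤ l) (R : ℝ) (hR : 0 ≤ R) :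
    ∫ x, th R (Lf v h φ x - l) ∂vol d ≤ 2 * kd d * ∫ x, ∑ i, v i x ^ 2 ∂vol d := by
  obtain ⟨A, hA⟩ := hFEJ
  set L := Lf v h φ with hLdef
  set Q := ∫ x, ∑ i, v i x ^ 2 ∂vol d with hQ
  have hQ0 : 0 ≤ Q := integral_nonneg fun x => Finset.sum_nonneg fun i _ => sq_nonneg _
  have hk0 : 0 ≤ kd d := by
    unfold kd
    have : (1 : ℝ) ≤ d := by exact_mod_cast hd
    apply div_nonneg <;> linarith
  have hρi : Integrable ρ (vol d) := hρ.mem.integrable (by norm_num)
  have smo : ∀ f : T d → ℝ, Integrable f (vol d) →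
      Tendsto (fun n => eLpNorm (fun x => (A n).sm (fc f) x - f x) 1 (vol d)) atTop (𝓝 0) :=
    fun f hf => hSMO.2.2 A hA.lim 1 (Or.inl rfl) f (memLp_one_iff_integrable.2 hf)
  -- the inequality for `u_n`
  have step : ∀ n, (∫ x, th R ((A n).sm (fc L) x - l) ∂vol d) -
      ∫ x, th R ((A n).sm (fc L) x - l) * ρ x ∂vol d ≤
      √Q * √(∫ x, th R ((A n).sm (fc L) x - l) * (A n).sm (fc (fB ρ)) x ∂vol d) := by
    intro n
    have huc : Continuous (fun x => th R ((A n).sm (fc L) x - l)) :=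
      (th_cont R).comp ((sm_cont _ _).sub continuous_const)
    have h1 : ∀ m, (∫ x, th R ((A n).sm (fc L) x - l) ∂vol d) -
        ∫ x, th R ((A n).sm (fc L) x - l) * (A m).sm (fc ρ) x ∂vol d ≤
        √Q * √(∫ x, th R ((A n).sm (fc L) x - l) * (A n).sm (fc (fB ρ)) x ∂vol d) := by
      intro m
      exact key4 (A m) ρ v hv hρ.mass _ (cont_int huc) _
        (fun S => key3 (A n) S (fc L) (fc (fB ρ)) l R hR (hBoc (A n)))
    have h2 := lim_prod (fun _ => fun x => th R ((A n).sm (fc L) x - l))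
      (fun x => th R ((A n).sm (fc L) x - l)) (fun m => (A m).sm (fc ρ)) ρ R
      (fun _ => huc.aestronglyMeasurable) (fun _ x => th_abs hR _)
      (Filter.Eventually.of_forall fun x => tendsto_const_nhds)
      (fun m => cont_int (sm_cont _ _)) hρi (smo ρ hρi)
    exact le_of_tendsto (tendsto_const_nhds.sub h2) (Filter.Eventually.of_forall h1)
  -- an almost everywhere convergent subsequence
  have hmeas : TendstoInMeasure (vol d) (fun n => (A n).sm (fc L)) atTop L :=
    tendstoInMeasure_of_tendsto_eLpNorm (p := 1) one_ne_zero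
      (fun n => (sm_cont _ _).aestronglyMeasurable) hL.aestronglyMeasurable (smo L hL)
  obtain ⟨ns, hns, hae⟩ := hmeas.exists_seq_tendsto_ae
  have hul : ∀ᵐ x ∂vol d, Tendsto (fun j => th R ((A (ns j)).sm (fc L) x - l)) atTop
      (𝓝 (th R (L x - l))) := by
    filter_upwards [hae] with x hx
    exact ((th_cont R).tendsto _).comp (hx.sub_const l)
  have hum : ∀ j, AEStronglyMeasurable (fun x => th R ((A (ns j)).sm (fc L) x - l)) (vol d) :=
    fun j => ((th_cont R).comp ((sm_cont _ _).sub continuous_const)).aestronglyMeasurable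
  have l1 := lim_prod (fun j => fun x => th R ((A (ns j)).sm (fc L) x - l))
    (fun x => th R (L x - l)) (fun _ => fun _ => 1) (fun _ => 1) R hum (fun _ x => th_abs hR _)
    hul (fun _ => integrable_const _) (integrable_const _) (by simp)
  have l2 := lim_prod (fun j => fun x => th R ((A (ns j)).sm (fc L) x - l))
    (fun x => th R (L x - l)) (fun _ => ρ) ρ R hum (fun _ x => th_abs hR _)
    hul (fun _ => hρi) hρi (by simp)
  have l3 := lim_prod (fun j => fun x => th R ((A (ns j)).sm (fc L) x - l))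
    (fun x => th R (L x - l)) (fun j => (A (ns j)).sm (fc (fB ρ))) (fB ρ) R hum
    (fun _ x => th_abs hR _) hul (fun _ => cont_int (sm_cont _ _)) hfB
    ((smo (fB ρ) hfB).comp hns.tendsto_atTop)
  simp only [mul_one] at l1
  have h3 : (∫ x, th R (L x - l) ∂vol d) - ∫ x, th R (L x - l) * ρ x ∂vol d ≤
      √Q * √(∫ x, th R (L x - l) * fB ρ x ∂vol d) :=
    le_of_tendsto_of_tendsto (l1.sub l2) ((l3.sqrt).const_mul _)
      (Filter.Eventually.of_forall fun j => step (ns j))
  -- on the support of `u` the density vanishes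
  have hz : ∀ᵐ x ∂vol d, th R (L x - l) = 0 ∨ ρ x = 0 := by
    filter_upwards [hl, hρ.nonneg] with x hx hx0
    rcases hx0.lt_or_eq with h4 | h4
    · left
      have h5 := hx h4
      unfold th
      rw [max_eq_right (by linarith), min_eq_left hR]
    · right
      exact h4.symm
  have h4 : ∫ x, th R (L x - l) * ρ x ∂vol d = 0 := by
    rw [← integral_zero (T d) ℝ (μ := vol d)]
    refine integral_congr_ae ?_
    filter_upwards [hz] with x hx
    rcases hx with hx | hx <;> simp [hx]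
  have h5 : ∫ x, th R (L x - l) * fB ρ x ∂vol d = 2 * kd d * ∫ x, th R (L x - l) ∂vol d := by
    rw [← integral_const_mul]
    refine integral_congr_ae ?_
    filter_upwards [hz] with x hx
    rcases hx with hx | hx
    · simp [hx]
    · unfold fB
      rw [hx]
      ring
  rw [h4, h5, sub_zero] at h3
  set I := ∫ x, th R (L x - l) ∂vol d with hI
  have hI0 : 0 ≤ I := integral_nonneg fun x => th_nonneg hR _
  rcases hI0.lt_or_eq with hI1 | hI1
  · have h6 : I ^ 2 ≤ (√Q * √(2 * kd d * I)) ^ 2 := pow_le_pow_left₀ hI0 h3 2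
    rw [mul_pow, Real.sq_sqrt hQ0, Real.sq_sqrt (by positivity)] at h6
    have h7 : I * I ≤ (2 * kd d * Q) * I := by nlinarith
    exact le_of_mul_le_mul_right h7 hI1
  · rw [← hI1]
    positivity

theorem tes (d : ℕ) (hd : 1 ≤ d) (hFEJ : S_FEJ d) (hSMO : S_SMO d) : S_TES d := by
  intro ρ v h φ l hρ hv hh hφ hBoc hl
  have hv2 : ∀ i, Integrable (fun x => v i x ^ 2) (vol d) := fun i =>
    ((hv.mem i).mono_exponent (p := 2) (by norm_num)).integrable_sq
  have hhi : Integrable h (vol d) := hh.mem.integrable (by norm_num)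
  have hφi : Integrable φ (vol d) := by
    refine hφ.mem.integrable ?_
    rw [ENNReal.le_div_iff_mul_le (by simp) (by simp)]
    norm_num
  have hL : Integrable (Lf v h φ) (vol d) := by
    unfold Lf
    exact ((integrable_finsetSum _ fun i _ => hv2 i).add (hhi.const_mul _)).sub (hφi.const_mul _)
  have hρi : Integrable ρ (vol d) := hρ.mem.integrable (by norm_num)
  have hρ1 : MemLp (fun x => 1 - ρ x) 2 (vol d) :=
    (memLp_const (1 : ℝ)).sub (hρ.mem.mono_exponent (by norm_num))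
  have hfB : Integrable (fB ρ) (vol d) := by
    unfold fB
    exact (hρ1.integrable_sq.const_mul _).sub (((integrable_const 1).sub hρi).const_mul _)
  have h1 : ∀ n : ℕ, ∫ x, th (n : ℝ) (Lf v h φ x - l) ∂vol d ≤
      2 * kd d * ∫ x, ∑ i, v i x ^ 2 ∂vol d := fun n =>
    main_R hd hFEJ hSMO ρ v h φ l hρ hv hL hfB hBoc hl n (Nat.cast_nonneg n)
  have hmax : Integrable (fun x => max (Lf v h φ x - l) 0) (vol d) :=
    (hL.sub (integrable_const l)).pos_part
  have h2 : Tendsto (fun n : ℕ => ∫ x, th (n : ℝ) (Lf v h φ x - l) ∂vol d) atTop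
      (𝓝 (∫ x, max (Lf v h φ x - l) 0 ∂vol d)) := by
    refine tendsto_integral_of_dominated_convergence (fun x => max (Lf v h φ x - l) 0) ?_ hmax ?_ ?_
    · intro n
      exact (th_cont n).comp_aestronglyMeasurable (hL.sub (integrable_const l)).aestronglyMeasurable
    · intro n
      refine Filter.Eventually.of_forall fun x => ?_
      rw [Real.norm_eq_abs, abs_of_nonneg (th_nonneg (Nat.cast_nonneg n) _)]
      exact min_le_left _ _
    · refine Filter.Eventually.of_forall fun x => ?_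
      obtain ⟨N, hN⟩ := exists_nat_ge (max (Lf v h φ x - l) 0)
      refine tendsto_const_nhds.congr' ?_
      filter_upwards [eventually_ge_atTop N] with n hn
      unfold th
      rw [min_eq_left]
      exact hN.trans (by exact_mod_cast hn)
  exact le_of_tendsto' h2 h1

end Pool.Agent.R763.PL.Tes
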