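import Pool.Agent.R763.PL.Stm

/-!
# PL-UNI: uniqueness of Fourier coefficients of integrable functions on the torus
-/

set_option autoImplicit false
set_option maxHeartbeats 1000000

open MeasureTheory UnitAddTorus Filter Topology
open scoped ENNReal Real

namespace Pool.Agent.R763.PL.UNI

instance instProb (d : ℕ) : IsProbabilityMeasure (vol d) := by
  unfold vol
  infer_instance

theorem int_mul {d : ℕ} (f : T d → ℝ) (hf : Integrable f (vol d)) (g : C(T d, ℂ)) :
    Integrable (fun x => g x * (f x : ℂ)) (vol d) :=
  hf.ofReal.bdd_mul (c := ‖g‖) g.continuous.aestronglyMeasurable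
    (Eventually.of_forall fun x => g.norm_coe_le_norm x)

/-- the functional -/
noncomputable def Lf' {d : ℕ} (f : T d → ℝ) (hf : Integrable f (vol d)) : C(T d, ℂ) →L[ℂ] ℂ :=
  LinearMap.mkContinuous
    { toFun := fun g => ∫ x, g x * (f x : ℂ) ∂vol d
      map_add' := by
        intro g h
        rw [← integral_add (int_mul f hf g) (int_mul f hf h)]
        congr 1
        funext x
        rw [ContinuousMap.add_apply]
        ring
      map_smul' := by
        intro c g
        rw [RingHom.id_apply, smul_eq_mul, ← integral_const_mul]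
        congr 1
        funext x
        rw [ContinuousMap.smul_apply, smul_eq_mul]
        ring }
    (∫ x, ‖(f x : ℂ)‖ ∂vol d) (by
      intro g
      show ‖∫ x, g x * (f x : ℂ) ∂vol d‖ ≤ _
      rw [← integral_mul_const]
      apply norm_integral_le_of_norm_le
      · exact (hf.ofReal (𝕜 := ℂ)).norm.mul_const _
      · refine Eventually.of_forall fun x => ?_
        rw [norm_mul, mul_comm]
        exact mul_le_mul_of_nonneg_left (g.norm_coe_le_norm x) (norm_nonneg _))

theorem test_zero {d : ℕ} (f : T d → ℝ) (hf : Integrable f (vol d)) (h0 : ∀ k, fc f k = 0)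
    (g : C(T d, ℂ)) : ∫ x, g x * (f x : ℂ) ∂vol d = 0 := by
  have h1 : Lf' f hf = 0 := by
    apply ContinuousLinearMap.ext_on (s := Set.range (mFourier (d := Fin d)))
    · exact Submodule.dense_iff_topologicalClosure_eq_top.2 span_mFourier_closure_eq_top
    · rintro _ ⟨k, rfl⟩
      have := h0 (-k)
      unfold fc at this
      rw [neg_neg] at this
      exact this
  have h2 : Lf' f hf g = 0 := by rw [h1]; rfl
  exact h2

theorem test_zero_real {d : ℕ} (f : T d → ℝ) (hf : Integrable f (vol d)) (h0 : ∀ k, fc f k = 0)
    (g : BoundedContinuousFunction (T d) ℝ) : ∫ x, g x * f x ∂vol d = 0 := by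
  have h1 := test_zero f hf h0 ⟨fun x => (g x : ℂ), by fun_prop⟩
  have h2 : ∫ x, ((g x * f x : ℝ) : ℂ) ∂vol d = 0 := by
    rw [← h1]
    congr 1
    funext x
    push_cast
    rfl
  rw [integral_complex_ofReal] at h2
  exact_mod_cast h2

/-- uniqueness -/
theorem uni (d : ℕ) (_ : 1 ≤ d) : S_UNI d := by
  intro f hf h0
  have hfm : AEMeasurable f (vol d) := hf.aemeasurable
  have e1 : AEMeasurable (fun x => (f x).toNNReal) (vol d) := hfm.real_toNNReal
  have e2 : AEMeasurable (fun x => (-f x).toNNReal) (vol d) := hfm.neg.real_toNNReal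
  have hfin1 : IsFiniteMeasure ((vol d).withDensity (fun x => ((f x).toNNReal : ℝ≥0∞))) := by
    apply isFiniteMeasure_withDensity
    exact hf.lintegral_lt_top.ne
  have hfin2 : IsFiniteMeasure ((vol d).withDensity (fun x => ((-f x).toNNReal : ℝ≥0∞))) := by
    apply isFiniteMeasure_withDensity
    exact hf.neg.lintegral_lt_top.ne
  have h1 : (vol d).withDensity (fun x => ((f x).toNNReal : ℝ≥0∞)) =
      (vol d).withDensity (fun x => ((-f x).toNNReal : ℝ≥0∞)) := by
    apply ext_of_forall_integral_eq_of_IsFiniteMeasure
    intro g
    rw [integral_withDensity_eq_integral_smul₀ e1, integral_withDensity_eq_integral_smul₀ e2]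
    have hi1 : Integrable (fun x => (f x).toNNReal • g x) (vol d) := by
      have : Integrable (fun x => g x * max (f x) 0) (vol d) :=
        hf.pos_part.bdd_mul (c := ‖g‖) g.continuous.aestronglyMeasurable
          (Eventually.of_forall fun x => g.norm_coe_le_norm x)
      refine this.congr (Eventually.of_forall fun x => ?_)
      simp only [NNReal.smul_def, Real.coe_toNNReal', smul_eq_mul]
      ring
    have hi2 : Integrable (fun x => (-f x).toNNReal • g x) (vol d) := by
      have : Integrable (fun x => g x * max (-f x) 0) (vol d) :=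
        hf.neg.pos_part.bdd_mul (c := ‖g‖) g.continuous.aestronglyMeasurable
          (Eventually.of_forall fun x => g.norm_coe_le_norm x)
      refine this.congr (Eventually.of_forall fun x => ?_)
      simp only [NNReal.smul_def, Real.coe_toNNReal', smul_eq_mul]
      ring
    rw [← sub_eq_zero, ← integral_sub hi1 hi2, ← test_zero_real f hf h0 g]
    congr 1
    funext x
    simp only [NNReal.smul_def, Real.coe_toNNReal', smul_eq_mul]
    have : max (f x) 0 - max (-f x) 0 = f x := by
      rcases le_total 0 (f x) with h | h
      · rw [max_eq_left h, max_eq_right (by linarith)]; ring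
      · rw [max_eq_right h, max_eq_left (by linarith)]; ring
    linear_combination g x * this
  rw [withDensity_eq_iff_of_sigmaFinite e1.coe_nnreal_ennreal e2.coe_nnreal_ennreal] at h1
  filter_upwards [h1] with x hx
  have hx' : (f x).toNNReal = (-f x).toNNReal := by exact_mod_cast hx
  have hx2 := congrArg (fun t : NNReal => (t : ℝ)) hx'
  simp only [Real.coe_toNNReal'] at hx2
  show f x = 0
  rcases le_total 0 (f x) with h | h
  · rw [max_eq_left h, max_eq_right (by linarith)] at hx2
    exact hx2
  · rw [max_eq_right h, max_eq_left (by linarith)] at hx2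
    linarith

end Pool.Agent.R763.PL.UNI
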