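import Pool.Agent.R763.PL.UppB

/-!
# Coulomb MMD on the torus: slope and energy of the density `1 - Δh`
-/

set_option autoImplicit false

open MeasureTheory UnitAddTorus Filter Topology
open scoped ENNReal Real ContDiff

namespace Pool.Agent.R763.PL.Upp

variable {d : ℕ} {c : (Fin d → ℤ) →₀ ℂ}

lemma exp_bound (θ : ℝ) : ‖1 + Complex.I * θ - Complex.exp (Complex.I * θ)‖ ≤ 3 * θ ^ 2 := by
  have hn : ‖Complex.I * (θ : ℂ)‖ = |θ| := by
    rw [norm_mul, Complex.norm_I, one_mul, Complex.norm_real, Real.norm_eq_abs]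
  rcases le_or_gt |θ| 1 with h | h
  · have h1 := Complex.norm_exp_sub_one_sub_id_le (x := Complex.I * (θ : ℂ)) (by rw [hn]; exact h)
    rw [hn, sq_abs] at h1
    rw [← norm_neg]
    have e : -(1 + Complex.I * (θ : ℂ) - Complex.exp (Complex.I * θ)) =
        Complex.exp (Complex.I * θ) - 1 - Complex.I * θ := by ring
    rw [e]
    nlinarith [sq_nonneg θ]
  · have h1 : ‖1 + Complex.I * (θ : ℂ) - Complex.exp (Complex.I * θ)‖ ≤ 1 + |θ| + 1 := by
      refine (norm_sub_le _ _).trans ?_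
      have h2 := norm_add_le (1 : ℂ) (Complex.I * (θ : ℂ))
      rw [hn, norm_one] at h2
      have h3 : ‖Complex.exp (Complex.I * (θ : ℂ))‖ = 1 := by
        rw [mul_comm]; exact Complex.norm_exp_ofReal_mul_I θ
      rw [h3]
      linarith
    have h4 : θ ^ 2 = |θ| * |θ| := by rw [← sq, sq_abs]
    rw [h4]
    nlinarith

/-- lifts of the difference of two points of the torus -/
lemma lift (x y : T d) : ∃ u : Fin d → ℝ, (∀ i, y i = x i + ((u i : ℝ) : UnitAddCircle)) ∧
    ∀ i, |u i| = ‖x i - y i‖ := by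
  have h : ∀ i, ∃ u : ℝ, y i = x i + ((u : ℝ) : UnitAddCircle) ∧ |u| = ‖x i - y i‖ := by
    intro i
    obtain ⟨t, ht⟩ := QuotientAddGroup.mk_surjective (y i - x i)
    have ht' : ((t : ℝ) : UnitAddCircle) = y i - x i := ht
    refine ⟨t - round t, ?_, ?_⟩
    · have e : (((t - round t : ℝ)) : UnitAddCircle) = ((t : ℝ) : UnitAddCircle) := by
        rw [AddCircle.coe_sub]
        have e2 : (((round t : ℤ) : ℝ) : UnitAddCircle) = 0 := by
          have := AddCircle.coe_period (p := (1 : ℝ))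
          have h3 : (((round t : ℤ) : ℝ) : UnitAddCircle) = (round t : ℤ) • ((1 : ℝ) : UnitAddCircle) := by
            rw [← AddCircle.coe_zsmul]
            simp
          rw [h3, this, smul_zero]
        rw [e2, sub_zero]
      rw [e, ht']
      abel
    · rw [← UnitAddCircle.norm_eq, ht', ← norm_neg]
      congr 1
      abel
  choose u hu1 hu2 using h
  exact ⟨u, hu1, hu2⟩

lemma e_shift (k : Fin d → ℤ) (x y : T d) (u : Fin d → ℝ)
    (hu : ∀ i, y i = x i + ((u i : ℝ) : UnitAddCircle)) :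
    mFourier k y = mFourier k x * Complex.exp (Complex.I * ((2 * π * ∑ i, (k i : ℝ) * u i : ℝ) : ℂ)) := by
  have h1 : ∀ i, fourier (k i) (y i) = fourier (k i) (x i) *
      Complex.exp (Complex.I * ((2 * π * ((k i : ℝ) * u i) : ℝ) : ℂ)) := by
    intro i
    rw [hu i, fourier_apply, smul_add, AddCircle.toCircle_add, Circle.coe_mul, ← fourier_apply,
      ← fourier_apply, fourier_coe_apply]
    congr 2
    push_cast
    ring
  simp only [mFourier, ContinuousMap.coe_mk]
  rw [Finset.prod_congr rfl (fun i _ => h1 i), Finset.prod_mul_distrib]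
  congr 1
  rw [← Complex.exp_sum]
  congr 1
  rw [← Finset.mul_sum, Finset.mul_sum (a := (2 * π : ℝ))]
  push_cast
  rfl

/-- the constant -/
noncomputable def CC (c : (Fin d → ℤ) →₀ ℂ) : ℝ := ∑ k ∈ c.support, ‖c k‖ * (3 * lam k)

lemma CC_nonneg : 0 ≤ CC c := by
  unfold CC
  exact Finset.sum_nonneg fun k _ => mul_nonneg (norm_nonneg _)
    (mul_nonneg (by norm_num) (lam_nonneg k))

lemma taylor (x y : T d) : ev c x - ev c y ≤
    Real.sqrt (∑ i, evd c i x ^ 2) * Real.sqrt (dist2 x y) + CC c * dist2 x y := by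
  obtain ⟨u, hu1, hu2⟩ := lift x y
  have hd : dist2 x y = ∑ i, u i ^ 2 := by
    unfold dist2
    refine Finset.sum_congr rfl fun i _ => ?_
    rw [← hu2, sq_abs]
  obtain ⟨θ, hθ⟩ : ∃ θ : (Fin d → ℤ) → ℝ, θ = fun k => 2 * π * ∑ i, (k i : ℝ) * u i := ⟨_, rfl⟩
  have h1 : ev c x - ev c y = (∑ k ∈ c.support, c k * mFourier k x * (-(Complex.I * θ k))).re +
      (∑ k ∈ c.support, c k * mFourier k x *
        (1 + Complex.I * θ k - Complex.exp (Complex.I * θ k))).re := by
    rw [ev_eq, ev_eq, ← Complex.sub_re, ← Complex.add_re]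
    congr 1
    unfold G
    rw [← Finset.sum_sub_distrib, ← Finset.sum_add_distrib]
    refine Finset.sum_congr rfl fun k _ => ?_
    rw [e_shift k x y u hu1, hθ]
    ring
  have h2 : (∑ k ∈ c.support, c k * mFourier k x * (-(Complex.I * θ k))).re =
      ∑ i, (-u i) * evd c i x := by
    have e1 : ∑ k ∈ c.support, c k * mFourier k x * (-(Complex.I * θ k)) =
        ∑ i, ((-u i : ℝ) : ℂ) *
          G c.support (fun k => (2 * π * Complex.I * (k i : ℂ)) * c k) x := by
      unfold G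
      simp only [Finset.mul_sum]
      rw [Finset.sum_comm]
      refine Finset.sum_congr rfl fun k _ => ?_
      rw [hθ]
      push_cast
      rw [Finset.mul_sum, Finset.mul_sum, ← Finset.sum_neg_distrib, Finset.mul_sum]
      refine Finset.sum_congr rfl fun i _ => ?_
      ring
    rw [e1, Complex.re_sum]
    refine Finset.sum_congr rfl fun i _ => ?_
    rw [Complex.re_ofReal_mul, evd_eq]
  have h3 : ∑ i, (-u i) * evd c i x ≤
      Real.sqrt (∑ i, evd c i x ^ 2) * Real.sqrt (dist2 x y) := by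
    rw [hd, mul_comm (Real.sqrt _)]
    have := Real.sum_mul_le_sqrt_mul_sqrt Finset.univ (fun i => -u i) (fun i => evd c i x)
    simp only [neg_sq] at this
    exact this
  have h4 : (∑ k ∈ c.support, c k * mFourier k x *
        (1 + Complex.I * θ k - Complex.exp (Complex.I * θ k))).re ≤ CC c * dist2 x y := by
    refine (Complex.re_le_norm _).trans ((norm_sum_le _ _).trans ?_)
    unfold CC
    rw [Finset.sum_mul]
    apply Finset.sum_le_sum
    intro k _
    rw [norm_mul, norm_mul, norm_e, mul_one, mul_assoc]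
    apply mul_le_mul_of_nonneg_left _ (norm_nonneg _)
    refine (exp_bound _).trans ?_
    rw [mul_assoc]
    apply mul_le_mul_of_nonneg_left _ (by norm_num)
    rw [hθ, hd]
    unfold lam
    have h5 := Finset.sum_mul_sq_le_sq_mul_sq Finset.univ (fun i => (k i : ℝ)) u
    have h6 : (2 * π * ∑ i, (k i : ℝ) * u i) ^ 2 = 4 * π ^ 2 * (∑ i, (k i : ℝ) * u i) ^ 2 := by
      ring
    simp only
    rw [h6]
    have h7 := mul_le_mul_of_nonneg_left h5 (show 0 ≤ 4 * π ^ 2 by positivity)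
    linarith
  rw [h1, h2]
  linarith

/-- Cauchy-Schwarz -/
lemma cs {X : Type*} [TopologicalSpace X] [CompactSpace X] [MeasurableSpace X]
    [OpensMeasurableSpace X] (μ : Measure X) [IsFiniteMeasure μ] {f g : X → ℝ}
    (hf : Continuous f) (hg : Continuous g) :
    ∫ x, f x * g x ∂μ ≤ Real.sqrt (∫ x, f x ^ 2 ∂μ) * Real.sqrt (∫ x, g x ^ 2 ∂μ) := by
  have hA : 0 ≤ ∫ x, f x ^ 2 ∂μ := integral_nonneg fun x => sq_nonneg _
  have h1 : ∀ t : ℝ, 0 ≤ (∫ x, f x ^ 2 ∂μ) * (t * t) + (-2 * ∫ x, f x * g x ∂μ) * t +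
      ∫ x, g x ^ 2 ∂μ := by
    intro t
    have e : (∫ x, f x ^ 2 ∂μ) * (t * t) + (-2 * ∫ x, f x * g x ∂μ) * t + ∫ x, g x ^ 2 ∂μ =
        ∫ x, (t * f x - g x) ^ 2 ∂μ := by
      have e1 : ∀ x, (t * f x - g x) ^ 2 = (t * t) * f x ^ 2 + (-2 * t) * (f x * g x) + g x ^ 2 :=
        fun x => by ring
      simp only [e1]
      rw [integral_add, integral_add, integral_const_mul, integral_const_mul]
      · ring
      · exact cint _ (continuous_const.mul (hf.pow 2))
      · exact cint _ (continuous_const.mul (hf.mul hg))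
      · exact cint _ ((continuous_const.mul (hf.pow 2)).add (continuous_const.mul (hf.mul hg)))
      · exact cint _ (hg.pow 2)
    rw [e]
    exact integral_nonneg fun x => sq_nonneg _
  have h2 := discrim_le_zero h1
  rw [← Real.sqrt_mul hA]
  apply Real.le_sqrt_of_sq_le
  unfold discrim at h2
  nlinarith

lemma dist2_cont : Continuous (fun p : T d × T d => dist2 p.1 p.2) := by
  unfold dist2
  fun_prop

lemma dist2_nonneg (x y : T d) : 0 ≤ dist2 x y := Finset.sum_nonneg fun i _ => sq_nonneg _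

/-- the dissipation -/
noncomputable def DD (c : (Fin d → ℤ) →₀ ℂ) : ℝ :=
  ∫ x, (1 - evl c x) * ∑ i, evd c i x ^ 2 ∂vol d

lemma coupling_le (hc : RT c) (hle : ∀ x : T d, evl c x ≤ 1) (η : Measure (T d))
    (γ : Measure (T d × T d)) (hγ : Coupling (rho c) η γ) :
    (∫ x, ev c x ∂rho c) - ∫ x, ev c x ∂η ≤
      Real.sqrt (DD c) * Real.sqrt (∫ p, dist2 p.1 p.2 ∂γ) + CC c * ∫ p, dist2 p.1 p.2 ∂γ := by
  have hP := prob hc hle
  obtain ⟨hγ1, hγ2⟩ := hγ
  have hPγ : IsProbabilityMeasure γ := by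
    constructor
    have h1 : (γ.map Prod.fst) Set.univ = 1 := by rw [hγ1]; exact measure_univ
    rwa [Measure.map_apply measurable_fst MeasurableSet.univ, Set.preimage_univ] at h1
  have hS : Continuous (fun x : T d => ∑ i, evd c i x ^ 2) :=
    continuous_finsetSum _ fun i _ => (evd_cont i).pow 2
  have e1 : ∫ x, ev c x ∂rho c = ∫ p, ev c p.1 ∂γ := by
    rw [← hγ1, integral_map measurable_fst.aemeasurable ev_cont.aestronglyMeasurable]
  have e2 : ∫ x, ev c x ∂η = ∫ p, ev c p.2 ∂γ := by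
    rw [← hγ2, integral_map measurable_snd.aemeasurable ev_cont.aestronglyMeasurable]
  have e3 : DD c = ∫ p, Real.sqrt (∑ i, evd c i p.1 ^ 2) ^ 2 ∂γ := by
    have e4 : ∀ p : T d × T d, Real.sqrt (∑ i, evd c i p.1 ^ 2) ^ 2 = ∑ i, evd c i p.1 ^ 2 :=
      fun p => Real.sq_sqrt (Finset.sum_nonneg fun _ _ => sq_nonneg _)
    simp only [e4]
    unfold DD
    have e5 := int_rho hle (fun x => ∑ i, evd c i x ^ 2)
    simp only [smul_eq_mul] at e5
    rw [← e5, ← hγ1, integral_map measurable_fst.aemeasurable hS.aestronglyMeasurable]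
  have e6 : ∫ p, dist2 p.1 p.2 ∂γ = ∫ p, Real.sqrt (dist2 p.1 p.2) ^ 2 ∂γ :=
    integral_congr_ae (Eventually.of_forall fun p =>
      (Real.sq_sqrt (dist2_nonneg p.1 p.2)).symm)
  have c1 : Continuous (fun p : T d × T d => Real.sqrt (∑ i, evd c i p.1 ^ 2)) :=
    Real.continuous_sqrt.comp (hS.comp continuous_fst)
  have c2 : Continuous (fun p : T d × T d => Real.sqrt (dist2 p.1 p.2)) :=
    Real.continuous_sqrt.comp dist2_cont
  have i1 : Integrable (fun p : T d × T d => ev c p.1) γ :=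
    cint _ (ev_cont.comp continuous_fst)
  have i2 : Integrable (fun p : T d × T d => ev c p.2) γ :=
    cint _ (ev_cont.comp continuous_snd)
  rw [e1, e2, ← integral_sub i1 i2]
  have h1 : ∫ p : T d × T d, (ev c p.1 - ev c p.2) ∂γ ≤
      ∫ p : T d × T d, (Real.sqrt (∑ i, evd c i p.1 ^ 2) * Real.sqrt (dist2 p.1 p.2) +
        CC c * dist2 p.1 p.2) ∂γ := by
    apply integral_mono
    · exact cint _ ((ev_cont.comp continuous_fst).sub (ev_cont.comp continuous_snd))
    · exact cint _ ((c1.mul c2).add (continuous_const.mul dist2_cont))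
    · intro p
      exact taylor p.1 p.2
  refine h1.trans ?_
  have i3 : Integrable (fun p : T d × T d =>
      Real.sqrt (∑ i, evd c i p.1 ^ 2) * Real.sqrt (dist2 p.1 p.2)) γ := cint _ (c1.mul c2)
  have i4 : Integrable (fun p : T d × T d => CC c * dist2 p.1 p.2) γ :=
    cint _ (continuous_const.mul dist2_cont)
  rw [integral_add i3 i4, integral_const_mul]
  have h2 := cs γ c1 c2
  rw [← e3, ← e6] at h2
  linarith

lemma W2_le (hc : RT c) (hle : ∀ x : T d, evl c x ≤ 1) (η : Measure (T d))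
    [IsProbabilityMeasure η] :
    (∫ x, ev c x ∂rho c) - ∫ x, ev c x ∂η ≤
      Real.sqrt (DD c) * W2 (rho c) η + CC c * W2 (rho c) η ^ 2 := by
  have hP := prob hc hle
  have hne : Nonempty {γ : Measure (T d × T d) // Coupling (rho c) η γ} := by
    refine ⟨⟨(rho c).prod η, ?_, ?_⟩⟩
    · rw [Measure.map_fst_prod]; simp
    · rw [Measure.map_snd_prod]; simp
  have hbd : BddBelow (Set.range fun γ : {γ : Measure (T d × T d) // Coupling (rho c) η γ} =>
      ∫ p, dist2 p.1 p.2 ∂γ.1) := by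
    refine ⟨0, ?_⟩
    rintro _ ⟨γ, rfl⟩
    exact integral_nonneg fun p => dist2_nonneg _ _
  have hm : 0 ≤ ⨅ γ : {γ : Measure (T d × T d) // Coupling (rho c) η γ},
      ∫ p, dist2 p.1 p.2 ∂γ.1 := Real.iInf_nonneg fun γ => integral_nonneg fun p => dist2_nonneg _ _
  unfold W2
  rw [Real.sq_sqrt hm]
  obtain ⟨φ, hφ⟩ : ∃ φ : ℝ → ℝ, φ = fun w => Real.sqrt (DD c) * Real.sqrt w + CC c * w := ⟨_, rfl⟩
  have hmono : Monotone φ := by
    intro a b hab
    rw [hφ]
    exact add_le_add (mul_le_mul_of_nonneg_left (Real.sqrt_le_sqrt hab) (Real.sqrt_nonneg _))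
      (mul_le_mul_of_nonneg_left hab CC_nonneg)
  have hcont : Continuous φ := by rw [hφ]; fun_prop
  have e1 := Monotone.map_ciInf_of_continuousAt (f := φ)
    (g := fun γ : {γ : Measure (T d × T d) // Coupling (rho c) η γ} =>
      ∫ p, dist2 p.1 p.2 ∂γ.1) hcont.continuousAt hmono hbd
  have h1 : (∫ x, ev c x ∂rho c) - ∫ x, ev c x ∂η ≤ φ (⨅ γ : {γ : Measure (T d × T d) //
      Coupling (rho c) η γ}, ∫ p, dist2 p.1 p.2 ∂γ.1) := by
    rw [e1]
    refine le_ciInf fun γ => ?_
    rw [hφ]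
    exact coupling_le hc hle η γ.1 γ.2
  rw [hφ] at h1
  exact h1

lemma DD_nonneg (hle : ∀ x : T d, evl c x ≤ 1) : 0 ≤ DD c := by
  unfold DD
  refine integral_nonneg fun x => ?_
  simp only [Pi.zero_apply]
  exact mul_nonneg (by linarith [hle x]) (Finset.sum_nonneg fun i _ => sq_nonneg _)

lemma slope_le (hc : RT c) (hle : ∀ x : T d, evl c x ≤ 1) (r : ℝ) (hr : 0 < r) :
    slope (rho c) ≤ ENNReal.ofReal (Real.sqrt (DD c) + CC c * r) := by
  unfold slope
  refine iInf_le_of_le ⟨r, hr⟩ (iSup_le ?_)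
  rintro ⟨η, hη, hW0, hWr⟩
  have hP := hη
  apply ENNReal.div_le_of_le_mul
  rw [tsub_le_iff_left]
  refine (energy_le hc hle η).trans ?_
  gcongr
  rw [← ENNReal.ofReal_mul (add_nonneg (Real.sqrt_nonneg _) (mul_nonneg CC_nonneg hr.le))]
  apply ENNReal.ofReal_le_ofReal
  refine (W2_le hc hle η).trans ?_
  have h1 : CC c * W2 (rho c) η ^ 2 ≤ CC c * r * W2 (rho c) η := by
    have h2 : W2 (rho c) η ^ 2 ≤ r * W2 (rho c) η := by
      rw [sq]
      exact mul_le_mul_of_nonneg_right hWr.le hW0.le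
    have := mul_le_mul_of_nonneg_left h2 (CC_nonneg (c := c))
    linarith
  linarith

lemma slope_le' (hc : RT c) (hle : ∀ x : T d, evl c x ≤ 1) :
    slope (rho c) ≤ ENNReal.ofReal (Real.sqrt (DD c)) := by
  have h1 : Tendsto (fun r : ℝ => ENNReal.ofReal (Real.sqrt (DD c) + CC c * r)) (𝓝[>] 0)
      (𝓝 (ENNReal.ofReal (Real.sqrt (DD c)))) := by
    have h2 : Continuous (fun r : ℝ => ENNReal.ofReal (Real.sqrt (DD c) + CC c * r)) :=
      ENNReal.continuous_ofReal.comp (by fun_prop)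
    have h3 := (h2.tendsto 0).mono_left (nhdsWithin_le_nhds (s := Set.Ioi 0))
    simpa using h3
  refine ge_of_tendsto h1 ?_
  filter_upwards [self_mem_nhdsWithin] with r hr
  exact slope_le hc hle r hr

theorem upp_all (d : ℕ) : S_UPP d := by
  intro c hc hle
  refine ⟨prob hc hle, F_eq hc hle, ?_⟩
  have h1 := slope_le' hc hle
  calc slope (rho c) ^ 2 ≤ (ENNReal.ofReal (Real.sqrt (DD c))) ^ 2 := by gcongr
    _ = ENNReal.ofReal (DD c) := by
      rw [← ENNReal.ofReal_pow (Real.sqrt_nonneg _), Real.sq_sqrt (DD_nonneg hle)]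

theorem upp (d : ℕ) (_ : 1 ≤ d) : S_UPP d := upp_all d

end Pool.Agent.R763.PL.Upp
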