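import Pool.Agent.R763.PL.Stm

/-!
# Coulomb MMD on the torus: slope and energy of the density `1 - Δh`, part A (Fourier facts)
-/

set_option autoImplicit false

open MeasureTheory UnitAddTorus Filter Topology
open scoped ENNReal Real ContDiff

namespace Pool.Agent.R763.PL.Upp

variable {d : ℕ}

instance : IsProbabilityMeasure (vol d) := by unfold vol; infer_instance

lemma norm_e (k : Fin d → ℤ) (x : T d) : ‖mFourier k x‖ = 1 := by
  simp only [mFourier, fourier_apply, ContinuousMap.coe_mk, norm_prod, Circle.norm_coe,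
    Finset.prod_const_one]

lemma int_e (k : Fin d → ℤ) : ∫ x, mFourier k x ∂vol d = if k = 0 then 1 else 0 := by
  split_ifs with h
  · rw [h, mFourier_zero]
    simp
  · have h1 : ∫ x, mFourier k x ∂vol d =
        ∏ i, ∫ t, fourier (k i) t ∂(AddCircle.haarAddCircle : Measure UnitAddCircle) := by
      unfold vol
      simp only [mFourier, ContinuousMap.coe_mk]
      exact MeasureTheory.integral_fintype_prod_eq_prod (fun i t => fourier (k i) t)
    obtain ⟨i, hi⟩ := Function.ne_iff.mp h
    rw [h1]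
    apply Finset.prod_eq_zero (Finset.mem_univ i)
    have h2 := (orthonormal_iff_ite.mp (orthonormal_fourier (T := 1))) 0 (k i)
    simp only [ContinuousMap.inner_toLp, ← fourier_neg, ← fourier_add] at h2
    have h3 : (0 : ℤ) ≠ k i := fun e => hi (by simpa using e.symm)
    rw [if_neg h3] at h2
    simpa using h2

/-- trigonometric sums -/
noncomputable def G (s : Finset (Fin d → ℤ)) (a : (Fin d → ℤ) → ℂ) (x : T d) : ℂ :=
  ∑ k ∈ s, a k * mFourier k x

lemma G_cont (s : Finset (Fin d → ℤ)) (a : (Fin d → ℤ) → ℂ) : Continuous (G s a) := by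
  unfold G
  exact continuous_finsetSum _ fun k _ => continuous_const.mul (mFourier k).continuous

/-- continuous functions are integrable for finite measures -/
lemma cint {X E : Type*} [TopologicalSpace X] [CompactSpace X] [MeasurableSpace X]
    [OpensMeasurableSpace X] [NormedAddCommGroup E] [SecondCountableTopologyEither X E]
    (μ : Measure X) [IsFiniteMeasure μ] {f : X → E}
    (hf : Continuous f) : Integrable f μ := by
  exact hf.integrable_of_hasCompactSupport (HasCompactSupport.of_compactSpace f)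

/-- Fourier coefficients of trigonometric sums -/
lemma coef (s : Finset (Fin d → ℤ)) (a : (Fin d → ℤ) → ℂ) (ha : ∀ k, k ∉ s → a k = 0)
    (l : Fin d → ℤ) : ∫ x, mFourier l x * G s a x ∂vol d = a (-l) := by
  unfold G
  have e : ∀ x, mFourier l x * ∑ k ∈ s, a k * mFourier k x =
      ∑ k ∈ s, a k * mFourier (l + k) x := by
    intro x
    rw [Finset.mul_sum]
    refine Finset.sum_congr rfl fun k _ => ?_
    rw [mFourier_add]; ring
  simp only [e]
  rw [integral_finsetSum]
  · simp only [integral_const_mul, int_e]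
    by_cases h : -l ∈ s
    · rw [Finset.sum_eq_single (-l)]
      · simp
      · intro k _ hk
        rw [if_neg, mul_zero]
        intro h0
        exact hk (by rw [eq_neg_iff_add_eq_zero, add_comm]; exact h0)
      · intro h'; exact absurd h h'
    · rw [ha _ h]
      apply Finset.sum_eq_zero
      intro k hk
      rw [if_neg, mul_zero]
      intro h0
      apply h
      have : -l = k := by rw [neg_eq_iff_add_eq_zero]; exact h0
      rw [this]; exact hk
  · intro k _
    exact cint _ (continuous_const.mul (mFourier _).continuous)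

lemma G_real (s : Finset (Fin d → ℤ)) (a : (Fin d → ℤ) → ℂ) (_ : ∀ k, k ∉ s → a k = 0)
    (hs : ∀ k, k ∈ s → -k ∈ s) (hc : ∀ k, a (-k) = starRingEnd ℂ (a k)) (x : T d) :
    ((G s a x).re : ℂ) = G s a x := by
  rw [← Complex.conj_eq_iff_re]
  unfold G
  rw [map_sum]
  refine Finset.sum_nbij' (fun k => -k) (fun k => -k) hs hs (fun k _ => neg_neg k)
    (fun k _ => neg_neg k) ?_
  intro k _
  rw [map_mul, ← mFourier_neg, hc]

/-- Parseval -/
lemma parseval (s : Finset (Fin d → ℤ)) (a : (Fin d → ℤ) → ℂ) (ha : ∀ k, k ∉ s → a k = 0)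
    (hs : ∀ k, k ∈ s → -k ∈ s) (hc : ∀ k, a (-k) = starRingEnd ℂ (a k)) :
    ∫ x, (G s a x).re ^ 2 ∂vol d = ∑ k ∈ s, ‖a k‖ ^ 2 := by
  have h1 : ((∫ x, (G s a x).re ^ 2 ∂vol d : ℝ) : ℂ) = ∑ k ∈ s, ((‖a k‖ ^ 2 : ℝ) : ℂ) := by
    rw [← integral_complex_ofReal]
    have e : ∀ x, (((G s a x).re ^ 2 : ℝ) : ℂ) = ∑ k ∈ s, a k * (mFourier k x * G s a x) := by
      intro x
      rw [Complex.ofReal_pow, G_real s a ha hs hc x, sq]
      show (∑ k ∈ s, a k * mFourier k x) * G s a x = _
      rw [Finset.sum_mul]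
      refine Finset.sum_congr rfl fun k _ => ?_
      ring
    simp only [e]
    rw [integral_finsetSum]
    · refine Finset.sum_congr rfl fun k _ => ?_
      rw [integral_const_mul, coef s a ha, hc, Complex.mul_conj, Complex.normSq_eq_norm_sq]
    · intro k _
      exact cint _ (continuous_const.mul ((mFourier k).continuous.mul (G_cont s a)))
  rw [← Complex.ofReal_sum] at h1
  exact_mod_cast h1

/-- the symbol of minus the Laplacian -/
noncomputable def lam (k : Fin d → ℤ) : ℝ := 4 * π ^ 2 * ∑ i, (k i : ℝ) ^ 2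

lemma lam_nonneg (k : Fin d → ℤ) : 0 ≤ lam k := by
  unfold lam
  have : 0 ≤ ∑ i, (k i : ℝ) ^ 2 := Finset.sum_nonneg fun i _ => sq_nonneg _
  positivity

lemma lam_zero : lam (0 : Fin d → ℤ) = 0 := by simp [lam]

lemma lam_ne (k : Fin d → ℤ) (hk : k ≠ 0) : lam k ≠ 0 := by
  unfold lam
  obtain ⟨i, hi⟩ := Function.ne_iff.mp hk
  have h1 : 0 < ∑ i, (k i : ℝ) ^ 2 := by
    apply Finset.sum_pos' (fun i _ => sq_nonneg _)
    refine ⟨i, Finset.mem_univ i, ?_⟩
    have : (k i : ℝ) ≠ 0 := by exact_mod_cast hi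
    positivity
  positivity

lemma gh_eq (k : Fin d → ℤ) : gh k = (lam k)⁻¹ := rfl

lemma lam_neg (k : Fin d → ℤ) : lam (-k) = lam k := by simp [lam]

section c

variable (c : (Fin d → ℤ) →₀ ℂ)

lemma c_zero (k : Fin d → ℤ) (hk : k ∉ c.support) : c k = 0 := Finsupp.notMem_support_iff.1 hk

variable {c}

lemma c_neg (hc : RT c) (k : Fin d → ℤ) (hk : k ∈ c.support) : -k ∈ c.support := by
  rw [Finsupp.mem_support_iff] at hk ⊢
  rw [hc k]
  simpa using hk

lemma ev_eq (x : T d) : ev c x = (G c.support c x).re := rfl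

lemma evd_eq (i : Fin d) (x : T d) : evd c i x =
    (G c.support (fun k => (2 * π * Complex.I * (k i : ℂ)) * c k) x).re := rfl

lemma evl_eq (x : T d) : evl c x = (G c.support (fun k => ((-lam k : ℝ) : ℂ) * c k) x).re := by
  unfold evl G lam Finsupp.sum
  congr 1
  refine Finset.sum_congr rfl fun k _ => ?_
  push_cast
  ring

lemma evl_real (hc : RT c) (x : T d) :
    ((evl c x : ℝ) : ℂ) = G c.support (fun k => ((-lam k : ℝ) : ℂ) * c k) x := by
  rw [evl_eq]
  apply G_real _ _ _ (fun k => c_neg hc k)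
  · intro k
    rw [lam_neg, hc, map_mul, Complex.conj_ofReal]
  · intro k hk
    rw [c_zero c k hk, mul_zero]

lemma ev_real (hc : RT c) (x : T d) : ((ev c x : ℝ) : ℂ) = G c.support c x := by
  rw [ev_eq]
  exact G_real _ _ (fun k hk => c_zero c k hk) (fun k => c_neg hc k) hc x

lemma evd_parseval (hc : RT c) (i : Fin d) : ∫ x, evd c i x ^ 2 ∂vol d =
    ∑ k ∈ c.support, 4 * π ^ 2 * (k i : ℝ) ^ 2 * ‖c k‖ ^ 2 := by
  simp only [evd_eq]
  rw [parseval _ _ _ (fun k => c_neg hc k)]
  · refine Finset.sum_congr rfl fun k _ => ?_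
    rw [norm_mul, norm_mul, norm_mul, norm_mul, Complex.norm_I, Complex.norm_real]
    have h1 : ‖(2 : ℂ)‖ = 2 := by simp
    have h2 : ‖((k i : ℤ) : ℂ)‖ = |(k i : ℝ)| := by
      rw [← Complex.ofReal_intCast, Complex.norm_real, Real.norm_eq_abs]
    rw [h1, h2, Real.norm_eq_abs, abs_of_pos Real.pi_pos, mul_one, mul_pow, mul_pow, mul_pow,
      sq_abs]
    ring
  · intro k
    have h2 : (starRingEnd ℂ) 2 = 2 := map_ofNat _ 2
    have h3 : (starRingEnd ℂ) ((k i : ℤ) : ℂ) = ((k i : ℤ) : ℂ) := map_intCast _ _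
    rw [hc, map_mul, map_mul, map_mul, map_mul, Complex.conj_I, Complex.conj_ofReal, h2, h3,
      Pi.neg_apply]
    push_cast
    ring
  · intro k hk
    rw [c_zero c k hk, mul_zero]

lemma ev_cont : Continuous (ev c) := by
  have : ev c = fun x => (G c.support c x).re := rfl
  rw [this]
  exact Complex.continuous_re.comp (G_cont _ _)

lemma evd_cont (i : Fin d) : Continuous (evd c i) :=
  Complex.continuous_re.comp (G_cont c.support (fun k => (2 * π * Complex.I * (k i : ℂ)) * c k))

lemma evl_cont : Continuous (evl c) := by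
  have : evl c = fun x => (G c.support (fun k => ((-lam k : ℝ) : ℂ) * c k) x).re :=
    funext evl_eq
  rw [this]
  exact Complex.continuous_re.comp (G_cont _ _)

end c

end Pool.Agent.R763.PL.Upp
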