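import Pool.Agent.R763.PL.UppA

/-!
# Coulomb MMD on the torus: slope and energy of the density `1 - Δh`, part B (energy)
-/

set_option autoImplicit false

open MeasureTheory UnitAddTorus Filter Topology
open scoped ENNReal Real ContDiff

namespace Pool.Agent.R763.PL.Upp

variable {d : ℕ} {c : (Fin d → ℤ) →₀ ℂ}

/-- the measure with density `1 - Δh` -/
noncomputable def rho (c : (Fin d → ℤ) →₀ ℂ) : Measure (T d) :=
  (vol d).withDensity (fun x => ENNReal.ofReal (1 - evl c x))

lemma int_rho {E : Type*} [NormedAddCommGroup E] [NormedSpace ℝ E] (hle : ∀ x : T d, evl c x ≤ 1)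
    (g : T d → E) : ∫ x, g x ∂rho c = ∫ x, (1 - evl c x) • g x ∂vol d := by
  unfold rho
  rw [integral_withDensity_eq_integral_toReal_smul]
  · refine integral_congr_ae (Eventually.of_forall fun x => ?_)
    simp only
    rw [ENNReal.toReal_ofReal (by linarith [hle x])]
  · exact ENNReal.measurable_ofReal.comp ((continuous_const.sub evl_cont).measurable)
  · exact Eventually.of_forall fun x => ENNReal.ofReal_lt_top

lemma int_e_evl (hc : RT c) (l : Fin d → ℤ) :
    ∫ x, mFourier l x * ((evl c x : ℝ) : ℂ) ∂vol d = -((lam l : ℝ) : ℂ) * c (-l) := by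
  simp only [evl_real hc]
  rw [coef]
  · rw [lam_neg]
    push_cast
    ring
  · intro k hk
    rw [c_zero c k hk, mul_zero]

lemma int_evl (hc : RT c) : ∫ x, evl c x ∂vol d = 0 := by
  have h1 : ((∫ x, evl c x ∂vol d : ℝ) : ℂ) = 0 := by
    rw [← integral_complex_ofReal]
    have h2 := int_e_evl hc 0
    rw [mFourier_zero] at h2
    simp only [ContinuousMap.one_apply, one_mul, lam_zero, Complex.ofReal_zero, neg_zero,
      zero_mul] at h2
    exact h2
  exact_mod_cast h1

lemma prob (hc : RT c) (hle : ∀ x : T d, evl c x ≤ 1) : IsProbabilityMeasure (rho c) := by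
  constructor
  unfold rho
  rw [withDensity_apply _ MeasurableSet.univ, Measure.restrict_univ,
    ← ofReal_integral_eq_lintegral_ofReal]
  · rw [integral_sub (cint _ continuous_const) (cint _ evl_cont), int_evl hc]
    simp
  · exact cint _ (continuous_const.sub evl_cont)
  · exact Eventually.of_forall fun x => by
      simp only [Pi.zero_apply]
      linarith [hle x]

lemma mc_rho (hc : RT c) (hle : ∀ x : T d, evl c x ≤ 1) (k : Fin d → ℤ) :
    mc (rho c) k = (if k = 0 then 1 else 0) + ((lam k : ℝ) : ℂ) * c k := by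
  unfold mc
  rw [int_rho hle]
  have e : ∀ x : T d, (1 - evl c x) • mFourier (-k) x =
      mFourier (-k) x - mFourier (-k) x * ((evl c x : ℝ) : ℂ) := by
    intro x
    rw [Complex.real_smul]
    push_cast
    ring
  have hi : Integrable (fun x => mFourier (-k) x * ((evl c x : ℝ) : ℂ)) (vol d) :=
    cint _ ((mFourier _).continuous.mul (Complex.continuous_ofReal.comp evl_cont))
  simp only [e]
  rw [integral_sub (cint _ (mFourier _).continuous) hi, int_e, int_e_evl hc, lam_neg, neg_neg]
  simp only [neg_eq_zero]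
  ring

lemma gh_mc (hc : RT c) (hle : ∀ x : T d, evl c x ≤ 1) (k : Fin d → ℤ) :
    gh k * ‖mc (rho c) k‖ ^ 2 = lam k * ‖c k‖ ^ 2 := by
  rw [mc_rho hc hle, gh_eq]
  by_cases hk : k = 0
  · subst hk
    rw [lam_zero]
    simp
  · rw [if_neg hk, zero_add, norm_mul, Complex.norm_real, Real.norm_eq_abs,
      abs_of_nonneg (lam_nonneg k)]
    have := lam_ne k hk
    field_simp

lemma F_rho (hc : RT c) (hle : ∀ x : T d, evl c x ≤ 1) :
    F (rho c) = ENNReal.ofReal ((1 / 2) * ∑ k ∈ c.support, gh k * ‖mc (rho c) k‖ ^ 2) := by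
  unfold F
  have h1 : ∀ k, k ∉ c.support → ENNReal.ofReal (gh k * ‖mc (rho c) k‖ ^ 2) = 0 := by
    intro k hk
    rw [gh_mc hc hle, c_zero c k hk]
    simp
  rw [tsum_eq_sum h1, ← ENNReal.ofReal_sum_of_nonneg, ENNReal.ofReal_mul (by norm_num)]
  · congr 1
    rw [ENNReal.ofReal_div_of_pos (by norm_num)]
    simp
  · intro k _
    rw [gh_mc hc hle]
    exact mul_nonneg (lam_nonneg k) (by positivity)

lemma sum_evd (hc : RT c) : ∫ x, ∑ i, evd c i x ^ 2 ∂vol d =
    ∑ k ∈ c.support, lam k * ‖c k‖ ^ 2 := by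
  rw [integral_finsetSum]
  · simp only [evd_parseval hc]
    rw [Finset.sum_comm]
    refine Finset.sum_congr rfl fun k _ => ?_
    unfold lam
    rw [Finset.mul_sum, Finset.sum_mul]
  · intro i _
    exact cint _ ((evd_cont i).pow 2)

lemma F_eq (hc : RT c) (hle : ∀ x : T d, evl c x ≤ 1) :
    F (rho c) = ENNReal.ofReal ((1 / 2) * ∫ x, ∑ i, evd c i x ^ 2 ∂vol d) := by
  rw [F_rho hc hle, sum_evd hc]
  congr 2
  exact Finset.sum_congr rfl fun k _ => gh_mc hc hle k

/-- integral of `h` -/
lemma int_ev (hc : RT c) (η : Measure (T d)) [IsProbabilityMeasure η] :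
    ∫ x, ev c x ∂η = ∑ k ∈ c.support, (c k * starRingEnd ℂ (mc η k)).re := by
  have h1 : ((∫ x, ev c x ∂η : ℝ) : ℂ) = ∑ k ∈ c.support, c k * starRingEnd ℂ (mc η k) := by
    rw [← integral_complex_ofReal]
    simp only [ev_real hc]
    unfold G
    rw [integral_finsetSum]
    · refine Finset.sum_congr rfl fun k _ => ?_
      rw [integral_const_mul]
      congr 1
      unfold mc
      rw [← integral_conj]
      refine integral_congr_ae (Eventually.of_forall fun x => ?_)
      simp only
      rw [← mFourier_neg, neg_neg]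
    · intro k _
      exact cint _ (continuous_const.mul (mFourier _).continuous)
  have h2 := congrArg Complex.re h1
  rw [Complex.ofReal_re, Complex.re_sum] at h2
  exact h2

lemma mc_zero (η : Measure (T d)) [IsProbabilityMeasure η] : mc η 0 = 1 := by
  unfold mc
  rw [neg_zero, mFourier_zero]
  simp

/-- convexity of the energy -/
lemma energy_le (hc : RT c) (hle : ∀ x : T d, evl c x ≤ 1) (η : Measure (T d))
    [IsProbabilityMeasure η] :
    F (rho c) ≤ F η + ENNReal.ofReal ((∫ x, ev c x ∂rho c) - ∫ x, ev c x ∂η) := by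
  have hP := prob hc hle
  have h1 : ENNReal.ofReal ((1 / 2) * ∑ k ∈ c.support, gh k * ‖mc η k‖ ^ 2) ≤ F η := by
    unfold F
    rw [ENNReal.ofReal_mul (by norm_num), ENNReal.ofReal_sum_of_nonneg]
    · have e : ENNReal.ofReal (1 / 2) = 1 / 2 := by
        rw [ENNReal.ofReal_div_of_pos (by norm_num)]
        simp
      rw [e]
      gcongr
      exact ENNReal.sum_le_tsum _
    · intro k _
      rw [gh_eq]
      exact mul_nonneg (inv_nonneg.2 (lam_nonneg k)) (by positivity)
  refine le_trans ?_ (add_le_add_left h1 _)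
  rw [F_rho hc hle]
  refine le_trans (ENNReal.ofReal_le_ofReal ?_) ENNReal.ofReal_add_le
  rw [int_ev hc, int_ev hc, ← Finset.sum_sub_distrib, Finset.mul_sum, Finset.mul_sum,
    ← Finset.sum_add_distrib]
  apply Finset.sum_le_sum
  intro k _
  by_cases hk : k = 0
  · subst hk
    rw [mc_zero, mc_zero, gh_eq, lam_zero]
    simp
  · have hl := lam_ne k hk
    have hl0 := lam_nonneg k
    have hl' : ((lam k : ℝ) : ℂ) ≠ 0 := by exact_mod_cast hl
    have e1 : c k = ((gh k : ℝ) : ℂ) * mc (rho c) k := by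
      rw [mc_rho hc hle, if_neg hk, zero_add, gh_eq]
      push_cast
      field_simp
    rw [e1]
    have hg : 0 ≤ gh k := by rw [gh_eq]; exact inv_nonneg.2 hl0
    generalize mc (rho c) k = z
    generalize mc η k = w
    have e2 : (((gh k : ℝ) : ℂ) * z * (starRingEnd ℂ) z).re - (((gh k : ℝ) : ℂ) * z *
        (starRingEnd ℂ) w).re = gh k * ((z.re ^ 2 + z.im ^ 2) - (z.re * w.re + z.im * w.im)) := by
      simp [Complex.mul_re, Complex.mul_im]
      ring
    rw [e2, ← Complex.normSq_eq_norm_sq, ← Complex.normSq_eq_norm_sq, Complex.normSq_apply,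
      Complex.normSq_apply]
    have h3 : 0 ≤ gh k * ((z.re - w.re) ^ 2 + (z.im - w.im) ^ 2) := by positivity
    nlinarith

end Pool.Agent.R763.PL.Upp
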