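import Pool.Agent.R763.PL.Stm

/-!
# Project PL: piece VAR (first variation by Parseval)
-/

set_option autoImplicit false

open MeasureTheory UnitAddTorus Filter Topology
open scoped ENNReal Real

namespace Pool.Agent.R763.PL.Var

instance vol_prob (d : ℕ) : IsProbabilityMeasure (vol d) := by
  unfold vol; infer_instance

lemma inv32 : ((3 : ℝ≥0∞) / 2)⁻¹ = 2 / 3 := by
  rw [ENNReal.inv_div (Or.inl (by simp)) (Or.inl (by simp))]

lemma third2 : (3 : ℝ≥0∞)⁻¹ + 3⁻¹ = 2 / 3 := by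
  rw [div_eq_mul_inv, two_mul]

lemma ht1 : ENNReal.HolderTriple (3 / 2) 3 1 := by
  refine ⟨?_⟩
  rw [inv32, inv_one, ← third2, add_assoc, ← third2.symm, ]
  have h : (3 : ℝ≥0∞)⁻¹ + 2 / 3 = 3 / 3 := by
    rw [div_eq_mul_inv, div_eq_mul_inv, ← one_mul (3 : ℝ≥0∞)⁻¹, ← mul_assoc, ← add_mul]
    norm_num
  exact h.trans (ENNReal.div_self (by simp) (by simp))

lemma ht2 : ENNReal.HolderTriple 3 3 (3 / 2) := ⟨by rw [inv32, third2]⟩

attribute [local instance] ht1 ht2

variable {d : ℕ}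

lemma int_mul {f g : T d → ℝ} (hf : MemLp f (3 / 2) (vol d)) (hg : MemLp g 3 (vol d)) :
    Integrable (fun x => f x * g x) (vol d) := hf.integrable_mul hg

lemma mul_mem {f g : T d → ℝ} (hf : MemLp f 3 (vol d)) (hg : MemLp g 3 (vol d)) :
    MemLp (fun x => f x * g x) (3 / 2) (vol d) :=
  hg.mul hf

lemma le32 : (3 / 2 : ℝ≥0∞) ≤ 3 := ENNReal.div_le_of_le_mul (by
  calc (3 : ℝ≥0∞) = 3 * 1 := by simp
    _ ≤ 3 * 2 := by gcongr; norm_num)

lemma le322 : (3 / 2 : ℝ≥0∞) ≤ 2 := ENNReal.div_le_of_le_mul (by norm_num)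

lemma one_le32 : (1 : ℝ≥0∞) ≤ 3 / 2 := by
  rw [ENNReal.le_div_iff_mul_le (Or.inl (by simp)) (Or.inl (by simp))]
  norm_num

lemma cont_sm (A : AI d) (c : (Fin d → ℤ) → ℂ) : Continuous (A.sm c) := by
  unfold AI.sm
  exact Complex.continuous_re.comp
    (continuous_finsetSum _ fun k _ => continuous_const.mul (mFourier k).continuous)

lemma norm_mF (k : Fin d → ℤ) (x : T d) : ‖mFourier k x‖ ≤ 1 := by
  have h := (mFourier k).norm_coe_le_norm x
  rwa [mFourier_norm] at h

lemma int_mF (k : Fin d → ℤ) {f : T d → ℝ} (hf : Integrable f (vol d)) :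
    Integrable (fun x => mFourier k x * (f x : ℂ)) (vol d) :=
  Integrable.bdd_mul (c := 1) hf.ofReal (mFourier k).continuous.aestronglyMeasurable
    (Eventually.of_forall fun x => norm_mF k x)

lemma int_sm (A : AI d) (c : (Fin d → ℤ) → ℂ) {f : T d → ℝ} (hf : Integrable f (vol d)) :
    ∫ x, f x * A.sm c x ∂vol d = (∑ k ∈ A.s, (A.a k : ℂ) * c k * fc f (-k)).re := by
  have h1 : ∀ x, f x * A.sm c x =
      RCLike.re (∑ k ∈ A.s, (A.a k : ℂ) * c k * (mFourier k x * (f x : ℂ))) := by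
    intro x
    unfold AI.sm
    have h2 : (∑ k ∈ A.s, (A.a k : ℂ) * c k * (mFourier k x * (f x : ℂ)))
        = (f x : ℂ) * ∑ k ∈ A.s, (A.a k : ℂ) * c k * mFourier k x := by
      rw [Finset.mul_sum]
      refine Finset.sum_congr rfl fun k _ => ?_
      ring
    rw [h2]
    change _ = ((f x : ℂ) * ∑ k ∈ A.s, (A.a k : ℂ) * c k * mFourier k x).re
    rw [Complex.re_ofReal_mul]
  simp_rw [h1]
  rw [integral_re]
  · change (∫ x, (∑ k ∈ A.s, (A.a k : ℂ) * c k * (mFourier k x * (f x : ℂ))) ∂vol d).re = _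
    congr 1
    rw [integral_finsetSum]
    · refine Finset.sum_congr rfl fun k _ => ?_
      rw [integral_const_mul]
      simp only [fc, neg_neg]
    · intro k _
      exact (int_mF k hf).const_mul _
  · exact integrable_finsetSum _ fun k _ => (int_mF k hf).const_mul _

lemma pars (hS : S_SMO d) {A : ℕ → AI d} (hA : AppId A) {f g : T d → ℝ}
    (hf : MemLp f (3 / 2) (vol d)) (hg : MemLp g 3 (vol d)) :
    Tendsto (fun n => (∑ k ∈ (A n).s, ((A n).a k : ℂ) * fc g k * fc f (-k)).re) atTop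
      (𝓝 (∫ x, f x * g x ∂vol d)) := by
  have hfi : Integrable f (vol d) := hf.integrable one_le32
  have hmem : ∀ n, MemLp ((A n).sm (fc g)) 3 (vol d) := fun n =>
    ⟨(cont_sm _ _).aestronglyMeasurable,
      (hS.2.1 (A n) 3 (by simp) g hg).trans_lt hg.2⟩
  have h1 : Tendsto (fun n => ∫ x, f x * (A n).sm (fc g) x ∂vol d) atTop
      (𝓝 (∫ x, f x * g x ∂vol d)) := by
    refine tendsto_integral_of_L1' _ (int_mul hf hg).aestronglyMeasurable
      (Eventually.of_forall fun n => int_mul hf (hmem n)) ?_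
    have h2 := hS.2.2 A hA.lim 3 (by simp) g hg
    have h3 : Tendsto (fun n => eLpNorm f (3 / 2) (vol d) *
        eLpNorm (fun x => (A n).sm (fc g) x - g x) 3 (vol d)) atTop (𝓝 0) := by
      have := ENNReal.Tendsto.const_mul (a := eLpNorm f (3 / 2) (vol d)) h2
        (Or.inr hf.2.ne)
      rwa [mul_zero] at this
    refine tendsto_of_tendsto_of_tendsto_of_le_of_le tendsto_const_nhds h3
      (fun n => bot_le) (fun n => ?_)
    have h4 : ((fun x => f x * (A n).sm (fc g) x) - fun x => f x * g x) =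
        f • (fun x => (A n).sm (fc g) x - g x) := by
      funext x
      simp [mul_sub]
    show eLpNorm ((fun x => f x * (A n).sm (fc g) x) - fun x => f x * g x) 1 (vol d) ≤ _
    rw [h4]
    exact eLpNorm_smul_le_mul_eLpNorm ((hmem n).sub hg).1 hf.1
  refine h1.congr fun n => ?_
  exact int_sm (A n) (fc g) hfi

lemma gh_neg (k : Fin d → ℤ) : gh (-k) = gh k := by
  simp [gh]

lemma sy_neg (i : Fin d) (k : Fin d → ℤ) : sy i (-k) = - sy i k := by
  simp only [sy, gh_neg, Pi.neg_apply]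
  push_cast
  ring

lemma sy_sum (k : Fin d → ℤ) : ∑ i, sy i k * sy i (-k) = gh k := by
  have h1 : ∀ i, sy i k * sy i (-k) =
      ((4 * π ^ 2 * (k i : ℝ) ^ 2 * (gh k) ^ 2 : ℝ) : ℂ) := by
    intro i
    rw [sy_neg]
    simp only [sy]
    push_cast
    have hI : Complex.I ^ 2 = -1 := Complex.I_sq
    linear_combination (-4 * (π : ℂ) ^ 2 * (k i : ℂ) ^ 2 * (gh k : ℂ) ^ 2) * hI
  simp_rw [h1]
  rw [← Complex.ofReal_sum]
  congr 1
  rw [← Finset.sum_mul, ← Finset.mul_sum]
  unfold gh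
  by_cases h0 : 4 * π ^ 2 * ∑ i, (k i : ℝ) ^ 2 = 0
  · rw [h0]; simp
  · field_simp

end Pool.Agent.R763.PL.Var

namespace Pool.Agent.R763.PL

open Var in
theorem var (d : ℕ) (hd : 1 ≤ d) (hF : S_FEJ d) (hS : S_SMO d) : S_VAR d := by
  intro ρ h φ σ v w hρ hv hh hφ hσ hσ0 hw
  obtain ⟨A, hA⟩ := hF
  have hh' : MemLp h (3 / 2) (vol d) := hh.mem.mono_exponent le322
  have hv' : ∀ i, MemLp (v i) (3 / 2) (vol d) := fun i => (hv.mem i).mono_exponent le32
  have hr : MemLp (fun x => 1 - ρ x) 3 (vol d) := (memLp_const 1).sub hρ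
  have hq : ∀ i, MemLp (fun x => (1 - ρ x) * v i x) (3 / 2) (vol d) := fun i =>
    mul_mem hr (hv.mem i)
  -- (A)
  have hAeq : ∑ i, ∫ x, v i x * w i x ∂vol d = ∫ x, h x * σ x ∂vol d := by
    have h1 : Tendsto (fun n => ∑ i, (∑ k ∈ (A n).s,
        ((A n).a k : ℂ) * fc (w i) k * fc (v i) (-k)).re) atTop
        (𝓝 (∑ i, ∫ x, v i x * w i x ∂vol d)) :=
      tendsto_finsetSum _ fun i _ => pars hS hA (hv' i) (hw.mem i)
    have h2 := pars hS hA hh' hσ
    refine tendsto_nhds_unique (h1.congr fun n => ?_) h2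
    rw [← Complex.re_sum, Finset.sum_comm]
    congr 1
    refine Finset.sum_congr rfl fun k _ => ?_
    rw [hh.four, gh_neg, ← sy_sum k]
    rw [Finset.sum_mul, Finset.mul_sum]
    refine Finset.sum_congr rfl fun i _ => ?_
    rw [hw.four, hv.four]
    ring
  have hBeq : ∑ i, ∫ x, (1 - ρ x) * v i x * w i x ∂vol d = ∫ x, φ x * σ x ∂vol d := by
    have h1 : Tendsto (fun n => ∑ i, (∑ k ∈ (A n).s,
        ((A n).a k : ℂ) * fc (w i) k * fc (fun x => (1 - ρ x) * v i x) (-k)).re) atTop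
        (𝓝 (∑ i, ∫ x, (1 - ρ x) * v i x * w i x ∂vol d)) :=
      tendsto_finsetSum _ fun i _ => pars hS hA (hq i) (hw.mem i)
    have h2 := pars hS hA hφ.mem hσ
    refine tendsto_nhds_unique (h1.congr fun n => ?_) h2
    rw [← Complex.re_sum, Finset.sum_comm]
    congr 1
    refine Finset.sum_congr rfl fun k _ => ?_
    rw [hφ.four, ← Finset.sum_neg_distrib, Finset.mul_sum]
    refine Finset.sum_congr rfl fun i _ => ?_
    rw [hw.four, sy_neg]
    ring
  -- integrability
  have iS : ∀ i, Integrable (fun x => σ x * v i x ^ 2) (vol d) := by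
    intro i
    have h1 := int_mul (mul_mem (hv.mem i) (hv.mem i)) hσ
    refine h1.congr (Eventually.of_forall fun x => ?_)
    show v i x * v i x * σ x = σ x * v i x ^ 2
    ring
  have iS' : Integrable (fun x => σ x * ∑ i, v i x ^ 2) (vol d) := by
    simp_rw [Finset.mul_sum]
    exact integrable_finsetSum _ fun i _ => iS i
  have iR : ∀ i, Integrable (fun x => ρ x * (v i x * w i x)) (vol d) := by
    intro i
    have h1 := int_mul (mul_mem (hv.mem i) (hw.mem i)) hρ
    refine h1.congr (Eventually.of_forall fun x => ?_)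
    show v i x * w i x * ρ x = ρ x * (v i x * w i x)
    ring
  have iW : ∀ i, Integrable (fun x => v i x * w i x) (vol d) := fun i =>
    int_mul (hv' i) (hw.mem i)
  have iQ : ∀ i, Integrable (fun x => (1 - ρ x) * v i x * w i x) (vol d) := fun i =>
    int_mul (hq i) (hw.mem i)
  have iH : Integrable (fun x => h x * σ x) (vol d) := int_mul hh' hσ
  have iP : Integrable (fun x => φ x * σ x) (vol d) := int_mul hφ.mem hσ
  have e1 : ∫ x, ρ x * ∑ i, v i x * w i x ∂vol d =
      (∑ i, ∫ x, v i x * w i x ∂vol d) - ∑ i, ∫ x, (1 - ρ x) * v i x * w i x ∂vol d := by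
    rw [← integral_finsetSum _ (fun i _ => iW i), ← integral_finsetSum _ (fun i _ => iQ i),
      ← integral_sub (integrable_finsetSum _ fun i _ => iW i)
        (integrable_finsetSum _ fun i _ => iQ i)]
    refine integral_congr_ae (Eventually.of_forall fun x => ?_)
    show ρ x * ∑ i, v i x * w i x =
      (∑ i, v i x * w i x) - ∑ i, (1 - ρ x) * v i x * w i x
    rw [Finset.mul_sum, ← Finset.sum_sub_distrib]
    refine Finset.sum_congr rfl fun i _ => ?_
    ring
  have e2 : ∫ x, ∑ i, v i x * w i x ∂vol d = ∑ i, ∫ x, v i x * w i x ∂vol d :=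
    integral_finsetSum _ (fun i _ => iW i)
  have e3 : ∫ x, σ x * Lf v h φ x ∂vol d = (∫ x, σ x * ∑ i, v i x ^ 2 ∂vol d)
      + 4 * kd d * (∫ x, h x * σ x ∂vol d) - 2 * ∫ x, φ x * σ x ∂vol d := by
    rw [← integral_const_mul, ← integral_const_mul, ← integral_add iS' (iH.const_mul _),
      ← integral_sub (f := fun x => σ x * ∑ i, v i x ^ 2 + 4 * kd d * (h x * σ x))
        (iS'.add (iH.const_mul _)) (iP.const_mul _)]
    refine integral_congr_ae (Eventually.of_forall fun x => ?_)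
    simp only [Lf]
    ring
  rw [e1, e2, e3, hAeq, hBeq]
  have hd0 : (d : ℝ) ≠ 0 := by
    have : 0 < d := hd
    positivity
  have hk : 2 - 2 * c1 d = 4 * kd d := by
    simp only [c1, kd]
    field_simp
    ring
  linear_combination (∫ x, h x * σ x ∂vol d) * hk

end Pool.Agent.R763.PL
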