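import Pool.Agent.R763.PL.Stm

/-! PL-YOU (MP_91511c_an): Young inequality with an integrable kernel on the torus. -/

set_option autoImplicit false

open MeasureTheory UnitAddTorus Filter Topology
open scoped ENNReal Real

namespace Pool.Agent.R763.PL

namespace You



variable {d : ℕ}

instance instProb : IsProbabilityMeasure (vol d) := by unfold vol; infer_instance

instance instLeft : (vol d).IsAddLeftInvariant := by unfold vol; infer_instance

instance instRight : (vol d).IsAddRightInvariant := by unfold vol; infer_instance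

instance instNeg0 : (AddCircle.haarAddCircle : Measure UnitAddCircle).IsNegInvariant :=
  Measure.IsAddHaarMeasure.isNegInvariant_of_regular _

instance instNeg : (vol d).IsNegInvariant := by unfold vol; infer_instance

lemma young_aux (K f : T d → ℝ) (hK : Measurable K) (hf : Measurable f) (r : ℝ) (hr : 1 < r) :
    ∫⁻ x, (∫⁻ y, ‖K (x - y)‖ₑ * ‖f y‖ₑ ∂vol d) ^ r ∂vol d ≤
      (∫⁻ y, ‖K y‖ₑ ∂vol d) ^ r * ∫⁻ y, ‖f y‖ₑ ^ r ∂vol d := by
  set A := ∫⁻ y, ‖K y‖ₑ ∂vol d with hA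
  have hr0 : 0 < r := by linarith
  set q : ℝ := r / (r - 1) with hq
  have hqr : q.HolderConjugate r := (Real.HolderConjugate.conjExponent hr).symm
  have hq0 : 0 < q := hqr.pos
  have hsum : 1 / q + 1 / r = 1 := by
    have := hqr.inv_add_inv_eq_one
    rwa [one_div, one_div]
  have hKxm : ∀ x, Measurable (fun y => ‖K (x - y)‖ₑ) := fun x =>
    (hK.comp (measurable_const.sub measurable_id)).enorm
  have hKx : ∀ x, ∫⁻ y, ‖K (x - y)‖ₑ ∂vol d = A := by
    intro x
    rw [hA]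
    exact lintegral_sub_left_eq_self (fun y => ‖K y‖ₑ) x
  have hKy : ∀ y, ∫⁻ x, ‖K (x - y)‖ₑ ∂vol d = A := by
    intro y
    rw [hA]
    exact lintegral_sub_right_eq_self (fun y => ‖K y‖ₑ) y
  have hpt : ∀ x, (∫⁻ y, ‖K (x - y)‖ₑ * ‖f y‖ₑ ∂vol d) ^ r ≤
      A ^ (r - 1) * ∫⁻ y, ‖K (x - y)‖ₑ * ‖f y‖ₑ ^ r ∂vol d := by
    intro x
    have h1 := ENNReal.lintegral_mul_le_Lp_mul_Lq (vol d) hqr
      (f := fun y => ‖K (x - y)‖ₑ ^ (1 / q)) (g := fun y => ‖K (x - y)‖ₑ ^ (1 / r) * ‖f y‖ₑ)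
      ((hKxm x).pow_const _).aemeasurable
      (((hKxm x).pow_const _).mul hf.enorm).aemeasurable
    have e1 : ∀ y, ((fun y => ‖K (x - y)‖ₑ ^ (1 / q)) * (fun y => ‖K (x - y)‖ₑ ^ (1 / r) * ‖f y‖ₑ)) y =
        ‖K (x - y)‖ₑ * ‖f y‖ₑ := by
      intro y
      simp only [Pi.mul_apply]
      rw [← mul_assoc, ← ENNReal.rpow_add_of_nonneg _ _ (by positivity) (by positivity), hsum,
        ENNReal.rpow_one]
    have e2 : ∀ y, (‖K (x - y)‖ₑ ^ (1 / q)) ^ q = ‖K (x - y)‖ₑ := by
      intro y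
      rw [← ENNReal.rpow_mul, one_div_mul_cancel hq0.ne', ENNReal.rpow_one]
    have e3 : ∀ y, (‖K (x - y)‖ₑ ^ (1 / r) * ‖f y‖ₑ) ^ r = ‖K (x - y)‖ₑ * ‖f y‖ₑ ^ r := by
      intro y
      rw [ENNReal.mul_rpow_of_nonneg _ _ hr0.le, ← ENNReal.rpow_mul, one_div_mul_cancel hr0.ne',
        ENNReal.rpow_one]
    simp_rw [e1, e2, e3] at h1
    rw [hKx x] at h1
    calc (∫⁻ y, ‖K (x - y)‖ₑ * ‖f y‖ₑ ∂vol d) ^ r
        ≤ (A ^ (1 / q) * (∫⁻ y, ‖K (x - y)‖ₑ * ‖f y‖ₑ ^ r ∂vol d) ^ (1 / r)) ^ r :=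
          ENNReal.rpow_le_rpow h1 hr0.le
      _ = A ^ (r - 1) * ∫⁻ y, ‖K (x - y)‖ₑ * ‖f y‖ₑ ^ r ∂vol d := by
          rw [ENNReal.mul_rpow_of_nonneg _ _ hr0.le, ← ENNReal.rpow_mul, ← ENNReal.rpow_mul,
            one_div_mul_cancel hr0.ne', ENNReal.rpow_one]
          congr 2
          have h2 : r - 1 ≠ 0 := by linarith
          rw [hq]
          field_simp
  have hm2 : Measurable (fun z : T d × T d => ‖K (z.1 - z.2)‖ₑ * ‖f z.2‖ₑ ^ r) :=
    ((hK.comp (measurable_fst.sub measurable_snd)).enorm).mul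
      ((hf.comp measurable_snd).enorm.pow_const r)
  calc ∫⁻ x, (∫⁻ y, ‖K (x - y)‖ₑ * ‖f y‖ₑ ∂vol d) ^ r ∂vol d
      ≤ ∫⁻ x, A ^ (r - 1) * ∫⁻ y, ‖K (x - y)‖ₑ * ‖f y‖ₑ ^ r ∂vol d ∂vol d :=
        lintegral_mono hpt
    _ = A ^ (r - 1) * ∫⁻ x, ∫⁻ y, ‖K (x - y)‖ₑ * ‖f y‖ₑ ^ r ∂vol d ∂vol d := by
        rw [lintegral_const_mul]
        exact Measurable.lintegral_prod_right' hm2
    _ = A ^ (r - 1) * ∫⁻ y, ∫⁻ x, ‖K (x - y)‖ₑ * ‖f y‖ₑ ^ r ∂vol d ∂vol d := by
        rw [lintegral_lintegral_swap hm2.aemeasurable]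
    _ = A ^ (r - 1) * ∫⁻ y, A * ‖f y‖ₑ ^ r ∂vol d := by
        congr 1
        apply lintegral_congr
        intro y
        have h5 : Measurable (fun x => ‖K (x - y)‖ₑ) :=
          (hK.comp (measurable_id.sub measurable_const)).enorm
        rw [lintegral_mul_const _ h5]
        congr 1
        exact hKy y
    _ = A ^ r * ∫⁻ y, ‖f y‖ₑ ^ r ∂vol d := by
        rw [lintegral_const_mul _ (hf.enorm.pow_const r), ← mul_assoc]
        congr 1
        conv_lhs => rw [← ENNReal.rpow_one A, ← ENNReal.rpow_mul, one_mul]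
        rw [← ENNReal.rpow_add_of_nonneg _ _ (by linarith) zero_le_one]
        congr 1
        ring

lemma mF_add (k : Fin d → ℤ) (x y : T d) :
    mFourier k (x + y) = mFourier k x * mFourier k y := by
  unfold mFourier
  simp only [ContinuousMap.coe_mk]
  rw [← Finset.prod_mul_distrib]
  apply Finset.prod_congr rfl
  intro i _
  rw [Pi.add_apply, fourier_apply, fourier_apply, fourier_apply, smul_add, AddCircle.toCircle_add]
  simp

lemma mF_bdd (k : Fin d → ℤ) (x : T d) : ‖mFourier k x‖ ≤ 1 := by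
  have h := (mFourier k).norm_coe_le_norm x
  rw [mFourier_norm] at h
  exact h

end You

open You in
theorem you (d : ℕ) : S_YOU d := by
  intro K hK p hp f hf
  have hp0 : p ≠ 0 := by rcases hp with rfl | rfl <;> norm_num
  have hpt : p ≠ ∞ := by
    rcases hp with rfl | rfl
    · norm_num
    · exact ENNReal.div_ne_top (by norm_num) (by norm_num)
  have hr : 1 < p.toReal := by
    rcases hp with rfl | rfl
    · norm_num
    · rw [ENNReal.toReal_div]
      norm_num
  have hp1 : 1 ≤ p := by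
    rw [← ENNReal.ofReal_toReal hpt, ENNReal.one_le_ofReal]
    exact hr.le
  set r := p.toReal with hrdef
  have hr0 : 0 < r := by linarith
  -- measurable representatives
  set K' : T d → ℝ := hK.1.mk K with hK'
  have hKm : Measurable K' := hK.1.stronglyMeasurable_mk.measurable
  have hKe : K =ᵐ[vol d] K' := hK.1.ae_eq_mk
  set f' : T d → ℝ := hf.1.mk f with hf'
  have hfm : Measurable f' := hf.1.stronglyMeasurable_mk.measurable
  have hfe : f =ᵐ[vol d] f' := hf.1.ae_eq_mk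
  have hKi : Integrable K' (vol d) := hK.congr hKe
  have hfL : MemLp f' p (vol d) := hf.ae_eq hfe
  have hfi : Integrable f' (vol d) := hfL.integrable hp1
  set g : T d → ℝ := fun x => ∫ y, K' (x - y) * f' y ∂vol d with hg
  have hm2 : Measurable (fun z : T d × T d => K' (z.1 - z.2) * f' z.2) :=
    (hKm.comp (measurable_fst.sub measurable_snd)).mul (hfm.comp measurable_snd)
  have hgm : StronglyMeasurable g := hm2.stronglyMeasurable.integral_prod_right'
  -- the norm
  have hgle : ∀ x, ‖g x‖ₑ ≤ ∫⁻ y, ‖K' (x - y)‖ₑ * ‖f' y‖ₑ ∂vol d := by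
    intro x
    refine (enorm_integral_le_lintegral_enorm _).trans (le_of_eq ?_)
    apply lintegral_congr
    intro y
    rw [enorm_mul]
  have hmain : eLpNorm g p (vol d) ≤ eLpNorm K 1 (vol d) * eLpNorm f p (vol d) := by
    rw [eLpNorm_congr_ae hKe, eLpNorm_congr_ae hfe, eLpNorm_one_eq_lintegral_enorm,
      eLpNorm_eq_lintegral_rpow_enorm_toReal hp0 hpt, eLpNorm_eq_lintegral_rpow_enorm_toReal hp0 hpt,
      ← hrdef]
    have h1 : ∫⁻ x, ‖g x‖ₑ ^ r ∂vol d ≤
        (∫⁻ y, ‖K' y‖ₑ ∂vol d) ^ r * ∫⁻ y, ‖f' y‖ₑ ^ r ∂vol d :=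
      (lintegral_mono fun x => ENNReal.rpow_le_rpow (hgle x) hr0.le).trans
        (young_aux K' f' hKm hfm r hr)
    calc (∫⁻ x, ‖g x‖ₑ ^ r ∂vol d) ^ (1 / r)
        ≤ ((∫⁻ y, ‖K' y‖ₑ ∂vol d) ^ r * ∫⁻ y, ‖f' y‖ₑ ^ r ∂vol d) ^ (1 / r) :=
          ENNReal.rpow_le_rpow h1 (by positivity)
      _ = (∫⁻ y, ‖K' y‖ₑ ∂vol d) * (∫⁻ y, ‖f' y‖ₑ ^ r ∂vol d) ^ (1 / r) := by
          rw [ENNReal.mul_rpow_of_nonneg _ _ (by positivity), ← ENNReal.rpow_mul,
            mul_one_div_cancel hr0.ne', ENNReal.rpow_one]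
  refine ⟨g, ⟨hgm.aestronglyMeasurable, ?_⟩, hmain, ?_⟩
  · refine lt_of_le_of_lt hmain ?_
    exact ENNReal.mul_lt_top (memLp_one_iff_integrable.mpr hK).2 hf.2
  · intro k
    have hfK : fc K k = fc K' k := by
      unfold fc
      apply integral_congr_ae
      filter_upwards [hKe] with x hx
      rw [hx]
    have hff : fc f k = fc f' k := by
      unfold fc
      apply integral_congr_ae
      filter_upwards [hfe] with x hx
      rw [hx]
    rw [hfK, hff]
    -- the integrable function on the product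
    set Φ : T d × T d → ℂ := fun z => (mFourier (-k) z.1 * (K' z.1 : ℂ)) *
      (mFourier (-k) z.2 * (f' z.2 : ℂ)) with hΦ
    have hmF : Measurable (fun x : T d => mFourier (-k) x) := (mFourier (-k)).continuous.measurable
    have h1 : Integrable (fun x : T d => mFourier (-k) x * (K' x : ℂ)) (vol d) := by
      apply hKi.ofReal.bdd_mul (c := 1) hmF.aestronglyMeasurable
      exact Filter.Eventually.of_forall fun x => mF_bdd _ x
    have h2 : Integrable (fun x : T d => mFourier (-k) x * (f' x : ℂ)) (vol d) := by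
      apply hfi.ofReal.bdd_mul (c := 1) hmF.aestronglyMeasurable
      exact Filter.Eventually.of_forall fun x => mF_bdd _ x
    have hΦi : Integrable Φ ((vol d).prod (vol d)) := h1.mul_prod h2
    have hmp : MeasurePreserving (fun z : T d × T d => (z.1 - z.2, z.2))
        ((vol d).prod (vol d)) ((vol d).prod (vol d)) := measurePreserving_sub_prod _ _
    have hΨi : Integrable (fun z : T d × T d => Φ (z.1 - z.2, z.2)) ((vol d).prod (vol d)) :=
      hmp.integrable_comp_of_integrable hΦi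
    have e1 : fc K' k * fc f' k = ∫ z, Φ z ∂((vol d).prod (vol d)) := by
      unfold fc
      rw [hΦ]
      exact (integral_prod_mul (fun x : T d => mFourier (-k) x * (K' x : ℂ))
        (fun x : T d => mFourier (-k) x * (f' x : ℂ))).symm
    have e2 : ∫ z, Φ z ∂((vol d).prod (vol d)) =
        ∫ z : T d × T d, Φ (z.1 - z.2, z.2) ∂((vol d).prod (vol d)) := by
      conv_lhs => rw [← hmp.map_eq]
      rw [integral_map hmp.measurable.aemeasurable]
      rw [hmp.map_eq]
      exact hΦi.aestronglyMeasurable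
    rw [e1, e2, integral_prod _ hΨi]
    unfold fc
    apply integral_congr_ae
    refine Filter.Eventually.of_forall fun x => ?_
    simp only
    rw [hg]
    simp only
    have hof : ((∫ y, K' (x - y) * f' y ∂vol d : ℝ) : ℂ) =
        ∫ y, ((K' (x - y) * f' y : ℝ) : ℂ) ∂vol d := integral_ofReal.symm
    rw [hof, ← integral_const_mul]
    apply integral_congr_ae
    refine Filter.Eventually.of_forall fun y => ?_
    simp only [hΦ]
    have h3 : mFourier (-k) x = mFourier (-k) (x - y) * mFourier (-k) y := by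
      rw [← mF_add, sub_add_cancel]
    rw [h3]
    push_cast
    ring

end Pool.Agent.R763.PL
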